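import Pool.Agent.H976R2.SB.Asym

/-! From words to walks. -/

namespace Pool.Agent.H976R2.SB
open Finset

/-- `ω` is an `n`-step self-avoiding walk on `ℤ^d` started at the origin. -/
def IsSAW (d n : ℕ) (ω : Fin (n + 1) → Fin d → ℤ) : Prop :=
  ω 0 = 0 ∧ (∀ i : Fin n, ∑ k, |ω i.succ k - ω i.castSucc k| = 1) ∧ Function.Injective ω

/-- the path of a word -/
def path {d : ℕ} (n : ℕ) (w : ℕ → Letter d) : Fin (n + 1) → Fin d → ℤ :=
  fun i k => ht (zc k) w i

lemma zc_self {d : ℕ} (a : Letter d) : zc a.1 a = sg a.2 := by rw [zc_eq, if_pos rfl]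

lemma sg_ne (b : Bool) : sg b ≠ 0 := by cases b <;> simp [sg]

lemma sg_inj {b b' : Bool} (h : sg b = sg b') : b = b' := by
  cases b <;> cases b' <;> simp [sg] at h ⊢

lemma letter_ext {d : ℕ} {a a' : Letter d} (h : ∀ k, zc k a = zc k a') : a = a' := by
  have h1 := h a.1
  rw [zc_self, zc_eq] at h1
  by_cases h2 : a'.1 = a.1
  · rw [if_pos h2] at h1
    exact Prod.ext h2.symm (sg_inj h1)
  · rw [if_neg h2] at h1
    exact absurd h1 (sg_ne _)

lemma mem_Saws {d : ℕ} (a0 : Letter d) (n : ℕ) (w : ℕ → Letter d) :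
    w ∈ Saws d a0 n ↔ (∀ k, n ≤ k → w k = a0) ∧
      (∀ u v, u < v → v ≤ n → ∃ k, ht (zc k) w u ≠ ht (zc k) w v) := by
  classical
  unfold Saws
  simp only [Finset.mem_filter, Finset.mem_image, Finset.mem_univ, true_and]
  constructor
  · rintro ⟨⟨u, rfl⟩, h⟩
    exact ⟨fun k hk => by simp [Nat.not_lt.2 hk], fun u v h1 h2 => h u v (Nat.zero_le _) h1 h2⟩
  · rintro ⟨h1, h2⟩
    refine ⟨⟨fun i => w i, ?_⟩, fun u v _ h3 h4 => h2 u v h3 h4⟩
    funext k
    by_cases hk : k < n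
    · simp [hk]
    · simp [hk, h1 k (Nat.not_lt.1 hk)]

lemma path_injOn {d : ℕ} (a0 : Letter d) (n : ℕ) :
    Set.InjOn (path (d := d) n) (Saws d a0 n : Set (ℕ → Letter d)) := by
  intro w hw w' hw' h
  have h1 := ((mem_Saws a0 n w).1 hw).1
  have h2 := ((mem_Saws a0 n w').1 hw').1
  funext t
  by_cases ht' : t < n
  · refine letter_ext fun k => ?_
    have e1 := congrFun (congrFun h ⟨t, by omega⟩) k
    have e2 := congrFun (congrFun h ⟨t + 1, by omega⟩) k
    simp only [path] at e1 e2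
    rw [ht_succ, ht_succ, e1] at e2
    linarith
  · rw [h1 t (by omega), h2 t (by omega)]

lemma sum_zc {d : ℕ} (a : Letter d) : ∑ k, |zc k a| = 1 := by
  rw [Finset.sum_eq_single a.1]
  · rw [zc_self, sg_sq]
  · intro k _ hk
    rw [zc_eq, if_neg (Ne.symm hk)]; simp
  · simp

lemma path_isSAW {d : ℕ} (a0 : Letter d) (n : ℕ) {w : ℕ → Letter d} (hw : w ∈ Saws d a0 n) :
    IsSAW d n (path n w) := by
  have h2 := ((mem_Saws a0 n w).1 hw).2
  refine ⟨?_, ?_, ?_⟩
  · funext k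
    simp [path]
  · intro i
    have : ∀ k, path n w i.succ k - path n w i.castSucc k = zc k (w i) := by
      intro k
      simp only [path, Fin.val_succ, Fin.val_castSucc]
      rw [ht_succ]; ring
    simp only [this]
    exact sum_zc _
  · intro i j hij
    by_contra hne
    rcases lt_or_gt_of_ne hne with h | h
    · obtain ⟨k, hk⟩ := h2 i j h (by omega)
      exact hk (congrFun hij k)
    · obtain ⟨k, hk⟩ := h2 j i h (by omega)
      exact hk (congrFun hij k).symm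

/-- a vector of `ℓ¹` norm one is a letter -/
lemma exists_letter {d : ℕ} (v : Fin d → ℤ) (hv : ∑ k, |v k| = 1) : ∃ a : Letter d,
    ∀ k, zc k a = v k := by
  have h1 : ∃ k, v k ≠ 0 := by
    by_contra hc
    push Not at hc
    simp [hc] at hv
  obtain ⟨k0, hk0⟩ := h1
  have h2 : |v k0| + ∑ k ∈ Finset.univ.erase k0, |v k| = 1 := by
    rw [Finset.add_sum_erase Finset.univ (fun k => |v k|) (Finset.mem_univ k0)]; exact hv
  have h3 : 1 ≤ |v k0| := Int.one_le_abs hk0
  have h4 : 0 ≤ ∑ k ∈ Finset.univ.erase k0, |v k| := Finset.sum_nonneg fun k _ => abs_nonneg _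
  have h5 : ∑ k ∈ Finset.univ.erase k0, |v k| = 0 := by linarith
  have h6 : |v k0| = 1 := by linarith
  have h7 : ∀ k, k ≠ k0 → v k = 0 := by
    intro k hk
    have := (Finset.sum_eq_zero_iff_of_nonneg (fun k _ => abs_nonneg (v k))).1 h5 k
      (Finset.mem_erase.2 ⟨hk, Finset.mem_univ _⟩)
    exact abs_eq_zero.1 this
  refine ⟨(k0, decide (0 < v k0)), fun k => ?_⟩
  rw [zc_eq]
  by_cases hk : k = k0
  · subst hk
    rw [if_pos rfl]
    simp only [sg]
    rcases abs_eq (show (0 : ℤ) ≤ 1 by norm_num) |>.1 h6 with h | h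
    · simp [h]
    · simp [h]
  · rw [if_neg (fun h => hk h.symm), h7 k hk]

lemma exists_word {d : ℕ} (a0 : Letter d) (n : ℕ) {ω : Fin (n + 1) → Fin d → ℤ}
    (hω : IsSAW d n ω) : ∃ w ∈ Saws d a0 n, path n w = ω := by
  obtain ⟨h0, h1, h2⟩ := hω
  have hl : ∀ i : Fin n, ∃ a : Letter d, ∀ k, zc k a = ω i.succ k - ω i.castSucc k :=
    fun i => exists_letter _ (h1 i)
  choose f hf using hl
  set w : ℕ → Letter d := fun t => if h : t < n then f ⟨t, h⟩ else a0 with hw
  have hpath : ∀ t : ℕ, ∀ ht' : t < n + 1, ∀ k, ht (zc k) w t = ω ⟨t, ht'⟩ k := by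
    intro t
    induction t with
    | zero =>
      intro _ k
      have : ω 0 k = 0 := by rw [h0]; rfl
      simpa using this.symm
    | succ t ih =>
      intro ht' k
      rw [ht_succ, ih (by omega) k]
      have hwt : w t = f ⟨t, by omega⟩ := by rw [hw]; simp [show t < n by omega]
      rw [hwt, hf]
      simp
  have hp : path n w = ω := by
    funext i k
    exact hpath i i.isLt k
  refine ⟨w, (mem_Saws a0 n w).2 ⟨fun k hk => ?_, fun u v huv hv => ?_⟩, hp⟩
  · rw [hw]; simp [Nat.not_lt.2 hk]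
  · by_contra hc
    push Not at hc
    have e : ω ⟨u, by omega⟩ = ω ⟨v, by omega⟩ := by
      funext k
      rw [← hpath u (by omega) k, ← hpath v (by omega) k]
      exact hc k
    have := h2 e
    simp only [Fin.mk.injEq] at this
    omega

open Classical in
/-- counting walks through words -/
theorem ncard_walks {d : ℕ} (a0 : Letter d) (n : ℕ) (P : (Fin (n + 1) → Fin d → ℤ) → Prop) :
    {ω | IsSAW d n ω ∧ P ω}.ncard = #((Saws d a0 n).filter (fun w => P (path n w))) := by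
  have h : {ω | IsSAW d n ω ∧ P ω} =
      path n '' ((Saws d a0 n).filter (fun w => P (path n w)) : Set (ℕ → Letter d)) := by
    ext ω
    simp only [Set.mem_ofPred_eq, Set.mem_image, Finset.coe_filter]
    constructor
    · rintro ⟨h1, h2⟩
      obtain ⟨w, hw, rfl⟩ := exists_word a0 n h1
      exact ⟨w, ⟨hw, h2⟩, rfl⟩
    · rintro ⟨w, ⟨hw, h2⟩, rfl⟩
      exact ⟨path_isSAW a0 n hw, h2⟩
  rw [h, Set.InjOn.ncard_image, Set.ncard_coe_finset]
  exact (path_injOn a0 n).mono (by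
    intro w hw
    rw [Finset.mem_coe, Finset.mem_filter] at hw
    exact hw.1)

lemma ncard_saw {d : ℕ} (a0 : Letter d) (n : ℕ) :
    {ω | IsSAW d n ω}.ncard = #(Saws d a0 n) := by
  have := ncard_walks a0 n (fun _ => True)
  simpa using this

lemma finite_saw (d n : ℕ) (hd : 1 ≤ d) : {ω | IsSAW d n ω}.Finite := by
  have a0 : Letter d := (⟨0, by omega⟩, true)
  have h : {ω | IsSAW d n ω} ⊆ path n '' (Saws d a0 n : Set (ℕ → Letter d)) := by
    intro ω hω
    obtain ⟨w, hw, h⟩ := exists_word a0 n hω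
    exact ⟨w, hw, h⟩
  exact ((Saws d a0 n).finite_toSet.image _).subset h

/-- Quantitative sub-ballisticity, sup-norm version. -/
theorem walks_far (d : ℕ) (hd : 2 ≤ d) : ∃ c : ℝ, 0 < c ∧ ∀ ε : ℝ, 0 < ε →
    ∃ n0 : ℕ, ∀ n : ℕ, n0 ≤ n →
      ({ω | IsSAW d n ω ∧ ∃ i k, (n : ℝ) / (Real.log n) ^ c ≤ |(ω i k : ℝ)|}.ncard : ℝ) ≤
        Real.exp (-(n : ℝ) ^ (1 - ε)) * ({ω | IsSAW d n ω}.ncard : ℝ) := by
  classical
  obtain ⟨c, hc, h⟩ := main_words d hd
  refine ⟨c, hc, fun ε hε => ?_⟩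
  obtain ⟨n0, hn0⟩ := h ε hε
  refine ⟨n0, fun n hn => ?_⟩
  have a0 : Letter d := (⟨0, by omega⟩, true)
  rw [ncard_walks a0 n, ncard_saw a0 n]
  refine le_trans ?_ (hn0 n hn a0)
  have hsub : (Saws d a0 n).filter (fun w => ∃ i k, (n : ℝ) / (Real.log n) ^ c ≤
      |(path n w i k : ℝ)|) ⊆ farW d a0 n ((Real.log n) ^ c) := by
    intro w hw
    rw [mem_filter] at hw
    obtain ⟨hw1, i, k, hik⟩ := hw
    rw [farW, mem_filter]
    refine ⟨hw1, i, by omega, k, ?_⟩
    push_cast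
    exact hik
  exact_mod_cast card_le_card hsub

/-- squared Euclidean norm -/
def nsq {d : ℕ} (v : Fin d → ℤ) : ℝ := ∑ k, ((v k : ℤ) : ℝ) ^ 2

/-- number of self-avoiding walks in an event -/
noncomputable def num (d n : ℕ) (E : (Fin (n + 1) → Fin d → ℤ) → Prop) : ℝ :=
  ({ω | IsSAW d n ω ∧ E ω}.ncard : ℝ)

/-- Quantitative sub-ballisticity, Euclidean version. -/
theorem walks_far_euclid (d : ℕ) (hd : 2 ≤ d) : ∃ c : ℝ, 0 < c ∧ ∀ ε : ℝ, 0 < ε →
    ∃ n0 : ℕ, ∀ n : ℕ, n0 ≤ n →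
      num d n (fun ω => ∃ i, (n : ℝ) / (Real.log n) ^ c ≤ Real.sqrt (nsq (ω i))) ≤
        Real.exp (-(n : ℝ) ^ (1 - ε)) * num d n (fun _ => True) := by
  obtain ⟨c, hc, h⟩ := walks_far d hd
  refine ⟨c / 2, by positivity, fun ε hε => ?_⟩
  obtain ⟨n0, hn0⟩ := h ε hε
  have hlogn : Filter.Tendsto (fun n : ℕ => Real.log (n : ℝ)) Filter.atTop Filter.atTop :=
    Real.tendsto_log_atTop.comp tendsto_natCast_atTop_atTop
  have h1 := ((tendsto_rpow_atTop (show (0 : ℝ) < c / 2 by positivity)).comp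
    hlogn).eventually_ge_atTop (Real.sqrt d)
  have h2 := hlogn.eventually_ge_atTop 1
  obtain ⟨n1, hn1⟩ := Filter.eventually_atTop.1 (h1.and h2)
  refine ⟨max n0 n1, fun n hn => ?_⟩
  obtain ⟨g1, g2⟩ := hn1 n ((le_max_right _ _).trans hn)
  have g3 := hn0 n ((le_max_left _ _).trans hn)
  simp only [Function.comp] at g1
  have hL0 : (0 : ℝ) < Real.log n := by linarith
  have hd0 : (0 : ℝ) < d := by exact_mod_cast (by omega : 0 < d)
  have hn0' : (0 : ℝ) ≤ n := by positivity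
  have hall : num d n (fun _ => True) = ({ω | IsSAW d n ω}.ncard : ℝ) := by
    unfold num; simp
  rw [hall]
  refine le_trans ?_ g3
  unfold num
  have hfin : {ω | IsSAW d n ω ∧ ∃ i k, (n : ℝ) / (Real.log n) ^ c ≤ |(ω i k : ℝ)|}.Finite :=
    (finite_saw d n (by omega)).subset fun ω h => h.1
  have hsub : {ω | IsSAW d n ω ∧ ∃ i, (n : ℝ) / (Real.log n) ^ (c / 2) ≤
      Real.sqrt (nsq (ω i))} ⊆
      {ω | IsSAW d n ω ∧ ∃ i k, (n : ℝ) / (Real.log n) ^ c ≤ |(ω i k : ℝ)|} := by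
    rintro ω ⟨hω, i, hi⟩
    refine ⟨hω, i, ?_⟩
    by_contra hcon
    push Not at hcon
    set B : ℝ := (n : ℝ) / (Real.log n) ^ c with hB
    have hB0 : 0 ≤ B := by positivity
    have e1 : nsq (ω i) < d * B ^ 2 := by
      unfold nsq
      have hne : (Finset.univ : Finset (Fin d)).Nonempty := ⟨⟨0, by omega⟩, Finset.mem_univ _⟩
      calc ∑ k, ((ω i k : ℤ) : ℝ) ^ 2 < ∑ _k : Fin d, B ^ 2 := by
            apply Finset.sum_lt_sum_of_nonempty hne
            intro k _
            rw [← sq_abs]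
            have := hcon k
            have h0 : 0 ≤ |((ω i k : ℤ) : ℝ)| := abs_nonneg _
            nlinarith
        _ = d * B ^ 2 := by simp
    have e2 : Real.sqrt (nsq (ω i)) < Real.sqrt d * B := by
      rw [show Real.sqrt d * B = Real.sqrt (d * B ^ 2) by
        rw [Real.sqrt_mul hd0.le, Real.sqrt_sq hB0]]
      exact Real.sqrt_lt_sqrt (Finset.sum_nonneg fun k _ => sq_nonneg _) e1
    have e3 : Real.sqrt d * B ≤ (n : ℝ) / (Real.log n) ^ (c / 2) := by
      rw [hB, show c = c / 2 + c / 2 by ring, Real.rpow_add hL0]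
      rw [show c / 2 + c / 2 = c by ring]
      rw [mul_div_assoc', div_le_div_iff₀ (by positivity) (by positivity)]
      calc Real.sqrt d * n * (Real.log n) ^ (c / 2)
          ≤ (Real.log n) ^ (c / 2) * n * (Real.log n) ^ (c / 2) := by gcongr
        _ = n * ((Real.log n) ^ (c / 2) * (Real.log n) ^ (c / 2)) := by ring
    linarith
  exact_mod_cast Set.ncard_le_ncard hsub hfin

end Pool.Agent.H976R2.SB
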