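import Pool.Agent.H976R2.SB.Basic

/-! Task A1: unfolding at scale `S`. -/

namespace Pool.Agent.H976R2.SB

namespace TA1
open Finset

variable {A : Type} {d : ℕ}

open Classical in
/-- fold without cut-off -/
noncomputable def fa (Y : Sys A d) (F : Finset ℕ) (w : ℕ → A) : ℕ → A :=
  fun t => if Odd (#(F.filter (fun f => f ≤ t))) then Y.U (w t) else w t

/-- the induction hypothesis -/
structure Inv (Y : Sys A d) (w : ℕ → A) (N S : ℕ) (F : Finset ℕ) (e : ℕ) : Prop where
  saw : SawOn Y (fa Y F w) 0 N
  mono : ∀ u v, u ≤ v → v ≤ N → ht Y.l (fa Y F w) u < ht Y.l (fa Y F w) v + S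
  eN : e ≤ N
  lar : ∀ t, t ≤ N → ht Y.l (fa Y F w) t ≤ ht Y.l (fa Y F w) e
  last : ∀ t, e < t → t ≤ N → ht Y.l (fa Y F w) t < ht Y.l (fa Y F w) e
  past : ∀ f ∈ F, ∀ t, t ≤ f → ht Y.l (fa Y F w) t ≤ ht Y.l (fa Y F w) f
  fut : ∀ f ∈ F, ∀ t, f < t → t ≤ N → ht Y.l (fa Y F w) f < ht Y.l (fa Y F w) t
  reach : ∀ f ∈ F, ∃ r, f < r ∧ r ≤ N ∧ ht Y.l (fa Y F w) f + S ≤ ht Y.l (fa Y F w) r
  gap : ∀ f ∈ F, ∀ f' ∈ F, f < f' → ht Y.l (fa Y F w) f + S ≤ ht Y.l (fa Y F w) f'
  card : (#F * S : ℤ) ≤ ht Y.l (fa Y F w) e

variable (Y : Sys A d)

/-- after the last fold the orientation is constant -/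
lemma fa_const (F : Finset ℕ) (w : ℕ → A) (m : ℕ) (hm : ∀ f ∈ F, f ≤ m) :
    (∀ t, m ≤ t → fa Y F w t = w t) ∨ (∀ t, m ≤ t → fa Y F w t = Y.U (w t)) := by
  classical
  have h : ∀ t, m ≤ t → F.filter (fun f => f ≤ t) = F := by
    intro t ht
    refine Finset.filter_true_of_mem fun f hf => (hm f hf).trans ht
  by_cases ho : Odd (#F)
  · right
    intro t ht
    unfold fa
    rw [h t ht, if_pos ho]
  · left
    intro t ht
    unfold fa
    rw [h t ht, if_neg ho]

lemma fa_saw_tail {w : ℕ → A} {n : ℕ} (hw : Saw Y n w) (F : Finset ℕ) (m N : ℕ) (hN : N ≤ n)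
    (hm : ∀ f ∈ F, f ≤ m) : SawOn Y (fa Y F w) m N := by
  have h0 : SawOn Y w m N := SawOn.mono Y hw (Nat.zero_le m) hN
  rcases fa_const Y F w m hm with h | h
  · exact SawOn.congr Y h0 fun t h1 _ => h t h1
  · exact SawOn.mapU Y h0 fun t h1 _ => h t h1

lemma fa_insert_lt (F : Finset ℕ) (w : ℕ → A) (e t : ℕ) (ht : t < e) :
    fa Y (insert e F) w t = fa Y F w t := by
  classical
  unfold fa
  have h : (insert e F).filter (fun f => f ≤ t) = F.filter (fun f => f ≤ t) := by
    rw [Finset.filter_insert, if_neg (by omega)]
  rw [h]

lemma fa_insert_ge (F : Finset ℕ) (w : ℕ → A) (e t : ℕ) (he : e ∉ F) (ht : e ≤ t) :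
    fa Y (insert e F) w t = Y.U (fa Y F w t) := by
  classical
  unfold fa
  have h : #((insert e F).filter (fun f => f ≤ t)) = #(F.filter (fun f => f ≤ t)) + 1 := by
    rw [Finset.filter_insert, if_pos ht, Finset.card_insert_of_notMem
      (fun h => he (Finset.mem_filter.mp h).1)]
  rw [h]
  by_cases ho : Odd (#(F.filter (fun f => f ≤ t)))
  · rw [if_pos ho, if_neg (by
      rw [Nat.not_odd_iff_even]
      exact ho.add_one), Y.U_U]
  · rw [if_neg ho, if_pos (by
      rw [Nat.not_odd_iff_even] at ho
      exact ho.add_one)]

/-- one step -/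
lemma step {w : ℕ → A} {n N S : ℕ} (hS : 1 ≤ S) (hw : Saw Y n w) (hN : N + 1 ≤ n)
    {F : Finset ℕ} {e : ℕ} (H : Inv Y w N S F e) : ∃ F' e', Inv Y w (N + 1) S F' e' := by
  classical
  obtain ⟨saw, mono, eN, lar, last, past, fut, reach, gap, card⟩ := H
  set g : ℕ → ℤ := ht Y.l (fa Y F w) with hg
  have hS' : (1 : ℤ) ≤ S := by exact_mod_cast hS
  -- (5)
  have hfe : ∀ f ∈ F, g f + S ≤ g e := by
    intro f hf
    obtain ⟨r, _, hr2, hr3⟩ := reach f hf
    exact hr3.trans (lar r hr2)
  have hlt : ∀ f ∈ F, f < e := by
    intro f hf
    by_contra hcon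
    have h1 := past f hf e (by omega)
    have h2 := hfe f hf
    linarith
  have heN := mono e N eN le_rfl
  have hst := ht_step Y.l_le (fa Y F w) N
  rw [← hg] at hst
  rcases lt_or_ge (g e - S) (g (N + 1)) with hI | hII
  · -- Case I
    refine ⟨F, if g e ≤ g (N + 1) then N + 1 else e, ?_⟩
    have hmono : ∀ u v, u ≤ v → v ≤ N + 1 → g u < g v + S := by
      intro u v huv hv
      rcases Nat.lt_or_ge N v with h | h
      · have hv' : v = N + 1 := by omega
        subst hv'
        rcases Nat.lt_or_ge N u with h2 | h2
        · have : u = N + 1 := by omega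
          subst this
          linarith
        · have := lar u h2
          linarith
      · exact mono u v huv h
    have hfut : ∀ f ∈ F, ∀ t, f < t → t ≤ N + 1 → g f < g t := by
      intro f hf t h1 h2
      rcases Nat.lt_or_ge N t with h | h
      · have : t = N + 1 := by omega
        subst this
        have := hfe f hf
        linarith
      · exact fut f hf t h1 h
    have hsaw : SawOn Y (fa Y F w) 0 (N + 1) := by
      rcases F.eq_empty_or_nonempty with hF | hF
      · exact fa_saw_tail Y hw F 0 (N + 1) hN (by rw [hF]; intro f hf; simp at hf)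
      · set m := F.max' hF with hm
        have hmF : m ∈ F := Finset.max'_mem F hF
        have hm1 : ∀ f ∈ F, f ≤ m := fun f hf => Finset.le_max' F f hf
        have hme : m < e := hlt m hmF
        refine SawOn.glue Y (t := m) (SawOn.mono Y saw le_rfl (by omega))
          (fa_saw_tail Y hw F m (N + 1) hN hm1) ?_
        intro u v _ hu2 hv1 hv2
        have h1 := past m hmF u hu2.le
        have h2 := hfut m hmF v hv1 hv2
        intro hc
        change g u = g v at hc
        linarith
    have hge : ∀ t, t ≤ N + 1 → g t ≤ g (if g e ≤ g (N + 1) then N + 1 else e) := by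
      intro t ht
      split_ifs with hc
      · rcases Nat.lt_or_ge N t with h | h
        · have : t = N + 1 := by omega
          subst this; exact le_rfl
        · exact (lar t h).trans hc
      · rcases Nat.lt_or_ge N t with h | h
        · have : t = N + 1 := by omega
          subst this; linarith
        · exact lar t h
    refine ⟨hsaw, hmono, ?_, hge, ?_, past, hfut, ?_, gap, ?_⟩
    · split_ifs <;> omega
    · intro t h1 h2
      split_ifs at h1 ⊢ with hc
      · omega
      · rcases Nat.lt_or_ge N t with h | h
        · have : t = N + 1 := by omega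
          subst this
          change g (N + 1) < g e
          linarith
        · exact last t h1 h
    · intro f hf
      obtain ⟨r, hr1, hr2, hr3⟩ := reach f hf
      exact ⟨r, hr1, by omega, hr3⟩
    · exact card.trans (hge e (by omega))
  · -- Case II
    have heF : e ∉ F := fun h => lt_irrefl e (hlt e h)
    set F' := insert e F with hF'
    set g' : ℕ → ℤ := ht Y.l (fa Y F' w) with hg'
    have hgN : g (N + 1) = g e - S := by
      have := hst.2
      omega
    have e1 : ∀ t, t ≤ e → g' t = g t := by
      intro t ht'
      exact ht_congr fun s hs => fa_insert_lt Y F w e s (by omega)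
    have e2 : ∀ t, e ≤ t → g' t = 2 * g e - g t := by
      intro t ht'
      have h1 := incr_l_U Y (w := fa Y F w) (w' := fa Y F' w) ht'
        (fun s hs1 _ => fa_insert_ge Y F w e s heF hs1)
      have h2 := e1 e le_rfl
      unfold incr at h1
      change g' t - g' e = -(g t - g e) at h1
      linarith
    have hlow : ∀ t, e < t → t ≤ N + 1 → g e < g' t := by
      intro t h1 h2
      rw [e2 t h1.le]
      rcases Nat.lt_or_ge N t with h | h
      · have : t = N + 1 := by omega
        subst this
        linarith
      · have := last t h1 h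
        change g t < g e at this
        linarith
    have hgN' : g' (N + 1) = g e + S := by
      rw [e2 _ (by omega), hgN]; ring
    have hup : ∀ t, t ≤ N → g' t < g e + S := by
      intro t h1
      rcases le_total t e with h | h
      · rw [e1 t h]
        have := lar t h1
        linarith
      · rw [e2 t h]
        have := mono e t h h1
        change g e < g t + S at this
        linarith
    refine ⟨F', N + 1, ?_, ?_, le_rfl, ?_, ?_, ?_, ?_, ?_, ?_, ?_⟩
    · -- saw
      refine SawOn.glue Y (t := e) ?_ (fa_saw_tail Y hw F' e (N + 1) hN ?_) ?_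
      · exact SawOn.congr Y (SawOn.mono Y saw le_rfl eN) fun t _ h2 => fa_insert_lt Y F w e t h2
      · intro f hf
        rcases Finset.mem_insert.mp hf with rfl | hf
        · exact le_rfl
        · exact (hlt f hf).le
      · intro u v _ hu2 hv1 hv2 hc
        change g' u = g' v at hc
        rw [e1 u hu2.le] at hc
        have h1 := lar u (by omega)
        have h2 := hlow v hv1 hv2
        linarith
    · -- mono
      intro u v huv hv
      change g' u < g' v + S
      rcases le_total v e with h | h
      · rw [e1 v h, e1 u (huv.trans h)]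
        exact mono u v huv (h.trans eN)
      · rcases le_total u e with h2 | h2
        · rcases Nat.eq_or_lt_of_le h with h3 | h3
          · subst h3
            rw [e1 u h2, e1 _ le_rfl]
            exact mono u e h2 eN
          · have h4 := hlow v h3 hv
            rw [e1 u h2]
            have := lar u (h2.trans eN)
            linarith
        · rcases Nat.lt_or_ge N v with h3 | h3
          · have hv' : v = N + 1 := by omega
            subst hv'
            rw [hgN']
            rcases Nat.lt_or_ge N u with h4 | h4
            · have : u = N + 1 := by omega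
              subst this
              rw [hgN']; linarith
            · have := hup u h4
              linarith
          · rw [e2 u h2, e2 v h]
            have h4 := mono e u h2 (huv.trans h3)
            change g e < g u + S at h4
            rcases Nat.eq_or_lt_of_le h with h5 | h5
            · have : u = v := by omega
              subst this
              linarith
            · have h6 := last v h5 h3
              change g v < g e at h6
              linarith
    · -- lar
      intro t ht'
      change g' t ≤ g' (N + 1)
      rw [hgN']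
      rcases Nat.lt_or_ge N t with h3 | h3
      · have : t = N + 1 := by omega
        subst this
        rw [hgN']
      · exact (hup t h3).le
    · intro t h1 h2
      omega
    · -- past
      intro f hf t ht'
      change g' t ≤ g' f
      rcases Finset.mem_insert.mp hf with rfl | hf
      · rw [e1 t ht', e1 _ le_rfl]
        exact lar t (ht'.trans eN)
      · have := hlt f hf
        rw [e1 t (by omega), e1 f (by omega)]
        exact past f hf t ht'
    · -- fut
      intro f hf t h1 h2
      change g' f < g' t
      rcases Finset.mem_insert.mp hf with rfl | hf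
      · rw [e1 _ le_rfl]
        exact hlow t h1 h2
      · have h3 := hlt f hf
        have h4 := hfe f hf
        rw [e1 f (by omega)]
        rcases le_or_gt t e with h5 | h5
        · rw [e1 t h5]
          exact fut f hf t h1 (h5.trans eN)
        · have := hlow t h5 h2
          linarith
    · -- reach
      intro f hf
      rcases Finset.mem_insert.mp hf with rfl | hf
      · refine ⟨N + 1, by omega, le_rfl, ?_⟩
        change g' f + S ≤ g' (N + 1)
        rw [hgN', e1 _ le_rfl]
      · have h3 := hlt f hf
        have h4 := hfe f hf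
        refine ⟨N + 1, by omega, le_rfl, ?_⟩
        change g' f + S ≤ g' (N + 1)
        rw [hgN', e1 f (by omega)]
        linarith
    · -- gap
      intro f hf f' hf' hff'
      change g' f + S ≤ g' f'
      rcases Finset.mem_insert.mp hf with h1 | h1
      · rcases Finset.mem_insert.mp hf' with h2 | h2
        · omega
        · have := hlt f' h2
          omega
      · have h3 := hlt f h1
        rcases Finset.mem_insert.mp hf' with h2 | h2
        · rw [h2, e1 _ le_rfl, e1 f (by omega)]
          exact hfe f h1
        · have h4 := hlt f' h2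
          rw [e1 f (by omega), e1 f' (by omega)]
          exact gap f h1 f' h2 hff'
    · -- card
      change ((#F' : ℤ) * S) ≤ g' (N + 1)
      rw [hgN', hF', Finset.card_insert_of_notMem heF]
      push_cast
      have : (#F : ℤ) * S ≤ g e := card
      linarith

lemma exists_inv {w : ℕ → A} {n S : ℕ} (hS : 1 ≤ S) (hw : Saw Y n w) :
    ∀ N, N ≤ n → ∃ F e, Inv Y w N S F e := by
  intro N
  induction N with
  | zero =>
    intro _
    refine ⟨∅, 0, ?_, ?_, le_rfl, ?_, ?_, ?_, ?_, ?_, ?_, ?_⟩
    · intro u v _ h2 h3; omega
    · intro u v h1 h2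
      have hv : v = 0 := by omega
      have hu : u = 0 := by omega
      subst hv; subst hu
      have : (1 : ℤ) ≤ S := by exact_mod_cast hS
      linarith
    · intro t ht'
      have : t = 0 := by omega
      subst this; exact le_rfl
    · intro t h1 h2; omega
    · intro f hf; simp at hf
    · intro f hf; simp at hf
    · intro f hf; simp at hf
    · intro f hf; simp at hf
    · simp
  | succ N ih =>
    intro hN
    obtain ⟨F, e, H⟩ := ih (by omega)
    exact step Y hS hw hN H

end TA1

open TA1 Finset

variable {A : Type} {d : ℕ}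

/-- TASK A1 -/
theorem exists_unfold (Y : Sys A d) {n S : ℕ} (hS : 1 ≤ S) {w : ℕ → A} (hw : Saw Y n w) :
    ∃ F : Finset ℕ, Unfolded Y n S w F := by
  classical
  obtain ⟨F, e, H⟩ := exists_inv Y hS hw n le_rfl
  refine ⟨F, ?_⟩
  have hfold : ∀ t, t < n → fold Y n F w t = fa Y F w t := by
    intro t ht'
    unfold fold fa
    simp [ht']
  have hht : ∀ t, t ≤ n → ht Y.l (fold Y n F w) t = ht Y.l (fa Y F w) t := by
    intro t ht'
    exact ht_congr fun s hs => hfold s (by omega)
  have hlt : ∀ f ∈ F, f < n := by
    intro f hf
    obtain ⟨r, h1, h2, _⟩ := H.reach f hf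
    omega
  refine ⟨hlt, ?_, ?_, ?_, ?_, ?_, ?_, ?_⟩
  · -- card
    have h1 := H.card
    have h2 : ht Y.l (fa Y F w) e ≤ e := by
      have := abs_incr_le Y.l_le (fa Y F w) (Nat.zero_le e)
      rw [incr, ht_zero, sub_zero] at this
      have := (abs_le.mp this).2
      push_cast at this
      linarith
    have h3 := H.eN
    have : ((#F * S : ℕ) : ℤ) ≤ (n : ℕ) := by
      push_cast
      have : (e : ℤ) ≤ n := by exact_mod_cast h3
      linarith
    exact_mod_cast this
  · exact SawOn.congr Y H.saw fun t _ h2 => hfold t h2
  · intro u v _ h2 h3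
    rw [hht u (by omega), hht v h3]
    exact H.mono u v h2 h3
  · intro f hf t h1
    have := hlt f hf
    rw [hht f (by omega), hht t (by omega)]
    exact H.past f hf t h1
  · intro f hf t h1 h2
    have := hlt f hf
    rw [hht f (by omega), hht t h2]
    exact H.fut f hf t h1 h2
  · intro f hf
    obtain ⟨r, h1, h2, h3⟩ := H.reach f hf
    have := hlt f hf
    refine ⟨r, h1, h2, ?_⟩
    rw [hht f (by omega), hht r h2]
    exact h3
  · intro f hf f' hf' h1
    have h2 := hlt f hf
    have h3 := hlt f' hf'
    rw [hht f (by omega), hht f' (by omega)]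
    exact H.gap f hf f' hf' h1

end Pool.Agent.H976R2.SB
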