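import Pool.Agent.H976R2.SB.Basic

/-! Task A2: stretches of the unfolded walk that are left intact. -/

namespace Pool.Agent.H976R2.SB
open Finset

variable {A : Type} {d : ℕ}

namespace TA2

/-- number of folds up to time `t` -/
def cnt (F : Finset ℕ) (t : ℕ) : ℕ := #(F.filter (fun f => f ≤ t))

lemma cnt_congr {F : Finset ℕ} {u t : ℕ} (hut : u ≤ t)
    (h : ∀ f ∈ F, u < f → ¬ f ≤ t) : cnt F t = cnt F u := by
  unfold cnt
  congr 1
  ext f
  simp only [Finset.mem_filter]
  constructor
  · rintro ⟨h1, h2⟩
    refine ⟨h1, ?_⟩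
    by_contra h3
    exact h f h1 (by omega) h2
  · rintro ⟨h1, h2⟩
    exact ⟨h1, by omega⟩

lemma fold_odd (Y : Sys A d) {n t : ℕ} {F : Finset ℕ} (w : ℕ → A) (ht : t < n)
    (h : Odd (cnt F t)) : fold Y n F w t = Y.U (w t) := by
  unfold fold
  rw [if_pos]
  exact ⟨ht, h⟩

lemma fold_even (Y : Sys A d) {n t : ℕ} {F : Finset ℕ} (w : ℕ → A)
    (h : ¬ Odd (cnt F t)) : fold Y n F w t = w t := by
  unfold fold
  rw [if_neg]
  rintro ⟨-, h2⟩
  exact h h2

lemma incr_odd (Y : Sys A d) {n u v : ℕ} {F : Finset ℕ} (w : ℕ → A) (huv : u ≤ v) (hv : v ≤ n)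
    (hF : ∀ f ∈ F, u < f → ¬ f < v) (h : Odd (cnt F u)) :
    ht Y.l (fold Y n F w) v - ht Y.l (fold Y n F w) u = -(ht Y.l w v - ht Y.l w u) := by
  have := incr_l_U Y (w := w) (w' := fold Y n F w) huv (fun t h1 h2 => by
    apply fold_odd Y w (by omega)
    rw [cnt_congr h1 (fun f hf h3 h4 => hF f hf h3 (by omega))]
    exact h)
  simpa [incr] using this

lemma incr_even (Y : Sys A d) {n u v : ℕ} {F : Finset ℕ} (w : ℕ → A) (huv : u ≤ v)
    (hF : ∀ f ∈ F, u < f → ¬ f < v) (h : ¬ Odd (cnt F u)) :
    ht Y.l (fold Y n F w) v - ht Y.l (fold Y n F w) u = ht Y.l w v - ht Y.l w u := by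
  have := incr_congr (f := Y.l) (w := w) (w' := fold Y n F w) huv (fun t h1 h2 => by
    apply fold_even Y w
    rw [cnt_congr h1 (fun f hf h3 h4 => hF f hf h3 (by omega))]
    exact h)
  simpa [incr] using this

end TA2

open TA2

/-- TASK A2 (second statement) : the word is recovered from its unfolding and the fold set -/
theorem fold_fold (Y : Sys A d) (n : ℕ) (F : Finset ℕ) (w : ℕ → A) :
    fold Y n F (fold Y n F w) = w := by
  funext t
  unfold fold
  by_cases h : t < n ∧ Odd (#(F.filter (fun f => f ≤ t)))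
  · simp only [if_pos h, Y.U_U]
  · simp only [if_neg h]

/-- TASK A2 -/
theorem intact (Y : Sys A d) {n S : ℕ} (hS : 1 ≤ S) {w : ℕ → A} {F : Finset ℕ}
    (h : Unfolded Y n S w F) {P p q Q : ℕ} (hPp : P ≤ p) (hpq : p ≤ q) (hqQ : q ≤ Q) (hQ : Q ≤ n)
    (hmono : MonoOn Y w S P Q)
    (h1 : ht Y.l w P + 2 * S ≤ ht Y.l w p) (h2 : ht Y.l w p + 2 * S ≤ ht Y.l w q)
    (h3 : ht Y.l w q + 2 * S ≤ ht Y.l w Q) :
    ∀ t, p ≤ t → t < q → fold Y n F w t = w t := by
  have hS' : (1 : ℤ) ≤ (S : ℤ) := by exact_mod_cast hS
  -- step 1 : no fold in (p,q)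
  have key : ∀ f ∈ F, p < f → ¬ f < q := by
    intro f hf hpf hfq
    by_cases hodd : Odd (cnt F f)
    · -- the orientation is odd after f
      have hex : ∃ r, f < r ∧ r ≤ n ∧
          ht Y.l (fold Y n F w) f + S ≤ ht Y.l (fold Y n F w) r := h.reach f hf
      classical
      obtain ⟨hr1, hr2, hr3⟩ := Nat.find_spec hex
      have hmin : ∀ m, m < Nat.find hex → ¬ (f < m ∧ m ≤ n ∧
          ht Y.l (fold Y n F w) f + S ≤ ht Y.l (fold Y n F w) m) := fun m hm =>
        Nat.find_min hex hm
      obtain ⟨r, hr⟩ : ∃ r, r = Nat.find hex := ⟨_, rfl⟩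
      rw [← hr] at hr1 hr2 hr3 hmin
      have hlt : ∀ m, f ≤ m → m < r →
          ht Y.l (fold Y n F w) m < ht Y.l (fold Y n F w) f + S := by
        intro m hm1 hm2
        rcases Nat.eq_or_lt_of_le hm1 with rfl | hm3
        · linarith
        · by_contra hc
          exact hmin m hm2 ⟨hm3, by omega, by linarith⟩
      have hreq : ht Y.l (fold Y n F w) r = ht Y.l (fold Y n F w) f + S := by
        obtain ⟨r', rfl⟩ : ∃ r', r = r' + 1 := ⟨r - 1, by omega⟩
        have := hlt r' (by omega) (by omega)
        have := (ht_step Y.l_le (fold Y n F w) r').1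
        linarith
      have hno : ∀ f' ∈ F, f < f' → ¬ f' < r := by
        intro f' hf' h4 h5
        have := h.gap f hf f' hf' h4
        have := hlt f' h4.le h5
        linarith
      by_cases hrQ : r ≤ Q
      · have e1 := incr_odd Y (n := n) w hr1.le hr2 hno hodd
        have e2 := hmono f r (by omega) hr1.le hrQ
        linarith
      · have e1 := incr_odd Y (n := n) w (show f ≤ Q by omega) hQ
          (fun f' hf' h4 h5 => hno f' hf' h4 (by omega)) hodd
        have e2 := h.fut f hf Q (by omega) hQ
        have e3 := hmono f q (by omega) hfq.le hqQ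
        linarith
    · -- the orientation is odd before f
      have hcard : cnt F f = #(F.filter (fun f' => f' < f)) + 1 := by
        unfold cnt
        have : F.filter (fun f' => f' ≤ f) = insert f (F.filter (fun f' => f' < f)) := by
          ext a
          simp only [Finset.mem_filter, Finset.mem_insert]
          constructor
          · rintro ⟨h4, h5⟩
            rcases Nat.eq_or_lt_of_le h5 with h6 | h6
            · exact Or.inl h6
            · exact Or.inr ⟨h4, h6⟩
          · rintro (h4 | ⟨h4, h5⟩)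
            · subst h4
              exact ⟨hf, le_rfl⟩
            · exact ⟨h4, h5.le⟩
        rw [this, Finset.card_insert_of_notMem]
        simp
      have hodd' : Odd (#(F.filter (fun f' => f' < f))) := by
        rw [hcard, Nat.odd_add_one, not_not] at hodd
        exact hodd
      have hne : (F.filter (fun f' => f' < f)).Nonempty := by
        rw [← Finset.card_pos]
        exact hodd'.pos
      obtain ⟨g, hgm, hgmax⟩ : ∃ g ∈ F.filter (fun f' => f' < f),
          ∀ x ∈ F.filter (fun f' => f' < f), x ≤ g :=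
        ⟨_, Finset.max'_mem _ hne, fun x hx => Finset.le_max' _ x hx⟩
      rw [Finset.mem_filter] at hgm
      have hno : ∀ f' ∈ F, g < f' → ¬ f' < f := by
        intro f' hf' h4 h5
        have := hgmax f' (Finset.mem_filter.2 ⟨hf', h5⟩)
        omega
      have hgodd : Odd (cnt F g) := by
        have : F.filter (fun f' => f' ≤ g) = F.filter (fun f' => f' < f) := by
          ext a
          simp only [Finset.mem_filter]
          constructor
          · rintro ⟨h4, h5⟩
            exact ⟨h4, by omega⟩
          · rintro ⟨h4, h5⟩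
            exact ⟨h4, hgmax a (Finset.mem_filter.2 ⟨h4, h5⟩)⟩
        unfold cnt
        rw [this]
        exact hodd'
      by_cases hgP : P ≤ g
      · have e1 := incr_odd Y (n := n) w hgm.2.le (by omega) hno hgodd
        have e2 := h.gap g hgm.1 f hf hgm.2
        have e3 := hmono g f hgP hgm.2.le (by omega)
        linarith
      · have hPodd : Odd (cnt F P) := by
          rw [cnt_congr (u := g) (by omega) (fun f' hf' h4 h5 => hno f' hf' h4 (by omega))]
          exact hgodd
        have e1 := incr_odd Y (n := n) w (show P ≤ f by omega) (by omega)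
          (fun f' hf' h4 h5 => hno f' hf' (by omega) h5) hPodd
        have e2 := h.past f hf P (by omega)
        have e3 := hmono p f hPp hpf.le (by omega)
        linarith
  -- step 2
  intro t ht1 ht2
  have hev : ¬ Odd (cnt F p) := by
    intro hodd
    have e1 := incr_odd Y (n := n) w hpq (by omega) key hodd
    have e2 := h.mono p q (Nat.zero_le _) hpq (by omega)
    linarith
  apply fold_even Y w
  rw [cnt_congr ht1 (fun f hf h4 h5 => key f hf h4 (by omega))]
  exact hev

end Pool.Agent.H976R2.SB
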