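import Pool.Agent.H976R2.SB.Union

/-! Asymptotics. -/

namespace Pool.Agent.H976R2.SB
open Finset Num Filter

lemma ev_pow (C θ : ℝ) (hθ : θ < 1) : ∀ᶠ L : ℝ in atTop, C * L ^ θ ≤ L := by
  have h1 : Tendsto (fun L : ℝ => L ^ (1 - θ)) atTop atTop := tendsto_rpow_atTop (by linarith)
  filter_upwards [h1.eventually_ge_atTop C, eventually_gt_atTop 0] with L hL hL0
  calc C * L ^ θ ≤ L ^ (1 - θ) * L ^ θ := by gcongr
    _ = L := by rw [← Real.rpow_add hL0]; simp

theorem main_words (d : ℕ) (hd : 2 ≤ d) : ∃ c : ℝ, 0 < c ∧ ∀ ε : ℝ, 0 < ε →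
    ∃ n0 : ℕ, ∀ n : ℕ, n0 ≤ n → ∀ a0 : Letter d,
      (#(farW d a0 n ((Real.log n) ^ c)) : ℝ) ≤
        Real.exp (-(n : ℝ) ^ (1 - ε)) * #(Saws d a0 n) := by
  have hCF := CF_pos (d := d) (by omega)
  have hCFr : (1 : ℝ) ≤ CF d := by exact_mod_cast hCF
  have hdl := dl_pos (d := d) (by omega)
  have hbb : (20 : ℝ) ≤ bb d := by exact_mod_cast bb_pos d
  have hAA1 : (1600 : ℝ) ≤ AA d := by exact_mod_cast AA_ge d
  have hlog1 : 0 < Real.log (1 + dl d) := Real.log_pos (by linarith)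
  have hlog2 : 0 < Real.log (2 * bb d) := Real.log_pos (by linarith)
  have hlogA : 0 < Real.log (AA d) := Real.log_pos (by linarith)
  set κ : ℝ := 2 / Real.log (1 + dl d) + 1 / Real.log (2 * bb d) with hκ
  have hκ0 : 0 < κ := by positivity
  set c : ℝ := min (1 / 4) (1 / (2 * κ * Real.log (AA d))) with hc
  have hc0 : 0 < c := by
    rw [hc]
    apply lt_min (by norm_num)
    positivity
  have hc4 : c ≤ 1 / 4 := min_le_left _ _
  have hcκ : c * (κ * Real.log (AA d)) ≤ 1 / 2 := by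
    have h1 : c ≤ 1 / (2 * κ * Real.log (AA d)) := min_le_right _ _
    have h2 : 0 < κ * Real.log (AA d) := by positivity
    calc c * (κ * Real.log (AA d)) ≤ 1 / (2 * κ * Real.log (AA d)) * (κ * Real.log (AA d)) := by
          gcongr
      _ = 1 / 2 := by field_simp
  refine ⟨c, hc0, ?_⟩
  -- reduce to ε ≤ 1
  have key : ∀ ε : ℝ, 0 < ε → ε ≤ 1 → ∃ n0 : ℕ, ∀ n : ℕ, n0 ≤ n → ∀ a0 : Letter d,
      (#(farW d a0 n ((Real.log n) ^ c)) : ℝ) ≤
        Real.exp (-(n : ℝ) ^ (1 - ε)) * #(Saws d a0 n) := by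
    intro ε hε hε1
    set C3 : ℝ := Real.exp ((κ * Real.log (2 * CF d) + 8) * Real.log (AA d)) with hC3
    have hC30 : 0 < C3 := Real.exp_pos _
    have hlogn : Tendsto (fun n : ℕ => Real.log (n : ℝ)) atTop atTop :=
      Real.tendsto_log_atTop.comp tendsto_natCast_atTop_atTop
    have hnn : Tendsto (fun n : ℕ => (n : ℝ)) atTop atTop := tendsto_natCast_atTop_atTop
    -- eventual facts in L = log n
    have E1 := hlogn.eventually (ev_pow (32 * CF d) (1 / 4) (by norm_num))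
    have E2 := hlogn.eventually (ev_pow (8192 * (CF d : ℝ) ^ 2 * d ^ 2) (1 / 2) (by norm_num))
    have E3 := hlogn.eventually (ev_pow ((4 / ε) * C3 * (4 * 3 ^ (1 / 4 : ℝ))) (3 / 4)
      (by norm_num))
    have E4 := hlogn.eventually_ge_atTop (10 ^ 6 : ℝ)
    have E5 := hlogn.eventually_ge_atTop (AA d : ℝ)
    have E6 := hnn.eventually_ge_atTop (Fintype.card (Ty d) : ℝ)
    have E7 := (((tendsto_rpow_atTop (show (0 : ℝ) < 3 * ε / 4 by positivity)).comp
      hnn).eventually_ge_atTop 2)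
    have E8 := hnn.eventually (ev_pow 1 (1 / 2) (by norm_num))
    have E9 : ∀ᶠ n : ℕ in atTop, 10 * Real.log n ≤ (n : ℝ) ^ (3 / 4 : ℝ) := by
      have h1 : ∀ᶠ x : ℝ in atTop, 10 * Real.log x ≤ x ^ (3 / 4 : ℝ) := by
        have h2 := (isLittleO_log_rpow_atTop (show (0 : ℝ) < 3 / 4 by norm_num)).def
          (show (0 : ℝ) < 1 / 10 by norm_num)
        filter_upwards [h2, eventually_ge_atTop 1] with x hx hx1
        rw [Real.norm_of_nonneg (Real.log_nonneg hx1),
          Real.norm_of_nonneg (by positivity)] at hx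
        linarith
      exact hnn.eventually h1
    have E10 := hlogn.eventually (ev_pow (κ * 1 + (κ * Real.log (2 * CF d) + 8)) (1 / 2)
      (by norm_num))
    obtain ⟨n0, hn0⟩ := Filter.eventually_atTop.1 (E1.and (E2.and (E3.and (E4.and (E5.and
      (E6.and (E7.and (E9.and E10))))))))
    refine ⟨max n0 2, fun n hn a0 => ?_⟩
    obtain ⟨h1, h2, h3, h4, h5, h6, h7, h9, h10⟩ := hn0 n ((le_max_left _ _).trans hn)
    have hn2 : 2 ≤ n := (le_max_right _ _).trans hn
    have hnr : (2 : ℝ) ≤ n := by exact_mod_cast hn2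
    have hnpos : (0 : ℝ) < n := by linarith
    set L : ℝ := Real.log n with hL
    have hL0 : (0 : ℝ) < L := by linarith
    have hL1 : (1 : ℝ) ≤ L := by linarith
    set Φ : ℝ := L ^ c with hΦdef
    have hΦ1 : 1 ≤ Φ := Real.one_le_rpow hL1 hc0.le
    have hΦ0 : 0 < Φ := by linarith
    have hΦ4 : Φ ≤ L ^ (1 / 4 : ℝ) := Real.rpow_le_rpow_of_exponent_le hL1 hc4
    have hΦ2 : Φ ^ 2 ≤ L ^ (1 / 2 : ℝ) := by
      calc Φ ^ 2 ≤ (L ^ (1 / 4 : ℝ)) ^ 2 := by gcongr
        _ = L ^ (1 / 2 : ℝ) := by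
            rw [← Real.rpow_natCast, ← Real.rpow_mul hL0.le]; norm_num
    set m : ℕ := ⌈Real.log (n + 1)⌉₊ with hm
    have hmL : Real.log (n + 1) ≤ m := Nat.le_ceil _
    have hLn1 : L ≤ Real.log (n + 1) := Real.log_le_log hnpos (by linarith)
    have hLm : L ≤ m := hLn1.trans hmL
    have hmle : (m : ℝ) ≤ 3 * L := by
      have h11 : (m : ℝ) < Real.log (n + 1) + 1 := Nat.ceil_lt_add_one (by linarith)
      have h12 : Real.log (n + 1) ≤ L + 1 := by
        have : (n : ℝ) + 1 ≤ n * Real.exp 1 := by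
          have := Real.add_one_le_exp (1 : ℝ)
          nlinarith
        calc Real.log (n + 1) ≤ Real.log (n * Real.exp 1) := Real.log_le_log (by linarith) this
          _ = L + 1 := by rw [Real.log_mul (by positivity) (by positivity), Real.log_exp]
      linarith
    have hm6 : 10 ^ 6 ≤ m := by
      have : ((10 ^ 6 : ℕ) : ℝ) ≤ m := by push_cast; linarith
      exact_mod_cast this
    have hmA : AA d ≤ m := by
      have : (AA d : ℝ) ≤ m := by linarith
      exact_mod_cast this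
    have hm1 : 32 * Φ * CF d ≤ m := by
      calc 32 * Φ * CF d = 32 * CF d * Φ := by ring
        _ ≤ 32 * CF d * L ^ (1 / 4 : ℝ) := by gcongr
        _ ≤ L := h1
        _ ≤ m := hLm
    have hm2 : 8192 * (CF d : ℝ) ^ 2 * d ^ 2 * Φ ^ 2 ≤ m := by
      calc 8192 * (CF d : ℝ) ^ 2 * d ^ 2 * Φ ^ 2
          ≤ 8192 * (CF d : ℝ) ^ 2 * d ^ 2 * L ^ (1 / 2 : ℝ) := by gcongr
        _ ≤ L := h2
        _ ≤ m := hLm
    -- K
    set x : ℝ := 2 * Real.log (2 * Φ * CF d) / Real.log (1 + dl d) +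
      Real.log (2 * Φ * CF d) / Real.log (2 * bb d) + 5 with hx
    have hxκ : x = κ * Real.log (2 * Φ * CF d) + 5 := by
      rw [hx, hκ]; ring
    have hlΦ : Real.log (2 * Φ * CF d) = Real.log Φ + Real.log (2 * CF d) := by
      rw [← Real.log_mul (by positivity) (by positivity)]
      congr 1; ring
    have hlΦ0 : 0 ≤ Real.log Φ := Real.log_nonneg hΦ1
    have hlCF : 0 ≤ Real.log (2 * CF d) := Real.log_nonneg (by linarith)
    have hx0 : 0 ≤ x := by
      rw [hxκ, hlΦ]; positivity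
    set K : ℕ := ⌈x⌉₊ with hK
    have hKx : x ≤ K := Nat.le_ceil _
    have hKx2 : (K : ℝ) < x + 1 := Nat.ceil_lt_add_one hx0
    have hK2 : ((K + 2 : ℕ) : ℝ) ≤ κ * Real.log Φ + (κ * Real.log (2 * CF d) + 8) := by
      push_cast
      rw [hxκ, hlΦ] at hKx2
      linarith
    -- size of the largest scale
    have hAK : ((AA d : ℝ)) ^ (K + 2) ≤ C3 * L ^ (1 / 2 : ℝ) := by
      have e1 : ((AA d : ℝ)) ^ (K + 2) = Real.exp (((K + 2 : ℕ) : ℝ) * Real.log (AA d)) := by
        rw [Real.exp_nat_mul, Real.exp_log (by linarith)]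
      have e2 : Real.log Φ = c * Real.log L := by rw [hΦdef, Real.log_rpow hL0]
      have hlL : 0 ≤ Real.log L := Real.log_nonneg hL1
      have e3 : L ^ (1 / 2 : ℝ) = Real.exp (1 / 2 * Real.log L) := by
        rw [Real.rpow_def_of_pos hL0]; congr 1; ring
      rw [e1, e3, hC3, ← Real.exp_add]
      apply Real.exp_le_exp.2
      calc ((K + 2 : ℕ) : ℝ) * Real.log (AA d)
          ≤ (κ * Real.log Φ + (κ * Real.log (2 * CF d) + 8)) * Real.log (AA d) := by gcongr
        _ = (κ * Real.log (2 * CF d) + 8) * Real.log (AA d) +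
            c * (κ * Real.log (AA d)) * Real.log L := by rw [e2]; ring
        _ ≤ (κ * Real.log (2 * CF d) + 8) * Real.log (AA d) + 1 / 2 * Real.log L := by gcongr
    have hm0 : (0 : ℝ) < m := by linarith
    have hlm : Real.log m ≤ 4 * 3 ^ (1 / 4 : ℝ) * L ^ (1 / 4 : ℝ) := by
      calc Real.log m ≤ Real.log (3 * L) := Real.log_le_log hm0 hmle
        _ ≤ (3 * L) ^ (1 / 4 : ℝ) / (1 / 4) :=
            Real.log_le_rpow_div (by positivity) (by norm_num)
        _ = 4 * 3 ^ (1 / 4 : ℝ) * L ^ (1 / 4 : ℝ) := by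
            rw [Real.mul_rpow (by norm_num) hL0.le]; ring
    have hlm0 : 0 ≤ Real.log m := Real.log_nonneg (by linarith)
    set D : ℕ := Sc d m (K + 2) with hD
    have hm1' : 1 ≤ m := by omega
    have hDpos : 0 < D := Sc_pos hm1' _
    have hDr0 : (0 : ℝ) < D := by exact_mod_cast hDpos
    have hlogD : Real.log D ≤ ε / 4 * L := by
      have e1 : (D : ℝ) = (m : ℝ) ^ (AA d ^ (K + 2)) := by
        rw [hD, Sc_def, if_neg (by omega)]; push_cast; rfl
      rw [e1, Real.log_pow]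
      push_cast
      calc (AA d : ℝ) ^ (K + 2) * Real.log m
          ≤ (C3 * L ^ (1 / 2 : ℝ)) * (4 * 3 ^ (1 / 4 : ℝ) * L ^ (1 / 4 : ℝ)) := by
            apply mul_le_mul hAK hlm hlm0 (by positivity)
        _ = ε / 4 * ((4 / ε) * C3 * (4 * 3 ^ (1 / 4 : ℝ)) * L ^ (3 / 4 : ℝ)) := by
            have : L ^ (3 / 4 : ℝ) = L ^ (1 / 2 : ℝ) * L ^ (1 / 4 : ℝ) := by
              rw [← Real.rpow_add hL0]; norm_num
            rw [this]
            field_simp
        _ ≤ ε / 4 * L := by gcongr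
    have hDn : (D : ℝ) ≤ (n : ℝ) ^ (ε / 4) := by
      rw [Real.rpow_def_of_pos hnpos, ← Real.log_le_iff_le_exp hDr0]
      linarith
    have hn1 : (1 : ℝ) ≤ n := by linarith
    have hD2 : D ^ 2 ≤ n := by
      have : ((D ^ 2 : ℕ) : ℝ) ≤ n := by
        push_cast
        calc (D : ℝ) ^ 2 ≤ ((n : ℝ) ^ (ε / 4)) ^ 2 := by gcongr
          _ = (n : ℝ) ^ (ε / 2) := by
              rw [← Real.rpow_natCast, ← Real.rpow_mul hnpos.le]; congr 1; push_cast; ring
          _ ≤ (n : ℝ) ^ (1 : ℝ) := Real.rpow_le_rpow_of_exponent_le hn1 (by linarith)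
          _ = n := Real.rpow_one _
      exact_mod_cast this
    have hLn : L ≤ (n : ℝ) ^ (3 / 4 : ℝ) := by
      have : 0 ≤ Real.log n := by linarith
      linarith
    have h2ΦD : 2 * Φ * D ≤ n := by
      -- Φ ≤ L^{1/4} ≤ n^{1/4}..., crude: 2 Φ ≤ m ≤ D and D * D ≤ n
      have e1 : 2 * Φ ≤ m := by
        have : 2 * Φ ≤ 32 * Φ * CF d := by nlinarith
        linarith
      have e2 : (m : ℝ) ≤ D := by
        have := m_le_Sc (d := d) (m := m) hm1' (k := K + 2) (by omega)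
        exact_mod_cast this
      have e3 : ((D ^ 2 : ℕ) : ℝ) ≤ n := by exact_mod_cast hD2
      push_cast at e3
      calc 2 * Φ * D ≤ D * D := by gcongr; linarith
        _ = (D : ℝ) ^ 2 := by ring
        _ ≤ n := e3
    have hmain := far_card hd a0 (n := n) (m := m) (K := K) (Φ := Φ) hΦ1 hm6 hmA hm1 hm2 hmL
      (by omega) hKx h2ΦD hD2
    refine hmain.trans ?_
    rw [← mul_assoc]
    refine mul_le_mul_of_nonneg_right ?_ (by positivity)
    -- K ≤ L ≤ n
    have hKn : (K : ℝ) ≤ n := by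
      have e1 : ((K + 2 : ℕ) : ℝ) ≤ L := by
        refine hK2.trans ?_
        have hΦL : Real.log Φ ≤ L ^ (1 / 2 : ℝ) := by
          calc Real.log Φ ≤ Φ := (Real.log_le_sub_one_of_pos hΦ0).trans (by linarith)
            _ ≤ L ^ (1 / 4 : ℝ) := hΦ4
            _ ≤ L ^ (1 / 2 : ℝ) := Real.rpow_le_rpow_of_exponent_le hL1 (by norm_num)
        have hL12 : 1 ≤ L ^ (1 / 2 : ℝ) := Real.one_le_rpow hL1 (by norm_num)
        have e5 : 0 ≤ κ * Real.log (2 * CF d) + 8 := by positivity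
        calc κ * Real.log Φ + (κ * Real.log (2 * CF d) + 8)
            ≤ κ * L ^ (1 / 2 : ℝ) + (κ * Real.log (2 * CF d) + 8) * L ^ (1 / 2 : ℝ) := by
              have := mul_le_mul_of_nonneg_left hL12 e5
              have := mul_le_mul_of_nonneg_left hΦL hκ0.le
              linarith
          _ = (κ * 1 + (κ * Real.log (2 * CF d) + 8)) * L ^ (1 / 2 : ℝ) := by ring
          _ ≤ L := h10
      have e2 : L ≤ n := (Real.log_le_sub_one_of_pos hnpos).trans (by linarith)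
      push_cast at e1
      linarith
    have hpre : (K : ℝ) * Fintype.card (Ty d) * (n + 1) * 3 ≤ Real.exp (5 * L) := by
      have e1 : Real.exp (5 * L) = (n : ℝ) ^ 5 := by
        rw [hL, show (5 : ℝ) * Real.log n = ((5 : ℕ) : ℝ) * Real.log n by norm_num,
          Real.exp_nat_mul, Real.exp_log hnpos]
      rw [e1]
      have e2 : (n : ℝ) + 1 ≤ 2 * n := by linarith
      have e3 : (6 : ℝ) ≤ n ^ 2 := by
        have : (10 : ℝ) ^ 6 ≤ n := h4.trans ((Real.log_le_sub_one_of_pos hnpos).trans (by linarith))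
        nlinarith
      calc (K : ℝ) * Fintype.card (Ty d) * (n + 1) * 3 ≤ n * n * (2 * n) * 3 := by gcongr
        _ = 6 * (n : ℝ) ^ 3 := by ring
        _ ≤ (n : ℝ) ^ 2 * (n : ℝ) ^ 3 := by gcongr
        _ = (n : ℝ) ^ 5 := by ring
    have hexp : Real.exp (-((n : ℝ) / D)) ≤ Real.exp (-((n : ℝ) ^ (1 - ε / 4))) := by
      apply Real.exp_le_exp.2
      apply neg_le_neg
      rw [Real.rpow_sub hnpos, Real.rpow_one]
      gcongr
    have hfin : 5 * L - (n : ℝ) ^ (1 - ε / 4) ≤ -(n : ℝ) ^ (1 - ε) := by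
      have e1 : (n : ℝ) ^ (1 - ε / 4) = (n : ℝ) ^ (1 - ε) * (n : ℝ) ^ (3 * ε / 4) := by
        rw [← Real.rpow_add hnpos]; congr 1; ring
      have e2 : 2 ≤ (n : ℝ) ^ (3 * ε / 4) := h7
      have e3 : 2 * (n : ℝ) ^ (1 - ε) ≤ (n : ℝ) ^ (1 - ε / 4) := by
        rw [e1]
        have : 0 ≤ (n : ℝ) ^ (1 - ε) := by positivity
        nlinarith
      have e4 : (n : ℝ) ^ (3 / 4 : ℝ) ≤ (n : ℝ) ^ (1 - ε / 4) :=
        Real.rpow_le_rpow_of_exponent_le hn1 (by linarith)
      linarith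
    calc (K : ℝ) * Fintype.card (Ty d) * (n + 1) * (3 * Real.exp (-((n : ℝ) / D)))
        = ((K : ℝ) * Fintype.card (Ty d) * (n + 1) * 3) * Real.exp (-((n : ℝ) / D)) := by ring
      _ ≤ Real.exp (5 * L) * Real.exp (-((n : ℝ) ^ (1 - ε / 4))) := by
          apply mul_le_mul hpre hexp (Real.exp_nonneg _) (Real.exp_nonneg _)
      _ = Real.exp (5 * L - (n : ℝ) ^ (1 - ε / 4)) := by rw [← Real.exp_add]; congr 1
      _ ≤ Real.exp (-(n : ℝ) ^ (1 - ε)) := Real.exp_le_exp.2 hfin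
  intro ε hε
  by_cases h : ε ≤ 1
  · exact key ε hε h
  · push Not at h
    obtain ⟨n0, hn0⟩ := key 1 one_pos le_rfl
    refine ⟨max n0 1, fun n hn a0 => (hn0 n ((le_max_left _ _).trans hn) a0).trans ?_⟩
    have hn1 : (1 : ℝ) ≤ n := by exact_mod_cast (le_max_right _ _).trans hn
    refine mul_le_mul_of_nonneg_right ?_ (by positivity)
    apply Real.exp_le_exp.2
    apply neg_le_neg
    exact Real.rpow_le_rpow_of_exponent_le hn1 (by linarith)

end Pool.Agent.H976R2.SB
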