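import Pool.Agent.H976R2.SB.Basic

/-! Task B1: existence of the local surgery. -/

namespace Pool.Agent.H976R2.SB
open Finset

variable {A : Type} {d : ℕ}

namespace TB1

/-- the last maximum of a function on `[t,a]` -/
theorem last_max (h : ℕ → ℤ) (t a : ℕ) (hta : t ≤ a) :
    ∃ f, t ≤ f ∧ f ≤ a ∧ (∀ b, t ≤ b → b ≤ a → h b ≤ h f) ∧
      (∀ b, f < b → b ≤ a → h b < h f) := by
  classical
  obtain ⟨m, hm, hmax⟩ := Finset.exists_max_image (Icc t a) h ⟨t, mem_Icc.2 ⟨le_rfl, hta⟩⟩
  set s : Finset ℕ := (Icc t a).filter (fun b => h b = h m) with hs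
  have hne : s.Nonempty := ⟨m, mem_filter.2 ⟨hm, rfl⟩⟩
  have hf := mem_filter.1 (s.max'_mem hne)
  have hf1 := mem_Icc.1 hf.1
  refine ⟨s.max' hne, hf1.1, hf1.2, ?_, ?_⟩
  · intro b hb1 hb2
    rw [hf.2]
    exact hmax b (mem_Icc.2 ⟨hb1, hb2⟩)
  · intro b hb1 hb2
    rw [hf.2]
    have hb3 : t ≤ b := hf1.1.trans hb1.le
    refine lt_of_le_of_ne (hmax b (mem_Icc.2 ⟨hb3, hb2⟩)) ?_
    intro heq
    have := s.le_max' b (mem_filter.2 ⟨mem_Icc.2 ⟨hb3, hb2⟩, heq⟩)
    exact absurd hb1 (not_lt.2 this)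

/-- the last minimum of a function on `[t,a]` -/
theorem last_min (h : ℕ → ℤ) (t a : ℕ) (hta : t ≤ a) :
    ∃ f, t ≤ f ∧ f ≤ a ∧ (∀ b, t ≤ b → b ≤ a → h f ≤ h b) ∧
      (∀ b, f < b → b ≤ a → h f < h b) := by
  obtain ⟨f, h1, h2, h3, h4⟩ := last_max (fun b => - h b) t a hta
  refine ⟨f, h1, h2, fun b hb1 hb2 => ?_, fun b hb1 hb2 => ?_⟩
  · have := h3 b hb1 hb2
    omega
  · have := h4 b hb1 hb2
    omega

theorem unf_congr (Y : Sys A d) {w w1 w2 : ℕ → A} {t a : ℕ} {dir : Bool} {c : List ℕ}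
    (h : Unf Y w w1 t a dir c) : (∀ b, t ≤ b → b < a → w2 b = w1 b) → Unf Y w w2 t a dir c := by
  induction h with
  | flat a dir hta hflat heq =>
    intro hw
    exact Unf.flat a dir hta hflat (fun b h1 h2 => (hw b h1 h2).trans (heq b h1 h2))
  | down a f W c htf hfa hmax hlast hmin hW heq hrec ih =>
    intro hw
    exact Unf.down a f W c htf hfa hmax hlast hmin hW
      (fun b h1 h2 => (hw b (htf.trans h1) h2).trans (heq b h1 h2))
      (ih (fun b h1 h2 => hw b h1 (h2.trans hfa)))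
  | up a f W c htf hfa hmin hlast hmax hW heq hrec ih =>
    intro hw
    exact Unf.up a f W c htf hfa hmin hlast hmax hW
      (fun b h1 h2 => (hw b (htf.trans h1) h2).trans (heq b h1 h2))
      (ih (fun b h1 h2 => hw b h1 (h2.trans hfa)))

end TB1

open TB1 in
/-- TASK B1 -/
theorem unf_exists (Y : Sys A d) (w : ℕ → A) (t a : ℕ) (dir : Bool) (hta : t ≤ a)
    (h0 : dir = false → ∀ b, t ≤ b → b ≤ a → ht Y.l w a ≤ ht Y.l w b)
    (h1 : dir = true → ∀ b, t ≤ b → b ≤ a → ht Y.l w b ≤ ht Y.l w a) :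
    ∃ w' c, Unf Y w w' t a dir c ∧ (∀ b, (b < t ∨ a ≤ b) → w' b = w b) := by
  classical
  induction a using Nat.strong_induction_on generalizing dir with
  | _ a ih =>
    cases dir with
    | false =>
      have hmin := h0 rfl
      obtain ⟨f, hf1, hf2, hf3, hf4⟩ := last_max (ht Y.l w) t a hta
      by_cases hflat : ht Y.l w f = ht Y.l w a
      · refine ⟨w, [], Unf.flat a false hta (fun b hb1 hb2 => ?_) (fun _ _ _ => rfl),
          fun _ _ => rfl⟩
        have e1 := hmin b hb1 hb2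
        have e2 := hf3 b hb1 hb2
        omega
      · have e1 := hmin f hf1 hf2
        have hfa : f < a := by
          refine lt_of_le_of_ne hf2 ?_
          rintro rfl
          exact hflat rfl
        obtain ⟨w1, c1, hu, hout⟩ := ih f hfa true hf1 (fun h => by simp at h)
          (fun _ b hb1 hb2 => hf3 b hb1 (hb2.trans hf2))
        refine ⟨fun b => if f ≤ b ∧ b < a then Y.U (w b) else w1 b,
          (ht Y.l w f - ht Y.l w a).toNat :: c1, ?_, ?_⟩
        · refine Unf.down a f _ c1 hf1 hfa hf3 hf4 hmin ?_ ?_ ?_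
          · omega
          · intro b hb1 hb2
            simp [hb1, hb2]
          · refine unf_congr Y hu (fun b hb1 hb2 => ?_)
            rw [if_neg]
            omega
        · intro b hb
          simp only
          rw [if_neg (by omega)]
          exact hout b (by omega)
    | true =>
      have hmax := h1 rfl
      obtain ⟨f, hf1, hf2, hf3, hf4⟩ := last_min (ht Y.l w) t a hta
      by_cases hflat : ht Y.l w f = ht Y.l w a
      · refine ⟨w, [], Unf.flat a true hta (fun b hb1 hb2 => ?_) (fun _ _ _ => rfl),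
          fun _ _ => rfl⟩
        have e1 := hmax b hb1 hb2
        have e2 := hf3 b hb1 hb2
        omega
      · have e1 := hmax f hf1 hf2
        have hfa : f < a := by
          refine lt_of_le_of_ne hf2 ?_
          rintro rfl
          exact hflat rfl
        obtain ⟨w1, c1, hu, hout⟩ := ih f hfa false hf1
          (fun _ b hb1 hb2 => hf3 b hb1 (hb2.trans hf2)) (fun h => by simp at h)
        refine ⟨w1, (ht Y.l w a - ht Y.l w f).toNat :: c1, ?_, ?_⟩
        · refine Unf.up a f _ c1 hf1 hfa hf3 hf4 hmax ?_ ?_ hu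
          · omega
          · intro b hb1 hb2
            exact hout b (Or.inr hb1)
        · intro b hb
          exact hout b (by omega)

open TB1 in
/-- TASK B1 -/
theorem surg_exists (Y : Sys A d) (n : ℕ) (w : ℕ → A) (t : ℕ) (ht' : t ≤ n) :
    ∃ w' c, Surg Y n w w' t c := by
  obtain ⟨a, ha1, ha2, ha3, ha4⟩ := last_min (ht Y.l w) t n ht'
  obtain ⟨w', c, hu, hout⟩ := unf_exists Y w t a false ha1
    (fun _ b hb1 hb2 => ha3 b hb1 (hb2.trans ha2)) (fun h => by simp at h)
  exact ⟨w', c, a, ha1, ha2, ha3, ha4, hu, hout⟩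

end Pool.Agent.H976R2.SB
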