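import Pool.Agent.H976R2.SB.Basic

/-! Task B2: properties of the unfolded piece and of the surgery. -/

namespace Pool.Agent.H976R2.SB
open Finset

variable {A : Type} {d : ℕ}

/-- TASK B2 : properties of the unfolded piece -/
theorem unf_props (Y : Sys A d) {w w' : ℕ → A} {t a : ℕ} {dir : Bool} {c : List ℕ}
    (h : Unf Y w w' t a dir c) :
    t ≤ a ∧ (∀ W ∈ c, 1 ≤ W) ∧
    (∀ b, t ≤ b → b ≤ a → ht Y.l w' t ≤ ht Y.l w' b ∧ ht Y.l w' b ≤ ht Y.l w' a) ∧
    incr Y.l w' t a = (c.sum : ℤ) ∧
    (SawOn Y w t a → SawOn Y w' t a) := by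
  induction h with
  | flat a dir hta hflat heq =>
    have key : ∀ b, t ≤ b → b ≤ a → ht Y.l w' b = ht Y.l w' t := by
      intro b hb1 hb2
      have h1 := incr_congr (f := Y.l) (w := w) (w' := w') hb1
        (fun u hu1 hu2 => heq u hu1 (hu2.trans_le hb2))
      have h2 := hflat b hb1 hb2
      have h3 := hflat t le_rfl hta
      simp only [incr] at h1
      linarith
    refine ⟨hta, by simp, fun b hb1 hb2 => ?_, ?_, fun hs => ?_⟩
    · have h1 := key b hb1 hb2
      have h2 := key a hta le_rfl
      constructor <;> linarith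
    · have h2 := key a hta le_rfl
      simp only [incr, List.sum_nil, Nat.cast_zero]
      linarith
    · exact SawOn.congr Y hs heq
  | down a f W c htf hfa hmax hlast hmin hW heq hrec ih =>
    obtain ⟨-, ih2, ih3, ih4, ih5⟩ := ih
    have key : ∀ b, f ≤ b → b ≤ a →
        ht Y.l w' b = ht Y.l w' f + (ht Y.l w f - ht Y.l w b) := by
      intro b hb1 hb2
      have h1 := incr_l_U Y (w := w) (w' := w') hb1
        (fun u hu1 hu2 => heq u hu1 (hu2.trans_le hb2))
      simp only [incr] at h1
      linarith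
    have ka := key a hfa.le le_rfl
    have hlasta := hlast a hfa le_rfl
    refine ⟨htf.trans hfa.le, ?_, fun b hb1 hb2 => ?_, ?_, fun hs => ?_⟩
    · intro V hV
      rcases List.mem_cons.1 hV with rfl | hV
      · have : (0 : ℤ) < (V : ℤ) := by rw [hW]; linarith
        exact_mod_cast this
      · exact ih2 V hV
    · rcases le_total b f with hbf | hbf
      · have h1 := ih3 b hb1 hbf
        constructor <;> linarith [h1.1, h1.2]
      · have h1 := ih3 f htf le_rfl
        have h2 := key b hbf hb2
        have h3 := hmax b hb1 hb2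
        have h4 := hmin b hb1 hb2
        constructor <;> linarith [h1.1, h1.2]
    · simp only [List.sum_cons, Nat.cast_add]
      simp only [incr] at ih4 ⊢
      linarith
    · refine SawOn.glue Y (ih5 (hs.mono Y le_rfl hfa.le))
        (SawOn.mapU Y (hs.mono Y htf le_rfl) heq) ?_
      intro u v hu huf hfv hva
      have h1 := ih3 u hu huf.le
      have h2 := key v hfv.le hva
      have h3 := hlast v hfv hva
      exact ne_of_lt (by linarith [h1.2])
  | up a f W c htf hfa hmin hlast hmax hW heq hrec ih =>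
    obtain ⟨-, ih2, ih3, ih4, ih5⟩ := ih
    have key : ∀ b, f ≤ b → b ≤ a →
        ht Y.l w' b = ht Y.l w' f + (ht Y.l w b - ht Y.l w f) := by
      intro b hb1 hb2
      have h1 := incr_congr (f := Y.l) (w := w) (w' := w') hb1
        (fun u hu1 hu2 => heq u hu1 (hu2.trans_le hb2))
      simp only [incr] at h1
      linarith
    have ka := key a hfa.le le_rfl
    have hlasta := hlast a hfa le_rfl
    refine ⟨htf.trans hfa.le, ?_, fun b hb1 hb2 => ?_, ?_, fun hs => ?_⟩
    · intro V hV
      rcases List.mem_cons.1 hV with rfl | hV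
      · have : (0 : ℤ) < (V : ℤ) := by rw [hW]; linarith
        exact_mod_cast this
      · exact ih2 V hV
    · rcases le_total b f with hbf | hbf
      · have h1 := ih3 b hb1 hbf
        constructor <;> linarith [h1.1, h1.2]
      · have h1 := ih3 f htf le_rfl
        have h2 := key b hbf hb2
        have h3 := hmax b hb1 hb2
        have h4 := hmin b hb1 hb2
        constructor <;> linarith [h1.1, h1.2]
    · simp only [List.sum_cons, Nat.cast_add]
      simp only [incr] at ih4 ⊢
      linarith
    · refine SawOn.glue Y (ih5 (hs.mono Y le_rfl hfa.le))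
        (SawOn.congr Y (hs.mono Y htf le_rfl) heq) ?_
      intro u v hu huf hfv hva
      have h1 := ih3 u hu huf.le
      have h2 := key v hfv.le hva
      have h3 := hlast v hfv hva
      exact ne_of_lt (by linarith [h1.2])

/-- TASK B2 -/
theorem surg_saw (Y : Sys A d) {n : ℕ} {w w' : ℕ → A} {t : ℕ} {c : List ℕ}
    (h : Surg Y n w w' t c) (hp : ∀ a, a < t → ht Y.l w a < ht Y.l w t) (hw : Saw Y n w) :
    Saw Y n w' ∧ Cut Y n w' t := by
  obtain ⟨a, hta, han, hmin, hlast, hunf, heq⟩ := h
  obtain ⟨-, -, hmono, -, hsaw⟩ := unf_props Y hunf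
  have hpre : ∀ u, u ≤ t → ht Y.l w' u = ht Y.l w u := fun u hu =>
    ht_congr fun b hb => heq b (Or.inl (hb.trans_le hu))
  have hsuf : ∀ v, a ≤ v → ht Y.l w' v - ht Y.l w' a = ht Y.l w v - ht Y.l w a := by
    intro v hv
    have := incr_congr (f := Y.l) (w := w) (w' := w') hv (fun u hu1 _ => heq u (Or.inr hu1))
    simpa only [incr] using this
  have hfut : ∀ v, t ≤ v → v ≤ n → ht Y.l w' t ≤ ht Y.l w' v := by
    intro v hv1 hv2
    rcases le_total v a with hva | hva
    · exact (hmono v hv1 hva).1
    · have h1 := (hmono a hta le_rfl).1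
      have h2 := hsuf v hva
      have h3 := hmin v hv1 hv2
      linarith
  have hpast : ∀ u, u < t → ht Y.l w' u < ht Y.l w' t := by
    intro u hu
    rw [hpre u hu.le, hpre t le_rfl]
    exact hp u hu
  have hsaw0 : SawOn Y w 0 n := hw
  refine ⟨?_, hta.trans han, hpast, hfut⟩
  have s1 : SawOn Y w' 0 t :=
    SawOn.congr Y (hsaw0.mono Y le_rfl (hta.trans han)) fun u _ hu => heq u (Or.inl hu)
  have s2 : SawOn Y w' t a := hsaw (hsaw0.mono Y (Nat.zero_le _) han)
  have s3 : SawOn Y w' a n :=
    SawOn.congr Y (hsaw0.mono Y (Nat.zero_le _) le_rfl) fun u hu _ => heq u (Or.inr hu)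
  have s4 : SawOn Y w' t n := by
    refine SawOn.glue Y s2 s3 ?_
    intro u v hu hua hav hvn
    have h1 := (hmono u hu hua.le).2
    have h2 := hsuf v hav.le
    have h3 := hlast v hav hvn
    exact ne_of_lt (by linarith)
  refine SawOn.glue Y s1 s4 ?_
  intro u v _ hut htv hvn
  exact ne_of_lt ((hpast u hut).trans_le (hfut v htv.le hvn))

end Pool.Agent.H976R2.SB
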