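import Pool.Agent.H976R2.SB.Basic

/-! TASK B3 : decoding of the surgery. -/

namespace Pool.Agent.H976R2.SB
open Finset

variable {A : Type} {d : ℕ}

namespace TB3

/-- heights of the unfolded word on the last piece, `down` case -/
lemma down_incr (Y : Sys A d) {w w' : ℕ → A} {f a b : ℕ} (hfb : f ≤ b) (hba : b ≤ a)
    (heq : ∀ b, f ≤ b → b < a → w' b = Y.U (w b)) :
    ht Y.l w' b - ht Y.l w' f = ht Y.l w f - ht Y.l w b := by
  have := incr_l_U Y (w := w) (w' := w') hfb (fun t h1 h2 => heq t h1 (h2.trans_le hba))
  simp only [incr] at this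
  linarith

/-- heights of the unfolded word on the last piece, `up` case -/
lemma up_incr (Y : Sys A d) {w w' : ℕ → A} {f a b : ℕ} (hfb : f ≤ b) (hba : b ≤ a)
    (heq : ∀ b, f ≤ b → b < a → w' b = w b) :
    ht Y.l w' b - ht Y.l w' f = ht Y.l w b - ht Y.l w f := by
  have := incr_congr (f := Y.l) (w := w) (w' := w') hfb
    (fun t h1 h2 => heq t h1 (h2.trans_le hba))
  simpa only [incr] using this

lemma unf_incr (Y : Sys A d) {w w' : ℕ → A} {t a : ℕ} {dir : Bool} {c : List ℕ}
    (h : Unf Y w w' t a dir c) :
    t ≤ a ∧ ht Y.l w' a - ht Y.l w' t = (c.sum : ℤ) := by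
  induction h with
  | flat a dir hta hflat heq =>
    refine ⟨hta, ?_⟩
    have h1 := up_incr Y (w := w) (w' := w') hta le_rfl heq
    have h2 := hflat t le_rfl hta
    simp only [List.sum_nil, Nat.cast_zero]
    linarith
  | down a f W c htf hfa hmax hlast hmin hW heq hrec ih =>
    refine ⟨htf.trans hfa.le, ?_⟩
    have h1 := down_incr Y (w := w) (w' := w') hfa.le le_rfl heq
    have h2 := ih.2
    simp only [List.sum_cons, Nat.cast_add]
    linarith
  | up a f W c htf hfa hmin hlast hmax hW heq hrec ih =>
    refine ⟨htf.trans hfa.le, ?_⟩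
    have h1 := up_incr Y (w := w) (w' := w') hfa.le le_rfl heq
    have h2 := ih.2
    simp only [List.sum_cons, Nat.cast_add]
    linarith

/-- the last time at which a function takes the value `g a - W` and is larger afterwards -/
lemma fold_unique {g : ℕ → ℤ} {a f1 f2 : ℕ} (h12 : g f1 = g f2) (h1 : f1 < a) (h2 : f2 < a)
    (H1 : ∀ b, f1 < b → b ≤ a → g f1 < g b) (H2 : ∀ b, f2 < b → b ≤ a → g f2 < g b) :
    f1 = f2 := by
  rcases lt_trichotomy f1 f2 with h | h | h
  · have := H1 f2 h h2.le
    omega
  · exact h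
  · have := H2 f1 h h1.le
    omega

lemma unf_inj (Y : Sys A d) {w1 w2 w' : ℕ → A} {t a : ℕ} {dir : Bool} {c : List ℕ}
    (h1 : Unf Y w1 w' t a dir c) (h2 : Unf Y w2 w' t a dir c) :
    ∀ b, t ≤ b → b < a → w1 b = w2 b := by
  induction h1 with
  | flat a dir hta hflat heq =>
    cases h2 with
    | flat _ _ hta2 hflat2 heq2 =>
      intro b hb hba
      rw [← heq b hb hba, ← heq2 b hb hba]
  | down a f W c htf hfa hmax hlast hmin hW heq hrec ih =>
    cases h2 with
    | down _ f2 _ _ htf2 hfa2 hmax2 hlast2 hmin2 hW2 heq2 hrec2 =>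
      have hf : f = f2 := by
        have e1 := down_incr Y (w := w1) (w' := w') hfa.le le_rfl heq
        have e2 := down_incr Y (w := w2) (w' := w') hfa2.le le_rfl heq2
        refine fold_unique (g := ht Y.l w') (a := a) (by linarith) hfa hfa2 ?_ ?_
        · intro b hb hba
          have e3 := down_incr Y (w := w1) (w' := w') hb.le hba heq
          have e4 := hlast b hb hba
          linarith
        · intro b hb hba
          have e3 := down_incr Y (w := w2) (w' := w') hb.le hba heq2
          have e4 := hlast2 b hb hba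
          linarith
      subst hf
      intro b hb hba
      by_cases hbf : b < f
      · exact ih hrec2 b hb hbf
      · have e1 := heq b (by omega) hba
        have e2 := heq2 b (by omega) hba
        have := congrArg Y.U (e1.symm.trans e2)
        rwa [Y.U_U, Y.U_U] at this
  | up a f W c htf hfa hmin hlast hmax hW heq hrec ih =>
    cases h2 with
    | up _ f2 _ _ htf2 hfa2 hmin2 hlast2 hmax2 hW2 heq2 hrec2 =>
      have hf : f = f2 := by
        have e1 := up_incr Y (w := w1) (w' := w') hfa.le le_rfl heq
        have e2 := up_incr Y (w := w2) (w' := w') hfa2.le le_rfl heq2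
        refine fold_unique (g := ht Y.l w') (a := a) (by linarith) hfa hfa2 ?_ ?_
        · intro b hb hba
          have e3 := up_incr Y (w := w1) (w' := w') hb.le hba heq
          have e4 := hlast b hb hba
          linarith
        · intro b hb hba
          have e3 := up_incr Y (w := w2) (w' := w') hb.le hba heq2
          have e4 := hlast2 b hb hba
          linarith
      subst hf
      intro b hb hba
      by_cases hbf : b < f
      · exact ih hrec2 b hb hbf
      · rw [← heq b (by omega) hba, ← heq2 b (by omega) hba]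

/-- heights of `w'` after the last minimum time -/
lemma surg_after (Y : Sys A d) {w w' : ℕ → A} {a b : ℕ} (hab : a ≤ b)
    (heq : ∀ b, a ≤ b → w' b = w b) :
    ht Y.l w' b - ht Y.l w' a = ht Y.l w b - ht Y.l w a := by
  have := incr_congr (f := Y.l) (w := w) (w' := w') hab (fun t h1 _ => heq t h1)
  simpa only [incr] using this

end TB3

/-- TASK B3 : decoding -/
theorem surg_inj (Y : Sys A d) {n : ℕ} {w1 w2 w' : ℕ → A} {t : ℕ} {c : List ℕ}
    (h1 : Surg Y n w1 w' t c) (h2 : Surg Y n w2 w' t c) : w1 = w2 := by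
  obtain ⟨a1, hta1, han1, hmin1, hlast1, hU1, heq1⟩ := h1
  obtain ⟨a2, hta2, han2, hmin2, hlast2, hU2, heq2⟩ := h2
  have s1 := (TB3.unf_incr Y hU1).2
  have s2 := (TB3.unf_incr Y hU2).2
  have haa : a1 = a2 := by
    rcases lt_trichotomy a1 a2 with h | h | h
    · have e1 := TB3.surg_after Y (w := w1) (w' := w') h.le (fun b hb => heq1 b (Or.inr hb))
      have e2 := hlast1 a2 h han2
      linarith
    · exact h
    · have e1 := TB3.surg_after Y (w := w2) (w' := w') h.le (fun b hb => heq2 b (Or.inr hb))
      have e2 := hlast2 a1 h han1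
      linarith
  subst haa
  funext b
  by_cases hb : b < t ∨ a1 ≤ b
  · rw [← heq1 b hb, ← heq2 b hb]
  · push Not at hb
    exact TB3.unf_inj Y hU1 hU2 b hb.1 hb.2

end Pool.Agent.H976R2.SB
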