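import Pool.Agent.H976R2.SB.Basic

/-! Task B4: number of codes. -/

namespace Pool.Agent.H976R2.SB
open Finset

namespace TB4

lemma sum_inv_sq (N : ℕ) : ∑ i ∈ range N, (1 : ℝ) / ((i : ℝ) + 2) ^ 2 ≤
    2 / 3 - 1 / ((N : ℝ) + 3 / 2) := by
  induction N with
  | zero => norm_num
  | succ N ih =>
    rw [Finset.sum_range_succ]
    have hN : (0 : ℝ) ≤ N := Nat.cast_nonneg N
    have h1 : (1 : ℝ) / ((N : ℝ) + 2) ^ 2 ≤ 1 / ((N : ℝ) + 3 / 2) - 1 / ((N : ℝ) + 5 / 2) := by
      rw [div_sub_div _ _ (by positivity) (by positivity), div_le_div_iff₀ (by positivity)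
        (by positivity)]
      nlinarith
    push_cast
    have h2 : (N : ℝ) + 1 + 3 / 2 = (N : ℝ) + 5 / 2 := by ring
    rw [h2]
    linarith

lemma card_bound {M : ℕ} (hM : 2 ≤ M) :
    1 + ∑ i ∈ range (M - 1), (M / (i + 2)) ^ 2 ≤ M ^ 2 := by
  have h : ((1 + ∑ i ∈ range (M - 1), (M / (i + 2)) ^ 2 : ℕ) : ℝ) ≤ ((M ^ 2 : ℕ) : ℝ) := by
    push_cast
    have h1 : ∑ i ∈ range (M - 1), (((M / (i + 2) : ℕ) : ℝ)) ^ 2 ≤
        ∑ i ∈ range (M - 1), (M : ℝ) ^ 2 * ((1 : ℝ) / ((i : ℝ) + 2) ^ 2) := by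
      refine Finset.sum_le_sum fun i _ => ?_
      have h2 : ((M / (i + 2) : ℕ) : ℝ) ≤ (M : ℝ) / ((i : ℝ) + 2) := by
        have := @Nat.cast_div_le ℝ _ _ _ M (i + 2)
        push_cast at this
        exact this
      have h3 : (0 : ℝ) ≤ ((M / (i + 2) : ℕ) : ℝ) := Nat.cast_nonneg _
      calc (((M / (i + 2) : ℕ) : ℝ)) ^ 2 ≤ ((M : ℝ) / ((i : ℝ) + 2)) ^ 2 :=
            pow_le_pow_left₀ h3 h2 2
        _ = (M : ℝ) ^ 2 * ((1 : ℝ) / ((i : ℝ) + 2) ^ 2) := by
            rw [div_pow]; ring
    rw [← Finset.mul_sum] at h1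
    have h4 := sum_inv_sq (M - 1)
    have h5 : ∑ i ∈ range (M - 1), (1 : ℝ) / ((i : ℝ) + 2) ^ 2 ≤ 2 / 3 := by
      have : (0 : ℝ) ≤ 1 / (((M - 1 : ℕ) : ℝ) + 3 / 2) := by positivity
      linarith
    have hM2 : (2 : ℝ) ≤ M := by exact_mod_cast hM
    have h6 : (M : ℝ) ^ 2 * ∑ i ∈ range (M - 1), (1 : ℝ) / ((i : ℝ) + 2) ^ 2 ≤
        (M : ℝ) ^ 2 * (2 / 3) := mul_le_mul_of_nonneg_left h5 (by positivity)
    nlinarith
  exact_mod_cast h

lemma one_le_cost (c : List ℕ) : 1 ≤ cost c := by
  induction c with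
  | nil => simp [cost]
  | cons W c ih =>
    have h : cost (W :: c) = (W + 1) * cost c := by simp [cost]
    rw [h]
    exact Nat.mul_pos (Nat.succ_pos _) ih

end TB4

theorem exists_codes (M : ℕ) : ∃ C : Finset (List ℕ), #C ≤ M ^ 2 ∧
    ∀ c : List ℕ, (∀ W ∈ c, 1 ≤ W) → cost c ≤ M → c ∈ C := by
  classical
  induction M using Nat.strong_induction_on with
  | _ M ih =>
    rcases Nat.lt_or_ge M 2 with hM | hM
    · interval_cases M
      · refine ⟨∅, by simp, fun c _ hc => ?_⟩
        have := TB4.one_le_cost c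
        omega
      · refine ⟨{[]}, by simp, fun c hc1 hc => ?_⟩
        cases c with
        | nil => simp
        | cons W c =>
          exfalso
          have h : cost (W :: c) = (W + 1) * cost c := by simp [cost]
          rw [h] at hc
          have h1 : 1 ≤ W := hc1 W (by simp)
          have h2 := TB4.one_le_cost c
          nlinarith
    · have hlt : ∀ i, M / (i + 2) < M := fun i => Nat.div_lt_self (by omega) (by omega)
      choose C hC1 hC2 using fun i : ℕ => ih (M / (i + 2)) (hlt i)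
      refine ⟨insert [] ((range (M - 1)).biUnion fun i => (C i).image (fun c => (i + 1) :: c)),
        ?_, fun c hc1 hc => ?_⟩
      · refine (Finset.card_insert_le _ _).trans ?_
        have h1 : #((range (M - 1)).biUnion fun i => (C i).image (fun c => (i + 1) :: c)) ≤
            ∑ i ∈ range (M - 1), (M / (i + 2)) ^ 2 := by
          refine Finset.card_biUnion_le.trans (Finset.sum_le_sum fun i _ => ?_)
          exact Finset.card_image_le.trans (hC1 i)
        have h2 := TB4.card_bound hM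
        omega
      · cases c with
        | nil => simp
        | cons W c =>
          have h : cost (W :: c) = (W + 1) * cost c := by simp [cost]
          rw [h] at hc
          have h1 : 1 ≤ W := hc1 W (by simp)
          have h2 := TB4.one_le_cost c
          have h3 : W + 1 ≤ M := by nlinarith
          refine Finset.mem_insert_of_mem (Finset.mem_biUnion.2 ⟨W - 1, ?_, ?_⟩)
          · rw [Finset.mem_range]; omega
          · refine Finset.mem_image.2 ⟨c, hC2 (W - 1) c (fun V hV => hc1 V (by simp [hV])) ?_, ?_⟩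
            · have h4 : W - 1 + 2 = W + 1 := by omega
              rw [h4, Nat.le_div_iff_mul_le (Nat.succ_pos _)]
              linarith
            · have h5 : W - 1 + 1 = W := by omega
              rw [h5]

end Pool.Agent.H976R2.SB
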