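import Pool.Agent.H976R2.SB.B2

/-! Task B5b: the surgery at a nice time does not change the nice times of the other cells. -/

namespace Pool.Agent.H976R2.SB.TB5b
open Finset Pool.Agent.H976R2.SB

variable {A : Type} {d : ℕ}

/-- `Unf` only looks at the letters in `[t,a)` -/
lemma unf_congr (Y : Sys A d) {w w1 w2 w3 : ℕ → A} {t a : ℕ} {dir : Bool} {c : List ℕ}
    (h : Unf Y w w1 t a dir c) (h2 : ∀ b, t ≤ b → b < a → w2 b = w b)
    (h3 : ∀ b, t ≤ b → b < a → w3 b = w1 b) : Unf Y w2 w3 t a dir c := by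
  have hinc : ∀ {a : ℕ}, (∀ b, t ≤ b → b < a → w2 b = w b) → ∀ b, t ≤ b → b ≤ a →
      ht Y.l w2 b - ht Y.l w2 t = ht Y.l w b - ht Y.l w t := by
    intro a h2 b hb hba
    have := incr_congr (f := Y.l) (w := w) (w' := w2) hb
      (fun s hs1 hs2 => h2 s hs1 (hs2.trans_le hba))
    simpa [incr] using this
  induction h with
  | flat a dir hta hflat heq =>
    refine Unf.flat a dir hta ?_ ?_
    · intro b hb hba
      have e1 := hinc h2 b hb hba
      have e2 := hinc h2 a hta le_rfl
      have e3 := hflat b hb hba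
      linarith
    · intro b hb hba
      rw [h3 b hb hba, heq b hb hba, h2 b hb hba]
  | down a f W c htf hfa hmax hlast hmin hW heq hrec ih =>
    have hf := hinc h2 f htf hfa.le
    have ha := hinc h2 a (htf.trans hfa.le) le_rfl
    refine Unf.down a f W c htf hfa ?_ ?_ ?_ ?_ ?_ ?_
    · intro b hb hba
      have e1 := hinc h2 b hb hba
      have e3 := hmax b hb hba
      linarith
    · intro b hb hba
      have e1 := hinc h2 b (htf.trans hb.le) hba
      have e3 := hlast b hb hba
      linarith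
    · intro b hb hba
      have e1 := hinc h2 b hb hba
      have e3 := hmin b hb hba
      linarith
    · linarith
    · intro b hb hba
      rw [h3 b (htf.trans hb) hba, heq b hb hba, h2 b (htf.trans hb) hba]
    · exact ih (fun b hb hba => h2 b hb (hba.trans hfa)) (fun b hb hba => h3 b hb (hba.trans hfa))
  | up a f W c htf hfa hmin hlast hmax hW heq hrec ih =>
    have hf := hinc h2 f htf hfa.le
    have ha := hinc h2 a (htf.trans hfa.le) le_rfl
    refine Unf.up a f W c htf hfa ?_ ?_ ?_ ?_ ?_ ?_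
    · intro b hb hba
      have e1 := hinc h2 b hb hba
      have e3 := hmin b hb hba
      linarith
    · intro b hb hba
      have e1 := hinc h2 b (htf.trans hb.le) hba
      have e3 := hlast b hb hba
      linarith
    · intro b hb hba
      have e1 := hinc h2 b hb hba
      have e3 := hmax b hb hba
      linarith
    · linarith
    · intro b hb hba
      rw [h3 b (htf.trans hb) hba, heq b hb hba, h2 b (htf.trans hb) hba]
    · exact ih (fun b hb hba => h2 b hb (hba.trans hfa)) (fun b hb hba => h3 b hb (hba.trans hfa))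

/-- transfer of a surgery to a word with the same letters in `[t,a)` and the same last minimum -/
lemma surg_transfer (Y : Sys A d) {n : ℕ} {w w1 w2 : ℕ → A} {t a : ℕ} {c : List ℕ}
    (hta : t ≤ a) (han : a ≤ n) (hmin : ∀ b, t ≤ b → b ≤ n → ht Y.l w2 a ≤ ht Y.l w2 b)
    (hlast : ∀ b, a < b → b ≤ n → ht Y.l w2 a < ht Y.l w2 b)
    (hU : Unf Y w w1 t a false c) (h2 : ∀ b, t ≤ b → b < a → w2 b = w b) :
    ∃ w', Surg Y n w2 w' t c := by
  refine ⟨fun b => if t ≤ b ∧ b < a then w1 b else w2 b, a, hta, han, hmin, hlast, ?_, ?_⟩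
  · refine unf_congr Y hU h2 ?_
    intro b hb hba
    simp [hb, hba]
  · intro b hb
    have : ¬ (t ≤ b ∧ b < a) := by omega
    simp [this]

/-- case of a cell before the surgery -/
lemma caseL (Y : Sys A d) {n T0 T1 G H1 M : ℕ} {u v : ℕ → A} {t s : ℕ}
    (huv : ∀ b, b < t → v b = u b) (hs : s < H1 * (s / H1 + 1)) (hβ : H1 * (s / H1 + 1) ≤ t)
    (hkey : ∀ b, t < b → b ≤ n → ht Y.l v s + G < ht Y.l v b)
    (hN : Nice Y n T0 T1 G H1 M u s) : Nice Y n T0 T1 G H1 M v s := by
  obtain ⟨m1, m2, m3, m4, m5, w1, c1, ⟨a', hta', han', hmin', hlast', hU', hw1⟩, hc1⟩ := hN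
  have hbef : ∀ b, b ≤ t → ht Y.l v b = ht Y.l u b := fun b hb =>
    ht_congr (fun r hr => huv r (hr.trans_le hb))
  have hst : s ≤ t := (hs.trans_le hβ).le
  have hG0 : (0 : ℤ) ≤ G := by positivity
  have e0 := hbef s hst
  have hcell : H1 * (s / H1) ≤ s := Nat.mul_div_le s H1
  have ha't : a' < t := by
    by_contra hcon
    have h1 := m4 a' han' (Or.inl (hβ.trans (not_lt.1 hcon)))
    have h2 := hmin' s le_rfl (hta'.trans han')
    linarith
  refine ⟨?_, ?_, ?_, ?_, m5, ?_⟩
  · intro b hb
    rw [e0, hbef b (hb.le.trans hst)]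
    exact m1 b hb
  · intro b hb hbn
    by_cases hbt : b ≤ t
    · rw [e0, hbef b hbt]
      exact m2 b hb hbn
    · have := hkey b (not_le.1 hbt) hbn
      linarith
  · intro b hb
    have hbs : b < s := by
      rcases hb with hb | hb
      · exact hb.trans_le hcell
      · omega
    rw [e0, hbef b (hbs.le.trans hst)]
    exact m3 b hb
  · intro b hbn hb
    by_cases hbt : b ≤ t
    · rw [e0, hbef b hbt]
      exact m4 b hbn hb
    · exact hkey b (not_le.1 hbt) hbn
  · have hva' : ht Y.l v a' = ht Y.l u a' := hbef a' ha't.le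
    have hle : ht Y.l u a' ≤ ht Y.l u s := hmin' s le_rfl (hta'.trans han')
    obtain ⟨w2, hw2⟩ := surg_transfer Y (w2 := v) hta' han'
      (fun b hb hbn => by
        by_cases hbt : b ≤ t
        · rw [hva', hbef b hbt]
          exact hmin' b hb hbn
        · have := hkey b (not_le.1 hbt) hbn
          linarith)
      (fun b hb hbn => by
        by_cases hbt : b ≤ t
        · rw [hva', hbef b hbt]
          exact hlast' b hb hbn
        · have := hkey b (not_le.1 hbt) hbn
          linarith)
      hU' (fun b _ hb => huv b (hb.trans ha't))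
    exact ⟨w2, c1, hw2, hc1⟩

/-- case of a cell after the surgery -/
lemma caseR (Y : Sys A d) {n T0 T1 G H1 M : ℕ} {u v : ℕ → A} {a s : ℕ}
    (huv : ∀ b, a ≤ b → v b = u b) (ha : a < H1 * (s / H1))
    (hkey : ∀ b, b < a → ht Y.l v b + G < ht Y.l v s)
    (hN : Nice Y n T0 T1 G H1 M u s) : Nice Y n T0 T1 G H1 M v s := by
  obtain ⟨m1, m2, m3, m4, m5, w1, c1, ⟨a', hta', han', hmin', hlast', hU', hw1⟩, hc1⟩ := hN
  have haft : ∀ b, a ≤ b → ht Y.l v b - ht Y.l v a = ht Y.l u b - ht Y.l u a := fun b hb => by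
    have := incr_congr (f := Y.l) (w := u) (w' := v) hb (fun r hr _ => huv r hr)
    simpa [incr] using this
  have hcell : H1 * (s / H1) ≤ s := Nat.mul_div_le s H1
  have has : a < s := ha.trans_le hcell
  have hG0 : (0 : ℤ) ≤ G := by positivity
  have e0 := haft s has.le
  have hcell2 : s ≤ H1 * (s / H1 + 1) := by
    by_cases hH : H1 = 0
    · subst hH; simp at ha
    · exact (Nat.lt_mul_div_succ s (Nat.pos_of_ne_zero hH)).le
  refine ⟨?_, ?_, ?_, ?_, m5, ?_⟩
  · intro b hb
    by_cases hba : a ≤ b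
    · have e1 := haft b hba
      have := m1 b hb
      linarith
    · have := hkey b (not_le.1 hba)
      linarith
  · intro b hb hbn
    have e1 := haft b (by omega)
    have := m2 b hb hbn
    linarith
  · intro b hb
    by_cases hba : a ≤ b
    · have e1 := haft b hba
      have := m3 b hb
      linarith
    · exact hkey b (not_le.1 hba)
  · intro b hbn hb
    have hsb : s ≤ b := by
      rcases hb with hb | hb
      · exact hcell2.trans hb
      · omega
    have e1 := haft b (has.le.trans hsb)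
    have := m4 b hbn hb
    linarith
  · have e2 := haft a' (has.le.trans hta')
    obtain ⟨w2, hw2⟩ := surg_transfer Y (w2 := v) hta' han'
      (fun b hb hbn => by
        have e1 := haft b (has.le.trans hb)
        have := hmin' b hb hbn
        linarith)
      (fun b hb hbn => by
        have e1 := haft b (has.le.trans (hta'.trans hb.le))
        have := hlast' b hb hbn
        linarith)
      hU' (fun b hb _ => huv b (has.le.trans hb))
    exact ⟨w2, c1, hw2, hc1⟩

theorem main (Y : Sys A d) {n T0 T1 G H1 M : ℕ} (hG : T0 + 1 ≤ G) (hH : 0 < H1)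
    {w w' : ℕ → A} {t : ℕ} {c : List ℕ}
    (hN : Nice Y n T0 T1 G H1 M w t) (hS : Surg Y n w w' t c) (s : ℕ) (hj : s / H1 ≠ t / H1) :
    Nice Y n T0 T1 G H1 M w' s ↔ Nice Y n T0 T1 G H1 M w s := by
  obtain ⟨n1, n2, n3, n4, n5, -⟩ := hN
  obtain ⟨a, hta, han, hmin, hlast, hU, hw⟩ := hS
  obtain ⟨-, -, hU1, -, -⟩ := unf_props Y hU
  have hG' : (T0 : ℤ) + 1 ≤ G := by exact_mod_cast hG
  have hT0 : (0 : ℤ) ≤ T0 := by positivity
  -- cells
  have hα : H1 * (t / H1) ≤ t := Nat.mul_div_le t H1
  have hβ : t < H1 * (t / H1 + 1) := Nat.lt_mul_div_succ t hH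
  have hα' : H1 * (s / H1) ≤ s := Nat.mul_div_le s H1
  have hβ' : s < H1 * (s / H1 + 1) := Nat.lt_mul_div_succ s hH
  have htn : t ≤ n := hta.trans han
  -- heights
  have hbef : ∀ b, b ≤ t → ht Y.l w' b = ht Y.l w b := fun b hb =>
    ht_congr (fun r hr => hw r (Or.inl (hr.trans_le hb)))
  have haft : ∀ b, a ≤ b → ht Y.l w' b - ht Y.l w' a = ht Y.l w b - ht Y.l w a := fun b hb => by
    have := incr_congr (f := Y.l) (w := w) (w' := w') hb (fun r hr _ => hw r (Or.inr hr))
    simpa [incr] using this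
  have haT : a < t + T0 := by
    by_contra hcon
    have h1 := n2 a (not_lt.1 hcon) han
    have h2 := hmin t le_rfl htn
    linarith
  have haT' : (a : ℤ) < t + T0 := by exact_mod_cast haT
  have lip : ∀ b, t ≤ b → ht Y.l w b ≤ ht Y.l w t + ((b : ℤ) - t) ∧
      ht Y.l w t - ((b : ℤ) - t) ≤ ht Y.l w b := by
    intro b hb
    have h1 := abs_le.1 (abs_incr_le Y.l_le w hb)
    simp only [incr] at h1
    constructor <;> linarith [h1.1, h1.2]
  have hlow : ∀ b, t ≤ b → b ≤ n → ht Y.l w t - T0 ≤ ht Y.l w b := by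
    intro b hb hbn
    have h1 := hmin b hb hbn
    have h2 := (lip a hta).2
    linarith
  have haβ : a + 1 < H1 * (t / H1 + 1) := by
    have h1 := n4 _ n5 (Or.inl le_rfl)
    have h2 := (lip _ hβ.le).1
    have h3 : (t : ℤ) + G < ((H1 * (t / H1 + 1) : ℕ) : ℤ) := by linarith
    have h4 : t + G < H1 * (t / H1 + 1) := by exact_mod_cast h3
    omega
  have hup : ∀ b, b ≤ a → ht Y.l w b ≤ ht Y.l w t + T0 := by
    intro b hb
    by_cases hbt : b < t
    · have := n1 b hbt
      linarith
    · have h1 := (lip b (not_lt.1 hbt)).1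
      have h2 : (b : ℤ) ≤ a := by exact_mod_cast hb
      linarith
  have hgt : ht Y.l w' t = ht Y.l w t := hbef t le_rfl
  have hge : ∀ b, t ≤ b → b ≤ n → ht Y.l w t ≤ ht Y.l w' b := by
    intro b hb hbn
    by_cases hba : b ≤ a
    · have := (hU1 b hb hba).1
      linarith
    · have h1 := haft b (not_le.1 hba).le
      have h2 := hmin b hb hbn
      have h3 := (hU1 a hta le_rfl).1
      linarith
  have hga : ∀ b, b ≤ a → ht Y.l w' b ≤ ht Y.l w' a := by
    intro b hb
    by_cases hbt : b < t
    · have h1 := n1 b hbt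
      have h2 := hbef b hbt.le
      have h3 := (hU1 a hta le_rfl).1
      linarith
    · exact (hU1 b (not_lt.1 hbt) hb).2
  rcases lt_or_gt_of_ne hj with hlt | hgt'
  · -- cell before
    have hle : H1 * (s / H1 + 1) ≤ H1 * (t / H1) := Nat.mul_le_mul_left H1 hlt
    have hβt : H1 * (s / H1 + 1) ≤ t := hle.trans hα
    have hst : s ≤ t := (hβ'.trans_le hβt).le
    have e0 := hbef s hst
    have h3s := n3 s (Or.inl (hβ'.trans_le hle))
    constructor
    · intro hN'
      refine caseL Y (u := w') (v := w) (t := t) (fun b hb => (hw b (Or.inl hb)).symm) hβ' hβt ?_ hN'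
      intro b hb hbn
      have h1 := hN'.2.2.2.1 _ hN'.2.2.2.2.1 (Or.inl le_rfl)
      rw [e0, hbef _ hβt] at h1
      have h2 := hlow b hb.le hbn
      rcases Nat.lt_or_ge (H1 * (s / H1 + 1)) (H1 * (t / H1)) with hc | hc
      · have h4 := n3 _ (Or.inl hc)
        linarith
      · have heq : H1 * (s / H1 + 1) = H1 * (t / H1) := le_antisymm hle hc
        obtain ⟨m, hm⟩ : ∃ m, H1 * (t / H1) = m + 1 := ⟨H1 * (t / H1) - 1, by omega⟩
        have h4 := n3 m (Or.inl (by omega))
        have h5 := (ht_step Y.l_le w m).1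
        rw [heq, hm] at h1
        linarith
    · intro hN'
      refine caseL Y (u := w) (v := w') (t := t) (fun b hb => hw b (Or.inl hb)) hβ' hβt ?_ hN'
      intro b hb hbn
      have := hge b hb.le hbn
      linarith
  · -- cell after
    have hle : H1 * (t / H1 + 1) ≤ H1 * (s / H1) := Nat.mul_le_mul_left H1 hgt'
    have haα : a < H1 * (s / H1) := by omega
    have has : a ≤ s := (haα.trans_le hα').le
    have es := haft s has
    constructor
    · intro hN'
      refine caseR Y (u := w') (v := w) (a := a) (fun b hb => (hw b (Or.inr hb)).symm) haα ?_ hN'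
      intro b hb
      obtain ⟨m, hm⟩ : ∃ m, H1 * (t / H1 + 1) = m + 1 := ⟨H1 * (t / H1 + 1) - 1, by omega⟩
      have h1 := hN'.2.2.1 m (Or.inl (by omega))
      have h2 := haft m (by omega)
      have h3 := (ht_step Y.l_le w m).1
      have h4 := n4 _ n5 (Or.inl le_rfl)
      rw [hm] at h4
      have h5 := hup b hb.le
      linarith
    · intro hN'
      refine caseR Y (u := w) (v := w') (a := a) (fun b hb => hw b (Or.inr hb)) haα ?_ hN'
      intro b hb
      have h1 := hN'.2.2.1 a (Or.inl haα)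
      have h2 := hga b hb.le
      linarith

end Pool.Agent.H976R2.SB.TB5b

namespace Pool.Agent.H976R2.SB
open Finset

variable {A : Type} {d : ℕ}

/-- TASK B5b -/
theorem surg_cell_nice (Y : Sys A d) {n T0 T1 G H1 M : ℕ} (hG : T0 + 1 ≤ G) (hH : 0 < H1)
    {w w' : ℕ → A} {t : ℕ} {c : List ℕ}
    (hN : Nice Y n T0 T1 G H1 M w t) (hS : Surg Y n w w' t c) :
    ∀ j, j ≠ t / H1 → niceIn Y n T0 T1 G H1 M w' j = niceIn Y n T0 T1 G H1 M w j := by
  intro j hj
  unfold niceIn
  ext s
  simp only [Finset.mem_filter, Finset.mem_Ico]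
  refine and_congr_right fun hs => ?_
  have hsj : s / H1 = j := Nat.div_eq_of_lt_le (by rw [mul_comm]; exact hs.1)
    (by rw [mul_comm]; exact hs.2)
  exact TB5b.main Y hG hH hN hS s (by rw [hsj]; exact hj)

end Pool.Agent.H976R2.SB
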