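import Pool.Agent.H976R2.SB.B5a
import Pool.Agent.H976R2.SB.B5b

/-! Task B5: the surgery at a nice time does not change the status of the other cells. -/

namespace Pool.Agent.H976R2.SB
open Finset

variable {A : Type} {d : ℕ}

theorem surg_cell (Y : Sys A d) {n T0 T1 G H1 M : ℕ} (hG : T0 + 1 ≤ G) (hH : 0 < H1)
    {w w' : ℕ → A} {t : ℕ} {c : List ℕ}
    (hN : Nice Y n T0 T1 G H1 M w t) (hS : Surg Y n w w' t c) :
    (∀ j, j ≠ t / H1 → (HasCut Y n H1 w' j ↔ HasCut Y n H1 w j)) ∧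
    (∀ j, j ≠ t / H1 → niceIn Y n T0 T1 G H1 M w' j = niceIn Y n T0 T1 G H1 M w j) ∧
    (¬ HasCut Y n H1 w (t / H1) → ∀ s, s / H1 = t / H1 → Cut Y n w' s →
      s ≤ t + T1 ∧ t ≤ s + T1) := by
  obtain ⟨h1, h2⟩ := surg_cell_cuts Y hG hH hN hS
  exact ⟨h1, surg_cell_nice Y hG hH hN hS, h2⟩

end Pool.Agent.H976R2.SB
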