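import Pool.Agent.H976R2.SB.B2

/-! TASK B5a : the surgery at a nice time does not change the cuts of the other cells -/

namespace Pool.Agent.H976R2.SB
open Finset

variable {A : Type} {d : ℕ}

namespace TB5a

/-- the facts used in the comparison of the cuts -/
theorem facts (Y : Sys A d) {n T0 T1 G H1 M : ℕ}
    {w w' : ℕ → A} {t : ℕ} {c : List ℕ}
    (hN : Nice Y n T0 T1 G H1 M w t) (hS : Surg Y n w w' t c) :
    ∃ a, t ≤ a ∧ a ≤ n ∧ a < t + T0 ∧
      (∀ b, b ≤ t → ht Y.l w' b = ht Y.l w b) ∧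
      (∀ b, a ≤ b → ht Y.l w' b - ht Y.l w' a = ht Y.l w b - ht Y.l w a) ∧
      (∀ b, t ≤ b → b ≤ a → ht Y.l w b ≤ ht Y.l w t + T0) ∧
      (∀ b, t ≤ b → b ≤ n → ht Y.l w t - T0 ≤ ht Y.l w b) ∧
      (∀ b, t ≤ b → b ≤ n → ht Y.l w a ≤ ht Y.l w b) ∧
      (∀ b, t ≤ b → b ≤ a → ht Y.l w' t ≤ ht Y.l w' b ∧ ht Y.l w' b ≤ ht Y.l w' a) ∧
      (∀ b, t ≤ b → b ≤ n → ht Y.l w' t ≤ ht Y.l w' b) := by
  obtain ⟨n1, n2, n3, n4, n5, -⟩ := hN
  obtain ⟨a, hta, han, hmin, hlast, hU, heq⟩ := hS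
  have hu := (unf_props Y hU).2.2.1
  have haT : a < t + T0 := by
    by_contra hc
    push Not at hc
    have h1 := n2 a hc han
    have h2 := hmin t le_rfl (hta.trans han)
    linarith
  have hup : ∀ b, t ≤ b → b ≤ a → ht Y.l w b ≤ ht Y.l w t + T0 := by
    intro b h1 h2
    have h3 := (abs_le.1 (abs_incr_le Y.l_le w h1)).2
    simp only [incr] at h3
    omega
  have hlow : ∀ b, t ≤ b → b ≤ n → ht Y.l w t - T0 ≤ ht Y.l w b := by
    intro b h1 h2
    have h3 := (abs_le.1 (abs_incr_le Y.l_le w hta)).1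
    simp only [incr] at h3
    have h4 := hmin b h1 h2
    omega
  have hbef : ∀ b, b ≤ t → ht Y.l w' b = ht Y.l w b := by
    intro b hb
    exact ht_congr fun s hs => heq s (Or.inl (lt_of_lt_of_le hs hb))
  have haft : ∀ b, a ≤ b → ht Y.l w' b - ht Y.l w' a = ht Y.l w b - ht Y.l w a := by
    intro b hb
    have := incr_congr (f := Y.l) (w := w) (w' := w') hb (fun s hs _ => heq s (Or.inr hs))
    simpa [incr] using this
  refine ⟨a, hta, han, haT, hbef, haft, hup, hlow, hmin, hu, ?_⟩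
  intro b h1 h2
  rcases le_total b a with h3 | h3
  · exact (hu b h1 h3).1
  · have h4 := haft b h3
    have h5 := (hu a hta le_rfl).1
    have h6 := hmin b h1 h2
    linarith

theorem low (Y : Sys A d) {n T0 T1 G H1 M : ℕ} (hG : T0 + 1 ≤ G) 
    {w w' : ℕ → A} {t : ℕ} {c : List ℕ}
    (hN : Nice Y n T0 T1 G H1 M w t) (hS : Surg Y n w w' t c) {s : ℕ}
    (hs : s < H1 * (t / H1) ∨ s + T1 < t) : Cut Y n w' s ↔ Cut Y n w s := by
  obtain ⟨a, hta, han, haT, hbef, haft, hup, hlow, hmin, hu, hge⟩ := facts Y hN hS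
  obtain ⟨n1, n2, n3, n4, n5, -⟩ := hN
  have hst : s < t := by
    rcases hs with h | h
    · exact lt_of_lt_of_le h (Nat.mul_div_le t H1)
    · omega
  have h0 := n3 s hs
  have hgt := hbef t le_rfl
  have hgs := hbef s hst.le
  constructor
  · rintro ⟨c1, c2, c3⟩
    refine ⟨c1, fun b hb => ?_, fun b hb1 hb2 => ?_⟩
    · have := c2 b hb
      rwa [hgs, hbef b (hb.trans hst).le] at this
    · rcases le_total b t with h1 | h1
      · have := c3 b hb1 hb2
        rwa [hgs, hbef b h1] at this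
      · have := hlow b h1 hb2
        omega
  · rintro ⟨c1, c2, c3⟩
    refine ⟨c1, fun b hb => ?_, fun b hb1 hb2 => ?_⟩
    · have := c2 b hb
      rwa [hgs, hbef b (hb.trans hst).le]
    · rcases le_total b t with h1 | h1
      · have := c3 b hb1 hb2
        rwa [hgs, hbef b h1]
      · have := hge b h1 hb2
        omega

theorem high (Y : Sys A d) {n T0 T1 G H1 M : ℕ} (hG : T0 + 1 ≤ G) (hH : 0 < H1)
    {w w' : ℕ → A} {t : ℕ} {c : List ℕ}
    (hN : Nice Y n T0 T1 G H1 M w t) (hS : Surg Y n w w' t c) {s : ℕ}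
    (hs : H1 * (t / H1 + 1) ≤ s ∨ t + T1 < s) : Cut Y n w' s ↔ Cut Y n w s := by
  obtain ⟨a, hta, han, haT, hbef, haft, hup, hlow, hmin, hu, hge⟩ := facts Y hN hS
  obtain ⟨n1, n2, n3, n4, n5, -⟩ := hN
  have hst : t < s := by
    rcases hs with h | h
    · exact lt_of_lt_of_le (Nat.lt_mul_div_succ t hH) h
    · omega
  by_cases hsn : s ≤ n
  swap
  · exact ⟨fun h => absurd h.1 hsn, fun h => absurd h.1 hsn⟩
  have h0 := n4 s hsn hs
  have has : a < s := by
    by_contra hc
    push Not at hc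
    have := hup s hst.le hc
    omega
  have hgt := hbef t le_rfl
  have hgs := haft s has.le
  have hmt := hmin t le_rfl (hta.trans han)
  constructor
  · rintro ⟨c1, c2, c3⟩
    refine ⟨c1, fun b hb => ?_, fun b hb1 hb2 => ?_⟩
    · rcases le_total b a with h1 | h1
      · rcases lt_or_ge b t with h2 | h2
        · have := n1 b h2
          omega
        · have := hup b h2 h1
          omega
      · have := c2 b hb
        have h3 := haft b h1
        omega
    · have := c3 b hb1 hb2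
      have h3 := haft b (has.le.trans hb1)
      omega
  · rintro ⟨c1, c2, c3⟩
    refine ⟨c1, fun b hb => ?_, fun b hb1 hb2 => ?_⟩
    · rcases le_total b a with h1 | h1
      · rcases lt_or_ge b t with h2 | h2
        · have h3 := n1 b h2
          have h4 := hbef b h2.le
          have h5 := (hu a hta le_rfl).1
          omega
        · have h3 := (hu b h2 h1).2
          omega
      · have := c2 b hb
        have h3 := haft b h1
        omega
    · have := c3 b hb1 hb2
      have h3 := haft b (has.le.trans hb1)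
      omega

end TB5a

/-- TASK B5 : the surgery at a nice time does not change the cuts of the other cells -/
theorem surg_cell_cuts (Y : Sys A d) {n T0 T1 G H1 M : ℕ} (hG : T0 + 1 ≤ G) (hH : 0 < H1)
    {w w' : ℕ → A} {t : ℕ} {c : List ℕ}
    (hN : Nice Y n T0 T1 G H1 M w t) (hS : Surg Y n w w' t c) :
    (∀ j, j ≠ t / H1 → (HasCut Y n H1 w' j ↔ HasCut Y n H1 w j)) ∧
    (¬ HasCut Y n H1 w (t / H1) → ∀ s, s / H1 = t / H1 → Cut Y n w' s →
      s ≤ t + T1 ∧ t ≤ s + T1) := by
  have key : ∀ j, j ≠ t / H1 → ∀ s, H1 * j ≤ s → s < H1 * (j + 1) →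
      (Cut Y n w' s ↔ Cut Y n w s) := by
    intro j hj s h1 h2
    rcases lt_or_gt_of_ne hj with h | h
    · exact TB5a.low Y hG hN hS (Or.inl (h2.trans_le (Nat.mul_le_mul_left H1 h)))
    · exact TB5a.high Y hG hH hN hS (Or.inl ((Nat.mul_le_mul_left H1 h).trans h1))
  refine ⟨fun j hj => ?_, fun hno s hs hc => ?_⟩
  · constructor
    · rintro ⟨s, h1, h2, h3⟩
      exact ⟨s, h1, h2, (key j hj s h1 h2).1 h3⟩
    · rintro ⟨s, h1, h2, h3⟩
      exact ⟨s, h1, h2, (key j hj s h1 h2).2 h3⟩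
  · have hcell : ∀ (_ : Cut Y n w s), False := by
      intro h
      refine hno ⟨s, ?_, ?_, h⟩
      · rw [← hs]; exact Nat.mul_div_le s H1
      · rw [← hs]; exact Nat.lt_mul_div_succ s hH
    constructor
    · by_contra h
      push Not at h
      exact hcell ((TB5a.high Y hG hH hN hS (Or.inr h)).1 hc)
    · by_contra h
      push Not at h
      exact hcell ((TB5a.low Y hG hN hS (Or.inr h)).1 hc)

end Pool.Agent.H976R2.SB
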