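import Pool.Agent.H976R2.SB.B2
import Pool.Agent.H976R2.SB.B3
import Pool.Agent.H976R2.SB.B5
import Pool.Agent.H976R2.SB.B4

/-! Task B6: the multi-valued map inequality. -/

namespace Pool.Agent.H976R2.SB
open Finset


variable {A : Type} {d : ℕ}

namespace TB6

open Classical in
/-- a cut of the cell `j` (if any) -/
noncomputable def fc (Y : Sys A d) (n H1 : ℕ) (w : ℕ → A) (j : ℕ) : ℕ :=
  if h : HasCut Y n H1 w j then h.choose else 0

lemma fc_spec (Y : Sys A d) {n H1 : ℕ} {w : ℕ → A} {j : ℕ} (h : HasCut Y n H1 w j) :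
    H1 * j ≤ fc Y n H1 w j ∧ fc Y n H1 w j < H1 * (j + 1) ∧ Cut Y n w (fc Y n H1 w j) := by
  unfold fc
  rw [dif_pos h]
  exact h.choose_spec

lemma div_eq {H1 j t : ℕ} (_hH : 0 < H1) (h1 : H1 * j ≤ t) (h2 : t < H1 * (j + 1)) :
    t / H1 = j := by
  refine Nat.div_eq_of_lt_le ?_ ?_
  · rw [mul_comm]; exact h1
  · rw [mul_comm]; exact h2

open Classical in
/-- the bad cells -/
noncomputable def bs (Y : Sys A d) (n T0 T1 G H1 M R0 : ℕ) (w : ℕ → A) : Finset ℕ :=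
  (range (n / H1)).filter (Bad Y n T0 T1 G H1 M R0 w)

/-- the nice times of the bad cells -/
noncomputable def ps (Y : Sys A d) (n T0 T1 G H1 M R0 : ℕ) (w : ℕ → A) : Finset ℕ :=
  (bs Y n T0 T1 G H1 M R0 w).biUnion (fun j => niceIn Y n T0 T1 G H1 M w j)

lemma mem_niceIn (Y : Sys A d) {n T0 T1 G H1 M : ℕ} {w : ℕ → A} {j t : ℕ} :
    t ∈ niceIn Y n T0 T1 G H1 M w j ↔ (H1 * j ≤ t ∧ t < H1 * (j + 1)) ∧
      Nice Y n T0 T1 G H1 M w t := by
  classical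
  unfold niceIn
  rw [Finset.mem_filter, Finset.mem_Ico]

lemma mem_ps (Y : Sys A d) {n T0 T1 G H1 M R0 : ℕ} (hH : 0 < H1) {w : ℕ → A} {t : ℕ}
    (h : t ∈ ps Y n T0 T1 G H1 M R0 w) :
    t / H1 ∈ bs Y n T0 T1 G H1 M R0 w ∧ Nice Y n T0 T1 G H1 M w t := by
  unfold ps at h
  rw [Finset.mem_biUnion] at h
  obtain ⟨j, hj, ht⟩ := h
  rw [mem_niceIn] at ht
  rw [div_eq hH ht.1.1 ht.1.2]
  exact ⟨hj, ht.2⟩

lemma card_ps (Y : Sys A d) {n T0 T1 G H1 M R0 : ℕ} (hH : 0 < H1) (w : ℕ → A) :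
    badNum Y n T0 T1 G H1 M R0 w * R0 ≤ #(ps Y n T0 T1 G H1 M R0 w) := by
  classical
  unfold ps
  rw [Finset.card_biUnion]
  · have : ∀ j ∈ bs Y n T0 T1 G H1 M R0 w, R0 ≤ #(niceIn Y n T0 T1 G H1 M w j) := by
      intro j hj
      unfold bs at hj
      rw [Finset.mem_filter] at hj
      exact hj.2.1
    have h2 := Finset.card_nsmul_le_sum _ _ _ this
    rw [smul_eq_mul] at h2
    exact h2
  · intro i _ j _ hij
    change Disjoint (niceIn Y n T0 T1 G H1 M w i) (niceIn Y n T0 T1 G H1 M w j)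
    rw [Finset.disjoint_left]
    intro t h1 h2
    rw [mem_niceIn] at h1 h2
    apply hij
    rw [← div_eq hH h1.1.1 h1.1.2, ← div_eq hH h2.1.1 h2.1.2]

lemma bad_iff (Y : Sys A d) {n T0 T1 G H1 M R0 : ℕ} (hG : T0 + 1 ≤ G) (hH : 0 < H1)
    {w w' : ℕ → A} {t : ℕ} {c : List ℕ}
    (hN : Nice Y n T0 T1 G H1 M w t) (hS : Surg Y n w w' t c) {j : ℕ} (hj : j ≠ t / H1) :
    Bad Y n T0 T1 G H1 M R0 w' j ↔ Bad Y n T0 T1 G H1 M R0 w j := by
  obtain ⟨h1, h2, -⟩ := surg_cell Y hG hH hN hS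
  unfold Bad
  rw [h1 j hj, h2 j hj]

lemma hasCut (Y : Sys A d) {n T0 T1 G H1 M : ℕ} (hH : 0 < H1)
    {w w' : ℕ → A} {t : ℕ} {c : List ℕ} (hw : Saw Y n w)
    (hN : Nice Y n T0 T1 G H1 M w t) (hS : Surg Y n w w' t c) : HasCut Y n H1 w' (t / H1) := by
  refine ⟨t, Nat.mul_div_le t H1, ?_, (surg_saw Y hS hN.1 hw).2⟩
  exact Nat.lt_mul_div_succ t hH

lemma bs_eq (Y : Sys A d) {n T0 T1 G H1 M R0 : ℕ} (hG : T0 + 1 ≤ G) (hH : 0 < H1)
    {w w' : ℕ → A} {t : ℕ} {c : List ℕ} (hw : Saw Y n w)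
    (hN : Nice Y n T0 T1 G H1 M w t) (hS : Surg Y n w w' t c) :
    bs Y n T0 T1 G H1 M R0 w' = (bs Y n T0 T1 G H1 M R0 w).erase (t / H1) := by
  classical
  ext j
  unfold bs
  rw [Finset.mem_erase, Finset.mem_filter, Finset.mem_filter]
  by_cases hj : j = t / H1
  · subst hj
    constructor
    · rintro ⟨_, h⟩
      exact absurd (hasCut Y hH hw hN hS) h.2
    · rintro ⟨h, _⟩
      exact absurd rfl h
  · rw [bad_iff Y hG hH hN hS hj]
    tauto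

lemma badNum_eq (Y : Sys A d) {n T0 T1 G H1 M R0 : ℕ} (hG : T0 + 1 ≤ G) (hH : 0 < H1)
    {w w' : ℕ → A} {t : ℕ} {c : List ℕ} (hw : Saw Y n w)
    (hN : Nice Y n T0 T1 G H1 M w t) (hS : Surg Y n w w' t c)
    (ht : t / H1 ∈ bs Y n T0 T1 G H1 M R0 w) :
    badNum Y n T0 T1 G H1 M R0 w' = badNum Y n T0 T1 G H1 M R0 w - 1 := by
  have h : #(bs Y n T0 T1 G H1 M R0 w') = #(bs Y n T0 T1 G H1 M R0 w) - 1 := by
    rw [bs_eq Y hG hH hw hN hS, Finset.card_erase_of_mem ht]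
  exact h

lemma mem_saw [Fintype A] (Y : Sys A d) (a0 : A) {n T0 T1 G H1 M : ℕ}
    {w w' : ℕ → A} {t : ℕ} {c : List ℕ} (hw : w ∈ SawSet Y a0 n)
    (hN : Nice Y n T0 T1 G H1 M w t) (hS : Surg Y n w w' t c) : w' ∈ SawSet Y a0 n := by
  rw [mem_SawSet] at hw ⊢
  refine ⟨fun k hk => ?_, (surg_saw Y hS hN.1 hw.2).1⟩
  obtain ⟨a, -, han, -, -, -, h⟩ := hS
  rw [h k (Or.inr (han.trans hk))]
  exact hw.1 k hk

lemma exists_sel (Y : Sys A d) (n T0 T1 G H1 M : ℕ) :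
    ∃ F : (ℕ → A) → ℕ → (ℕ → A) × List ℕ, ∀ w t, Nice Y n T0 T1 G H1 M w t →
      Surg Y n w (F w t).1 t (F w t).2 ∧ cost (F w t).2 ≤ M := by
  have h : ∀ (w : ℕ → A) (t : ℕ), ∃ p : (ℕ → A) × List ℕ, Nice Y n T0 T1 G H1 M w t →
      Surg Y n w p.1 t p.2 ∧ cost p.2 ≤ M := by
    intro w t
    by_cases hN : Nice Y n T0 T1 G H1 M w t
    · obtain ⟨w', c, h1, h2⟩ := hN.2.2.2.2.2
      exact ⟨(w', c), fun _ => ⟨h1, h2⟩⟩
    · exact ⟨(w, []), fun h => absurd h hN⟩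
  choose F hF using h
  exact ⟨F, hF⟩

end TB6

set_option linter.unusedVariables false in
open Classical in
theorem claimA_step [Fintype A] (Y : Sys A d) (a0 : A) {n T0 T1 G H1 M R0 q : ℕ}
    (hG : T0 + 1 ≤ G) (hH : 0 < H1) (hq : 1 ≤ q) :
    q * R0 * #((SawSet Y a0 n).filter (fun w => badNum Y n T0 T1 G H1 M R0 w = q)) ≤
      (n / H1) * (2 * T1 + 1) * M ^ 2 *
        #((SawSet Y a0 n).filter (fun w => badNum Y n T0 T1 G H1 M R0 w = q - 1)) := by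
  obtain ⟨C, hC1, hC2⟩ := exists_codes M
  obtain ⟨F, hF⟩ := TB6.exists_sel Y n T0 T1 G H1 M
  set Aq := (SawSet Y a0 n).filter (fun w => badNum Y n T0 T1 G H1 M R0 w = q) with hAq
  set Aq' := (SawSet Y a0 n).filter (fun w => badNum Y n T0 T1 G H1 M R0 w = q - 1) with hAq'
  have h1 : q * R0 * #Aq ≤ #(Aq.sigma (fun w => TB6.ps Y n T0 T1 G H1 M R0 w)) := by
    rw [Finset.card_sigma]
    have h2 : ∀ w ∈ Aq, q * R0 ≤ #(TB6.ps Y n T0 T1 G H1 M R0 w) := by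
      intro w hw
      rw [hAq, Finset.mem_filter] at hw
      have := TB6.card_ps Y (R0 := R0) (T0 := T0) (T1 := T1) (G := G) (M := M) (n := n) hH w
      rw [hw.2] at this
      exact this
    have h3 := Finset.card_nsmul_le_sum _ _ _ h2
    rw [smul_eq_mul] at h3
    linarith
  have h2 : #(Aq.sigma (fun w => TB6.ps Y n T0 T1 G H1 M R0 w)) ≤
      #(Aq' ×ˢ (range (n / H1) ×ˢ (range (2 * T1 + 1) ×ˢ C))) := by
    refine Finset.card_le_card_of_injOn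
      (fun x => ((F x.1 x.2).1, (x.2 / H1,
        (x.2 + T1 - TB6.fc Y n H1 (F x.1 x.2).1 (x.2 / H1), (F x.1 x.2).2)))) ?_ ?_
    · rintro ⟨w, t⟩ hx
      simp only [Finset.coe_sigma, Set.mem_sigma_iff, Finset.mem_coe] at hx
      obtain ⟨hw, ht⟩ := hx
      obtain ⟨hb, hN⟩ := TB6.mem_ps Y hH ht
      obtain ⟨hS, hc⟩ := hF w t hN
      rw [hAq, Finset.mem_filter] at hw
      have hsaw : Saw Y n w := ((mem_SawSet Y a0 n w).1 hw.1).2
      have hcut := TB6.hasCut Y hH hsaw hN hS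
      obtain ⟨f1, f2, f3⟩ := TB6.fc_spec Y hcut
      have hb' := hb
      unfold TB6.bs at hb'
      rw [Finset.mem_filter] at hb'
      have hbd := (TB6.div_eq hH f1 f2)
      obtain ⟨g1, g2⟩ := (surg_cell Y hG hH hN hS).2.2 hb'.2.2 _ hbd f3
      simp only [Finset.coe_product, Set.mem_prod, Finset.mem_coe]
      refine ⟨?_, hb'.1, ?_, ?_⟩
      · rw [hAq', Finset.mem_filter]
        refine ⟨TB6.mem_saw Y a0 hw.1 hN hS, ?_⟩
        rw [TB6.badNum_eq Y hG hH hsaw hN hS hb, hw.2]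
      · rw [Finset.mem_range]
        omega
      · refine hC2 _ ?_ hc
        obtain ⟨a, -, -, -, -, hu, -⟩ := hS
        exact (unf_props Y hu).2.1
    · rintro ⟨w1, t1⟩ hx1 ⟨w2, t2⟩ hx2 heq
      simp only [Finset.coe_sigma, Set.mem_sigma_iff, Finset.mem_coe] at hx1 hx2
      obtain ⟨hw1, ht1⟩ := hx1
      obtain ⟨hb1, hN1⟩ := TB6.mem_ps Y hH ht1
      obtain ⟨hS1, hc1⟩ := hF w1 t1 hN1
      obtain ⟨hw2, ht2⟩ := hx2
      obtain ⟨hb2, hN2⟩ := TB6.mem_ps Y hH ht2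
      obtain ⟨hS2, hc2⟩ := hF w2 t2 hN2
      simp only [Prod.mk.injEq] at heq
      obtain ⟨e1, e2, e3, e4⟩ := heq
      rw [hAq, Finset.mem_filter] at hw1 hw2
      have hsaw1 : Saw Y n w1 := ((mem_SawSet Y a0 n w1).1 hw1.1).2
      have hsaw2 : Saw Y n w2 := ((mem_SawSet Y a0 n w2).1 hw2.1).2
      have hcut1 := TB6.hasCut Y hH hsaw1 hN1 hS1
      have hcut2 := TB6.hasCut Y hH hsaw2 hN2 hS2
      obtain ⟨f1, f2, f3⟩ := TB6.fc_spec Y hcut1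
      obtain ⟨k1, k2, k3⟩ := TB6.fc_spec Y hcut2
      have hb1' := hb1
      unfold TB6.bs at hb1'
      rw [Finset.mem_filter] at hb1'
      have hb2' := hb2
      unfold TB6.bs at hb2'
      rw [Finset.mem_filter] at hb2'
      obtain ⟨g1, g2⟩ := (surg_cell Y hG hH hN1 hS1).2.2 hb1'.2.2 _ (TB6.div_eq hH f1 f2) f3
      obtain ⟨m1, m2⟩ := (surg_cell Y hG hH hN2 hS2).2.2 hb2'.2.2 _ (TB6.div_eq hH k1 k2) k3
      rw [← e1, ← e2] at e3 m1 m2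
      have ht : t1 = t2 := by omega
      subst ht
      rw [← e1, ← e4] at hS2
      have hw := surg_inj Y hS1 hS2
      subst hw
      rfl
  rw [Finset.card_product, Finset.card_product, Finset.card_product, Finset.card_range,
    Finset.card_range] at h2
  calc q * R0 * #Aq ≤ #Aq' * (n / H1 * ((2 * T1 + 1) * #C)) := h1.trans h2
    _ ≤ #Aq' * (n / H1 * ((2 * T1 + 1) * M ^ 2)) := by gcongr
    _ = (n / H1) * (2 * T1 + 1) * M ^ 2 * #Aq' := by ring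

end Pool.Agent.H976R2.SB
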