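import Pool.Agent.H976R2.SB.B6

/-! TASK B7 : summation of the multi-valued map inequality. -/

namespace Pool.Agent.H976R2.SB
open Finset


variable {A : Type} {d : ℕ}

namespace TB7

theorem geom_sum_le (x : ℕ → ℕ) (B : ℕ) (h : ∀ s, 4 ^ s * x s ≤ B) (S : ℕ) :
    ∑ s ∈ range S, x s ≤ 2 * B := by
  have key : 2 ^ S * ∑ s ∈ range S, x s + 2 * B ≤ 2 ^ (S + 1) * B := by
    induction S with
    | zero => simp
    | succ S ih =>
      rw [sum_range_succ]
      have h1 : 2 ^ S * x S ≤ B :=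
        (Nat.mul_le_mul_right _ (Nat.pow_le_pow_left (by norm_num) S)).trans (h S)
      have e1 : 2 ^ (S + 1) * (∑ s ∈ range S, x s + x S) + 2 * B =
        2 * (2 ^ S * ∑ s ∈ range S, x s + 2 * B) + 2 * (2 ^ S * x S) - 2 * B := by
        have : 2 ^ (S + 1) * (∑ s ∈ range S, x s + x S) =
          2 * (2 ^ S * ∑ s ∈ range S, x s) + 2 * (2 ^ S * x S) := by ring
        omega
      have e2 : 2 ^ (S + 1 + 1) * B = 2 * (2 ^ (S + 1) * B) := by ring
      omega
  have h2 : 2 ^ S * ∑ s ∈ range S, x s ≤ 2 ^ S * (2 * B) := by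
    have : 2 ^ (S + 1) * B = 2 ^ S * (2 * B) := by ring
    omega
  exact Nat.le_of_mul_le_mul_left h2 (by positivity)

end TB7

open Classical in
/-- TASK B7 -/
theorem claimA [Fintype A] (Y : Sys A d) (a0 : A) {n T0 T1 G H1 M R0 q0 : ℕ}
    (hG : T0 + 1 ≤ G) (hH : 0 < H1) (hR : 1 ≤ R0)
    (h : 4 * ((n / H1) * (2 * T1 + 1) * M ^ 2) ≤ R0 * q0) :
    4 ^ q0 * #((SawSet Y a0 n).filter (fun w => 2 * q0 ≤ badNum Y n T0 T1 G H1 M R0 w)) ≤
      2 * #(SawSet Y a0 n) := by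
  set K := (n / H1) * (2 * T1 + 1) * M ^ 2 with hK
  set a : ℕ → ℕ := fun q =>
    #((SawSet Y a0 n).filter (fun w => badNum Y n T0 T1 G H1 M R0 w = q)) with ha
  have hstep : ∀ q, q0 < q → 4 * a q ≤ a (q - 1) := by
    intro q hq
    have h1 : q * R0 * a q ≤ K * a (q - 1) := claimA_step Y a0 hG hH (by omega)
    have h2 : (q * R0) * (4 * a q) ≤ (q * R0) * a (q - 1) := by
      calc (q * R0) * (4 * a q) = 4 * (q * R0 * a q) := by ring
        _ ≤ 4 * (K * a (q - 1)) := Nat.mul_le_mul_left _ h1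
        _ = (4 * K) * a (q - 1) := by ring
        _ ≤ (R0 * q0) * a (q - 1) := Nat.mul_le_mul_right _ h
        _ ≤ (R0 * q) * a (q - 1) :=
            Nat.mul_le_mul_right _ (Nat.mul_le_mul_left _ hq.le)
        _ = (q * R0) * a (q - 1) := by ring
    exact Nat.le_of_mul_le_mul_left h2 (Nat.mul_pos (by omega) (by omega))
  have hpow : ∀ r, 4 ^ r * a (q0 + r) ≤ #(SawSet Y a0 n) := by
    intro r
    induction r with
    | zero => simpa using card_le_card (filter_subset _ _)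
    | succ r ih =>
      have h1 := hstep (q0 + (r + 1)) (by omega)
      have h2 : q0 + (r + 1) - 1 = q0 + r := by omega
      rw [h2] at h1
      calc 4 ^ (r + 1) * a (q0 + (r + 1)) = 4 ^ r * (4 * a (q0 + (r + 1))) := by ring
        _ ≤ 4 ^ r * a (q0 + r) := Nat.mul_le_mul_left _ h1
        _ ≤ _ := ih
  have hsub : (SawSet Y a0 n).filter (fun w => 2 * q0 ≤ badNum Y n T0 T1 G H1 M R0 w) ⊆
      (range (n / H1 + 1)).biUnion (fun s => (SawSet Y a0 n).filter
        (fun w => badNum Y n T0 T1 G H1 M R0 w = q0 + (q0 + s))) := by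
    intro w hw
    rw [mem_filter] at hw
    rw [mem_biUnion]
    have hb : badNum Y n T0 T1 G H1 M R0 w ≤ n / H1 := by
      unfold badNum
      exact (card_le_card (filter_subset _ _)).trans (by simp)
    refine ⟨badNum Y n T0 T1 G H1 M R0 w - 2 * q0, ?_, ?_⟩
    · rw [mem_range]; omega
    · rw [mem_filter]; exact ⟨hw.1, by omega⟩
  have hcard : #((SawSet Y a0 n).filter (fun w => 2 * q0 ≤ badNum Y n T0 T1 G H1 M R0 w)) ≤
      ∑ s ∈ range (n / H1 + 1), a (q0 + (q0 + s)) :=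
    (card_le_card hsub).trans card_biUnion_le
  calc 4 ^ q0 * #((SawSet Y a0 n).filter (fun w => 2 * q0 ≤ badNum Y n T0 T1 G H1 M R0 w))
      ≤ 4 ^ q0 * ∑ s ∈ range (n / H1 + 1), a (q0 + (q0 + s)) := Nat.mul_le_mul_left _ hcard
    _ = ∑ s ∈ range (n / H1 + 1), 4 ^ q0 * a (q0 + (q0 + s)) := by rw [mul_sum]
    _ ≤ 2 * #(SawSet Y a0 n) := by
        refine TB7.geom_sum_le _ _ (fun s => ?_) _
        have := hpow (q0 + s)
        calc 4 ^ s * (4 ^ q0 * a (q0 + (q0 + s))) = 4 ^ (q0 + s) * a (q0 + (q0 + s)) := by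
              rw [pow_add]; ring
          _ ≤ _ := this

end Pool.Agent.H976R2.SB
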