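import Pool.Agent.H976R2.SB.Defs

/-! Basic lemmas for the sub-ballisticity project. -/

namespace Pool.Agent.H976R2.SB
open Finset

variable {A : Type} {d : ℕ}

@[simp] lemma ht_zero (f : A → ℤ) (w : ℕ → A) : ht f w 0 = 0 := by simp [ht]

lemma ht_succ (f : A → ℤ) (w : ℕ → A) (t : ℕ) : ht f w (t + 1) = ht f w t + f (w t) := by
  simp [ht, Finset.sum_range_succ]

lemma incr_self (f : A → ℤ) (w : ℕ → A) (a : ℕ) : incr f w a a = 0 := by simp [incr]

lemma incr_add (f : A → ℤ) (w : ℕ → A) (a b c : ℕ) :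
    incr f w a b + incr f w b c = incr f w a c := by simp [incr]

lemma incr_eq_sum (f : A → ℤ) (w : ℕ → A) {a b : ℕ} (h : a ≤ b) :
    incr f w a b = ∑ t ∈ Ico a b, f (w t) := by
  rw [incr, ht, ht, Finset.sum_Ico_eq_sub _ h]

lemma incr_congr {f : A → ℤ} {w w' : ℕ → A} {a b : ℕ} (hab : a ≤ b)
    (h : ∀ t, a ≤ t → t < b → w' t = w t) : incr f w' a b = incr f w a b := by
  rw [incr_eq_sum f w' hab, incr_eq_sum f w hab]
  refine Finset.sum_congr rfl fun t ht => ?_
  rw [Finset.mem_Ico] at ht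
  rw [h t ht.1 ht.2]

lemma ht_congr {f : A → ℤ} {w w' : ℕ → A} {a : ℕ}
    (h : ∀ t, t < a → w' t = w t) : ht f w' a = ht f w a := by
  have := incr_congr (f := f) (Nat.zero_le a) (fun t _ h2 => h t h2)
  simpa [incr] using this

lemma abs_incr_le {f : A → ℤ} (hf : ∀ a, |f a| ≤ 1) (w : ℕ → A) {a b : ℕ} (h : a ≤ b) :
    |incr f w a b| ≤ (b : ℤ) - a := by
  rw [incr_eq_sum f w h]
  refine (Finset.abs_sum_le_sum_abs _ _).trans ?_
  refine (Finset.sum_le_sum fun t _ => hf (w t)).trans ?_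
  simp [Nat.cast_sub h]

lemma ht_step {f : A → ℤ} (hf : ∀ a, |f a| ≤ 1) (w : ℕ → A) (t : ℕ) :
    ht f w (t + 1) ≤ ht f w t + 1 ∧ ht f w t ≤ ht f w (t + 1) + 1 := by
  have := abs_le.1 (hf (w t))
  rw [ht_succ]
  constructor <;> linarith [this.1, this.2]

/-- linear combination of two weights -/
lemma incr_lin {f g h : A → ℤ} {α β : ℤ} (H : ∀ a, f a = α * g a + β * h a) (w : ℕ → A)
    (a b : ℕ) : incr f w a b = α * incr g w a b + β * incr h w a b := by
  have : ∀ t, ht f w t = α * ht g w t + β * ht h w t := by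
    intro t
    simp only [ht, Finset.mul_sum, ← Finset.sum_add_distrib, H]
  simp only [incr, this]; ring

lemma incr_smul {f g : A → ℤ} {e : ℤ} {w w' : ℕ → A} {a b : ℕ} (hab : a ≤ b)
    (H : ∀ t, a ≤ t → t < b → f (w' t) = e * g (w t)) :
    incr f w' a b = e * incr g w a b := by
  rw [incr_eq_sum f w' hab, incr_eq_sum g w hab, Finset.mul_sum]
  refine Finset.sum_congr rfl fun t ht => ?_
  rw [Finset.mem_Ico] at ht
  exact H t ht.1 ht.2

variable (Y : Sys A d)

/-- equal positions have equal heights -/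
lemma l_eq_of_pos {w : ℕ → A} {a b : ℕ} (h : ∀ k, ht (Y.z k) w a = ht (Y.z k) w b) :
    ht Y.l w a = ht Y.l w b := by
  obtain ⟨i, j, α, β, -, -, H⟩ := Y.l_lin
  have := incr_lin H w a b
  have h1 : incr (Y.z i) w a b = 0 := by simp [incr, h i]
  have h2 : incr (Y.z j) w a b = 0 := by simp [incr, h j]
  rw [h1, h2] at this
  simp only [incr] at this
  linarith

/-- the height changes at most by twice the sup-norm of the displacement -/
lemma abs_incr_l_le {w : ℕ → A} {a b : ℕ} {D : ℤ} (h : ∀ k, |incr (Y.z k) w a b| ≤ D) :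
    |incr Y.l w a b| ≤ 2 * D := by
  obtain ⟨i, j, α, β, hα, hβ, H⟩ := Y.l_lin
  rw [incr_lin H w a b]
  have h1 := h i
  have h2 := h j
  have h3 : |α * incr (Y.z i) w a b| ≤ D := by
    rw [abs_mul]
    calc |α| * |incr (Y.z i) w a b| ≤ 1 * |incr (Y.z i) w a b| :=
          mul_le_mul_of_nonneg_right hα (abs_nonneg _)
      _ ≤ D := by linarith
  have h4 : |β * incr (Y.z j) w a b| ≤ D := by
    rw [abs_mul]
    calc |β| * |incr (Y.z j) w a b| ≤ 1 * |incr (Y.z j) w a b| :=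
          mul_le_mul_of_nonneg_right hβ (abs_nonneg _)
      _ ≤ D := by linarith
  calc _ ≤ _ := abs_add_le _ _
    _ ≤ 2 * D := by linarith

lemma SawOn.mono {w : ℕ → A} {a b a' b' : ℕ} (h : SawOn Y w a b) (ha : a ≤ a') (hb : b' ≤ b) :
    SawOn Y w a' b' := fun u v h1 h2 h3 => h u v (ha.trans h1) h2 (h3.trans hb)

/-- `SawOn` only depends on the letters in `[a,b)` -/
lemma SawOn.congr {w w' : ℕ → A} {a b : ℕ} (h : SawOn Y w a b)
    (hw : ∀ t, a ≤ t → t < b → w' t = w t) : SawOn Y w' a b := by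
  intro u v h1 h2 h3
  obtain ⟨k, hk⟩ := h u v h1 h2 h3
  refine ⟨k, fun hc => hk ?_⟩
  have := incr_congr (f := Y.z k) (w := w) (w' := w') h2.le
    (fun t ht1 ht2 => hw t (h1.trans ht1) (ht2.trans_le h3))
  simp only [incr] at this
  linarith

/-- `SawOn` is preserved by `U` -/
lemma SawOn.mapU {w w' : ℕ → A} {a b : ℕ} (h : SawOn Y w a b)
    (hw : ∀ t, a ≤ t → t < b → w' t = Y.U (w t)) : SawOn Y w' a b := by
  intro u v h1 h2 h3
  by_contra hc
  push Not at hc
  obtain ⟨k, hk⟩ := h u v h1 h2 h3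
  obtain ⟨k', e, hke⟩ := Y.U_lin k
  apply hk
  have h4 : incr (Y.z k) w u v = e * incr (Y.z k') w' u v := by
    refine incr_smul h2.le fun t ht1 ht2 => ?_
    rw [hw t (h1.trans ht1) (ht2.trans_le h3), ← hke, Y.U_U]
  have h5 : incr (Y.z k') w' u v = 0 := by simp [incr, hc k']
  rw [h5] at h4
  simp only [incr] at h4
  linarith

/-- `SawOn` is preserved by `R` -/
lemma SawOn.mapR {w w' : ℕ → A} {a b : ℕ} (h : SawOn Y w a b)
    (hw : ∀ t, a ≤ t → t < b → w' t = Y.R (w t)) : SawOn Y w' a b := by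
  intro u v h1 h2 h3
  by_contra hc
  push Not at hc
  obtain ⟨k, hk⟩ := h u v h1 h2 h3
  obtain ⟨k', e, hke⟩ := Y.R_lin k
  apply hk
  have h4 : incr (Y.z k) w u v = e * incr (Y.z k') w' u v := by
    refine incr_smul h2.le fun t ht1 ht2 => ?_
    rw [hw t (h1.trans ht1) (ht2.trans_le h3), ← hke, Y.R_R]
  have h5 : incr (Y.z k') w' u v = 0 := by simp [incr, hc k']
  rw [h5] at h4
  simp only [incr] at h4
  linarith

/-- gluing two self-avoiding pieces at a separating time -/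
lemma SawOn.glue {w : ℕ → A} {a t b : ℕ} (h1 : SawOn Y w a t) (h2 : SawOn Y w t b)
    (h : ∀ u v, a ≤ u → u < t → t < v → v ≤ b → ht Y.l w u ≠ ht Y.l w v) : SawOn Y w a b := by
  intro u v hu huv hv
  by_cases h3 : v ≤ t
  · exact h1 u v hu huv h3
  · by_cases h4 : t ≤ u
    · exact h2 u v h4 huv hv
    · push Not at h3 h4
      by_contra hc
      push Not at hc
      exact h u v hu h4 h3 hv (l_eq_of_pos Y hc)

lemma incr_l_U {w w' : ℕ → A} {a b : ℕ} (hab : a ≤ b)
    (hw : ∀ t, a ≤ t → t < b → w' t = Y.U (w t)) :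
    incr Y.l w' a b = - incr Y.l w a b := by
  have := incr_smul (f := Y.l) (g := Y.l) (e := -1) (w := w) (w' := w') hab
    (fun t h1 h2 => by rw [hw t h1 h2, Y.l_U]; ring)
  rw [this]; ring

lemma incr_l_R {w w' : ℕ → A} {a b : ℕ} (hab : a ≤ b)
    (hw : ∀ t, a ≤ t → t < b → w' t = Y.R (w t)) :
    incr Y.l w' a b = incr Y.l w a b := by
  have := incr_smul (f := Y.l) (g := Y.l) (e := 1) (w := w) (w' := w') hab
    (fun t h1 h2 => by rw [hw t h1 h2, Y.l_R]; ring)
  rw [this]; ring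

lemma incr_y_R {w w' : ℕ → A} {a b : ℕ} (hab : a ≤ b)
    (hw : ∀ t, a ≤ t → t < b → w' t = Y.R (w t)) :
    incr Y.y w' a b = - incr Y.y w a b := by
  have := incr_smul (f := Y.y) (g := Y.y) (e := -1) (w := w) (w' := w') hab
    (fun t h1 h2 => by rw [hw t h1 h2, Y.y_R]; ring)
  rw [this]; ring

/-- heights separate positions -/
lemma exists_ne_of_l_ne {w : ℕ → A} {a b : ℕ} (h : ht Y.l w a ≠ ht Y.l w b) :
    ∃ k, ht (Y.z k) w a ≠ ht (Y.z k) w b := by
  by_contra hc
  push Not at hc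
  exact h (l_eq_of_pos Y hc)

lemma Saw.congr {w w' : ℕ → A} {n : ℕ} (h : Saw Y n w) (hw : ∀ t, t < n → w' t = w t) :
    Saw Y n w' := SawOn.congr Y h fun t _ h2 => hw t h2

lemma mem_SawSet [Fintype A] (a0 : A) (n : ℕ) (w : ℕ → A) :
    w ∈ SawSet Y a0 n ↔ (∀ k, n ≤ k → w k = a0) ∧ Saw Y n w := by
  classical
  unfold SawSet
  simp only [Finset.mem_filter, Finset.mem_image, Finset.mem_univ, true_and]
  constructor
  · rintro ⟨⟨u, rfl⟩, h⟩
    refine ⟨fun k hk => ?_, h⟩
    simp [Nat.not_lt.2 hk]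
  · rintro ⟨h1, h2⟩
    refine ⟨⟨fun i => w i, ?_⟩, h2⟩
    funext k
    by_cases hk : k < n
    · simp [hk]
    · simp [hk, h1 k (Nat.not_lt.1 hk)]

lemma npart_nonneg (x : ℤ) : 0 ≤ npart x := le_max_right _ _
lemma neg_le_npart (x : ℤ) : -x ≤ npart x := le_max_left _ _

lemma cellDfc_nonneg (w : ℕ → A) (s u : ℕ) : 0 ≤ cellDfc Y w s u := by
  unfold cellDfc
  have : 0 ≤ ∑ k, (npart (2 * incr Y.l w (s * u) (s * (u + 1)) + incr (Y.z k) w (s * u) (s * (u + 1))) +
    npart (2 * incr Y.l w (s * u) (s * (u + 1)) - incr (Y.z k) w (s * u) (s * (u + 1)))) :=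
    Finset.sum_nonneg fun k _ => add_nonneg (npart_nonneg _) (npart_nonneg _)
  have h1 := npart_nonneg (incr Y.l w (s * u) (s * (u + 1)))
  have h2 := npart_nonneg (incr Y.y w (s * u) (s * (u + 1)))
  have h3 := npart_nonneg (4 * incr Y.y w (s * u) (s * (u + 1)) - incr Y.l w (s * u) (s * (u + 1)))
  have h4 := npart_nonneg (4 * incr Y.l w (s * u) (s * (u + 1)) - incr Y.y w (s * u) (s * (u + 1)))
  linarith

lemma dfc_nonneg (w : ℕ → A) (s p q : ℕ) : 0 ≤ dfc Y w s p q :=
  Finset.sum_nonneg fun u _ => cellDfc_nonneg Y w s u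

lemma dfc_add (w : ℕ → A) (s : ℕ) {p q r : ℕ} (h1 : p ≤ q) (h2 : q ≤ r) :
    dfc Y w s p q + dfc Y w s q r = dfc Y w s p r := by
  unfold dfc
  exact Finset.sum_Ico_consecutive _ h1 h2

lemma dfc_mono (w : ℕ → A) (s : ℕ) {p q p' q' : ℕ} (h1 : p ≤ p') (h3 : q' ≤ q) :
    dfc Y w s p' q' ≤ dfc Y w s p q := by
  unfold dfc
  exact Finset.sum_le_sum_of_subset_of_nonneg (Finset.Ico_subset_Ico h1 h3)
    fun u _ _ => cellDfc_nonneg Y w s u

/-- every functional of the family is at least `- dfc` on unions of grid cells -/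
lemma neg_dfc_le (w : ℕ → A) (s : ℕ) {p q : ℕ} (h : p ≤ q) :
    (-dfc Y w s p q ≤ incr Y.l w (s * p) (s * q)) ∧
    (-dfc Y w s p q ≤ incr Y.y w (s * p) (s * q)) ∧
    (-dfc Y w s p q ≤ 4 * incr Y.y w (s * p) (s * q) - incr Y.l w (s * p) (s * q)) ∧
    (-dfc Y w s p q ≤ 4 * incr Y.l w (s * p) (s * q) - incr Y.y w (s * p) (s * q)) ∧
    (∀ k, -dfc Y w s p q ≤ 2 * incr Y.l w (s * p) (s * q) + incr (Y.z k) w (s * p) (s * q)) ∧
    (∀ k, -dfc Y w s p q ≤ 2 * incr Y.l w (s * p) (s * q) - incr (Y.z k) w (s * p) (s * q)) := by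
  induction q, h using Nat.le_induction with
  | base =>
    have := dfc_nonneg Y w s p p
    simp only [incr_self]
    refine ⟨by linarith, by linarith, by linarith, by linarith, fun k => by linarith,
      fun k => by linarith⟩
  | succ q hpq ih =>
    obtain ⟨i1, i2, i3, i4, i5, i6⟩ := ih
    have hd : dfc Y w s p (q + 1) = dfc Y w s p q + cellDfc Y w s q := by
      unfold dfc
      rw [Finset.sum_Ico_succ_top hpq]
    have a1 := incr_add Y.l w (s * p) (s * q) (s * (q + 1))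
    have a2 := incr_add Y.y w (s * p) (s * q) (s * (q + 1))
    have n1 := npart_nonneg (incr Y.l w (s * q) (s * (q + 1)))
    have n2 := npart_nonneg (incr Y.y w (s * q) (s * (q + 1)))
    have n3 := npart_nonneg (4 * incr Y.y w (s * q) (s * (q + 1)) - incr Y.l w (s * q) (s * (q + 1)))
    have n4 := npart_nonneg (4 * incr Y.l w (s * q) (s * (q + 1)) - incr Y.y w (s * q) (s * (q + 1)))
    have m1 := neg_le_npart (incr Y.l w (s * q) (s * (q + 1)))
    have m2 := neg_le_npart (incr Y.y w (s * q) (s * (q + 1)))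
    have m3 := neg_le_npart (4 * incr Y.y w (s * q) (s * (q + 1)) - incr Y.l w (s * q) (s * (q + 1)))
    have m4 := neg_le_npart (4 * incr Y.l w (s * q) (s * (q + 1)) - incr Y.y w (s * q) (s * (q + 1)))
    have hS : ∀ k, (npart (2 * incr Y.l w (s * q) (s * (q + 1)) + incr (Y.z k) w (s * q) (s * (q + 1))) +
        npart (2 * incr Y.l w (s * q) (s * (q + 1)) - incr (Y.z k) w (s * q) (s * (q + 1)))) ≤
        ∑ k, (npart (2 * incr Y.l w (s * q) (s * (q + 1)) + incr (Y.z k) w (s * q) (s * (q + 1))) +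
        npart (2 * incr Y.l w (s * q) (s * (q + 1)) - incr (Y.z k) w (s * q) (s * (q + 1)))) := by
      intro k
      exact Finset.single_le_sum (f := fun k => (npart (2 * incr Y.l w (s * q) (s * (q + 1)) + incr (Y.z k) w (s * q) (s * (q + 1))) +
        npart (2 * incr Y.l w (s * q) (s * (q + 1)) - incr (Y.z k) w (s * q) (s * (q + 1)))))
        (fun i _ => add_nonneg (npart_nonneg _) (npart_nonneg _)) (Finset.mem_univ k)
    have hS0 : 0 ≤ ∑ k, (npart (2 * incr Y.l w (s * q) (s * (q + 1)) + incr (Y.z k) w (s * q) (s * (q + 1))) +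
        npart (2 * incr Y.l w (s * q) (s * (q + 1)) - incr (Y.z k) w (s * q) (s * (q + 1)))) :=
      Finset.sum_nonneg fun k _ => add_nonneg (npart_nonneg _) (npart_nonneg _)
    have hc : cellDfc Y w s q = npart (incr Y.l w (s * q) (s * (q + 1))) +
        npart (incr Y.y w (s * q) (s * (q + 1))) +
        npart (4 * incr Y.y w (s * q) (s * (q + 1)) - incr Y.l w (s * q) (s * (q + 1))) +
        npart (4 * incr Y.l w (s * q) (s * (q + 1)) - incr Y.y w (s * q) (s * (q + 1))) +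
        ∑ k, (npart (2 * incr Y.l w (s * q) (s * (q + 1)) + incr (Y.z k) w (s * q) (s * (q + 1))) +
        npart (2 * incr Y.l w (s * q) (s * (q + 1)) - incr (Y.z k) w (s * q) (s * (q + 1)))) := rfl
    rw [hd]
    refine ⟨by linarith, by linarith, by linarith, by linarith, fun k => ?_, fun k => ?_⟩
    · have a3 := incr_add (Y.z k) w (s * p) (s * q) (s * (q + 1))
      have h5 := i5 k
      have hk := hS k
      have p1 := npart_nonneg (2 * incr Y.l w (s * q) (s * (q + 1)) - incr (Y.z k) w (s * q) (s * (q + 1)))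
      have p2 := neg_le_npart (2 * incr Y.l w (s * q) (s * (q + 1)) + incr (Y.z k) w (s * q) (s * (q + 1)))
      linarith
    · have a3 := incr_add (Y.z k) w (s * p) (s * q) (s * (q + 1))
      have h5 := i6 k
      have hk := hS k
      have p1 := npart_nonneg (2 * incr Y.l w (s * q) (s * (q + 1)) + incr (Y.z k) w (s * q) (s * (q + 1)))
      have p2 := neg_le_npart (2 * incr Y.l w (s * q) (s * (q + 1)) - incr (Y.z k) w (s * q) (s * (q + 1)))
      linarith

end Pool.Agent.H976R2.SB
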