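import Pool.Agent.H976R2.SB.Basic

/-! TASK C1: flips of inner segments. -/

namespace Pool.Agent.H976R2.SB.TC1
open Finset

variable {A : Type} {d : ℕ}

lemma flip_cases (Y : Sys A d) (n H1 H : ℕ) (Θ : Finset ℕ) (w : ℕ → A) (t : ℕ) :
    Y.l (flipW Y n H1 H Θ w t) = Y.l (w t) := by
  classical
  unfold flipW
  split_ifs
  · exact Y.l_R _
  · rfl

lemma ht_flip (Y : Sys A d) (n H1 H : ℕ) (Θ : Finset ℕ) (w : ℕ → A) (t : ℕ) :
    ht Y.l (flipW Y n H1 H Θ w) t = ht Y.l w t := by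
  unfold ht
  exact Finset.sum_congr rfl fun k _ => flip_cases Y n H1 H Θ w k

lemma cut_flip (Y : Sys A d) (n H1 H : ℕ) (Θ : Finset ℕ) (w : ℕ → A) (t : ℕ) :
    Cut Y n (flipW Y n H1 H Θ w) t ↔ Cut Y n w t := by
  unfold Cut
  simp only [ht_flip]

lemma can_flip (Y : Sys A d) (n H1 H : ℕ) (Θ : Finset ℕ) (w : ℕ → A) (t : ℕ) :
    Can Y n H1 (flipW Y n H1 H Θ w) t ↔ Can Y n H1 w t := by
  unfold Can
  simp only [cut_flip]

lemma isNxt_flip (Y : Sys A d) (n H1 H : ℕ) (Θ : Finset ℕ) (w : ℕ → A) :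
    IsNxt Y n H1 H (flipW Y n H1 H Θ w) = IsNxt Y n H1 H w := by
  funext c c'
  unfold IsNxt
  simp only [can_flip]

lemma nxt_flip (Y : Sys A d) (n H1 H : ℕ) (Θ : Finset ℕ) (w : ℕ → A) (c : ℕ) :
    nxt Y n H1 H (flipW Y n H1 H Θ w) c = nxt Y n H1 H w c := by
  have h := isNxt_flip Y n H1 H Θ w
  unfold nxt
  rw [h]

lemma nxt_spec (Y : Sys A d) (n H1 H : ℕ) (w : ℕ → A) (c : ℕ) :
    nxt Y n H1 H w c = c ∨ IsNxt Y n H1 H w c (nxt Y n H1 H w c) := by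
  classical
  unfold nxt
  split_ifs with h
  · right
    exact h.choose_spec
  · left; rfl

lemma le_nxt (Y : Sys A d) (n H1 H : ℕ) (w : ℕ → A) (c : ℕ) : c ≤ nxt Y n H1 H w c := by
  rcases nxt_spec Y n H1 H w c with h | h
  · exact h.ge
  · exact h.2.2.1.le

lemma isNxt_of_lt (Y : Sys A d) (n H1 H : ℕ) (w : ℕ → A) {c t : ℕ} (h1 : c ≤ t)
    (h2 : t < nxt Y n H1 H w c) : IsNxt Y n H1 H w c (nxt Y n H1 H w c) := by
  rcases nxt_spec Y n H1 H w c with h | h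
  · omega
  · exact h

lemma seg_unique (Y : Sys A d) (n H1 H : ℕ) (w : ℕ → A) {c1 c2 t : ℕ} (h1 : c1 ≤ t)
    (h2 : t < nxt Y n H1 H w c1) (h3 : c2 ≤ t) (h4 : t < nxt Y n H1 H w c2) : c1 = c2 := by
  have i1 := isNxt_of_lt Y n H1 H w h1 h2
  have i2 := isNxt_of_lt Y n H1 H w h3 h4
  rcases lt_trichotomy c1 c2 with h | h | h
  · exact absurd i2.1 (i1.2.2.2.2 c2 h (by omega))
  · exact h
  · exact absurd i1.1 (i2.2.2.2.2 c1 h (by omega))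

lemma flip_in (Y : Sys A d) (n H1 H : ℕ) (Θ : Finset ℕ) (w : ℕ → A) {c t : ℕ} (hc : c ∈ Θ)
    (h1 : c ≤ t) (h2 : t < nxt Y n H1 H w c) : flipW Y n H1 H Θ w t = Y.R (w t) := by
  classical
  unfold flipW
  rw [if_pos ⟨c, hc, h1, h2⟩]

lemma flip_out (Y : Sys A d) (n H1 H : ℕ) (Θ : Finset ℕ) (w : ℕ → A) {c t : ℕ} (hc : c ∉ Θ)
    (h1 : c ≤ t) (h2 : t < nxt Y n H1 H w c) : flipW Y n H1 H Θ w t = w t := by
  classical
  unfold flipW
  rw [if_neg]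
  rintro ⟨c', hc', h3, h4⟩
  have := seg_unique Y n H1 H w h1 h2 h3 h4
  subst this
  exact hc hc'

lemma flip_none (Y : Sys A d) (n H1 H : ℕ) (Θ : Finset ℕ) (w : ℕ → A) {t : ℕ}
    (h : ¬ ∃ c ∈ Θ, c ≤ t ∧ t < nxt Y n H1 H w c) : flipW Y n H1 H Θ w t = w t := by
  unfold flipW
  rw [if_neg h]

lemma yc_flip (Y : Sys A d) (n H1 H : ℕ) (Θ : Finset ℕ) (w : ℕ → A) (c : ℕ) :
    yc Y n H1 H (flipW Y n H1 H Θ w) c = if c ∈ Θ then - yc Y n H1 H w c else yc Y n H1 H w c := by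
  unfold yc
  rw [nxt_flip]
  split_ifs with h
  · exact incr_y_R Y (le_nxt Y n H1 H w c) fun t h1 h2 => flip_in Y n H1 H Θ w h h1 h2
  · exact incr_congr (le_nxt Y n H1 H w c) fun t h1 h2 => flip_out Y n H1 H Θ w h h1 h2

lemma yc_le (Y : Sys A d) (n H1 H : ℕ) (hH : 0 < H) (w : ℕ → A) (c : ℕ) :
    |yc Y n H1 H w c| ≤ H := by
  unfold yc
  refine (abs_incr_le Y.y_le w (le_nxt Y n H1 H w c)).trans ?_
  rcases nxt_spec Y n H1 H w c with h | h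
  · rw [h]; simp
  · have h1 := h.2.2.2.1
    have h2 := Nat.div_add_mod c H
    have h3 := Nat.div_add_mod (nxt Y n H1 H w c) H
    have h4 := Nat.mod_lt (nxt Y n H1 H w c) hH
    rw [← h1] at h3
    have h5 : nxt Y n H1 H w c ≤ c + H := by omega
    omega

lemma flip_flip (Y : Sys A d) (n H1 H : ℕ) (Θ : Finset ℕ) (w : ℕ → A) :
    flipW Y n H1 H Θ (flipW Y n H1 H Θ w) = w := by
  classical
  funext t
  by_cases h : ∃ c ∈ Θ, c ≤ t ∧ t < nxt Y n H1 H w c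
  · obtain ⟨c, hc, h1, h2⟩ := h
    rw [flip_in Y n H1 H Θ (flipW Y n H1 H Θ w) hc h1 (by rw [nxt_flip]; exact h2),
      flip_in Y n H1 H Θ w hc h1 h2, Y.R_R]
  · rw [flip_none Y n H1 H Θ (flipW Y n H1 H Θ w) (by simpa only [nxt_flip] using h),
      flip_none Y n H1 H Θ w h]

lemma flip_saw (Y : Sys A d) (n H1 H : ℕ) (Θ : Finset ℕ) {w : ℕ → A} (hw : Saw Y n w) :
    Saw Y n (flipW Y n H1 H Θ w) := by
  classical
  intro u v hu huv hv
  by_cases hcan : ∃ c, Can Y n H1 w c ∧ u < c ∧ c ≤ v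
  · obtain ⟨c, hc, h1, h2⟩ := hcan
    apply exists_ne_of_l_ne
    rw [ht_flip, ht_flip]
    have h3 := hc.1.2.1 u h1
    have h4 := hc.1.2.2 v h2 hv
    exact (h3.trans_le h4).ne
  · have hs : SawOn Y w u v := SawOn.mono Y hw hu hv
    by_cases hx : ∃ t, u ≤ t ∧ t < v ∧ ∃ c ∈ Θ, c ≤ t ∧ t < nxt Y n H1 H w c
    · obtain ⟨t, ht1, ht2, c, hc, hc1, hc2⟩ := hx
      have hi := isNxt_of_lt Y n H1 H w hc1 hc2
      have h3 : c ≤ u := by
        by_contra h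
        exact hcan ⟨c, hi.1, by omega, by omega⟩
      have h4 : v < nxt Y n H1 H w c := by
        by_contra h
        exact hcan ⟨_, hi.2.1, by omega, by omega⟩
      have := SawOn.mapR Y (w' := flipW Y n H1 H Θ w) hs (fun s hs1 hs2 =>
        flip_in Y n H1 H Θ w hc (by omega) (by omega))
      exact this u v le_rfl huv le_rfl
    · have := SawOn.congr Y (w' := flipW Y n H1 H Θ w) hs (fun s hs1 hs2 => by
        unfold flipW
        rw [if_neg]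
        rintro ⟨c, hc, h1, h2⟩
        exact hx ⟨s, hs1, hs2, c, hc, h1, h2⟩)
      exact this u v le_rfl huv le_rfl

end Pool.Agent.H976R2.SB.TC1

namespace Pool.Agent.H976R2.SB
open Finset

variable {A : Type} {d : ℕ}

/-- TASK C1 : flips preserve everything except the sign of `yc` -/
theorem flip_props [Fintype A] (Y : Sys A d) (a0 : A) {n H1 H : ℕ} (hH1 : 0 < H1) (hdiv : H1 ∣ H)
    (hH : 0 < H) (Θ : Finset ℕ) {w : ℕ → A} (hw : w ∈ SawSet Y a0 n) :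
    flipW Y n H1 H Θ w ∈ SawSet Y a0 n ∧
    flipW Y n H1 H Θ (flipW Y n H1 H Θ w) = w ∧
    (∀ c, nxt Y n H1 H (flipW Y n H1 H Θ w) c = nxt Y n H1 H w c) ∧
    (∀ c, yc Y n H1 H (flipW Y n H1 H Θ w) c = if c ∈ Θ then - yc Y n H1 H w c else yc Y n H1 H w c) ∧
    (∀ c, |yc Y n H1 H w c| ≤ H) := by
  classical
  rw [mem_SawSet] at hw
  refine ⟨?_, TC1.flip_flip Y n H1 H Θ w, TC1.nxt_flip Y n H1 H Θ w, TC1.yc_flip Y n H1 H Θ w,
    TC1.yc_le Y n H1 H hH w⟩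
  rw [mem_SawSet]
  refine ⟨fun k hk => ?_, TC1.flip_saw Y n H1 H Θ hw.2⟩
  rw [← hw.1 k hk]
  unfold flipW
  rw [if_neg]
  rintro ⟨c, hc, h1, h2⟩
  have hi := TC1.isNxt_of_lt Y n H1 H w h1 h2
  have := hi.2.1.1.1
  omega

end Pool.Agent.H976R2.SB
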