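import Pool.Agent.H976R2.SB.Basic

/-! Task C2: Hoeffding's inequality for signs. -/

namespace Pool.Agent.H976R2.SB
open Finset

/-- TASK C2 : Hoeffding's inequality for signs -/
theorem hoeffding_signs (C : Finset ℕ) (v : ℕ → ℤ) {H : ℕ} (hH : 0 < H)
    (hv : ∀ c ∈ C, |v c| ≤ H) (Λ : ℝ)
    (hΛ : Λ ≤ ∑ c ∈ C, |(v c : ℝ)|) :
    (#(C.powerset.filter (fun Θ => 4 * ∑ c ∈ C, |v c| ≤
      5 * ∑ c ∈ C, (if c ∈ Θ then - v c else v c))) : ℝ) ≤
      Real.exp (-(8 / 25) * Λ / H) * 2 ^ (#C) := by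
  have hHr : (0 : ℝ) < H := by exact_mod_cast hH
  set V : ℝ := ∑ c ∈ C, |(v c : ℝ)| with hV
  set θ : ℝ := 4 / (5 * H) with hθ
  have hθ0 : 0 < θ := by positivity
  have hθH : θ * H = 4 / 5 := by rw [hθ]; field_simp
  -- the generating function
  have hgen : ∑ Θ ∈ C.powerset, Real.exp (θ * ∑ c ∈ C, (if c ∈ Θ then - (v c : ℝ) else v c)) =
      ∏ c ∈ C, (Real.exp (-(θ * v c)) + Real.exp (θ * v c)) := by
    rw [Finset.prod_add]
    refine Finset.sum_congr rfl fun t ht => ?_
    rw [Finset.mem_powerset] at ht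
    rw [Finset.mul_sum, Real.exp_sum]
    have h1 : ∀ c ∈ C, Real.exp (θ * (if c ∈ t then - (v c : ℝ) else v c)) =
        if c ∈ t then Real.exp (-(θ * v c)) else Real.exp (θ * v c) := by
      intro c _
      split_ifs with h
      · congr 1; ring
      · rfl
    rw [Finset.prod_congr rfl h1, Finset.prod_ite]
    congr 1
    · congr 1
      ext c
      simp only [Finset.mem_filter]
      exact ⟨fun h => h.2, fun h => ⟨ht h, h⟩⟩
    · congr 1
      ext c
      simp only [Finset.mem_filter, Finset.mem_sdiff]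
  have hprod : ∏ c ∈ C, (Real.exp (-(θ * v c)) + Real.exp (θ * v c)) ≤
      2 ^ (#C) * Real.exp (θ * (2 / 5) * V) := by
    have h1 : ∀ c ∈ C, Real.exp (-(θ * v c)) + Real.exp (θ * v c) ≤
        2 * Real.exp (θ * (2 / 5) * |(v c : ℝ)|) := by
      intro c hc
      have h2 := Real.cosh_le_exp_half_sq (θ * v c)
      rw [Real.cosh_eq] at h2
      have h3 : (θ * v c) ^ 2 / 2 ≤ θ * (2 / 5) * |(v c : ℝ)| := by
        have h4 : |(v c : ℝ)| ≤ H := by
          have := hv c hc
          exact_mod_cast this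
        have h5 : ((v c : ℝ)) ^ 2 = |(v c : ℝ)| * |(v c : ℝ)| := by
          rw [← sq, sq_abs]
        have h6 : (θ * (v c : ℝ)) ^ 2 / 2 = θ * |(v c : ℝ)| * (θ * |(v c : ℝ)|) / 2 := by
          rw [mul_pow, h5]; ring
        rw [h6]
        have h7 : θ * |(v c : ℝ)| ≤ 4 / 5 := by
          rw [← hθH]
          exact mul_le_mul_of_nonneg_left h4 hθ0.le
        have h8 : 0 ≤ θ * |(v c : ℝ)| := by positivity
        nlinarith [mul_le_mul_of_nonneg_left h7 h8]
      have h9 := Real.exp_le_exp.2 h3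
      linarith
    calc _ ≤ ∏ c ∈ C, 2 * Real.exp (θ * (2 / 5) * |(v c : ℝ)|) :=
          Finset.prod_le_prod (fun c _ => by positivity) h1
      _ = _ := by
          rw [Finset.prod_mul_distrib, Finset.prod_const, ← Real.exp_sum, ← Finset.mul_sum]
  -- Markov
  have hmark : (#(C.powerset.filter (fun Θ => 4 * ∑ c ∈ C, |v c| ≤
      5 * ∑ c ∈ C, (if c ∈ Θ then - v c else v c))) : ℝ) ≤
      Real.exp (-(θ * (4 / 5) * V)) * ∑ Θ ∈ C.powerset,
        Real.exp (θ * ∑ c ∈ C, (if c ∈ Θ then - (v c : ℝ) else v c)) := by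
    rw [Finset.mul_sum C.powerset, Finset.cast_card]
    refine le_trans (Finset.sum_le_sum fun Θ hΘ => ?_)
      (Finset.sum_le_sum_of_subset_of_nonneg
        (f := fun Θ => Real.exp (-(θ * (4 / 5) * V)) *
          Real.exp (θ * ∑ c ∈ C, (if c ∈ Θ then - (v c : ℝ) else v c)))
        (Finset.filter_subset _ _)
        fun Θ _ _ => by positivity)
    rw [Finset.mem_filter] at hΘ
    have h1 : 4 * V ≤ 5 * ∑ c ∈ C, (if c ∈ Θ then - (v c : ℝ) else v c) := by
      have := hΘ.2
      have h2 : ((4 * ∑ c ∈ C, |v c| : ℤ) : ℝ) ≤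
        ((5 * ∑ c ∈ C, (if c ∈ Θ then - v c else v c) : ℤ) : ℝ) := by exact_mod_cast this
      push_cast at h2
      exact h2
    rw [← Real.exp_add]
    apply Real.one_le_exp
    nlinarith [mul_le_mul_of_nonneg_left h1 hθ0.le]
  rw [hgen] at hmark
  calc _ ≤ _ := hmark
    _ ≤ Real.exp (-(θ * (4 / 5) * V)) * (2 ^ (#C) * Real.exp (θ * (2 / 5) * V)) :=
        mul_le_mul_of_nonneg_left hprod (Real.exp_pos _).le
    _ = Real.exp (-(θ * (2 / 5) * V)) * 2 ^ (#C) := by
        have : Real.exp (-(θ * (2 / 5) * V)) =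
            Real.exp (-(θ * (4 / 5) * V)) * Real.exp (θ * (2 / 5) * V) := by
          rw [← Real.exp_add]; congr 1; ring
        rw [this]; ring
    _ ≤ _ := by
        refine mul_le_mul_of_nonneg_right (Real.exp_le_exp.2 ?_) (by positivity)
        have h1 : θ * (2 / 5) * V = 8 / 25 * V / H := by
          rw [hθ]; field_simp; ring
        rw [h1]
        have h2 : 8 / 25 * Λ / H ≤ 8 / 25 * V / H := by
          apply div_le_div_of_nonneg_right _ hHr.le
          linarith
        have h3 : -(8 / 25) * Λ / (H : ℝ) = -(8 / 25 * Λ / H) := by ring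
        rw [h3]
        linarith

end Pool.Agent.H976R2.SB
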