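import Pool.Agent.H976R2.SB.C1
import Pool.Agent.H976R2.SB.C2

/-! The flip bound. -/

namespace Pool.Agent.H976R2.SB
open Finset

variable {A : Type} {d : ℕ}

open Classical in
theorem flip_bound [Fintype A] (Y : Sys A d) (a0 : A) {n H1 H : ℕ} (hH1 : 0 < H1) (hdiv : H1 ∣ H)
    (hH : 0 < H) (C : Finset ℕ) (Λ : ℝ) :
    (#((SawSet Y a0 n).filter (fun w => Λ ≤ ((∑ c ∈ C, |yc Y n H1 H w c| : ℤ) : ℝ) ∧
      4 * ∑ c ∈ C, |yc Y n H1 H w c| ≤ 5 * ∑ c ∈ C, yc Y n H1 H w c)) : ℝ) ≤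
      Real.exp (-(8 / 25) * Λ / H) * #(SawSet Y a0 n) := by
  set P : (ℕ → A) → Prop := fun w => Λ ≤ ((∑ c ∈ C, |yc Y n H1 H w c| : ℤ) : ℝ) ∧
      4 * ∑ c ∈ C, |yc Y n H1 H w c| ≤ 5 * ∑ c ∈ C, yc Y n H1 H w c with hP
  set S := SawSet Y a0 n with hS
  -- the flips are bijections
  have hbij : ∀ Θ : Finset ℕ, #(S.filter P) = #(S.filter (fun w => P (flipW Y n H1 H Θ w))) := by
    intro Θ
    refine Finset.card_bij' (fun w _ => flipW Y n H1 H Θ w) (fun w _ => flipW Y n H1 H Θ w)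
      ?_ ?_ ?_ ?_
    · intro w hw
      rw [mem_filter] at hw ⊢
      obtain ⟨h1, h2, -⟩ := flip_props Y a0 hH1 hdiv hH Θ hw.1
      exact ⟨h1, by rw [h2]; exact hw.2⟩
    · intro w hw
      rw [mem_filter] at hw ⊢
      obtain ⟨h1, h2, -⟩ := flip_props Y a0 hH1 hdiv hH Θ hw.1
      exact ⟨h1, hw.2⟩
    · intro w hw
      rw [mem_filter] at hw
      exact (flip_props Y a0 hH1 hdiv hH Θ hw.1).2.1
    · intro w hw
      rw [mem_filter] at hw
      exact (flip_props Y a0 hH1 hdiv hH Θ hw.1).2.1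
  -- double counting
  have hdc : 2 ^ (#C) * #(S.filter P) =
      ∑ w ∈ S, #(C.powerset.filter (fun Θ => P (flipW Y n H1 H Θ w))) := by
    calc 2 ^ (#C) * #(S.filter P) = ∑ Θ ∈ C.powerset, #(S.filter P) := by
          rw [Finset.sum_const, card_powerset, smul_eq_mul]
      _ = ∑ Θ ∈ C.powerset, #(S.filter (fun w => P (flipW Y n H1 H Θ w))) :=
          Finset.sum_congr rfl fun Θ _ => hbij Θ
      _ = ∑ Θ ∈ C.powerset, ∑ w ∈ S, if P (flipW Y n H1 H Θ w) then 1 else 0 := by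
          refine Finset.sum_congr rfl fun Θ _ => ?_
          rw [Finset.card_filter]
      _ = ∑ w ∈ S, ∑ Θ ∈ C.powerset, if P (flipW Y n H1 H Θ w) then 1 else 0 :=
          Finset.sum_comm
      _ = ∑ w ∈ S, #(C.powerset.filter (fun Θ => P (flipW Y n H1 H Θ w))) := by
          refine Finset.sum_congr rfl fun w _ => ?_
          rw [Finset.card_filter]
  -- each fibre
  have hfib : ∀ w ∈ S, (#(C.powerset.filter (fun Θ => P (flipW Y n H1 H Θ w))) : ℝ) ≤
      Real.exp (-(8 / 25) * Λ / H) * 2 ^ (#C) := by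
    intro w hw
    have hyc : ∀ Θ c, yc Y n H1 H (flipW Y n H1 H Θ w) c =
        if c ∈ Θ then - yc Y n H1 H w c else yc Y n H1 H w c := fun Θ c =>
      (flip_props Y a0 hH1 hdiv hH Θ hw).2.2.2.1 c
    have hle : ∀ c, |yc Y n H1 H w c| ≤ H := (flip_props Y a0 hH1 hdiv hH ∅ hw).2.2.2.2
    have habs : ∀ Θ c, |yc Y n H1 H (flipW Y n H1 H Θ w) c| = |yc Y n H1 H w c| := by
      intro Θ c
      rw [hyc]
      split_ifs
      · exact abs_neg _
      · rfl
    by_cases hΛ : Λ ≤ ((∑ c ∈ C, |yc Y n H1 H w c| : ℤ) : ℝ)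
    · have h1 := hoeffding_signs C (fun c => yc Y n H1 H w c) hH (fun c _ => hle c) Λ
        (by push_cast at hΛ; exact hΛ)
      refine le_trans ?_ h1
      have h2 : C.powerset.filter (fun Θ => P (flipW Y n H1 H Θ w)) ⊆
          C.powerset.filter (fun Θ => 4 * ∑ c ∈ C, |yc Y n H1 H w c| ≤
            5 * ∑ c ∈ C, (if c ∈ Θ then - yc Y n H1 H w c else yc Y n H1 H w c)) := by
        intro Θ hΘ
        rw [mem_filter] at hΘ ⊢
        refine ⟨hΘ.1, ?_⟩
        have h3 := hΘ.2.2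
        simp only [habs] at h3
        simp only [hyc] at h3
        exact h3
      exact_mod_cast card_le_card h2
    · have h2 : C.powerset.filter (fun Θ => P (flipW Y n H1 H Θ w)) = ∅ := by
        rw [Finset.filter_eq_empty_iff]
        intro Θ _ hcon
        apply hΛ
        have h3 := hcon.1
        simp only [habs] at h3
        exact h3
      rw [h2]
      simp only [card_empty, Nat.cast_zero]
      positivity
  have h1 : (2 : ℝ) ^ (#C) * #(S.filter P) ≤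
      #S * (Real.exp (-(8 / 25) * Λ / H) * 2 ^ (#C)) := by
    have : ((2 ^ (#C) * #(S.filter P) : ℕ) : ℝ) =
        ((∑ w ∈ S, #(C.powerset.filter (fun Θ => P (flipW Y n H1 H Θ w))) : ℕ) : ℝ) := by
      rw [hdc]
    push_cast at this
    rw [this]
    calc ∑ w ∈ S, (#(C.powerset.filter (fun Θ => P (flipW Y n H1 H Θ w))) : ℝ)
        ≤ ∑ w ∈ S, Real.exp (-(8 / 25) * Λ / H) * 2 ^ (#C) := Finset.sum_le_sum hfib
      _ = _ := by rw [Finset.sum_const, nsmul_eq_mul]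
  have h2 : (0 : ℝ) < 2 ^ (#C) := by positivity
  have h3 : (2 : ℝ) ^ (#C) * #(S.filter P) ≤
      2 ^ (#C) * (Real.exp (-(8 / 25) * Λ / H) * #S) := by
    calc _ ≤ _ := h1
      _ = _ := by ring
  exact le_of_mul_le_mul_left h3 h2

end Pool.Agent.H976R2.SB
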