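import Pool.Agent.H976R2.SB.A2

/-! Task G1 of helper976 (by helper834): transfer of a block to the unfolded walk. -/

namespace Pool.Agent.H976R2.SB.TG1
open Finset Pool.Agent.H976R2.SB

variable {A : Type} {d : ℕ}

/-- small defect implies monotonicity at scale `S` -/
lemma monoOn_of_dfc (Y : Sys A d) {S s P0 Q0 : ℕ} {w : ℕ → A} (hs : 1 ≤ s)
    (hP : s ∣ P0) (hd1 : dfc Y w s (P0 / s) (Q0 / s) + 2 * s < S) :
    MonoOn Y w S P0 Q0 := by
  intro u v hu huv hv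
  have hd0 := dfc_nonneg Y w s (P0 / s) (Q0 / s)
  have l1 : s * (v / s) ≤ v := Nat.mul_div_le v s
  have l2 : v < s * (v / s) + s := by
    have := Nat.lt_mul_div_succ v (Nat.lt_of_lt_of_le Nat.zero_lt_one hs)
    rw [Nat.mul_add, Nat.mul_one] at this
    exact this
  have r2 : s * ((u + (s - 1)) / s) ≤ u + (s - 1) := Nat.mul_div_le _ s
  have r1 : u ≤ s * ((u + (s - 1)) / s) := by
    have := Nat.lt_mul_div_succ (u + (s - 1)) (Nat.lt_of_lt_of_le Nat.zero_lt_one hs)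
    rw [Nat.mul_add, Nat.mul_one] at this
    omega
  set u' := (u + (s - 1)) / s with hu'
  set v' := v / s with hv'
  by_cases h : u' ≤ v'
  · have a1 := abs_incr_le Y.l_le w r1
    have a2 := abs_incr_le Y.l_le w l1
    have a3 := (neg_dfc_le Y w s h).1
    have b1 : P0 / s ≤ u' := by
      obtain ⟨a, ha⟩ := hP
      rw [ha, Nat.mul_div_cancel_left _ (Nat.lt_of_lt_of_le Nat.zero_lt_one hs)]
      have : s * a ≤ s * u' := by omega
      exact Nat.le_of_mul_le_mul_left this (Nat.lt_of_lt_of_le Nat.zero_lt_one hs)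
    have b2 : v' ≤ Q0 / s := Nat.div_le_div_right hv
    have a4 := dfc_mono Y w s b1 b2
    rw [abs_le] at a1 a2
    simp only [incr] at a1 a2 a3
    have c1 : ((s * u' : ℕ) : ℤ) ≤ u + s := by
      have : s * u' ≤ u + s := by omega
      exact_mod_cast this
    have c2 : (v : ℤ) ≤ ((s * v' : ℕ) : ℤ) + s := by
      have : v ≤ s * v' + s := by omega
      exact_mod_cast this
    linarith [a1.1, a1.2, a2.1, a2.2]
  · push Not at h
    have h1 : s * (v' + 1) ≤ s * u' := Nat.mul_le_mul_left s h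
    rw [Nat.mul_add, Nat.mul_one] at h1
    have h2 : v ≤ u + s := by omega
    have a1 := abs_incr_le Y.l_le w huv
    rw [abs_le] at a1
    simp only [incr] at a1
    have c : (v : ℤ) ≤ u + s := by exact_mod_cast h2
    linarith [a1.1, a1.2]

lemma incr_cell {Y : Sys A d} {f : A → ℤ} {w w' : ℕ → A} {P Q D u : ℕ}
    (hw : ∀ t, P ≤ t → t < Q → w' t = w t) (hP : P ≤ D * u) (hQ : D * (u + 1) ≤ Q) :
    incr f w' (D * u) (D * (u + 1)) = incr f w (D * u) (D * (u + 1)) :=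
  incr_congr (Nat.mul_le_mul_left D (Nat.le_succ u)) fun t h1 h2 =>
    hw t (hP.trans h1) (h2.trans_le hQ)

lemma cell_bounds {P Q D u : ℕ} (hD : 0 < D) (hP : D ∣ P) (h1 : P / D ≤ u)
    (h2 : u < Q / D) : P ≤ D * u ∧ D * (u + 1) ≤ Q := by
  constructor
  · obtain ⟨a, rfl⟩ := hP
    rw [Nat.mul_div_cancel_left _ hD] at h1
    exact Nat.mul_le_mul_left D h1
  · exact (Nat.mul_le_mul_left D h2).trans (Nat.mul_div_le Q D)

lemma dfc_congr (Y : Sys A d) {w w' : ℕ → A} {P Q s : ℕ} (hs : 0 < s) (hP : s ∣ P)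
    (hw : ∀ t, P ≤ t → t < Q → w' t = w t) :
    dfc Y w' s (P / s) (Q / s) = dfc Y w s (P / s) (Q / s) := by
  unfold dfc
  refine Finset.sum_congr rfl fun u hu => ?_
  rw [Finset.mem_Ico] at hu
  obtain ⟨b1, b2⟩ := cell_bounds hs hP hu.1 hu.2
  have e : ∀ f : A → ℤ, incr f w' (s * u) (s * (u + 1)) = incr f w (s * u) (s * (u + 1)) :=
    fun f => incr_cell (Y := Y) hw b1 b2
  unfold cellDfc
  simp only [e]

lemma lvar_congr (Y : Sys A d) {w w' : ℕ → A} {P Q s : ℕ} (hs : 0 < s) (hP : s ∣ P)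
    (hw : ∀ t, P ≤ t → t < Q → w' t = w t) :
    lvar Y w' s (P / s) (Q / s) = lvar Y w s (P / s) (Q / s) := by
  unfold lvar
  refine Finset.sum_congr rfl fun u hu => ?_
  rw [Finset.mem_Ico] at hu
  obtain ⟨b1, b2⟩ := cell_bounds hs hP hu.1 hu.2
  rw [incr_cell (Y := Y) hw b1 b2]

lemma lvar_mono (Y : Sys A d) (w : ℕ → A) (s : ℕ) {p q p' q' : ℕ} (h1 : p ≤ p')
    (h2 : q' ≤ q) : lvar Y w s p' q' ≤ lvar Y w s p q := by
  unfold lvar
  exact Finset.sum_le_sum_of_subset_of_nonneg (Finset.Ico_subset_Ico h1 h2)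
    fun u _ _ => abs_nonneg _

end Pool.Agent.H976R2.SB.TG1

namespace Pool.Agent.H976R2.SB
open Finset

variable {A : Type} {d : ℕ}

open TG1 in
/-- TASK G1 : transfer of a block to the unfolded walk -/
theorem transfer (Y : Sys A d) {n S s H P0 Q0 i : ℕ} {w : ℕ → A} {F : Finset ℕ} {Sc : ℕ → ℕ}
    (hU : Unfolded Y n S w F) (hS : 1 ≤ S) (hs : 1 ≤ s) (hsH : s ∣ H) (hH : 0 < H)
    (hP : H ∣ P0) (hQ : H ∣ Q0) (hPQ : P0 ≤ Q0) (hQn : Q0 ≤ n)
    (hd1 : dfc Y w s (P0 / s) (Q0 / s) + 2 * s < S) (hHS : H ≤ S)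
    (hl : 8 * (S : ℤ) ≤ incr Y.l w P0 Q0) (hSc : ∀ j ≤ i, 1 ≤ Sc j ∧ Sc j ∣ H) :
    ∃ P Q, P0 ≤ P ∧ P ≤ Q ∧ Q ≤ Q0 ∧ H ∣ P ∧ H ∣ Q ∧
      incr Y.l w P0 Q0 - 6 * S ≤ incr Y.l (fold Y n F w) P Q ∧
      dfc Y (fold Y n F w) s (P / s) (Q / s) ≤ dfc Y w s (P0 / s) (Q0 / s) ∧
      multiCost Y Sc i (fold Y n F w) P Q ≤ multiCost Y Sc i w P0 Q0 := by
  have hmono : MonoOn Y w S P0 Q0 := monoOn_of_dfc Y hs (hsH.trans hP) hd1
  obtain ⟨a, rfl⟩ := hP
  obtain ⟨b, rfl⟩ := hQ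
  have hab : a ≤ b := Nat.le_of_mul_le_mul_left hPQ hH
  have hS' : (1 : ℤ) ≤ S := by exact_mod_cast hS
  have hHS' : (H : ℤ) ≤ S := by exact_mod_cast hHS
  have hl' : 8 * (S : ℤ) ≤ ht Y.l w (H * b) - ht Y.l w (H * a) := hl
  have hstep : ∀ k, |ht Y.l w (H * (k + 1)) - ht Y.l w (H * k)| ≤ H := by
    intro k
    have := abs_incr_le Y.l_le w (Nat.mul_le_mul_left H (Nat.le_succ k))
    simp only [incr, Nat.succ_eq_add_one] at this
    refine this.trans (le_of_eq ?_)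
    push_cast
    ring
  classical
  -- the left end
  have hex : ∃ k, a ≤ k ∧ ht Y.l w (H * a) + 2 * S ≤ ht Y.l w (H * k) :=
    ⟨b, hab, by linarith⟩
  obtain ⟨hk1, hk2⟩ := Nat.find_spec hex
  have hkb : Nat.find hex ≤ b := Nat.find_min' hex ⟨hab, by linarith⟩
  have hkmin : ∀ m < Nat.find hex, ¬ (a ≤ m ∧ ht Y.l w (H * a) + 2 * S ≤ ht Y.l w (H * m)) :=
    fun m hm => Nat.find_min hex hm
  set k := Nat.find hex with hk
  have hka : a < k := by
    rcases Nat.lt_or_ge a k with h | h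
    · exact h
    · have : k = a := le_antisymm h hk1
      rw [this] at hk2
      linarith
  have hk3 : ht Y.l w (H * k) ≤ ht Y.l w (H * a) + 3 * S := by
    obtain ⟨m, hm⟩ : ∃ m, k = m + 1 := ⟨k - 1, by omega⟩
    have h1 := hkmin m (by omega)
    have h2 : ht Y.l w (H * m) < ht Y.l w (H * a) + 2 * S := by
      by_contra hc
      exact h1 ⟨by omega, not_lt.1 hc⟩
    have h3 := abs_le.1 (hstep m)
    rw [hm]
    linarith [h3.2]
  -- the right end
  have hprop : ht Y.l w (H * a) ≤ ht Y.l w (H * b) - 2 * S := by linarith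
  have hm1 : ht Y.l w (H * Nat.findGreatest (fun k => ht Y.l w (H * k) ≤ ht Y.l w (H * b) - 2 * S) b)
      ≤ ht Y.l w (H * b) - 2 * S :=
    Nat.findGreatest_spec (P := fun k => ht Y.l w (H * k) ≤ ht Y.l w (H * b) - 2 * S) hab hprop
  have hma : a ≤ Nat.findGreatest (fun k => ht Y.l w (H * k) ≤ ht Y.l w (H * b) - 2 * S) b :=
    Nat.le_findGreatest (P := fun k => ht Y.l w (H * k) ≤ ht Y.l w (H * b) - 2 * S) hab hprop
  have hmb : Nat.findGreatest (fun k => ht Y.l w (H * k) ≤ ht Y.l w (H * b) - 2 * S) b ≤ b :=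
    Nat.findGreatest_le b
  have hmg : ∀ j, Nat.findGreatest (fun k => ht Y.l w (H * k) ≤ ht Y.l w (H * b) - 2 * S) b < j →
      j ≤ b → ¬ ht Y.l w (H * j) ≤ ht Y.l w (H * b) - 2 * S :=
    fun j h1 h2 => Nat.findGreatest_is_greatest h1 h2
  set m := Nat.findGreatest (fun k => ht Y.l w (H * k) ≤ ht Y.l w (H * b) - 2 * S) b with hm
  have hmb' : m < b := by
    rcases Nat.lt_or_ge m b with h | h
    · exact h
    · have : m = b := le_antisymm hmb h
      rw [this] at hm1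
      linarith
  have hm3 : ht Y.l w (H * b) - 3 * S ≤ ht Y.l w (H * m) := by
    have h1 := hmg (m + 1) (Nat.lt_succ_self m) hmb'
    push Not at h1
    have h3 := abs_le.1 (hstep m)
    linarith [h3.2]
  have hkm : H * k ≤ H * m := by
    by_contra hc
    push Not at hc
    have := hmono (H * m) (H * k) (Nat.mul_le_mul_left H hma) hc.le (Nat.mul_le_mul_left H hkb)
    linarith
  have hint := intact Y hS hU (P := H * a) (p := H * k) (q := H * m) (Q := H * b)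
    (Nat.mul_le_mul_left H hk1) hkm (Nat.mul_le_mul_left H hmb) hQn hmono hk2 (by linarith)
    (by linarith)
  refine ⟨H * k, H * m, Nat.mul_le_mul_left H hk1, hkm, Nat.mul_le_mul_left H hmb,
    Dvd.intro _ rfl, Dvd.intro _ rfl, ?_, ?_, ?_⟩
  · rw [incr_congr hkm hint]
    simp only [incr]
    linarith
  · rw [dfc_congr Y (Nat.lt_of_lt_of_le Nat.zero_lt_one hs) (hsH.trans (Dvd.intro _ rfl)) hint]
    exact dfc_mono Y w s (Nat.div_le_div_right (Nat.mul_le_mul_left H hk1))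
      (Nat.div_le_div_right (Nat.mul_le_mul_left H hmb))
  · unfold multiCost
    refine Finset.sum_le_sum fun j hj => ?_
    have hji : j ≤ i := Nat.lt_succ_iff.1 (Finset.mem_range.1 hj)
    obtain ⟨h1, h2⟩ := hSc j hji
    rw [lvar_congr Y (Nat.lt_of_lt_of_le Nat.zero_lt_one h1) (h2.trans (Dvd.intro _ rfl)) hint]
    have h3 : lvar Y w (Sc j) (H * k / Sc j) (H * m / Sc j) ≤
        lvar Y w (Sc j) (H * a / Sc j) (H * b / Sc j) :=
      lvar_mono Y w (Sc j) (Nat.div_le_div_right (Nat.mul_le_mul_left H hk1))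
        (Nat.div_le_div_right (Nat.mul_le_mul_left H hmb))
    refine mul_le_mul_of_nonneg_left (by exact_mod_cast h3) (Real.log_nonneg ?_)
    have : (0 : ℝ) ≤ (Sc (j + 1) : ℝ) := Nat.cast_nonneg _
    linarith

end Pool.Agent.H976R2.SB
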