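import Pool.Agent.H976R2.SB.Basic

/-! Task D0: first and last visits of a level (helper96). -/

namespace Pool.Agent.H976R2.SB
open Finset

variable {A : Type} {d : ℕ}

theorem level_basic (Y : Sys A d) {n S P Q : ℕ} {w : ℕ → A} (hS : 1 ≤ S) (hPQ : P ≤ Q)
    (hQ : Q ≤ n) (hm : MonoOn Y w S 0 n) {x : ℤ} (h1 : ht Y.l w P + S ≤ x)
    (h2 : x ≤ ht Y.l w Q - S) :
    P ≤ tf Y w x ∧ tf Y w x ≤ tl Y n w x ∧ tl Y n w x ≤ Q ∧
    ht Y.l w (tf Y w x) = x ∧ ht Y.l w (tl Y n w x) = x ∧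
    (∀ a, a < tf Y w x → ht Y.l w a < x) ∧ (∀ b, tl Y n w x < b → b ≤ n → x < ht Y.l w b) := by
  classical
  have hS' : (1 : ℤ) ≤ S := by exact_mod_cast hS
  -- before `P`
  have hbefore : ∀ t, t ≤ P → ht Y.l w t < x := fun t ht' => by
    have := hm t P (Nat.zero_le _) ht' (hPQ.trans hQ)
    linarith
  have hafter : ∀ t, Q ≤ t → t ≤ n → x < ht Y.l w t := fun t ht' htn => by
    have := hm Q t (Nat.zero_le _) ht' htn
    linarith
  -- first time
  have hne : {t : ℕ | x ≤ ht Y.l w t}.Nonempty := ⟨Q, by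
    have := hafter Q le_rfl hQ
    exact this.le⟩
  have htf : x ≤ ht Y.l w (tf Y w x) := Nat.sInf_mem hne
  have htf_min : ∀ a, a < tf Y w x → ht Y.l w a < x := fun a ha => by
    by_contra hcon
    push Not at hcon
    exact absurd (Nat.sInf_le (s := {t : ℕ | x ≤ ht Y.l w t}) hcon) (not_le.2 ha)
  have hPtf : P < tf Y w x := by
    by_contra hcon
    push Not at hcon
    exact absurd htf (not_le.2 (hbefore _ hcon))
  have htfQ : tf Y w x ≤ Q := Nat.sInf_le (s := {t : ℕ | x ≤ ht Y.l w t}) (hafter Q le_rfl hQ).le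
  have htf_eq : ht Y.l w (tf Y w x) = x := by
    obtain ⟨s, hs⟩ : ∃ s, tf Y w x = s + 1 := ⟨tf Y w x - 1, by omega⟩
    have h3 := htf_min s (by omega)
    have h4 := (ht_step Y.l_le w s).1
    rw [hs] at htf ⊢
    linarith
  -- last time
  have htl : ht Y.l w (tl Y n w x) ≤ x :=
    Nat.findGreatest_spec (P := fun t => ht Y.l w t ≤ x) (m := P) (hPQ.trans hQ)
      (hbefore P le_rfl).le
  have htln : tl Y n w x ≤ n := Nat.findGreatest_le n
  have htl_max : ∀ b, tl Y n w x < b → b ≤ n → x < ht Y.l w b := fun b hb hbn => by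
    have := Nat.findGreatest_is_greatest (P := fun t => ht Y.l w t ≤ x) hb hbn
    exact not_le.1 this
  have htlQ : tl Y n w x < Q := by
    by_contra hcon
    push Not at hcon
    exact absurd htl (not_le.2 (hafter _ hcon htln))
  have htl_eq : ht Y.l w (tl Y n w x) = x := by
    have h3 := htl_max (tl Y n w x + 1) (Nat.lt_succ_self _) (by omega)
    have h4 := (ht_step Y.l_le w (tl Y n w x)).1
    linarith
  have htftl : tf Y w x ≤ tl Y n w x :=
    Nat.le_findGreatest (P := fun t => ht Y.l w t ≤ x) (htfQ.trans hQ) htf_eq.le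
  exact ⟨hPtf.le, htftl, htlQ.le, htf_eq, htl_eq, htf_min, htl_max⟩

end Pool.Agent.H976R2.SB
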