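import Pool.Agent.H976R2.SB.D0

/-! TASK D1 : levels whose visits are spread over a long time. -/

namespace Pool.Agent.H976R2.SB.TD1
open Finset Pool.Agent.H976R2.SB

variable {A : Type} {d : ℕ}

/-- counting: a self-avoiding piece of the walk leaves small boxes -/
theorem box_count (Y : Sys A d) {w : ℕ → A} {u v D : ℕ} (huv : u ≤ v) (hsaw : SawOn Y w u v)
    (hD : ∀ k, ∀ t, u ≤ t → t ≤ v → |incr (Y.z k) w u t| ≤ D) :
    v - u + 1 ≤ (2 * D + 1) ^ d := by
  classical
  have h1 : #(Finset.Icc u v) ≤ #(Fintype.piFinset fun _ : Fin d => Finset.Icc (-(D : ℤ)) D) := by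
    apply Finset.card_le_card_of_injOn (fun t => fun k => incr (Y.z k) w u t)
    · intro t h
      rw [Finset.mem_coe, Finset.mem_Icc] at h
      rw [Finset.mem_coe, Fintype.mem_piFinset]
      intro k
      rw [Finset.mem_Icc, ← abs_le]
      exact hD k t h.1 h.2
    · intro t h t' h' heq
      rw [Finset.mem_coe, Finset.mem_Icc] at h h'
      by_contra hne
      have hk : ∀ k, ht (Y.z k) w t = ht (Y.z k) w t' := by
        intro k
        have := congrFun heq k
        simp only [incr] at this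
        linarith
      rcases lt_or_gt_of_ne hne with h3 | h3
      · obtain ⟨k, hk'⟩ := hsaw t t' h.1 h3 h'.2
        exact hk' (hk k)
      · obtain ⟨k, hk'⟩ := hsaw t' t h'.1 h3 h.2
        exact hk' (hk k).symm
  rw [Nat.card_Icc, Fintype.card_piFinset_const, Int.card_Icc] at h1
  have h2 : (D + 1 - -(D : ℤ)).toNat = 2 * D + 1 := by omega
  rw [h2] at h1
  omega

/-- the local lemma: a violating level forces a large defect -/
theorem local_lemma (Y : Sys A d) {w : ℕ → A} {u v s : ℕ} (hs : 1 ≤ s) (huv : u ≤ v)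
    (hsaw : SawOn Y w u v) (hviol : (40 * s) ^ d ≤ v - u) (hl : ht Y.l w u = ht Y.l w v) :
    ∃ D a c : ℕ, u ≤ s * a ∧ s * c ≤ v ∧ a < c ∧
      (∀ t, u ≤ t → t ≤ v → |incr Y.l w u t| ≤ 2 * D) ∧
      ((2 * D + 1 : ℕ) : ℤ) ≤ 10 * dfc Y w s a c := by
  classical
  -- the least bound
  have hex : ∃ D : ℕ, ∀ k : Fin d, ∀ t, u ≤ t → t ≤ v → |incr (Y.z k) w u t| ≤ (D : ℤ) := by
    refine ⟨v - u, fun k t h1 h2 => ?_⟩
    have h3 := abs_incr_le (Y.z_le k) w h1
    have h4 : ((v - u : ℕ) : ℤ) = v - u := by omega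
    rw [h4]
    omega
  set D := Nat.find hex with hDdef
  have hD : ∀ k : Fin d, ∀ t, u ≤ t → t ≤ v → |incr (Y.z k) w u t| ≤ (D : ℤ) := Nat.find_spec hex
  have hD20 : 20 * s ≤ D := by
    by_contra hlt
    push Not at hlt
    have h1 := box_count Y huv hsaw hD
    have h2 : (2 * D + 1) ^ d ≤ (40 * s) ^ d := Nat.pow_le_pow_left (by omega) d
    omega
  obtain ⟨k, t, hut, htv, hkt⟩ : ∃ k : Fin d, ∃ t, u ≤ t ∧ t ≤ v ∧ (D : ℤ) ≤ |incr (Y.z k) w u t| := by
    by_contra hc
    push Not at hc
    have h1 : D - 1 < D := by omega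
    apply Nat.find_min hex h1
    intro k t h2 h3
    have h4 := hc k t h2 h3
    have h5 : ((D - 1 : ℕ) : ℤ) = D - 1 := by omega
    rw [h5]
    omega
  have hDt : D ≤ t - u := by
    have h3 := abs_incr_le (Y.z_le k) w hut
    omega
  have hs0 : 0 < s := hs
  -- grid indices
  obtain ⟨a, ha1, ha2⟩ : ∃ a, u ≤ s * a ∧ s * a ≤ u + s := by
    refine ⟨u / s + 1, ?_, ?_⟩
    · have h1 := Nat.div_add_mod u s
      have h2 := Nat.mod_lt u hs0
      nlinarith
    · have h1 := Nat.div_mul_le_self u s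
      nlinarith
  obtain ⟨b, hb1, hb2⟩ : ∃ b, s * b ≤ t ∧ t ≤ s * b + s := by
    refine ⟨t / s, ?_, ?_⟩
    · exact Nat.mul_div_le t s
    · have h1 := Nat.div_add_mod t s
      have h2 := Nat.mod_lt t hs0
      omega
  obtain ⟨c, hc1, hc2, hbc⟩ : ∃ c, s * c ≤ v ∧ v ≤ s * c + s ∧ b ≤ c := by
    refine ⟨v / s, ?_, ?_, ?_⟩
    · exact Nat.mul_div_le v s
    · have h1 := Nat.div_add_mod v s
      have h2 := Nat.mod_lt v hs0
      omega
    · rw [Nat.le_div_iff_mul_le hs0]
      nlinarith
  have hab : a < b := by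
    by_contra hc
    push Not at hc
    have h1 : s * b ≤ s * a := Nat.mul_le_mul_left s hc
    omega
  have hsab : s * a ≤ s * b := Nat.mul_le_mul_left s hab.le
  have hsbc : s * b ≤ s * c := Nat.mul_le_mul_left s hbc
  -- estimates
  have e1 := abs_le.mp (abs_incr_le (Y.z_le k) w ha1)
  have e2 := abs_le.mp (abs_incr_le (Y.z_le k) w hb1)
  have e3 := incr_add (Y.z k) w u (s * a) t
  have e4 := incr_add (Y.z k) w (s * a) (s * b) t
  obtain ⟨f1, -, -, -, f5, f6⟩ := neg_dfc_le Y w s hab.le
  have g1 := (neg_dfc_le Y w s hbc).1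
  have g2 := incr_add Y.l w (s * a) (s * b) (s * c)
  have g3 := abs_le.mp (abs_incr_le Y.l_le w ha1)
  have g4 := abs_le.mp (abs_incr_le Y.l_le w hc1)
  have g5 : incr Y.l w u v = 0 := by simp [incr, hl]
  have g6 := incr_add Y.l w u (s * a) v
  have g7 := incr_add Y.l w (s * a) (s * c) v
  have h5 := f5 k
  have h6 := f6 k
  have hda := dfc_add Y w s hab.le hbc
  have hd0 := dfc_nonneg Y w s a b
  have hd1 := dfc_nonneg Y w s b c
  refine ⟨D, a, c, ha1, hc1, lt_of_lt_of_le hab hbc, ?_, ?_⟩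
  · intro t' h1 h2
    exact abs_incr_l_le Y (fun k' => by exact_mod_cast hD k' t' h1 h2)
  · rcases abs_cases (incr (Y.z k) w u t) with ⟨h7, _⟩ | ⟨h7, _⟩
    · rw [h7] at hkt
      push_cast
      zify at ha1 ha2 hb1 hb2 hc1 hc2 hD20
      push_cast at e1 e2 g3 g4
      linarith [e1.1, e1.2, e2.1, e2.2, g3.1, g3.2, g4.1, g4.2]
    · rw [h7] at hkt
      push_cast
      zify at ha1 ha2 hb1 hb2 hc1 hc2 hD20
      push_cast at e1 e2 g3 g4
      linarith [e1.1, e1.2, e2.1, e2.2, g3.1, g3.2, g4.1, g4.2]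

end Pool.Agent.H976R2.SB.TD1

namespace Pool.Agent.H976R2.SB
open Finset Pool.Agent.H976R2.SB.TD1

variable {A : Type} {d : ℕ}

open Classical in
/-- TASK D1 : levels whose visits are spread over a long time -/
theorem n1_count (Y : Sys A d) {n S s p q : ℕ} {w : ℕ → A} (hS : 1 ≤ S) (hs : 1 ≤ s)
    (hpq : p ≤ q) (hQ : s * q ≤ n) (hsaw : Saw Y n w) (hm : MonoOn Y w S 0 n) :
    (#((Finset.Icc (ht Y.l w (s * p) + S) (ht Y.l w (s * q) - S)).filter
      (fun x => (40 * s) ^ d ≤ tl Y n w x - tf Y w x)) : ℤ) ≤ 10 * dfc Y w s p q := by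
  set X := (Finset.Icc (ht Y.l w (s * p) + S) (ht Y.l w (s * q) - S)).filter
      (fun x => (40 * s) ^ d ≤ tl Y n w x - tf Y w x) with hX
  have hsp : s * p ≤ s * q := Nat.mul_le_mul_left s hpq
  have hlev : ∀ x ∈ X, s * p ≤ tf Y w x ∧ tf Y w x ≤ tl Y n w x ∧ tl Y n w x ≤ s * q ∧
      ht Y.l w (tf Y w x) = x ∧ ht Y.l w (tl Y n w x) = x ∧
      (∀ a, a < tf Y w x → ht Y.l w a < x) ∧
      (∀ b, tl Y n w x < b → b ≤ n → x < ht Y.l w b) := by
    intro x hx
    rw [hX, Finset.mem_filter, Finset.mem_Icc] at hx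
    exact level_basic Y hS hsp hQ hm hx.1.1 hx.1.2
  have key : ∀ m p0 : ℕ, q - p0 = m → p ≤ p0 → p0 ≤ q →
      (#(X.filter (fun x => s * p0 ≤ tf Y w x)) : ℤ) ≤ 10 * dfc Y w s p0 q := by
    intro m
    induction m using Nat.strong_induction_on with
    | _ m ih =>
      intro p0 h1 h2 h3
      set Z := X.filter (fun x => s * p0 ≤ tf Y w x) with hZ
      rcases Z.eq_empty_or_nonempty with he | hne
      · rw [he, Finset.card_empty]
        have := dfc_nonneg Y w s p0 q
        push_cast
        linarith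
      · -- the smallest violating level
        set x := Z.min' hne with hx
        have hxZ : x ∈ Z := Finset.min'_mem _ _
        have hxX : x ∈ X := (Finset.mem_filter.mp hxZ).1
        have hxp : s * p0 ≤ tf Y w x := (Finset.mem_filter.mp hxZ).2
        obtain ⟨l1, l2, l3, l4, l5, l6, l7⟩ := hlev x hxX
        have hv : (40 * s) ^ d ≤ tl Y n w x - tf Y w x := (Finset.mem_filter.mp hxX).2
        obtain ⟨D, a, c, c1, c2, c3, c4, c5⟩ := local_lemma Y hs l2
          (SawOn.mono Y hsaw (Nat.zero_le _) (l3.trans hQ)) hv (by rw [l4, l5])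
        have hs0 : 0 < s := hs
        have hpa : p0 ≤ a := by
          by_contra hlt
          push Not at hlt
          have : s * a < s * p0 := (Nat.mul_lt_mul_left hs0).mpr hlt
          omega
        have hcq : c ≤ q := by
          by_contra hlt
          push Not at hlt
          have : s * q < s * c := (Nat.mul_lt_mul_left hs0).mpr hlt
          omega
        have hsub : Z ⊆ (Finset.Icc x (x + 2 * D)) ∪ X.filter (fun x => s * c ≤ tf Y w x) := by
          intro x' hx'
          have hx'X : x' ∈ X := (Finset.mem_filter.mp hx').1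
          obtain ⟨m1, m2, m3, m4, m5, m6, m7⟩ := hlev x' hx'X
          have hle : x ≤ x' := Finset.min'_le _ _ hx'
          rw [Finset.mem_union, Finset.mem_Icc, Finset.mem_filter]
          by_cases hv' : tf Y w x' ≤ tl Y n w x
          · left
            refine ⟨hle, ?_⟩
            have h4 : tf Y w x ≤ tf Y w x' := by
              by_contra hlt
              push Not at hlt
              have := l6 _ hlt
              omega
            have h5 := abs_le.mp (c4 _ h4 hv')
            simp only [incr] at h5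
            rw [m4, l4] at h5
            linarith [h5.2]
          · right
            refine ⟨hx'X, ?_⟩
            push Not at hv'
            omega
        have hih := ih (q - c) (by omega) c rfl (by omega) hcq
        have hcard := (Finset.card_le_card hsub).trans (Finset.card_union_le _ _)
        rw [Int.card_Icc] at hcard
        have h6 : (x + 2 * (D : ℤ) + 1 - x).toNat = 2 * D + 1 := by omega
        rw [h6] at hcard
        have h7 := dfc_add Y w s c3.le hcq
        have h8 := dfc_mono Y w s (q := q) (q' := q) hpa le_rfl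
        have h9 : (#Z : ℤ) ≤ ((2 * D + 1 : ℕ) : ℤ) +
            (#(X.filter (fun x => s * c ≤ tf Y w x)) : ℤ) := by exact_mod_cast hcard
        linarith
  have h1 := key (q - p) p rfl le_rfl hpq
  rw [Finset.filter_true_of_mem (fun x hx => (hlev x hx).1)] at h1
  exact h1

end Pool.Agent.H976R2.SB
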