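import Pool.Agent.H976R2.SB.Basic

/-! Task D3 : crossings of a level by the pieces of the unfolding. -/

namespace Pool.Agent.H976R2.SB
open Finset

variable {A : Type} {d : ℕ}

namespace TD3

/-- crossing of the level `z` by the grid cell `u` -/
def Cr (g : ℕ → ℤ) (D : ℕ) (z : ℤ) (u : ℕ) : Prop :=
  (g (D * u) < z ∧ z ≤ g (D * (u + 1))) ∨ (g (D * (u + 1)) < z ∧ z ≤ g (D * u))

open Classical in
/-- crossings in the time interval `[s,e]` -/
noncomputable def Sx (g : ℕ → ℤ) (D : ℕ) (z : ℤ) (s e : ℕ) : Finset ℕ :=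
  (Finset.range e).filter (fun u => s ≤ D * u ∧ D * (u + 1) ≤ e ∧ Cr g D z u)

lemma exists_up (g : ℕ → ℤ) (z : ℤ) {u0 u1 : ℕ} (h : u0 ≤ u1) (h0 : g u0 < z) (h1 : z ≤ g u1) :
    ∃ u, u0 ≤ u ∧ u < u1 ∧ g u < z ∧ z ≤ g (u + 1) := by
  induction u1, h using Nat.le_induction with
  | base => omega
  | succ k hk ih =>
    by_cases h2 : z ≤ g k
    · obtain ⟨u, h3, h4, h5⟩ := ih h2
      exact ⟨u, h3, by omega, h5⟩
    · exact ⟨k, hk, by omega, by omega, h1⟩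

lemma exists_down (g : ℕ → ℤ) (z : ℤ) {u0 u1 : ℕ} (h : u0 ≤ u1) (h0 : z ≤ g u0)
    (h1 : g u1 < z) : ∃ u, u0 ≤ u ∧ u < u1 ∧ z ≤ g u ∧ g (u + 1) < z := by
  induction u1, h using Nat.le_induction with
  | base => omega
  | succ k hk ih =>
    by_cases h2 : g k < z
    · obtain ⟨u, h3, h4, h5⟩ := ih h2
      exact ⟨u, h3, by omega, h5⟩
    · exact ⟨k, hk, by omega, by omega, h1⟩

/-- a crossing between two grid times of `[f,a]` -/
lemma exists_cr (g : ℕ → ℤ) (D : ℕ) (z : ℤ) {f a u0 u1 : ℕ} (hf : f ≤ D * u0)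
    (ha : D * u1 ≤ a) (h : u0 ≤ u1)
    (h01 : (g (D * u0) < z ∧ z ≤ g (D * u1)) ∨ (z ≤ g (D * u0) ∧ g (D * u1) < z)) :
    ∃ u, f ≤ D * u ∧ D * (u + 1) ≤ a ∧ Cr g D z u := by
  rcases h01 with ⟨h0, h1⟩ | ⟨h0, h1⟩
  · obtain ⟨u, h2, h3, h4, h5⟩ := exists_up (fun u => g (D * u)) z h h0 h1
    refine ⟨u, hf.trans (Nat.mul_le_mul_left D h2), ?_, Or.inl ⟨h4, h5⟩⟩
    exact (Nat.mul_le_mul_left D (by omega)).trans ha
  · obtain ⟨u, h2, h3, h4, h5⟩ := exists_down (fun u => g (D * u)) z h h0 h1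
    refine ⟨u, hf.trans (Nat.mul_le_mul_left D h2), ?_, Or.inr ⟨h5, h4⟩⟩
    exact (Nat.mul_le_mul_left D (by omega)).trans ha

open Classical in
lemma mem_Sx (g : ℕ → ℤ) {D : ℕ} (hD : 1 ≤ D) (z : ℤ) (s e u : ℕ) :
    u ∈ Sx g D z s e ↔ s ≤ D * u ∧ D * (u + 1) ≤ e ∧ Cr g D z u := by
  unfold Sx
  rw [Finset.mem_filter, Finset.mem_range]
  constructor
  · exact fun h => h.2
  · refine fun h => ⟨?_, h⟩
    have h1 : 1 * (u + 1) ≤ D * (u + 1) := Nat.mul_le_mul_right _ hD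
    omega

lemma Sx_subset (g : ℕ → ℤ) {D : ℕ} (hD : 1 ≤ D) (z : ℤ) (s : ℕ) {e e' : ℕ} (h : e ≤ e') :
    Sx g D z s e ⊆ Sx g D z s e' := by
  intro u hu
  rw [mem_Sx g hD] at hu ⊢
  exact ⟨hu.1, hu.2.1.trans h, hu.2.2⟩

lemma Sx_card_lt (g : ℕ → ℤ) {D : ℕ} (hD : 1 ≤ D) (z : ℤ) {s e e' u : ℕ} (hse : s ≤ e)
    (h : e ≤ e') (h1 : e ≤ D * u) (h2 : D * (u + 1) ≤ e') (h3 : Cr g D z u) :
    #(Sx g D z s e) + 1 ≤ #(Sx g D z s e') := by
  apply Nat.succ_le_of_lt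
  apply Finset.card_lt_card
  rw [Finset.ssubset_iff_of_subset (Sx_subset g hD z s h)]
  refine ⟨u, (mem_Sx g hD z s e' u).2 ⟨hse.trans h1, h2, h3⟩, fun hc => ?_⟩
  have := ((mem_Sx g hD z s e u).1 hc).2.1
  have h4 : D * (u + 1) = D * u + D := by ring
  omega

/-- one more piece -/
lemma card_step (g : ℕ → ℤ) {D : ℕ} (hD : 1 ≤ D) (z1 z2 : ℤ) {s e e' u : ℕ} (hse : s ≤ e)
    (h : e ≤ e') (h1 : e ≤ D * u) (h2 : D * (u + 1) ≤ e') (h3 : Cr g D z1 u ∨ Cr g D z2 u) :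
    #(Sx g D z1 s e) + #(Sx g D z2 s e) + 1 ≤ #(Sx g D z1 s e') + #(Sx g D z2 s e') := by
  rcases h3 with h3 | h3
  · have a1 := Sx_card_lt g hD z1 hse h h1 h2 h3
    have a2 := Finset.card_le_card (Sx_subset g hD z2 s h)
    omega
  · have a1 := Sx_card_lt g hD z2 hse h h1 h2 h3
    have a2 := Finset.card_le_card (Sx_subset g hD z1 s h)
    omega

lemma unf_le (Y : Sys A d) {w w' : ℕ → A} {t a : ℕ} {dir : Bool} {c : List ℕ}
    (h : Unf Y w w' t a dir c) : t ≤ a := by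
  cases h with
  | flat a dir hta _ _ => exact hta
  | down a f W c htf hfa _ _ _ _ _ _ => exact htf.trans hfa.le
  | up a f W c htf hfa _ _ _ _ _ _ => exact htf.trans hfa.le

lemma key (Y : Sys A d) {w w' : ℕ → A} {t a : ℕ} {dir : Bool} {c : List ℕ}
    (h : Unf Y w w' t a dir c) (D : ℕ) (hD : 1 ≤ D) (z1 z2 : ℤ) (p : ℕ → Bool)
    (H : ∀ f a W : ℕ, f < a →
      ((ht Y.l w t ≤ ht Y.l w f ∧ ht Y.l w a ≤ ht Y.l w t ∧ ht Y.l w a < ht Y.l w f ∧
          (W : ℤ) = ht Y.l w f - ht Y.l w a) ∨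
        (ht Y.l w f ≤ ht Y.l w t ∧ ht Y.l w t ≤ ht Y.l w a ∧ ht Y.l w f < ht Y.l w a ∧
          (W : ℤ) = ht Y.l w a - ht Y.l w f)) →
      p W = true →
      ∃ u, f ≤ D * u ∧ D * (u + 1) ≤ a ∧ (Cr (ht Y.l w) D z1 u ∨ Cr (ht Y.l w) D z2 u)) :
    (c.filter p).length ≤ #(Sx (ht Y.l w) D z1 t a) + #(Sx (ht Y.l w) D z2 t a) := by
  induction h with
  | flat a dir hta hflat heq => simp
  | down a f W c htf hfa hmax hlast hmin hW heq hrec ih =>
    have h1 := hmax t le_rfl (htf.trans hfa.le)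
    have h2 := hmin t le_rfl (htf.trans hfa.le)
    have h3 := hlast a hfa le_rfl
    have s1 := Finset.card_le_card (Sx_subset (ht Y.l w) hD z1 t hfa.le)
    have s2 := Finset.card_le_card (Sx_subset (ht Y.l w) hD z2 t hfa.le)
    by_cases hp : p W = true
    · obtain ⟨u, h4, h5, h6⟩ := H f a W hfa (Or.inl ⟨h1, h2, h3, hW⟩) hp
      have h7 := card_step (ht Y.l w) hD z1 z2 htf hfa.le h4 h5 h6
      rw [List.filter_cons_of_pos hp, List.length_cons]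
      omega
    · rw [List.filter_cons_of_neg hp]
      omega
  | up a f W c htf hfa hmin hlast hmax hW heq hrec ih =>
    have h1 := hmin t le_rfl (htf.trans hfa.le)
    have h2 := hmax t le_rfl (htf.trans hfa.le)
    have h3 := hlast a hfa le_rfl
    have s1 := Finset.card_le_card (Sx_subset (ht Y.l w) hD z1 t hfa.le)
    have s2 := Finset.card_le_card (Sx_subset (ht Y.l w) hD z2 t hfa.le)
    by_cases hp : p W = true
    · obtain ⟨u, h4, h5, h6⟩ := H f a W hfa (Or.inr ⟨h1, h2, h3, hW⟩) hp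
      have h7 := card_step (ht Y.l w) hD z1 z2 htf hfa.le h4 h5 h6
      rw [List.filter_cons_of_pos hp, List.length_cons]
      omega
    · rw [List.filter_cons_of_neg hp]
      omega

/-- change of height between two times -/
lemma ht_close (Y : Sys A d) (w : ℕ → A) {a b : ℕ} (h : a ≤ b) :
    ht Y.l w b ≤ ht Y.l w a + ((b : ℤ) - a) ∧ ht Y.l w a ≤ ht Y.l w b + ((b : ℤ) - a) := by
  have := abs_le.1 (abs_incr_le Y.l_le w h)
  unfold incr at this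
  constructor <;> linarith [this.1, this.2]

lemma Sx_card_le (g : ℕ → ℤ) {D : ℕ} (hD : 1 ≤ D) (z : ℤ) {t a P Q : ℕ}
    (hP : D * P ≤ t) (hQ : a ≤ D * Q) (p : ℕ → Prop) [DecidablePred p]
    (hp : ∀ u, p u ↔ Cr g D z u) :
    #(Sx g D z t a) ≤ #((Finset.Ico P Q).filter p) := by
  apply Finset.card_le_card
  intro u hu
  rw [mem_Sx g hD] at hu
  rw [Finset.mem_filter, Finset.mem_Ico, hp]
  refine ⟨⟨?_, ?_⟩, hu.2.2⟩
  · exact Nat.le_of_mul_le_mul_left (hP.trans hu.1) hD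
  · have : D * (u + 1) ≤ D * Q := hu.2.1.trans hQ
    have := Nat.le_of_mul_le_mul_left this hD
    omega

/-- grid times near the ends of a long interval -/
lemma grid (D f a : ℕ) (hD : 1 ≤ D) (h : f + 4 * D < a) :
    ∃ u0 u1, u0 ≤ u1 ∧ f ≤ D * u0 ∧ D * u0 + 1 ≤ f + D ∧ D * u1 ≤ a ∧ a + 1 ≤ D * u1 + D := by
  have e1 := Nat.div_add_mod (f + D - 1) D
  have e2 := Nat.mod_lt (f + D - 1) hD
  have e3 := Nat.div_add_mod a D
  have e4 := Nat.mod_lt a hD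
  refine ⟨(f + D - 1) / D, a / D, ?_, by omega, by omega, by omega, by omega⟩
  exact Nat.div_le_div_right (by omega)

end TD3

open Classical in
/-- TASK D3 : crossings of a level by the pieces of the unfolding -/
theorem cross_count (Y : Sys A d) {w w' : ℕ → A} {t a : ℕ} {dir : Bool} {c : List ℕ}
    (h : Unf Y w w' t a dir c) (x : ℤ) (hx : ht Y.l w t = x)
    (D P Q : ℕ) (hD : 1 ≤ D) (hP : D * P ≤ t) (hQ : a ≤ D * Q) :
    (c.filter (fun W => decide (4 * D < W))).length ≤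
      #((Finset.Ico P Q).filter (fun u =>
        (ht Y.l w (D * u) < x + D + 1 ∧ x + D + 1 ≤ ht Y.l w (D * (u + 1))) ∨
        (ht Y.l w (D * (u + 1)) < x + D + 1 ∧ x + D + 1 ≤ ht Y.l w (D * u)))) +
      #((Finset.Ico P Q).filter (fun u =>
        (ht Y.l w (D * u) < x - D ∧ x - D ≤ ht Y.l w (D * (u + 1))) ∨
        (ht Y.l w (D * (u + 1)) < x - D ∧ x - D ≤ ht Y.l w (D * u)))) := by
  refine (TD3.key Y h D hD (x + D + 1) (x - D) _ ?_).trans
    (Nat.add_le_add (TD3.Sx_card_le (ht Y.l w) hD _ hP hQ _ fun u => Iff.rfl)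
      (TD3.Sx_card_le (ht Y.l w) hD _ hP hQ _ fun u => Iff.rfl))
  intro f a W hfa hor hW
  rw [decide_eq_true_eq] at hW
  rw [hx] at hor
  have hlen : f + 4 * D < a := by
    have := TD3.ht_close Y w hfa.le
    rcases hor with ⟨_, _, _, h4⟩ | ⟨_, _, _, h4⟩ <;> omega
  obtain ⟨u0, u1, h01, g1, g2, g3, g4⟩ := TD3.grid D f a hD hlen
  have c1 := TD3.ht_close Y w g1
  have c2 := TD3.ht_close Y w g3
  rcases hor with ⟨h1, h2, h3, h4⟩ | ⟨h1, h2, h3, h4⟩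
  · by_cases hc : x + 2 * D < ht Y.l w f
    · obtain ⟨u, k1, k2, k3⟩ := TD3.exists_cr (ht Y.l w) D (x + D + 1) g1 g3 h01
        (Or.inr ⟨by omega, by omega⟩)
      exact ⟨u, k1, k2, Or.inl k3⟩
    · obtain ⟨u, k1, k2, k3⟩ := TD3.exists_cr (ht Y.l w) D (x - D) g1 g3 h01
        (Or.inr ⟨by omega, by omega⟩)
      exact ⟨u, k1, k2, Or.inr k3⟩
  · by_cases hc : x + 2 * D < ht Y.l w a
    · obtain ⟨u, k1, k2, k3⟩ := TD3.exists_cr (ht Y.l w) D (x + D + 1) g1 g3 h01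
        (Or.inl ⟨by omega, by omega⟩)
      exact ⟨u, k1, k2, Or.inl k3⟩
    · obtain ⟨u, k1, k2, k3⟩ := TD3.exists_cr (ht Y.l w) D (x - D) g1 g3 h01
        (Or.inl ⟨by omega, by omega⟩)
      exact ⟨u, k1, k2, Or.inr k3⟩

open Classical in
/-- TASK D3 : the same for all pieces, at scale 1 -/
theorem cross_count_one (Y : Sys A d) {w w' : ℕ → A} {t a : ℕ} {dir : Bool} {c : List ℕ}
    (h : Unf Y w w' t a dir c) (x : ℤ) (hx : ht Y.l w t = x)
    (P Q : ℕ) (hP : P ≤ t) (hQ : a ≤ Q) :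
    c.length ≤
      #((Finset.Ico P Q).filter (fun u =>
        (ht Y.l w u < x + 1 ∧ x + 1 ≤ ht Y.l w (u + 1)) ∨
        (ht Y.l w (u + 1) < x + 1 ∧ x + 1 ≤ ht Y.l w u))) +
      #((Finset.Ico P Q).filter (fun u =>
        (ht Y.l w u < x ∧ x ≤ ht Y.l w (u + 1)) ∨
        (ht Y.l w (u + 1) < x ∧ x ≤ ht Y.l w u))) := by
  have hk := TD3.key Y h 1 le_rfl (x + 1) x (fun _ => true) ?_
  · rw [List.filter_true] at hk
    refine hk.trans
      (Nat.add_le_add (TD3.Sx_card_le (ht Y.l w) le_rfl _ (by omega) (by omega) _ fun u => ?_)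
      (TD3.Sx_card_le (ht Y.l w) le_rfl _ (by omega) (by omega) _ fun u => ?_))
    · unfold TD3.Cr; simp only [one_mul]
    · unfold TD3.Cr; simp only [one_mul]
  intro f a W hfa hor _
  rw [hx] at hor
  rcases hor with ⟨h1, h2, h3, h4⟩ | ⟨h1, h2, h3, h4⟩
  · by_cases hc : x + 1 ≤ ht Y.l w f
    · obtain ⟨u, k1, k2, k3⟩ := TD3.exists_cr (ht Y.l w) 1 (x + 1) (f := f) (a := a) (u0 := f)
        (u1 := a) (by omega) (by omega) hfa.le
        (Or.inr ⟨by rw [one_mul]; omega, by rw [one_mul]; omega⟩)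
      exact ⟨u, k1, k2, Or.inl k3⟩
    · obtain ⟨u, k1, k2, k3⟩ := TD3.exists_cr (ht Y.l w) 1 x (f := f) (a := a) (u0 := f)
        (u1 := a) (by omega) (by omega) hfa.le
        (Or.inr ⟨by rw [one_mul]; omega, by rw [one_mul]; omega⟩)
      exact ⟨u, k1, k2, Or.inr k3⟩
  · by_cases hc : x + 1 ≤ ht Y.l w a
    · obtain ⟨u, k1, k2, k3⟩ := TD3.exists_cr (ht Y.l w) 1 (x + 1) (f := f) (a := a) (u0 := f)
        (u1 := a) (by omega) (by omega) hfa.le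
        (Or.inl ⟨by rw [one_mul]; omega, by rw [one_mul]; omega⟩)
      exact ⟨u, k1, k2, Or.inl k3⟩
    · obtain ⟨u, k1, k2, k3⟩ := TD3.exists_cr (ht Y.l w) 1 x (f := f) (a := a) (u0 := f)
        (u1 := a) (by omega) (by omega) hfa.le
        (Or.inl ⟨by rw [one_mul]; omega, by rw [one_mul]; omega⟩)
      exact ⟨u, k1, k2, Or.inr k3⟩

end Pool.Agent.H976R2.SB
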