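import Pool.Agent.H976R2.SB.D0
import Pool.Agent.H976R2.SB.D3

/-! TASK D4 : total cost of the levels. -/

namespace Pool.Agent.H976R2.SB.TD4
open Finset Pool.Agent.H976R2.SB

variable {A : Type} {d : ℕ}

/-- the integers `x` such that `x + k` is crossed by the step from `a` to `b` -/
theorem count_cross (X : Finset ℤ) (a b k : ℤ) :
    (#(X.filter (fun x => (a < x + k ∧ x + k ≤ b) ∨ (b < x + k ∧ x + k ≤ a))) : ℤ) ≤ |b - a| := by
  have h1 : X.filter (fun x => (a < x + k ∧ x + k ≤ b) ∨ (b < x + k ∧ x + k ≤ a)) ⊆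
      (Finset.Ioc (min a b) (max a b)).image (fun z => z - k) := by
    intro x hx
    rw [mem_filter] at hx
    rw [mem_image]
    refine ⟨x + k, ?_, by ring⟩
    rw [mem_Ioc]
    rcases hx.2 with h | h
    · exact ⟨lt_of_le_of_lt (min_le_left _ _) h.1, le_trans h.2 (le_max_right _ _)⟩
    · exact ⟨lt_of_le_of_lt (min_le_right _ _) h.1, le_trans h.2 (le_max_left _ _)⟩
  have h2 := card_le_card h1
  have h3 : #((Finset.Ioc (min a b) (max a b)).image (fun z => z - k)) ≤
      #(Finset.Ioc (min a b) (max a b)) := card_image_le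
  have h4 : (#(Finset.Ioc (min a b) (max a b)) : ℤ) = max a b - min a b := by
    rw [Int.card_Ioc]
    exact Int.toNat_of_nonneg (by have := min_le_max (a := a) (b := b); linarith)
  have h5 : max a b - min a b = |b - a| := by
    rw [max_sub_min_eq_abs']
    exact abs_sub_comm _ _
  have h6 : (#(X.filter (fun x => (a < x + k ∧ x + k ≤ b) ∨ (b < x + k ∧ x + k ≤ a))) : ℤ) ≤
      #(Finset.Ioc (min a b) (max a b)) := by exact_mod_cast le_trans h2 h3
  linarith

/-- the sum over the levels of the number of crossings is at most the variation -/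
theorem sum_cross (X : Finset ℤ) (g : ℕ → ℤ) (k : ℤ) (P Q : ℕ) :
    ((∑ x ∈ X, #((Finset.Ico P Q).filter (fun u =>
        (g u < x + k ∧ x + k ≤ g (u + 1)) ∨ (g (u + 1) < x + k ∧ x + k ≤ g u))) : ℕ) : ℤ) ≤
      ∑ u ∈ Finset.Ico P Q, |g (u + 1) - g u| := by
  have h1 : ∑ x ∈ X, #((Finset.Ico P Q).filter (fun u =>
        (g u < x + k ∧ x + k ≤ g (u + 1)) ∨ (g (u + 1) < x + k ∧ x + k ≤ g u))) =
      ∑ u ∈ Finset.Ico P Q, #(X.filter (fun x =>
        (g u < x + k ∧ x + k ≤ g (u + 1)) ∨ (g (u + 1) < x + k ∧ x + k ≤ g u))) := by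
    simp only [card_filter]
    exact sum_comm
  rw [h1]
  push_cast
  exact sum_le_sum (fun u _ => count_cross X (g u) (g (u + 1)) k)

/-- pieces have length between 1 and the duration -/
theorem unf_bound (Y : Sys A d) {w w' : ℕ → A} {t a : ℕ} {dir : Bool} {c : List ℕ}
    (h : Unf Y w w' t a dir c) : t ≤ a ∧ ∀ W ∈ c, 1 ≤ W ∧ W ≤ a - t := by
  induction h with
  | flat a dir hta hflat heq => exact ⟨hta, by simp⟩
  | down a f W c htf hfa hmax hlast hmin hW heq hrec ih =>
    refine ⟨le_trans htf hfa.le, ?_⟩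
    intro W' hW'
    rcases List.mem_cons.1 hW' with h1 | h1
    · subst h1
      have h2 := hlast a hfa le_rfl
      have h3 := abs_incr_le Y.l_le w hfa.le
      have h4 : |incr Y.l w f a| = (W' : ℤ) := by
        rw [show incr Y.l w f a = -(W' : ℤ) by unfold incr; linarith, abs_neg, Nat.abs_cast]
      rw [h4] at h3
      constructor
      · omega
      · omega
    · have := ih.2 W' h1
      omega
  | up a f W c htf hfa hmin hlast hmax hW heq hrec ih =>
    refine ⟨le_trans htf hfa.le, ?_⟩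
    intro W' hW'
    rcases List.mem_cons.1 hW' with h1 | h1
    · subst h1
      have h2 := hlast a hfa le_rfl
      have h3 := abs_incr_le Y.l_le w hfa.le
      have h4 : |incr Y.l w f a| = (W' : ℤ) := by
        rw [show incr Y.l w f a = (W' : ℤ) by unfold incr; linarith, Nat.abs_cast]
      rw [h4] at h3
      constructor
      · omega
      · omega
    · have := ih.2 W' h1
      omega

/-- the logarithm of one width -/
theorem log_bound (Sc : ℕ → ℕ) (i W : ℕ) (hW : W ≤ 4 * Sc (i + 1)) :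
    Real.log ((W : ℝ) + 1) ≤ ∑ j ∈ range (i + 1),
      if j = 0 ∨ 4 * Sc j < W then Real.log (4 * (Sc (j + 1) : ℝ) + 1) else 0 := by
  have hpos : ∀ j, 0 ≤ (if j = 0 ∨ 4 * Sc j < W then Real.log (4 * (Sc (j + 1) : ℝ) + 1)
      else 0) := by
    intro j
    split_ifs
    · apply Real.log_nonneg
      have : (0 : ℝ) ≤ Sc (j + 1) := Nat.cast_nonneg _
      linarith
    · exact le_rfl
  have hlog : ∀ j, W ≤ 4 * Sc (j + 1) → Real.log ((W : ℝ) + 1) ≤
      Real.log (4 * (Sc (j + 1) : ℝ) + 1) := by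
    intro j hj
    apply Real.log_le_log
    · have : (0 : ℝ) ≤ W := Nat.cast_nonneg _
      linarith
    · have : (W : ℝ) ≤ 4 * (Sc (j + 1) : ℝ) := by exact_mod_cast hj
      linarith
  induction i with
  | zero =>
    have := hlog 0 hW
    simpa using this
  | succ i ih =>
    rw [sum_range_succ]
    by_cases h : 4 * Sc (i + 1) < W
    · rw [if_pos (Or.inr h)]
      have h1 := hlog (i + 1) hW
      have h2 : 0 ≤ ∑ j ∈ range (i + 1),
        (if j = 0 ∨ 4 * Sc j < W then Real.log (4 * (Sc (j + 1) : ℝ) + 1) else 0) :=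
        sum_nonneg (fun j _ => hpos j)
      linarith
    · have h1 := ih (not_lt.1 h)
      have h2 := hpos (i + 1)
      linarith

/-- the logarithm of the cost -/
theorem log_cost (Sc : ℕ → ℕ) (i : ℕ) (c : List ℕ) (hc : ∀ W ∈ c, W ≤ 4 * Sc (i + 1)) :
    Real.log (cost c : ℝ) ≤ ∑ j ∈ range (i + 1), Real.log (4 * (Sc (j + 1) : ℝ) + 1) *
      ((c.filter (fun W => decide (j = 0 ∨ 4 * Sc j < W))).length : ℝ) := by
  induction c with
  | nil => simp [cost]
  | cons W c ih =>
    have h1 : (cost (W :: c) : ℝ) = ((W : ℝ) + 1) * (cost c : ℝ) := by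
      simp [cost]
    have h2 : (cost c : ℝ) ≠ 0 := by
      have : cost c ≠ 0 := by
        unfold cost
        rw [Ne, List.prod_eq_zero_iff]
        simp
      exact_mod_cast this
    have h3 : ((W : ℝ) + 1) ≠ 0 := by positivity
    rw [h1, Real.log_mul h3 h2]
    have h4 := log_bound Sc i W (hc W (by simp))
    have h5 := ih (fun W' hW' => hc W' (List.mem_cons_of_mem _ hW'))
    have h6 : ∀ j ∈ range (i + 1), Real.log (4 * (Sc (j + 1) : ℝ) + 1) *
      (((W :: c).filter (fun W => decide (j = 0 ∨ 4 * Sc j < W))).length : ℝ) =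
      (if j = 0 ∨ 4 * Sc j < W then Real.log (4 * (Sc (j + 1) : ℝ) + 1) else 0) +
      Real.log (4 * (Sc (j + 1) : ℝ) + 1) *
        ((c.filter (fun W => decide (j = 0 ∨ 4 * Sc j < W))).length : ℝ) := by
      intro j _
      rw [List.filter_cons]
      by_cases h : j = 0 ∨ 4 * Sc j < W
      · rw [if_pos (by simpa using h), if_pos h, List.length_cons]
        push_cast
        ring
      · rw [if_neg (by simpa using h), if_neg h]
        ring
    rw [sum_congr rfl h6, sum_add_distrib]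
    linarith

end Pool.Agent.H976R2.SB.TD4

namespace Pool.Agent.H976R2.SB
open Finset

variable {A : Type} {d : ℕ}

open Classical in
/-- TASK D4 : total cost of the levels -/
theorem cost_sum (Y : Sys A d) {n S T0 P Q i : ℕ} {w : ℕ → A} {Sc : ℕ → ℕ} (hS : 1 ≤ S)
    (hPQ : P ≤ Q) (hQ : Q ≤ n) (hm : MonoOn Y w S 0 n)
    (hSc0 : Sc 0 = 1) (hScm : Monotone Sc) (hP : ∀ j ≤ i, Sc j ∣ P) (hQd : ∀ j ≤ i, Sc j ∣ Q)
    (hT0 : T0 ≤ 4 * Sc (i + 1)) (c : ℤ → List ℕ)
    (hc : ∀ x, ht Y.l w P + S ≤ x → x ≤ ht Y.l w Q - S → ∃ w', Surg Y n w w' (tf Y w x) (c x)) :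
    ∑ x ∈ (Finset.Icc (ht Y.l w P + S) (ht Y.l w Q - S)).filter
      (fun x => tl Y n w x - tf Y w x < T0), Real.log (cost (c x) : ℝ) ≤
      2 * multiCost Y Sc i w P Q := by
  set X := (Finset.Icc (ht Y.l w P + S) (ht Y.l w Q - S)).filter
      (fun x => tl Y n w x - tf Y w x < T0) with hX
  -- data of the level `x`
  have hx : ∀ x ∈ X, ∃ w' a, Unf Y w w' (tf Y w x) a false (c x) ∧ P ≤ tf Y w x ∧ a ≤ Q ∧
      ht Y.l w (tf Y w x) = x ∧ ∀ W ∈ c x, W ≤ 4 * Sc (i + 1) := by
    intro x hx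
    rw [hX, mem_filter, mem_Icc] at hx
    obtain ⟨⟨h1, h2⟩, h3⟩ := hx
    obtain ⟨l1, l2, l3, l4, l5, l6, l7⟩ := level_basic Y hS hPQ hQ hm h1 h2
    obtain ⟨w', a, s1, s2, s3, s4, s5, s6⟩ := hc x h1 h2
    have hale : a ≤ tl Y n w x := by
      unfold tl
      apply Nat.le_findGreatest s2
      have := s3 (tf Y w x) le_rfl (le_trans l2 (le_trans l3 hQ))
      rw [l4] at this
      exact this
    refine ⟨w', a, s5, l1, le_trans hale l3, l4, ?_⟩
    intro W hW
    have := (TD4.unf_bound Y s5).2 W hW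
    omega
  -- bound for one level
  have hone : ∀ x ∈ X, Real.log (cost (c x) : ℝ) ≤
      ∑ j ∈ range (i + 1), Real.log (4 * (Sc (j + 1) : ℝ) + 1) *
      (((#((Finset.Ico (P / Sc j) (Q / Sc j)).filter (fun u =>
        (ht Y.l w (Sc j * u) < x + (if j = 0 then 1 else (Sc j : ℤ) + 1) ∧
          x + (if j = 0 then 1 else (Sc j : ℤ) + 1) ≤ ht Y.l w (Sc j * (u + 1))) ∨
        (ht Y.l w (Sc j * (u + 1)) < x + (if j = 0 then 1 else (Sc j : ℤ) + 1) ∧
          x + (if j = 0 then 1 else (Sc j : ℤ) + 1) ≤ ht Y.l w (Sc j * u)))) : ℕ) : ℝ) +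
      ((#((Finset.Ico (P / Sc j) (Q / Sc j)).filter (fun u =>
        (ht Y.l w (Sc j * u) < x + (if j = 0 then 0 else -(Sc j : ℤ)) ∧
          x + (if j = 0 then 0 else -(Sc j : ℤ)) ≤ ht Y.l w (Sc j * (u + 1))) ∨
        (ht Y.l w (Sc j * (u + 1)) < x + (if j = 0 then 0 else -(Sc j : ℤ)) ∧
          x + (if j = 0 then 0 else -(Sc j : ℤ)) ≤ ht Y.l w (Sc j * u)))) : ℕ) : ℝ)) := by
    intro x hxX
    obtain ⟨w', a, hu, h1, h2, h3, h4⟩ := hx x hxX
    refine le_trans (TD4.log_cost Sc i (c x) h4) ?_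
    apply sum_le_sum
    intro j hj
    rw [mem_range] at hj
    apply mul_le_mul_of_nonneg_left
    · rcases Nat.eq_zero_or_pos j with hj0 | hj0
      · subst hj0
        have h5 := cross_count_one Y hu x h3 P Q h1 h2
        have h6 : ((c x).filter (fun W => decide (0 = 0 ∨ 4 * Sc 0 < W))).length =
            (c x).length := by simp
        rw [h6, hSc0]
        simp only [if_true, one_mul, add_zero, Nat.div_one]
        exact_mod_cast h5
      · have hD : 1 ≤ Sc j := by rw [← hSc0]; exact hScm (Nat.zero_le _)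
        have hj' : j ≠ 0 := by omega
        have h5 := cross_count Y hu x h3 (Sc j) (P / Sc j) (Q / Sc j) hD
          (by rw [Nat.mul_div_cancel' (hP j (by omega))]; exact h1)
          (by rw [Nat.mul_div_cancel' (hQd j (by omega))]; exact h2)
        have h6 : ((c x).filter (fun W => decide (j = 0 ∨ 4 * Sc j < W))).length =
            ((c x).filter (fun W => decide (4 * Sc j < W))).length := by simp [hj']
        rw [h6]
        simp only [if_neg hj']
        simp only [← add_assoc, ← sub_eq_add_neg]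
        exact_mod_cast h5
    · apply Real.log_nonneg
      have : (0 : ℝ) ≤ Sc (j + 1) := Nat.cast_nonneg _
      linarith
  refine le_trans (sum_le_sum hone) ?_
  rw [sum_comm]
  unfold multiCost
  rw [mul_sum]
  apply sum_le_sum
  intro j _
  rw [← mul_sum, sum_add_distrib]
  have hg : ∀ k : ℤ, (∑ x ∈ X, ((#((Finset.Ico (P / Sc j) (Q / Sc j)).filter (fun u =>
        (ht Y.l w (Sc j * u) < x + k ∧ x + k ≤ ht Y.l w (Sc j * (u + 1))) ∨
        (ht Y.l w (Sc j * (u + 1)) < x + k ∧ x + k ≤ ht Y.l w (Sc j * u)))) : ℕ) : ℝ)) ≤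
      ((lvar Y w (Sc j) (P / Sc j) (Q / Sc j) : ℤ) : ℝ) := by
    intro k
    have h := TD4.sum_cross X (fun u => ht Y.l w (Sc j * u)) k (P / Sc j) (Q / Sc j)
    unfold lvar incr
    exact_mod_cast h
  have h1 := hg (if j = 0 then 1 else (Sc j : ℤ) + 1)
  have h2 := hg (if j = 0 then 0 else -(Sc j : ℤ))
  have hlog : 0 ≤ Real.log (4 * (Sc (j + 1) : ℝ) + 1) := by
    apply Real.log_nonneg
    have : (0 : ℝ) ≤ Sc (j + 1) := Nat.cast_nonneg _
    linarith
  nlinarith

end Pool.Agent.H976R2.SB
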