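import Pool.Agent.H976R2.SB.D2
import Pool.Agent.H976R2.SB.D4
import Pool.Agent.H976R2.SB.B1
import Pool.Agent.H976R2.SB.D0
import Pool.Agent.H976R2.SB.D1

/-! TASK D5 : number of nice times. -/

namespace Pool.Agent.H976R2.SB
open Finset


variable {A : Type} {d : ℕ}

namespace TD5

lemma one_le_cost (c : List ℕ) : 1 ≤ cost c := by
  unfold cost
  induction c with
  | nil => simp
  | cons a l ih =>
    rw [List.map_cons, List.prod_cons]
    exact Nat.one_le_iff_ne_zero.2 (Nat.mul_ne_zero (by omega) (by omega))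

lemma card_bound {α : Type*} [DecidableEq α] (L N E1 E2 E3 E4 E5 E6 : Finset α)
    (h : L ⊆ N ∪ (E1 ∪ (E2 ∪ (E3 ∪ (E4 ∪ (E5 ∪ E6)))))) :
    #L ≤ #N + (#E1 + (#E2 + (#E3 + (#E4 + (#E5 + #E6))))) := by
  refine (Finset.card_le_card h).trans ?_
  refine (Finset.card_union_le _ _).trans ?_
  gcongr
  refine (Finset.card_union_le _ _).trans ?_
  gcongr
  refine (Finset.card_union_le _ _).trans ?_
  gcongr
  refine (Finset.card_union_le _ _).trans ?_
  gcongr
  refine (Finset.card_union_le _ _).trans ?_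
  gcongr
  exact Finset.card_union_le _ _

open Classical in
/-- the level `x` gives a nice time -/
lemma nice_of_level (Y : Sys A d) {n S P Q T0 T1 H1 M : ℕ} {w : ℕ → A} {G : ℕ} (hS : 1 ≤ S)
    (hPQ : P ≤ Q) (hQ : Q ≤ n) (hm : MonoOn Y w S 0 n) (hH : 0 < H1) (hQH : H1 ∣ Q)
    {x : ℤ} {c : List ℕ} (h1 : ht Y.l w P + S ≤ x) (h2 : x ≤ ht Y.l w Q - S)
    (hc : ∃ w', Surg Y n w w' (tf Y w x) c) (hcM : cost c ≤ M)
    (e1 : tl Y n w x - tf Y w x < T0)
    (h3 : ht Y.l w P + S ≤ x - G) (h4 : x + G ≤ ht Y.l w Q - S)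
    (e4 : tl Y n w (x + G) - tf Y w (x - G) ≤ T1)
    (e5 : tf Y w (x - G) / H1 = tl Y n w (x + G) / H1) :
    P ≤ tf Y w x ∧ tf Y w x < Q ∧ Nice Y n T0 T1 G H1 M w (tf Y w x) := by
  obtain ⟨a1, a2, a3, a4, a5, a6, a7⟩ := level_basic Y hS hPQ hQ hm h1 h2
  have hGx : ht Y.l w P + S ≤ x + G := by omega
  have hxG : x - G ≤ ht Y.l w Q - S := by omega
  obtain ⟨b1, b2, b3, b4, b5, b6, b7⟩ := level_basic Y hS hPQ hQ hm h3 hxG
  obtain ⟨c1, c2, c3, c4, c5, c6, c7⟩ := level_basic Y hS hPQ hQ hm hGx h4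
  have k1 : tf Y w (x - G) ≤ tf Y w x := by
    by_contra hcon
    push Not at hcon
    have := b6 _ hcon
    rw [a4] at this
    omega
  have k2 : tf Y w x ≤ tl Y n w (x + G) := by
    by_contra hcon
    push Not at hcon
    have := c7 _ hcon (by omega)
    rw [a4] at this
    omega
  have k3 : tf Y w x < Q := by
    rcases Nat.lt_or_ge (tf Y w x) Q with h | h
    · exact h
    · have : tf Y w x = Q := by omega
      rw [this] at a4
      omega
  have k4 : tf Y w x / H1 = tf Y w (x - G) / H1 := by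
    apply le_antisymm
    · rw [e5]; exact Nat.div_le_div_right k2
    · exact Nat.div_le_div_right k1
  have k5 : tf Y w x / H1 = tl Y n w (x + G) / H1 := by rw [k4, e5]
  refine ⟨a1, k3, ?_, ?_, ?_, ?_, ?_, ?_⟩
  · intro a ha
    rw [a4]
    exact a6 a ha
  · intro b hb hbn
    rw [a4]
    exact a7 b (by omega) hbn
  · intro a ha
    rw [a4]
    have : ht Y.l w a < x - G := by
      apply b6
      rcases ha with ha | ha
      · rw [k4] at ha
        exact ha.trans_le (Nat.mul_div_le _ _)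
      · omega
    omega
  · intro b hbn hb
    rw [a4]
    have : x + G < ht Y.l w b := by
      apply c7 b _ hbn
      rcases hb with hb | hb
      · rw [k5] at hb
        exact (Nat.lt_mul_div_succ _ hH).trans_le hb
      · omega
    exact this
  · obtain ⟨k, rfl⟩ := hQH
    have : tf Y w x / H1 < k := Nat.div_lt_of_lt_mul k3
    calc H1 * (tf Y w x / H1 + 1) ≤ H1 * k := Nat.mul_le_mul_left _ this
      _ ≤ n := hQ
  · obtain ⟨w', hw'⟩ := hc
    exact ⟨w', c, hw', hcM⟩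

end TD5

open Classical in
/-- TASK D5 : number of nice times (uses D0 - D4, B1) -/
theorem nice_count (Y : Sys A d) {n S s p q i T1 H1 M : ℕ} {w : ℕ → A} {Sc : ℕ → ℕ}
    (hS : 1 ≤ S) (hs : 1 ≤ s) (hpq : p ≤ q) (hQ : s * q ≤ n) (hsaw : Saw Y n w)
    (hm : MonoOn Y w S 0 n)
    (hSc0 : Sc 0 = 1) (hScm : Monotone Sc) (hP : ∀ j ≤ i, Sc j ∣ s * p)
    (hQd : ∀ j ≤ i, Sc j ∣ s * q) (hT0 : (40 * s) ^ d ≤ 4 * Sc (i + 1))
    (hT1 : (40 * s) ^ d < T1) (hH : 0 < H1) (hQH : H1 ∣ s * q) (hM : 2 ≤ M) :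
    ((incr Y.l w (s * p) (s * q) : ℤ) : ℝ) - 2 * S - 20 * ((dfc Y w s p q : ℤ) : ℝ)
      - 2 * ((40 * s : ℝ) ^ d + 1)
      - 2 * ((40 * s : ℝ) ^ d + 1) * (s * q - s * p) / (T1 - (40 * s : ℝ) ^ d)
      - ((s * q - s * p) / H1 + 1) * (2 * (T1 + (40 * s : ℝ) ^ d + 1) + 1)
      - 2 * multiCost Y Sc i w (s * p) (s * q) / Real.log M ≤
    #((Finset.Ico (s * p) (s * q)).filter
      (Nice Y n ((40 * s) ^ d) T1 ((40 * s) ^ d + 1) H1 M w)) := by
  have hPQ : s * p ≤ s * q := Nat.mul_le_mul_left s hpq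
  have key := n1_count Y hS hs hpq hQ hsaw hm
  have key4 := window_count Y hS hPQ hQ hm ((40 * s) ^ d + 1) ((40 * s) ^ d) T1
  have key5 := boundary_count Y hS hPQ hQ hm ((40 * s) ^ d + 1) T1 H1 hH
  -- the codes
  have hcode : ∀ x : ℤ, ∃ c : List ℕ, ht Y.l w (s * p) + S ≤ x → x ≤ ht Y.l w (s * q) - S →
      ∃ w', Surg Y n w w' (tf Y w x) c := by
    intro x
    by_cases hx : ht Y.l w (s * p) + S ≤ x ∧ x ≤ ht Y.l w (s * q) - S
    · obtain ⟨a1, a2, a3, -⟩ := level_basic Y hS hPQ hQ hm hx.1 hx.2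
      obtain ⟨w', c, h⟩ := surg_exists Y n w (tf Y w x) (by omega)
      exact ⟨c, fun _ _ => ⟨w', h⟩⟩
    · exact ⟨[], fun h1 h2 => absurd ⟨h1, h2⟩ hx⟩
  choose c hc using hcode
  have key6 := cost_sum Y hS hPQ hQ hm hSc0 hScm hP hQd hT0 c hc
  set T0 : ℕ := (40 * s) ^ d with hT0def
  set G : ℕ := T0 + 1 with hGdef
  set Λ : Finset ℤ := Finset.Icc (ht Y.l w (s * p) + S) (ht Y.l w (s * q) - S) with hΛ
  set N : Finset ℕ := (Finset.Ico (s * p) (s * q)).filter (Nice Y n T0 T1 G H1 M w) with hN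
  set E1 : Finset ℤ := Λ.filter (fun x => T0 ≤ tl Y n w x - tf Y w x) with hE1
  set E2 : Finset ℤ := Λ.filter (fun x => ¬ (ht Y.l w (s * p) + S ≤ x - G ∧
    x + G ≤ ht Y.l w (s * q) - S)) with hE2
  set E3 : Finset ℤ := Λ.filter (fun x => x + G ∈ E1) with hE3
  set E4 : Finset ℤ := Λ.filter (fun x => ht Y.l w (s * p) + S ≤ x - G ∧
    x + G ≤ ht Y.l w (s * q) - S ∧
    tl Y n w (x + G) - tf Y w (x + G) < T0 ∧ T1 < tl Y n w (x + G) - tf Y w (x - G)) with hE4
  set E5 : Finset ℤ := Λ.filter (fun x => ht Y.l w (s * p) + S ≤ x - G ∧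
    x + G ≤ ht Y.l w (s * q) - S ∧
    tl Y n w (x + G) - tf Y w (x - G) ≤ T1 ∧
    tf Y w (x - G) / H1 ≠ tl Y n w (x + G) / H1) with hE5
  set E6 : Finset ℤ := (Λ.filter (fun x => tl Y n w x - tf Y w x < T0)).filter
    (fun x => M < cost (c x)) with hE6
  set N' : Finset ℤ := Λ.filter (fun x => tf Y w x ∈ N) with hN'
  -- covering
  have hcov : Λ ⊆ N' ∪ (E1 ∪ (E2 ∪ (E3 ∪ (E4 ∪ (E5 ∪ E6))))) := by
    intro x hx
    by_contra hcon
    simp only [Finset.mem_union, not_or] at hcon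
    obtain ⟨f0, f1, f2, f3, f4, f5, f6⟩ := hcon
    have hx' := Finset.mem_Icc.1 hx
    simp only [hE1, Finset.mem_filter, hx, true_and, not_le] at f1
    simp only [hE2, Finset.mem_filter, hx, true_and, not_not] at f2
    obtain ⟨g1, g2⟩ := f2
    have hxG : x + G ∈ Λ := Finset.mem_Icc.2 ⟨by omega, g2⟩
    simp only [hE3, hE1, Finset.mem_filter, hx, hxG, true_and, not_le] at f3
    simp only [hE4, Finset.mem_filter, hx, true_and, g1, g2, f3, not_lt] at f4
    simp only [hE5, Finset.mem_filter, hx, true_and, g1, g2, f4, ne_eq, not_not] at f5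
    simp only [hE6, Finset.mem_filter, hx, true_and, f1, not_lt] at f6
    apply f0
    obtain ⟨r1, r2, r3⟩ := TD5.nice_of_level Y hS hPQ hQ hm hH hQH hx'.1 hx'.2
      (hc x hx'.1 hx'.2) f6 f1 g1 g2 f4 f5
    rw [hN', Finset.mem_filter, hN, Finset.mem_filter, Finset.mem_Ico]
    exact ⟨hx, ⟨r1, r2⟩, r3⟩
  have hcard := TD5.card_bound _ _ _ _ _ _ _ _ hcov
  -- injectivity
  have hN'N : #N' ≤ #N := by
    refine Finset.card_le_card_of_injOn (fun x => tf Y w x) ?_ ?_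
    · intro x hx
      exact (Finset.mem_filter.1 hx).2
    · intro x hx y hy hxy
      have hx' := Finset.mem_Icc.1 (Finset.mem_filter.1 hx).1
      have hy' := Finset.mem_Icc.1 (Finset.mem_filter.1 hy).1
      obtain ⟨-, -, -, a4, -⟩ := level_basic Y hS hPQ hQ hm hx'.1 hx'.2
      obtain ⟨-, -, -, b4, -⟩ := level_basic Y hS hPQ hQ hm hy'.1 hy'.2
      simp only at hxy
      rw [← a4, ← b4, hxy]
  -- bounds
  have hE2c : #E2 ≤ 2 * G := by
    have : E2 ⊆ Finset.Ico (ht Y.l w (s * p) + S) (ht Y.l w (s * p) + S + G) ∪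
        Finset.Ioc (ht Y.l w (s * q) - S - G) (ht Y.l w (s * q) - S) := by
      intro x hx
      rw [hE2, Finset.mem_filter] at hx
      have hx' := Finset.mem_Icc.1 hx.1
      rw [Finset.mem_union, Finset.mem_Ico, Finset.mem_Ioc]
      by_cases h : ht Y.l w (s * p) + S ≤ x - G
      · right
        have := fun h' => hx.2 ⟨h, h'⟩
        exact ⟨by omega, hx'.2⟩
      · left
        exact ⟨hx'.1, by omega⟩
    refine (Finset.card_le_card this).trans ((Finset.card_union_le _ _).trans ?_)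
    rw [Int.card_Ico, Int.card_Ioc]
    omega
  have hE3c : #E3 ≤ #E1 := by
    refine Finset.card_le_card_of_injOn (fun x => x + G) ?_ ?_
    · intro x hx
      exact (Finset.mem_filter.1 hx).2
    · intro x _ y _ hxy
      simpa using hxy
  have hΛc : (incr Y.l w (s * p) (s * q) : ℤ) - 2 * S ≤ (#Λ : ℤ) := by
    rw [hΛ, Int.card_Icc, incr]
    omega
  have hE6c : (#E6 : ℝ) * Real.log M ≤ 2 * multiCost Y Sc i w (s * p) (s * q) := by
    refine le_trans ?_ key6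
    calc (#E6 : ℝ) * Real.log M = ∑ x ∈ E6, Real.log M := by
          rw [Finset.sum_const, nsmul_eq_mul]
      _ ≤ ∑ x ∈ E6, Real.log (cost (c x) : ℝ) := by
          refine Finset.sum_le_sum fun x hx => ?_
          have := (Finset.mem_filter.1 hx).2
          exact Real.log_le_log (by positivity) (by exact_mod_cast this.le)
      _ ≤ _ := by
          refine Finset.sum_le_sum_of_subset_of_nonneg (Finset.filter_subset _ _)
            fun x _ _ => ?_
          exact Real.log_nonneg (by exact_mod_cast TD5.one_le_cost (c x))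
  have hlogM : 0 < Real.log M := Real.log_pos (by exact_mod_cast hM)
  have hE6' : (#E6 : ℝ) ≤ 2 * multiCost Y Sc i w (s * p) (s * q) / Real.log M := by
    rw [le_div_iff₀ hlogM]
    exact hE6c
  have hT1' : (0 : ℝ) < T1 - (40 * s : ℝ) ^ d := by
    have : ((T0 : ℕ) : ℝ) < T1 := by exact_mod_cast hT1
    rw [hT0def] at this
    push_cast at this
    linarith
  have hcast : ((T0 : ℕ) : ℝ) = (40 * s : ℝ) ^ d := by
    rw [hT0def]; push_cast; rfl
  have hGcast : ((G : ℕ) : ℝ) = (40 * s : ℝ) ^ d + 1 := by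
    rw [hGdef, Nat.cast_add, hcast, Nat.cast_one]
  have hE4' : (#E4 : ℝ) ≤ 2 * ((40 * s : ℝ) ^ d + 1) * (s * q - s * p) / (T1 - (40 * s : ℝ) ^ d) := by
    rw [le_div_iff₀ hT1']
    have h := key4
    have h' : ((#E4 * (T1 - T0) : ℕ) : ℝ) ≤ ((2 * G * (s * q - s * p) : ℕ) : ℝ) := by
      exact_mod_cast h
    rw [Nat.cast_mul, Nat.cast_sub hT1.le, Nat.cast_mul, Nat.cast_mul, Nat.cast_sub hPQ, hcast,
      hGcast] at h'
    push_cast at h'
    linarith
  have hE5' : (#E5 : ℝ) ≤ ((s * q - s * p : ℝ) / H1 + 1) *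
      (2 * (T1 + (40 * s : ℝ) ^ d + 1) + 1) := by
    have h' : ((#E5 : ℕ) : ℝ) ≤ (((s * q - s * p) / H1 + 1) * (2 * (T1 + G) + 1) : ℕ) := by
      exact_mod_cast key5
    refine h'.trans ?_
    rw [Nat.cast_mul]
    have h1 : ((((s * q - s * p) / H1 + 1 : ℕ)) : ℝ) ≤ (s * q - s * p : ℝ) / H1 + 1 := by
      have : ((((s * q - s * p) / H1 : ℕ)) : ℝ) ≤ ((s * q - s * p : ℕ) : ℝ) / H1 :=
        Nat.cast_div_le
      rw [Nat.cast_sub hPQ] at this
      push_cast at this ⊢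
      linarith
    have h2 : (((2 * (T1 + G) + 1 : ℕ)) : ℝ) = 2 * (T1 + (40 * s : ℝ) ^ d + 1) + 1 := by
      push_cast
      rw [hGcast]
      ring
    rw [h2]
    refine mul_le_mul_of_nonneg_right h1 ?_
    positivity
  have hcard' : (#Λ : ℝ) ≤ #N' + (#E1 + (#E2 + (#E3 + (#E4 + (#E5 + #E6))))) := by
    exact_mod_cast hcard
  have hΛ' : ((incr Y.l w (s * p) (s * q) : ℤ) : ℝ) - 2 * S ≤ (#Λ : ℝ) := by
    exact_mod_cast hΛc
  have hE1' : (#E1 : ℝ) ≤ 10 * ((dfc Y w s p q : ℤ) : ℝ) := by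
    exact_mod_cast key
  have hE3' : (#E3 : ℝ) ≤ #E1 := by exact_mod_cast hE3c
  have hE2' : (#E2 : ℝ) ≤ 2 * ((40 * s : ℝ) ^ d + 1) := by
    rw [← hGcast]
    exact_mod_cast hE2c
  have hN'' : (#N' : ℝ) ≤ #N := by exact_mod_cast hN'N
  linarith

end Pool.Agent.H976R2.SB
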