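import Pool.Agent.H976R2.SB.Basic

/-! Task E1 : the inner segments carry almost all the height progress. -/

namespace Pool.Agent.H976R2.SB
open Finset

variable {A : Type} {d : ℕ}

namespace TE1

lemma mem_cell {H j t : ℕ} (h : 0 < H) : t ∈ Ico (H * j) (H * (j + 1)) ↔ t / H = j := by
  rw [mem_Ico]
  constructor
  · rintro ⟨h1, h2⟩
    exact Nat.div_eq_of_lt_le (by rw [mul_comm]; exact h1) (by rw [mul_comm]; exact h2)
  · rintro rfl
    exact ⟨Nat.mul_div_le t H, Nat.lt_mul_div_succ t h⟩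

lemma nxt_eq_self (Y : Sys A d) {n H1 H : ℕ} {w : ℕ → A} {c : ℕ} (h : ¬ ∃ c', IsNxt Y n H1 H w c c') :
    nxt Y n H1 H w c = c := by
  unfold nxt
  rw [dif_neg h]

lemma lc_eq_zero (Y : Sys A d) {n H1 H : ℕ} {w : ℕ → A} {c : ℕ}
    (h : ¬ ∃ c', IsNxt Y n H1 H w c c') : lc Y n H1 H w c = 0 := by
  unfold lc
  rw [nxt_eq_self Y h, incr_self]

lemma nxt_spec (Y : Sys A d) {n H1 H : ℕ} {w : ℕ → A} {c : ℕ} (h : ∃ c', IsNxt Y n H1 H w c c') :
    IsNxt Y n H1 H w c (nxt Y n H1 H w c) := by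
  unfold nxt
  rw [dif_pos h]
  exact h.choose_spec

lemma exists_isNxt (Y : Sys A d) {n H1 H : ℕ} {w : ℕ → A} {c e : ℕ} (hc : Can Y n H1 w c)
    (he : Can Y n H1 w e) (hlt : c < e) (hcell : c / H = e / H) :
    ∃ c', IsNxt Y n H1 H w c c' := by
  classical
  have hex : ∃ x, c < x ∧ Can Y n H1 w x := ⟨e, hlt, he⟩
  refine ⟨Nat.find hex, hc, (Nat.find_spec hex).2, (Nat.find_spec hex).1, ?_, ?_⟩
  · have h1 : Nat.find hex ≤ e := Nat.find_min' hex ⟨hlt, he⟩
    have h2 : c / H ≤ Nat.find hex / H := Nat.div_le_div_right (Nat.find_spec hex).1.le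
    have h3 : Nat.find hex / H ≤ e / H := Nat.div_le_div_right h1
    omega
  · intro x h1 h2 h3
    exact Nat.find_min hex h2 ⟨h1, h3⟩

lemma sum_lc (Y : Sys A d) {n H1 H k cm : ℕ} {w : ℕ → A} (hH : 0 < H) (hcm : Can Y n H1 w cm)
    (hk : cm / H = k) (hmax : ∀ c, cm < c → c / H = k → ¬ Can Y n H1 w c) :
    ∀ m c : ℕ, cm - c = m → Can Y n H1 w c → c / H = k →
      ∑ x ∈ Ico c (H * (k + 1)), lc Y n H1 H w x = ht Y.l w cm - ht Y.l w c := by
  intro m
  induction m using Nat.strong_induction_on with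
  | _ m ih =>
    intro c hm hc hck
    have hcE : c < H * (k + 1) := (mem_Ico.1 ((mem_cell hH).2 hck)).2
    have hcmE : cm < H * (k + 1) := (mem_Ico.1 ((mem_cell hH).2 hk)).2
    rcases lt_trichotomy c cm with hlt | heq | hgt
    · have hn := nxt_spec Y (exists_isNxt Y (H := H) hc hcm hlt (by omega))
      set c' := nxt Y n H1 H w c with hc'
      obtain ⟨-, h2, h3, h4, h5⟩ := hn
      have hle : c' ≤ cm := by
        by_contra hcon
        push Not at hcon
        exact h5 cm hlt hcon hcm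
      have h6 := ih (cm - c') (by omega) c' rfl h2 (by omega)
      rw [← Finset.sum_Ico_consecutive _ h3.le (by omega : c' ≤ H * (k + 1)), h6,
        ← Finset.sum_Ico_consecutive _ (Nat.le_succ c) (by omega : c + 1 ≤ c')]
      have h7 : ∑ x ∈ Ico (c + 1) c', lc Y n H1 H w x = 0 := by
        refine Finset.sum_eq_zero fun x hx => ?_
        rw [mem_Ico] at hx
        refine lc_eq_zero Y ?_
        rintro ⟨y, hy⟩
        exact h5 x (by omega) hx.2 hy.1
      rw [h7]
      have h8 : ∑ x ∈ Ico c (c + 1), lc Y n H1 H w x = ht Y.l w c' - ht Y.l w c := by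
        rw [Nat.Ico_succ_singleton, Finset.sum_singleton]
        rfl
      rw [h8]
      ring
    · subst heq
      rw [sub_self]
      refine Finset.sum_eq_zero fun x hx => ?_
      rw [mem_Ico] at hx
      refine lc_eq_zero Y ?_
      rintro ⟨y, hy⟩
      have hxk : x / H = k := by
        rw [← mem_cell hH, mem_Ico]
        exact ⟨(mem_Ico.1 ((mem_cell hH).2 hck)).1.trans hx.1, hx.2⟩
      exact hmax y (lt_of_le_of_lt hx.1 hy.2.2.1) (by rw [← hy.2.2.2.1, hxk]) hy.2.1
    · exact absurd hc (hmax c hgt hck)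

/-- the canonical cut of a cell with a cut -/
lemma exists_can (Y : Sys A d) {n H1 j : ℕ} {w : ℕ → A} (hH1 : 0 < H1) (h : HasCut Y n H1 w j) :
    ∃ c, Can Y n H1 w c ∧ c / H1 = j := by
  classical
  have hex : ∃ x, H1 * j ≤ x ∧ Cut Y n w x := by
    obtain ⟨t, h1, h2, h3⟩ := h
    exact ⟨t, h1, h3⟩
  obtain ⟨t, h1, h2, h3⟩ := h
  have hle : Nat.find hex ≤ t := Nat.find_min' hex ⟨h1, h3⟩
  have hj : Nat.find hex / H1 = j := by
    rw [← mem_cell hH1, mem_Ico]
    exact ⟨(Nat.find_spec hex).1, by omega⟩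
  refine ⟨Nat.find hex, ⟨(Nat.find_spec hex).2, ?_⟩, hj⟩
  intro c' h4 h5 h6
  rw [hj] at h4
  exact Nat.find_min hex h5 ⟨h4, h6⟩

open Classical in
/-- nice times in cells with a cut, inside one cell of length `H` -/
lemma cell_bound (Y : Sys A d) {n T0 T1 G H1 M H k : ℕ} {w : ℕ → A} (hH1 : 0 < H1) (hH : 0 < H)
    (hdiv : H1 ∣ H) :
    (#((Ico (H * k) (H * (k + 1))).filter
      (fun t => Nice Y n T0 T1 G H1 M w t ∧ HasCut Y n H1 w (t / H1))) : ℤ)
      ≤ ∑ c ∈ Ico (H * k) (H * (k + 1)), lc Y n H1 H w c + 2 * H1 := by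
  obtain ⟨r, rfl⟩ := hdiv
  have hcell : ∀ a b : ℕ, a / H1 = b / H1 → a / (H1 * r) = b / (H1 * r) := by
    intro a b h
    rw [← Nat.div_div_eq_div_mul, ← Nat.div_div_eq_div_mul, h]
  set F := (Ico (H1 * r * k) (H1 * r * (k + 1))).filter (Can Y n H1 w) with hF
  have hmemF : ∀ c, c ∈ F ↔ c / (H1 * r) = k ∧ Can Y n H1 w c := by
    intro c
    rw [hF, mem_filter, mem_cell hH]
  set Gd := (Ico (H1 * r * k) (H1 * r * (k + 1))).filter
      (fun t => Nice Y n T0 T1 G H1 M w t ∧ HasCut Y n H1 w (t / H1)) with hGd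
  have hmemG : ∀ t, t ∈ Gd ↔ t / (H1 * r) = k ∧ Nice Y n T0 T1 G H1 M w t ∧
      HasCut Y n H1 w (t / H1) := by
    intro t
    rw [hGd, mem_filter, mem_cell hH]
  have hcan : ∀ t ∈ Gd, ∃ c ∈ F, c / H1 = t / H1 := by
    intro t ht
    rw [hmemG] at ht
    obtain ⟨c, h1, h2⟩ := exists_can Y hH1 ht.2.2
    refine ⟨c, (hmemF c).2 ⟨?_, h1⟩, h2⟩
    rw [hcell c t h2, ht.1]
  rcases F.eq_empty_or_nonempty with hFe | hFn
  · have h1 : Gd = ∅ := by
      rw [Finset.eq_empty_iff_forall_notMem]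
      intro t ht
      obtain ⟨c, hc, -⟩ := hcan t ht
      rw [hFe] at hc
      simp at hc
    have h2 : ∑ c ∈ Ico (H1 * r * k) (H1 * r * (k + 1)), lc Y n H1 (H1 * r) w c = 0 := by
      refine Finset.sum_eq_zero fun c hc => lc_eq_zero Y ?_
      rintro ⟨y, hy⟩
      have : c ∈ F := (hmemF c).2 ⟨(mem_cell hH).1 hc, hy.1⟩
      rw [hFe] at this
      simp at this
    rw [h1, h2]
    simp
  · set c1 := F.min' hFn with hc1
    set cm := F.max' hFn with hcm
    have hc1F : c1 ∈ F := F.min'_mem hFn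
    have hcmF : cm ∈ F := F.max'_mem hFn
    obtain ⟨hc1k, hc1c⟩ := (hmemF c1).1 hc1F
    obtain ⟨hcmk, hcmc⟩ := (hmemF cm).1 hcmF
    have hsum : ∑ x ∈ Ico (H1 * r * k) (H1 * r * (k + 1)), lc Y n H1 (H1 * r) w x
        = ht Y.l w cm - ht Y.l w c1 := by
      have hb := mem_Ico.1 ((mem_cell hH).2 hc1k)
      rw [← Finset.sum_Ico_consecutive _ hb.1 hb.2.le,
        sum_lc Y hH hcmc hcmk ?_ (cm - c1) c1 rfl hc1c hc1k]
      · have : ∑ x ∈ Ico (H1 * r * k) c1, lc Y n H1 (H1 * r) w x = 0 := by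
          refine Finset.sum_eq_zero fun x hx => lc_eq_zero Y ?_
          rintro ⟨y, hy⟩
          rw [mem_Ico] at hx
          have hxF : x ∈ F := by
            rw [hmemF]
            refine ⟨?_, hy.1⟩
            rw [← mem_cell hH, mem_Ico]
            exact ⟨hx.1, hx.2.trans hb.2⟩
          have := F.min'_le x hxF
          omega
        rw [this, zero_add]
      · intro c h1 h2 h3
        have := F.le_max' c ((hmemF c).2 ⟨h2, h3⟩)
        omega
    -- the three parts
    have hsub : Gd ⊆ (Ico (H1 * (c1 / H1)) (H1 * (c1 / H1 + 1)) ∪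
        Ico (H1 * (cm / H1)) (H1 * (cm / H1 + 1))) ∪ Gd.filter (fun t => c1 < t ∧ t ≤ cm) := by
      intro t ht
      obtain ⟨c, hcF, hct⟩ := hcan t ht
      have h1 := F.min'_le c hcF
      have h2 := F.le_max' c hcF
      rw [mem_union, mem_union]
      rcases Nat.lt_or_ge c1 t with h3 | h3
      · rcases Nat.lt_or_ge cm t with h4 | h4
        · left; right
          rw [mem_cell hH1]
          have h5 : c / H1 ≤ cm / H1 := Nat.div_le_div_right h2
          have h6 : cm / H1 ≤ t / H1 := Nat.div_le_div_right h4.le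
          omega
        · right
          rw [mem_filter]
          exact ⟨ht, h3, h4⟩
      · left; left
        rw [mem_cell hH1]
        have h5 : c1 / H1 ≤ c / H1 := Nat.div_le_div_right h1
        have h6 : t / H1 ≤ c1 / H1 := Nat.div_le_div_right h3
        omega
    have hc1cm : c1 ≤ cm := F.min'_le cm hcmF
    have hthird : (#(Gd.filter (fun t => c1 < t ∧ t ≤ cm)) : ℤ) ≤ ht Y.l w cm - ht Y.l w c1 := by
      have hnice : ∀ t ∈ Gd, ∀ a, a < t → ht Y.l w a < ht Y.l w t :=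
        fun t ht => ((hmemG t).1 ht).2.1.1
      have hmaps : ∀ t ∈ Gd.filter (fun t => c1 < t ∧ t ≤ cm),
          ht Y.l w t ∈ Ioc (ht Y.l w c1) (ht Y.l w cm) := by
        intro t ht
        rw [mem_filter] at ht
        rw [mem_Ioc]
        refine ⟨hnice t ht.1 c1 ht.2.1, ?_⟩
        rcases Nat.lt_or_ge t cm with h | h
        · exact (hcmc.1.2.1 t h).le
        · rw [le_antisymm ht.2.2 h]
      have hinj : Set.InjOn (fun t => ht Y.l w t)
          (Gd.filter (fun t => c1 < t ∧ t ≤ cm) : Set ℕ) := by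
        intro a ha b hb hab
        simp only [Finset.coe_filter, Set.mem_ofPred_eq] at ha hb
        simp only [] at hab
        rcases lt_trichotomy a b with h | h | h
        · have := hnice b hb.1 a h
          omega
        · exact h
        · have := hnice a ha.1 b h
          omega
      have h1 := Finset.card_le_card_of_injOn (fun t => ht Y.l w t) hmaps hinj
      rw [Int.card_Ioc] at h1
      have h2 : ht Y.l w c1 ≤ ht Y.l w cm := by
        rcases Nat.lt_or_ge c1 cm with h | h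
        · exact (hcmc.1.2.1 c1 h).le
        · rw [le_antisymm hc1cm h]
      have h3 : ((ht Y.l w cm - ht Y.l w c1).toNat : ℤ) = ht Y.l w cm - ht Y.l w c1 :=
        Int.toNat_of_nonneg (by linarith)
      rw [← h3]
      exact_mod_cast h1
    have h1 : #Gd ≤ (H1 + H1) + #(Gd.filter (fun t => c1 < t ∧ t ≤ cm)) := by
      refine (card_le_card hsub).trans ((card_union_le _ _).trans ?_)
      gcongr
      refine (card_union_le _ _).trans ?_
      rw [Nat.card_Ico, Nat.card_Ico, mul_add, mul_one, Nat.add_sub_cancel_left, mul_add, mul_one,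
        Nat.add_sub_cancel_left]
    rw [hsum]
    have h2 : (#Gd : ℤ) ≤ (H1 + H1) + #(Gd.filter (fun t => c1 < t ∧ t ≤ cm)) := by
      exact_mod_cast h1
    linarith

open Classical in
/-- summation over the cells of length `H` -/
lemma cells_bound (Y : Sys A d) {n T0 T1 G H1 M H : ℕ} {w : ℕ → A} (hH1 : 0 < H1) (hH : 0 < H)
    (hdiv : H1 ∣ H) (p q : ℕ) (hpq : p ≤ q) :
    (#((Ico (H * p) (H * q)).filter
      (fun t => Nice Y n T0 T1 G H1 M w t ∧ HasCut Y n H1 w (t / H1))) : ℤ)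
      ≤ ∑ c ∈ Ico (H * p) (H * q), lc Y n H1 H w c + 2 * H1 * ((q - p : ℕ) : ℤ) := by
  induction q, hpq using Nat.le_induction with
  | base => simp
  | succ q hpq ih =>
    have h1 := cell_bound Y (n := n) (T0 := T0) (T1 := T1) (G := G) (M := M) (w := w) (k := q)
      hH1 hH hdiv
    have h2 : Ico (H * p) (H * (q + 1)) = Ico (H * p) (H * q) ∪ Ico (H * q) (H * (q + 1)) :=
      (Finset.Ico_union_Ico_eq_Ico (Nat.mul_le_mul_left H hpq)
        (Nat.mul_le_mul_left H (Nat.le_succ q))).symm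
    have h3 : #((Ico (H * p) (H * (q + 1))).filter
        (fun t => Nice Y n T0 T1 G H1 M w t ∧ HasCut Y n H1 w (t / H1)))
        ≤ #((Ico (H * p) (H * q)).filter
        (fun t => Nice Y n T0 T1 G H1 M w t ∧ HasCut Y n H1 w (t / H1))) +
        #((Ico (H * q) (H * (q + 1))).filter
        (fun t => Nice Y n T0 T1 G H1 M w t ∧ HasCut Y n H1 w (t / H1))) := by
      rw [h2, filter_union]
      exact card_union_le _ _
    have h4 : ∑ c ∈ Ico (H * p) (H * (q + 1)), lc Y n H1 H w c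
        = ∑ c ∈ Ico (H * p) (H * q), lc Y n H1 H w c
          + ∑ c ∈ Ico (H * q) (H * (q + 1)), lc Y n H1 H w c :=
      (Finset.sum_Ico_consecutive _ (Nat.mul_le_mul_left H hpq)
        (Nat.mul_le_mul_left H (Nat.le_succ q))).symm
    have h5 : ((q + 1 - p : ℕ) : ℤ) = ((q - p : ℕ) : ℤ) + 1 := by
      have : q + 1 - p = (q - p) + 1 := by omega
      rw [this]; push_cast; ring
    rw [h4, h5]
    have h6 : (#((Ico (H * p) (H * (q + 1))).filter
        (fun t => Nice Y n T0 T1 G H1 M w t ∧ HasCut Y n H1 w (t / H1))) : ℤ)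
        ≤ #((Ico (H * p) (H * q)).filter
        (fun t => Nice Y n T0 T1 G H1 M w t ∧ HasCut Y n H1 w (t / H1))) +
        #((Ico (H * q) (H * (q + 1))).filter
        (fun t => Nice Y n T0 T1 G H1 M w t ∧ HasCut Y n H1 w (t / H1))) := by
      exact_mod_cast h3
    linarith

end TE1

open TE1

open Classical in
/-- TASK E1 : the inner segments carry almost all the height progress -/
theorem inner_progress (Y : Sys A d) {n T0 T1 G H1 M R0 H P Q : ℕ} {w : ℕ → A}
    (hH1 : 0 < H1) (hH : 0 < H) (hdiv : H1 ∣ H) (hP : H ∣ P) (hQ : H ∣ Q) (hPQ : P ≤ Q)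
    (hQn : Q ≤ n) :
    (#((Finset.Ico P Q).filter (Nice Y n T0 T1 G H1 M w)) : ℤ) - R0 * ((Q - P) / H1 : ℕ)
      - H1 * #((Finset.Ico (P / H1) (Q / H1)).filter (Bad Y n T0 T1 G H1 M R0 w))
      - 2 * H1 * ((Q - P) / H : ℕ) ≤ ∑ c ∈ Finset.Ico P Q, lc Y n H1 H w c := by
  have hdivP : H1 ∣ P := hdiv.trans hP
  have hdivQ : H1 ∣ Q := hdiv.trans hQ
  have hmaps : ∀ t ∈ Ico P Q, t / H1 ∈ Ico (P / H1) (Q / H1) := by
    intro t ht
    rw [mem_Ico] at ht ⊢
    refine ⟨Nat.div_le_div_right ht.1, ?_⟩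
    rw [Nat.div_lt_iff_lt_mul hH1, Nat.div_mul_cancel hdivQ]
    exact ht.2
  set S0 := (Ico P Q).filter (Nice Y n T0 T1 G H1 M w) with hS0
  set S1 := (Ico P Q).filter (fun t => Nice Y n T0 T1 G H1 M w t ∧
    #(niceIn Y n T0 T1 G H1 M w (t / H1)) < R0) with hS1
  set S2 := (Ico P Q).filter (fun t => Nice Y n T0 T1 G H1 M w t ∧
    Bad Y n T0 T1 G H1 M R0 w (t / H1)) with hS2
  set S3 := (Ico P Q).filter (fun t => Nice Y n T0 T1 G H1 M w t ∧ HasCut Y n H1 w (t / H1)) with hS3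
  have hsub : S0 ⊆ (S1 ∪ S2) ∪ S3 := by
    intro t ht
    rw [hS0, mem_filter] at ht
    rw [mem_union, mem_union, hS1, hS2, hS3, mem_filter, mem_filter, mem_filter]
    by_cases h1 : #(niceIn Y n T0 T1 G H1 M w (t / H1)) < R0
    · left; left; exact ⟨ht.1, ht.2, h1⟩
    · by_cases h2 : HasCut Y n H1 w (t / H1)
      · right; exact ⟨ht.1, ht.2, h2⟩
      · left; right
        exact ⟨ht.1, ht.2, not_lt.1 h1, h2⟩
  have hc1 : #S1 ≤ R0 * ((Q - P) / H1) := by
    have hcard : #(Ico (P / H1) (Q / H1)) = (Q - P) / H1 := by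
      rw [Nat.card_Ico]
      obtain ⟨a, rfl⟩ := hdivP
      obtain ⟨b, rfl⟩ := hdivQ
      rw [Nat.mul_div_cancel_left _ hH1, Nat.mul_div_cancel_left _ hH1, ← Nat.mul_sub,
        Nat.mul_div_cancel_left _ hH1]
    rw [← hcard]
    refine Finset.card_le_mul_card_image_of_maps_to (f := fun t => t / H1) ?_ R0 ?_
    · intro t ht
      exact hmaps t (mem_filter.1 ht).1
    · intro j hj
      by_cases h0 : ∃ t ∈ S1, t / H1 = j
      · obtain ⟨t, ht, rfl⟩ := h0
        have h1 := (mem_filter.1 ht).2.2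
        refine le_trans (card_le_card ?_) h1.le
        intro x hx
        rw [mem_filter] at hx
        have h2 := (mem_filter.1 hx.1).2.1
        unfold niceIn
        rw [mem_filter, mem_cell hH1]
        exact ⟨hx.2, h2⟩
      · have : S1.filter (fun t => t / H1 = j) = ∅ := by
          rw [Finset.eq_empty_iff_forall_notMem]
          intro t ht
          rw [mem_filter] at ht
          exact h0 ⟨t, ht.1, ht.2⟩
        rw [this]
        simp
  have hc2 : #S2 ≤ H1 * #((Ico (P / H1) (Q / H1)).filter (Bad Y n T0 T1 G H1 M R0 w)) := by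
    refine Finset.card_le_mul_card_image_of_maps_to (f := fun t => t / H1) ?_ H1 ?_
    · intro t ht
      rw [mem_filter]
      exact ⟨hmaps t (mem_filter.1 ht).1, (mem_filter.1 ht).2.2⟩
    · intro j hj
      have h1 : S2.filter (fun t => t / H1 = j) ⊆ Ico (H1 * j) (H1 * (j + 1)) := by
        intro t ht
        rw [mem_cell hH1]
        exact (mem_filter.1 ht).2
      refine (card_le_card h1).trans ?_
      rw [Nat.card_Ico, mul_add, mul_one, Nat.add_sub_cancel_left]
  have hc3 : (#S3 : ℤ) ≤ ∑ c ∈ Ico P Q, lc Y n H1 H w c + 2 * H1 * ((Q - P) / H : ℕ) := by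
    rw [hS3]
    obtain ⟨p, rfl⟩ := hP
    obtain ⟨q, rfl⟩ := hQ
    have hpq : p ≤ q := Nat.le_of_mul_le_mul_left hPQ hH
    have h1 := cells_bound Y (n := n) (T0 := T0) (T1 := T1) (G := G) (M := M) (w := w)
      hH1 hH hdiv p q hpq
    rw [← Nat.mul_sub, Nat.mul_div_cancel_left _ hH]
    exact h1
  have h1 : #S0 ≤ (#S1 + #S2) + #S3 := by
    refine (card_le_card hsub).trans ((card_union_le _ _).trans ?_)
    gcongr
    exact card_union_le _ _
  have h2 : (#S0 : ℤ) ≤ (R0 * ((Q - P) / H1 : ℕ)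
      + H1 * #((Ico (P / H1) (Q / H1)).filter (Bad Y n T0 T1 G H1 M R0 w))) + #S3 := by
    exact_mod_cast h1.trans (by gcongr)
  linarith

end Pool.Agent.H976R2.SB
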