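import Pool.Agent.H976R2.SB.Basic

/-! Task E2: coherence of the transversal increments. -/

namespace Pool.Agent.H976R2.SB
open Finset

variable {A : Type} {d : ℕ}

namespace TE2

section nxt
variable (Y : Sys A d) {n H1 H : ℕ} {w : ℕ → A}

lemma nxt_spec {c : ℕ} (h : ∃ c', IsNxt Y n H1 H w c c') : IsNxt Y n H1 H w c (nxt Y n H1 H w c) := by
  unfold nxt
  rw [dif_pos h]
  exact h.choose_spec

lemma nxt_eq_self {c : ℕ} (h : ¬ ∃ c', IsNxt Y n H1 H w c c') : nxt Y n H1 H w c = c := by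
  unfold nxt
  rw [dif_neg h]

lemma le_nxt (c : ℕ) : c ≤ nxt Y n H1 H w c := by
  by_cases h : ∃ c', IsNxt Y n H1 H w c c'
  · exact (nxt_spec Y h).2.2.1.le
  · rw [nxt_eq_self Y h]

lemma can_of_nxt_ne {c : ℕ} (h : nxt Y n H1 H w c ≠ c) : Can Y n H1 w c := by
  by_contra hc
  apply h
  apply nxt_eq_self
  rintro ⟨c', hc'⟩
  exact hc hc'.1

lemma nxt_unique {c c' : ℕ} (h : IsNxt Y n H1 H w c c') : nxt Y n H1 H w c = c' := by
  have h1 := nxt_spec Y ⟨c', h⟩
  rcases lt_trichotomy (nxt Y n H1 H w c) c' with h2 | h2 | h2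
  · exact absurd h1.2.1 (h.2.2.2.2 _ h1.2.2.1 h2)
  · exact h2
  · exact absurd h.2.1 (h1.2.2.2.2 _ h.2.2.1 h2)

lemma div_of_mem {k x : ℕ} (h1 : H * k ≤ x) (h2 : x < H * (k + 1)) : x / H = k := by
  rw [Nat.div_eq_of_lt_le]
  · rwa [mul_comm]
  · rwa [mul_comm]

/-- telescoping over one `H`-cell -/
lemma telescope (hH : 0 < H) (k : ℕ) : ∃ a b : ℕ, H * k ≤ a ∧ a ≤ b ∧ b ≤ H * (k + 1) ∧
    ∀ g : ℕ → ℤ, ∑ c ∈ Ico (H * k) (H * (k + 1)), (g (nxt Y n H1 H w c) - g c) = g b - g a := by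
  classical
  by_cases hne : ∃ c, H * k ≤ c ∧ c < H * (k + 1) ∧ Can Y n H1 w c
  · obtain ⟨a, ha, hamin⟩ : ∃ a, (H * k ≤ a ∧ a < H * (k + 1) ∧ Can Y n H1 w a) ∧
        ∀ c, (H * k ≤ c ∧ c < H * (k + 1) ∧ Can Y n H1 w c) → a ≤ c :=
      ⟨Nat.find hne, Nat.find_spec hne, fun c hc => Nat.find_min' hne hc⟩
    -- induction
    have key : ∀ x, H * k ≤ x → x ≤ H * (k + 1) → ∃ z,
        (H * k ≤ z ∧ z < H * (k + 1) ∧ Can Y n H1 w z) ∧
        ((x ≤ z ∧ ∀ c, (H * k ≤ c ∧ c < H * (k + 1) ∧ Can Y n H1 w c) → x ≤ c → z ≤ c) ∨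
          (z < x ∧ ∀ c, (H * k ≤ c ∧ c < H * (k + 1) ∧ Can Y n H1 w c) → c ≤ z)) ∧
        ∀ g : ℕ → ℤ, ∑ c ∈ Ico (H * k) x, (g (nxt Y n H1 H w c) - g c) = g z - g a := by
      intro x hx
      induction x, hx using Nat.le_induction with
      | base =>
        intro _
        exact ⟨a, ha, Or.inl ⟨ha.1, fun c hc _ => hamin c hc⟩, fun g => by simp⟩
      | succ x hx ih =>
        intro hx2
        obtain ⟨z, hz, hz2, hz3⟩ := ih (by omega)
        have hsum : ∀ g : ℕ → ℤ, ∑ c ∈ Ico (H * k) (x + 1), (g (nxt Y n H1 H w c) - g c) =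
            g z - g a + (g (nxt Y n H1 H w x) - g x) := by
          intro g
          rw [Finset.sum_Ico_succ_top hx, hz3 g]
        by_cases hxC : Can Y n H1 w x
        · have hxm : H * k ≤ x ∧ x < H * (k + 1) ∧ Can Y n H1 w x := ⟨hx, by omega, hxC⟩
          have hzx : z = x := by
            rcases hz2 with ⟨h1, h2⟩ | ⟨h1, h2⟩
            · exact le_antisymm (h2 x hxm le_rfl) h1
            · have := h2 x hxm; omega
          subst hzx
          by_cases hmore : ∃ c, z < c ∧ (H * k ≤ c ∧ c < H * (k + 1) ∧ Can Y n H1 w c)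
          · obtain ⟨c', hc', hc'min⟩ : ∃ c', (z < c' ∧ (H * k ≤ c' ∧ c' < H * (k + 1) ∧
                Can Y n H1 w c')) ∧ ∀ c, (z < c ∧ (H * k ≤ c ∧ c < H * (k + 1) ∧
                Can Y n H1 w c)) → c' ≤ c :=
              ⟨Nat.find hmore, Nat.find_spec hmore, fun c hc => Nat.find_min' hmore hc⟩
            have hN : nxt Y n H1 H w z = c' := by
              apply nxt_unique
              refine ⟨hxC, hc'.2.2.2, hc'.1, ?_, ?_⟩
              · rw [div_of_mem hx hxm.2.1, div_of_mem hc'.2.1 hc'.2.2.1]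
              · intro c'' h1 h2 h3
                have := hc'min c'' ⟨h1, by omega, by omega, h3⟩
                omega
            refine ⟨c', hc'.2, Or.inl ⟨hc'.1, fun c hc hc2 => hc'min c ⟨by omega, hc⟩⟩, ?_⟩
            intro g
            rw [hsum g, hN]
            ring
          · have hN : nxt Y n H1 H w z = z := by
              apply nxt_eq_self
              rintro ⟨c', h1, h2, h3, h4, h5⟩
              apply hmore
              rw [div_of_mem hx hxm.2.1] at h4
              refine ⟨c', h3, ?_, ?_, h2⟩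
              · have := Nat.div_mul_le_self c' H
                rw [← h4, mul_comm] at this
                exact this
              · have := Nat.lt_mul_div_succ c' hH
                rw [← h4] at this
                exact this
            refine ⟨z, hz, Or.inr ⟨by omega, fun c hc => ?_⟩, ?_⟩
            · by_contra hlt
              exact hmore ⟨c, by omega, hc⟩
            · intro g
              rw [hsum g, hN]
              ring
        · have hN : nxt Y n H1 H w x = x := by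
            by_contra h
            exact hxC (can_of_nxt_ne Y h)
          refine ⟨z, hz, ?_, ?_⟩
          · rcases hz2 with ⟨h1, h2⟩ | ⟨h1, h2⟩
            · left
              have hzx : z ≠ x := fun h => hxC (h ▸ hz.2.2)
              exact ⟨by omega, fun c hc hc2 => h2 c hc (by omega)⟩
            · right
              exact ⟨by omega, h2⟩
          · intro g
            rw [hsum g, hN]
            ring
    obtain ⟨z, hz, -, hz3⟩ := key (H * (k + 1)) (Nat.mul_le_mul_left _ (by omega)) le_rfl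
    exact ⟨a, z, ha.1, hamin z hz, hz.2.1.le, hz3⟩
  · refine ⟨H * k, H * k, le_rfl, le_rfl, Nat.mul_le_mul_left _ (by omega), fun g => ?_⟩
    rw [sub_self]
    refine Finset.sum_eq_zero fun c hc => ?_
    rw [Finset.mem_Ico] at hc
    have hN : nxt Y n H1 H w c = c := by
      by_contra h
      exact hne ⟨c, hc.1, hc.2, can_of_nxt_ne Y h⟩
    rw [hN, sub_self]

open Classical in
/-- at most one canonical cut in every `H1`-cell -/
lemma count (hH1 : 0 < H1) {P Q : ℕ} (hP : H1 ∣ P) (hQ : H1 ∣ Q) :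
    #((Ico P Q).filter (fun c => nxt Y n H1 H w c ≠ c)) ≤ (Q - P) / H1 := by
  obtain ⟨p, rfl⟩ := hP
  obtain ⟨q, rfl⟩ := hQ
  have h1 : (H1 * q - H1 * p) / H1 = q - p := by
    rw [← Nat.mul_sub, Nat.mul_div_cancel_left _ hH1]
  rw [h1]
  calc _ ≤ #(Ico p q) := by
        refine Finset.card_le_card_of_injOn (fun c => c / H1) ?_ ?_
        · intro c hc
          rw [Finset.mem_coe, Finset.mem_filter, Finset.mem_Ico] at hc
          rw [Finset.mem_coe, Finset.mem_Ico]
          constructor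
          · rw [Nat.le_div_iff_mul_le hH1, mul_comm]; exact hc.1.1
          · rw [Nat.div_lt_iff_lt_mul hH1, mul_comm]; exact hc.1.2
        · intro c hc c' hc' heq
          rw [Finset.mem_coe, Finset.mem_filter] at hc hc'
          have h2 := can_of_nxt_ne Y hc.2
          have h3 := can_of_nxt_ne Y hc'.2
          simp only at heq
          rcases lt_trichotomy c c' with h | h | h
          · exact absurd h2.1 (h3.2 c (by rw [← heq]; exact Nat.mul_div_le c H1) h)
          · exact h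
          · exact absurd h3.1 (h2.2 c' (by rw [heq]; exact Nat.mul_div_le c' H1) h)
    _ = q - p := by rw [Nat.card_Ico]

end nxt

/-- `⌈t/s⌉` -/
def up (s t : ℕ) : ℕ := (t + s - 1) / s

lemma up_mul {s : ℕ} (hs : 1 ≤ s) (u : ℕ) : up s (s * u) = u := by
  unfold up
  rw [Nat.add_sub_assoc hs, Nat.mul_add_div (by omega), Nat.div_eq_of_lt (by omega), add_zero]

lemma up_mono {s t t' : ℕ} (h : t ≤ t') : up s t ≤ up s t' := by
  unfold up
  exact Nat.div_le_div_right (by omega)

lemma le_mul_up {s : ℕ} (hs : 1 ≤ s) (t : ℕ) : t ≤ s * up s t := by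
  unfold up
  have := Nat.lt_mul_div_succ (t + s - 1) (by omega : 0 < s)
  rw [mul_add, mul_one] at this
  omega

lemma mul_up_lt {s : ℕ} (hs : 1 ≤ s) (t : ℕ) : s * up s t < t + s := by
  unfold up
  have := Nat.mul_div_le (t + s - 1) s
  omega

/-- rounding to the grid -/
lemma rounding (Y : Sys A d) (w : ℕ → A) {s : ℕ} (hs : 1 ≤ s) (φ : ℕ → ℕ → ℤ) (B : ℤ)
    (hadd : ∀ a b c, φ a b + φ b c = φ a c)
    (hB : ∀ a b : ℕ, a ≤ b → |φ a b| ≤ B * ((b : ℤ) - a))
    (hφ : ∀ p q : ℕ, p ≤ q → -dfc Y w s p q ≤ φ (s * p) (s * q))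
    {P0 x y : ℕ} (hP0 : P0 ≤ up s x) (hxy : x ≤ y) (hB0 : 0 ≤ B) :
    -(dfc Y w s P0 (up s y) - dfc Y w s P0 (up s x)) - 2 * B * s ≤ φ x y := by
  have hu := up_mono (s := s) hxy
  have hd1 := dfc_add Y w s hP0 hu
  have hd2 := dfc_nonneg Y w s (up s x) (up s y)
  have e1 := le_mul_up hs x
  have e2 := mul_up_lt hs x
  rcases le_or_gt (up s x) (y / s) with h | h
  · have h1 := hadd x (s * up s x) y
    have h2 := hadd (s * up s x) (s * (y / s)) y
    have h3 := abs_le.1 (hB x (s * up s x) e1)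
    have h4 := abs_le.1 (hB (s * (y / s)) y (Nat.mul_div_le y s))
    have h5 := hφ _ _ h
    have h6 : y / s ≤ up s y := by
      unfold up
      exact Nat.div_le_div_right (by omega)
    have h7 := dfc_mono Y w s (p := up s x) (q := up s y) (p' := up s x) (q' := y / s) le_rfl h6
    have h8 := Nat.lt_mul_div_succ y (by omega : 0 < s)
    have h9 : ((s * up s x : ℕ) : ℤ) - x ≤ s := by
      have : s * up s x ≤ x + s := e2.le
      have h' : ((s * up s x : ℕ) : ℤ) ≤ ((x + s : ℕ) : ℤ) := by exact_mod_cast this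
      push_cast at h' ⊢
      linarith
    have h10 : (y : ℤ) - ((s * (y / s) : ℕ) : ℤ) ≤ s := by
      have : y ≤ s * (y / s) + s := by rw [mul_add, mul_one] at h8; omega
      have h' : (y : ℤ) ≤ ((s * (y / s) + s : ℕ) : ℤ) := by exact_mod_cast this
      push_cast at h' ⊢
      linarith
    have h11 := mul_le_mul_of_nonneg_left h9 hB0
    have h12 := mul_le_mul_of_nonneg_left h10 hB0
    linarith [h3.1, h4.1]
  · have h1 : y < s * up s x := by
      rw [Nat.div_lt_iff_lt_mul (by omega), mul_comm] at h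
      exact h
    have h2 : (y : ℤ) - x ≤ s := by
      have : y ≤ x + s := by omega
      have h' : (y : ℤ) ≤ ((x + s : ℕ) : ℤ) := by exact_mod_cast this
      push_cast at h'
      linarith
    have h3 := abs_le.1 (hB x y hxy)
    have h4 := mul_le_mul_of_nonneg_left h2 hB0
    have h5 : 0 ≤ B * s := mul_nonneg hB0 (by positivity)
    linarith [h3.1]

/-- the two inequalities for one `H`-cell -/
lemma cell (Y : Sys A d) {n H1 H s : ℕ} {w : ℕ → A} (hs : 1 ≤ s)
    (hsH : s ∣ H1) (hH1 : 0 < H1) (hH : 0 < H) (hdiv : H1 ∣ H) (k : ℕ) :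
    incr Y.l w (H * k) (H * (k + 1)) -
      16 * (incr Y.l w (H * k) (H * (k + 1)) -
        ∑ c ∈ Ico (H * k) (H * (k + 1)), lc Y n H1 H w c)
      - 5 * dfc Y w s (H * k / s) (H * (k + 1) / s) - 80 * s ≤
      4 * ∑ c ∈ Ico (H * k) (H * (k + 1)), yc Y n H1 H w c ∧
    ∑ c ∈ Ico (H * k) (H * (k + 1)), |yc Y n H1 H w c| ≤
      ∑ c ∈ Ico (H * k) (H * (k + 1)), yc Y n H1 H w c +
        2 * dfc Y w s (H * k / s) (H * (k + 1) / s) + 4 * s * (H / H1 : ℕ) := by
  classical
  obtain ⟨a, b, hka, hab, hbk, htel⟩ := telescope Y (n := n) (H1 := H1) (w := w) hH k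
  obtain ⟨h0, hh0⟩ := hsH.trans hdiv
  have hk0 : H * k / s = h0 * k := by
    rw [hh0, mul_assoc, Nat.mul_div_cancel_left _ (by omega)]
  have hk1 : H * (k + 1) / s = h0 * (k + 1) := by
    rw [hh0, mul_assoc, Nat.mul_div_cancel_left _ (by omega)]
  have hu0 : up s (H * k) = h0 * k := by rw [hh0, mul_assoc, up_mul hs]
  have hu1 : up s (H * (k + 1)) = h0 * (k + 1) := by rw [hh0, mul_assoc, up_mul hs]
  rw [hk0, hk1]
  set P0 := h0 * k with hP0
  set G : ℕ → ℤ := fun t => dfc Y w s P0 (up s t) with hG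
  have hG0 : G (H * k) = 0 := by
    simp only [hG, hu0]
    unfold dfc
    simp
  have hG1 : G (H * (k + 1)) = dfc Y w s P0 (h0 * (k + 1)) := by simp only [hG, hu1]
  have hGm : ∀ x y, x ≤ y → G x ≤ G y := fun x y hxy =>
    dfc_mono Y w s le_rfl (up_mono hxy)
  have hP0le : ∀ x, H * k ≤ x → P0 ≤ up s x := fun x hx => by
    rw [← hu0]; exact up_mono hx
  -- functionals
  have ry : ∀ x y, H * k ≤ x → x ≤ y → -(G y - G x) - 2 * 1 * s ≤ incr Y.y w x y := by
    intro x y hx hxy
    refine rounding Y w hs (incr Y.y w) 1 (incr_add Y.y w) (fun a b hab => ?_)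
      (fun p q hpq => (neg_dfc_le Y w s hpq).2.1) (hP0le x hx) hxy (by norm_num)
    rw [one_mul]
    exact abs_incr_le Y.y_le w hab
  have rf : ∀ x y, H * k ≤ x → x ≤ y → -(G y - G x) - 2 * 5 * s ≤
      4 * incr Y.l w x y - incr Y.y w x y := by
    intro x y hx hxy
    refine rounding Y w hs (fun x y => 4 * incr Y.l w x y - incr Y.y w x y) 5
      (fun a b c => ?_) (fun a b hab => ?_)
      (fun p q hpq => (neg_dfc_le Y w s hpq).2.2.2.1) (hP0le x hx) hxy (by norm_num)
    · have e1 := incr_add Y.l w a b c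
      have e2 := incr_add Y.y w a b c
      linarith
    · have e1 := abs_le.1 (abs_incr_le Y.l_le w hab)
      have e2 := abs_le.1 (abs_incr_le Y.y_le w hab)
      rw [abs_le]
      constructor <;> linarith [e1.1, e1.2, e2.1, e2.2]
  have hyc : ∑ c ∈ Ico (H * k) (H * (k + 1)), yc Y n H1 H w c = incr Y.y w a b := by
    rw [incr, ← htel (ht Y.y w)]
    rfl
  have hlc : ∑ c ∈ Ico (H * k) (H * (k + 1)), lc Y n H1 H w c = incr Y.l w a b := by
    rw [incr, ← htel (ht Y.l w)]
    rfl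
  constructor
  · rw [hyc, hlc]
    have e1 := rf (H * k) a le_rfl hka
    have e2 := rf b (H * (k + 1)) (hka.trans hab) hbk
    have e3 := (neg_dfc_le Y w s (show h0 * k ≤ h0 * (k + 1) from
      Nat.mul_le_mul_left _ (by omega))).2.2.1
    have e4 : s * (h0 * k) = H * k := by rw [hh0, mul_assoc]
    have e5 : s * (h0 * (k + 1)) = H * (k + 1) := by rw [hh0, mul_assoc]
    rw [e4, e5] at e3
    have a1 := incr_add Y.l w (H * k) a b
    have a2 := incr_add Y.l w (H * k) b (H * (k + 1))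
    have b1 := incr_add Y.y w (H * k) a b
    have b2 := incr_add Y.y w (H * k) b (H * (k + 1))
    have g1 := hGm a b hab
    rw [hG0] at e1
    rw [hG1] at e2
    linarith
  · have e1 : ∀ c ∈ Ico (H * k) (H * (k + 1)), |yc Y n H1 H w c| ≤ yc Y n H1 H w c +
        2 * (G (nxt Y n H1 H w c) - G c) +
        (if nxt Y n H1 H w c ≠ c then 4 * (s : ℤ) else 0) := by
      intro c hc
      rw [Finset.mem_Ico] at hc
      have hle := le_nxt Y (n := n) (H1 := H1) (H := H) (w := w) c
      have hg := hGm c (nxt Y n H1 H w c) hle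
      split_ifs with hne
      · have := ry c (nxt Y n H1 H w c) hc.1 hle
        have hyc' : yc Y n H1 H w c = incr Y.y w c (nxt Y n H1 H w c) := rfl
        rw [abs_le]
        have hs' : (0 : ℤ) ≤ s := by positivity
        constructor
        · rw [hyc']; linarith
        · rw [hyc']; linarith
      · rw [not_not] at hne
        have hyc' : yc Y n H1 H w c = incr Y.y w c (nxt Y n H1 H w c) := rfl
        rw [hyc', hne, incr_self]
        simp
    refine (Finset.sum_le_sum e1).trans ?_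
    rw [Finset.sum_add_distrib, Finset.sum_add_distrib, ← Finset.mul_sum, htel G,
      ← Finset.sum_filter, Finset.sum_const, nsmul_eq_mul]
    have g1 : G b - G a ≤ dfc Y w s P0 (h0 * (k + 1)) := by
      have g2 := hGm b (H * (k + 1)) hbk
      have g3 := hGm (H * k) a hka
      rw [hG1] at g2
      rw [hG0] at g3
      linarith
    have hcnt := count Y (n := n) (H1 := H1) (H := H) (w := w) hH1 (P := H * k)
      (Q := H * (k + 1)) (hdiv.mul_right k) (hdiv.mul_right (k + 1))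
    have hHk : H * (k + 1) - H * k = H := by rw [mul_add, mul_one]; omega
    rw [hHk] at hcnt
    have hcnt' : ((#((Ico (H * k) (H * (k + 1))).filter (fun c => nxt Y n H1 H w c ≠ c)) : ℕ) : ℤ)
        ≤ ((H / H1 : ℕ) : ℤ) := by exact_mod_cast hcnt
    have hs' : (0 : ℤ) ≤ 4 * s := by positivity
    have := mul_le_mul_of_nonneg_right hcnt' hs'
    linarith

lemma sum_cells (H : ℕ) (F : ℕ → ℤ) {p q : ℕ} (hpq : p ≤ q) :
    ∑ c ∈ Ico (H * p) (H * q), F c = ∑ k ∈ Ico p q, ∑ c ∈ Ico (H * k) (H * (k + 1)), F c := by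
  induction q, hpq using Nat.le_induction with
  | base => simp
  | succ q hpq ih =>
    rw [Finset.sum_Ico_succ_top hpq, ← ih, Finset.sum_Ico_consecutive _
      (Nat.mul_le_mul_left _ hpq) (Nat.mul_le_mul_left _ (by omega))]

lemma incr_cells (f : A → ℤ) (w : ℕ → A) (H : ℕ) {p q : ℕ} (hpq : p ≤ q) :
    incr f w (H * p) (H * q) = ∑ k ∈ Ico p q, incr f w (H * k) (H * (k + 1)) := by
  induction q, hpq using Nat.le_induction with
  | base => simp [incr_self]
  | succ q hpq ih => rw [Finset.sum_Ico_succ_top hpq, ← ih, incr_add]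

lemma dfc_cells (Y : Sys A d) (w : ℕ → A) (s h0 : ℕ) {p q : ℕ} (hpq : p ≤ q) :
    dfc Y w s (h0 * p) (h0 * q) = ∑ k ∈ Ico p q, dfc Y w s (h0 * k) (h0 * (k + 1)) := by
  induction q, hpq using Nat.le_induction with
  | base => simp [dfc]
  | succ q hpq ih =>
    rw [Finset.sum_Ico_succ_top hpq, ← ih, dfc_add Y w s (Nat.mul_le_mul_left _ hpq)
      (Nat.mul_le_mul_left _ (by omega))]

end TE2

/-- TASK E2 : coherence of the transversal increments -/
theorem coherence (Y : Sys A d) {n H1 H s P Q : ℕ} {w : ℕ → A} (hs : 1 ≤ s)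
    (hsH : s ∣ H1) (hH1 : 0 < H1) (hH : 0 < H) (hdiv : H1 ∣ H) (hP : H ∣ P) (hQ : H ∣ Q)
    (hPQ : P ≤ Q) (hQn : Q ≤ n) (e1 : ℤ)
    (he : incr Y.l w P Q - e1 ≤ ∑ c ∈ Finset.Ico P Q, lc Y n H1 H w c) :
    incr Y.l w P Q - 16 * e1 - 8 * dfc Y w s (P / s) (Q / s) - 80 * s * ((Q - P) / H : ℕ) ≤
      4 * ∑ c ∈ Finset.Ico P Q, yc Y n H1 H w c ∧
    ∑ c ∈ Finset.Ico P Q, |yc Y n H1 H w c| ≤
      ∑ c ∈ Finset.Ico P Q, yc Y n H1 H w c + 2 * dfc Y w s (P / s) (Q / s) +
        8 * s * ((Q - P) / H1 : ℕ) := by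
  obtain ⟨p, rfl⟩ := hP
  obtain ⟨q, rfl⟩ := hQ
  have hpq : p ≤ q := Nat.le_of_mul_le_mul_left hPQ hH
  obtain ⟨h0, hh0⟩ := hsH.trans hdiv
  obtain ⟨h1, hh1⟩ := hdiv
  have hdivs : ∀ x, H * x / s = h0 * x := by
    intro x
    rw [hh0, mul_assoc, Nat.mul_div_cancel_left _ (by omega)]
  have hN : (H * q - H * p) / H = q - p := by
    rw [← Nat.mul_sub, Nat.mul_div_cancel_left _ hH]
  have hHH1 : H / H1 = h1 := by rw [hh1, Nat.mul_div_cancel_left _ hH1]
  have hN1 : (H * q - H * p) / H1 = h1 * (q - p) := by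
    rw [← Nat.mul_sub, hh1, mul_assoc, Nat.mul_div_cancel_left _ hH1]
  have hcell := fun k => TE2.cell Y (n := n) (w := w) hs hsH hH1 hH ⟨h1, hh1⟩ k
  have hD : dfc Y w s (H * p / s) (H * q / s) =
      ∑ k ∈ Ico p q, dfc Y w s (H * k / s) (H * (k + 1) / s) := by
    rw [hdivs, hdivs, TE2.dfc_cells Y w s h0 hpq]
    refine Finset.sum_congr rfl fun k _ => ?_
    rw [hdivs, hdivs]
  have hDnn := dfc_nonneg Y w s (H * p / s) (H * q / s)
  have hcard : ((q - p : ℕ) : ℤ) = ∑ _k ∈ Ico p q, (1 : ℤ) := by simp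
  constructor
  · have hsum := Finset.sum_le_sum fun k (_ : k ∈ Ico p q) => (hcell k).1
    rw [← Finset.mul_sum, ← TE2.sum_cells H _ hpq] at hsum
    simp only [Finset.sum_sub_distrib, ← Finset.mul_sum] at hsum
    rw [← TE2.sum_cells H _ hpq, ← TE2.incr_cells Y.l w H hpq, ← hD] at hsum
    simp only [Finset.sum_const, Nat.card_Ico, nsmul_eq_mul] at hsum
    rw [hN]
    linarith
  · have hsum := Finset.sum_le_sum fun k (_ : k ∈ Ico p q) => (hcell k).2
    rw [← TE2.sum_cells H _ hpq] at hsum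
    simp only [Finset.sum_add_distrib, ← Finset.mul_sum] at hsum
    rw [← TE2.sum_cells H _ hpq, ← hD] at hsum
    simp only [Finset.sum_const, Nat.card_Ico, nsmul_eq_mul, hHH1] at hsum
    rw [hN1]
    push_cast at hsum ⊢
    have hnn : (0 : ℤ) ≤ 4 * s * (h1 * ((q - p : ℕ) : ℤ)) := by positivity
    rw [mul_comm ((q - p : ℕ) : ℤ) (h1 : ℤ)] at hsum
    linarith

end Pool.Agent.H976R2.SB
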