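import Pool.Agent.H976R2.SB.Basic
import Pool.Agent.H976R2.SB.D5
import Pool.Agent.H976R2.SB.E1
import Pool.Agent.H976R2.SB.E2

/-! TASK G2 : a block of a monotone walk with few bad cells is coherent -/

namespace Pool.Agent.H976R2.SB
open Finset


variable {A : Type} {d : ℕ}

open Classical in
/-- TASK G2 : a block of a monotone walk with few bad cells is coherent (uses D5, E1, E2) -/
theorem block_coherent (Y : Sys A d) {n S s i T1 H1 H M R0 P Q : ℕ} {w : ℕ → A} {Sc : ℕ → ℕ}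
    (hS : 1 ≤ S) (hs : 1 ≤ s) (hsaw : Saw Y n w) (hm : MonoOn Y w S 0 n)
    (hSc0 : Sc 0 = 1) (hScm : Monotone Sc) (hScs : ∀ j ≤ i, Sc j ∣ s)
    (hT0 : (40 * s) ^ d ≤ 4 * Sc (i + 1)) (hT1 : (40 * s) ^ d < T1) (hM : 2 ≤ M)
    (hsH : s ∣ H1) (hH1 : 0 < H1) (hH : 0 < H) (hdiv : H1 ∣ H) (hP : H ∣ P) (hQ : H ∣ Q)
    (hPQ : P ≤ Q) (hQn : Q ≤ n) (lam : ℝ)
    (c1 : 8 / 10 * lam ≤ ((incr Y.l w P Q : ℤ) : ℝ))
    (c2 : ((dfc Y w s (P / s) (Q / s) : ℤ) : ℝ) ≤ lam / 10 ^ 5)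
    (c3 : 2000 * (S : ℝ) ≤ lam)
    (c4 : 2 * ((40 * s : ℝ) ^ d + 1) ≤ lam / 2000)
    (c5 : 2 * ((40 * s : ℝ) ^ d + 1) * ((Q : ℝ) - P) / (T1 - (40 * s : ℝ) ^ d) ≤ lam / 2000)
    (c6 : (((Q : ℝ) - P) / H1 + 1) * (2 * (T1 + (40 * s : ℝ) ^ d + 1) + 1) ≤ lam / 2000)
    (c7 : 2 * multiCost Y Sc i w P Q / Real.log M ≤ lam / 2000)
    (c8 : R0 * (((Q : ℝ) - P) / H1) ≤ lam / 2000)
    (c9 : (H1 : ℝ) * #((Finset.Ico (P / H1) (Q / H1)).filter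
      (Bad Y n ((40 * s) ^ d) T1 ((40 * s) ^ d + 1) H1 M R0 w)) ≤ lam / 2000)
    (c10 : 2 * H1 * (((Q : ℝ) - P) / H) ≤ lam / 2000)
    (c11 : 80 * s * (((Q : ℝ) - P) / H1) ≤ lam / 2000) :
    lam / 20 ≤ ((∑ c ∈ Finset.Ico P Q, |yc Y n H1 H w c| : ℤ) : ℝ) ∧
    4 * ∑ c ∈ Finset.Ico P Q, |yc Y n H1 H w c| ≤ 5 * ∑ c ∈ Finset.Ico P Q, yc Y n H1 H w c := by
  have hsH' : s ∣ H := hsH.trans hdiv
  have hsP : s ∣ P := hsH'.trans hP
  have hsQ : s ∣ Q := hsH'.trans hQ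
  have eP : s * (P / s) = P := Nat.mul_div_cancel' hsP
  have eQ : s * (Q / s) = Q := Nat.mul_div_cancel' hsQ
  have ePr : (s : ℝ) * ((P / s : ℕ) : ℝ) = P := by exact_mod_cast eP
  have eQr : (s : ℝ) * ((Q / s : ℕ) : ℝ) = Q := by exact_mod_cast eQ
  have hN := nice_count (d := d) Y (n := n) (S := S) (s := s) (p := P / s) (q := Q / s) (i := i)
    (T1 := T1) (H1 := H1) (M := M) (w := w) (Sc := Sc) hS hs (Nat.div_le_div_right hPQ)
    (by rw [eQ]; exact hQn) hsaw hm hSc0 hScm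
    (fun j hj => by rw [eP]; exact (hScs j hj).trans hsP)
    (fun j hj => by rw [eQ]; exact (hScs j hj).trans hsQ) hT0 hT1 hH1
    (by rw [eQ]; exact hdiv.trans hQ) hM
  rw [eP, eQ, ePr, eQr] at hN
  have hI := inner_progress Y (n := n) (T0 := (40 * s) ^ d) (T1 := T1) (G := (40 * s) ^ d + 1)
    (H1 := H1) (M := M) (R0 := R0) (H := H) (P := P) (Q := Q) (w := w) hH1 hH hdiv hP hQ hPQ hQn
  set N := #((Finset.Ico P Q).filter (Nice Y n ((40 * s) ^ d) T1 ((40 * s) ^ d + 1) H1 M w)) with hNdef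
  set Bd := #((Finset.Ico (P / H1) (Q / H1)).filter
      (Bad Y n ((40 * s) ^ d) T1 ((40 * s) ^ d + 1) H1 M R0 w)) with hBd
  obtain ⟨hC1, hC2⟩ := coherence Y (n := n) (H1 := H1) (H := H) (s := s) (P := P) (Q := Q) (w := w)
    hs hsH hH1 hH hdiv hP hQ hPQ hQn (incr Y.l w P Q - ∑ c ∈ Finset.Ico P Q, lc Y n H1 H w c)
    (by linarith)
  set Lc := ∑ c ∈ Finset.Ico P Q, lc Y n H1 H w c with hLc
  set Yin := ∑ c ∈ Finset.Ico P Q, yc Y n H1 H w c with hYin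
  set Yab := ∑ c ∈ Finset.Ico P Q, |yc Y n H1 H w c| with hYab
  set I := incr Y.l w P Q with hIdef
  set D := dfc Y w s (P / s) (Q / s) with hD
  -- real versions
  have hPQr : (P : ℝ) ≤ Q := by exact_mod_cast hPQ
  have hcast : ((Q - P : ℕ) : ℝ) = (Q : ℝ) - P := by rw [Nat.cast_sub hPQ]
  have hd1 : (((Q - P) / H1 : ℕ) : ℝ) ≤ ((Q : ℝ) - P) / H1 := by
    rw [← hcast]
    exact Nat.cast_div_le
  have hd2 : (((Q - P) / H : ℕ) : ℝ) ≤ ((Q : ℝ) - P) / H := by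
    rw [← hcast]
    exact Nat.cast_div_le
  have hH1r : (0 : ℝ) < H1 := by exact_mod_cast hH1
  have hHr : (0 : ℝ) < H := by exact_mod_cast hH
  have hH1H : (H1 : ℝ) ≤ H := by exact_mod_cast Nat.le_of_dvd hH hdiv
  have hd3 : ((Q : ℝ) - P) / H ≤ ((Q : ℝ) - P) / H1 :=
    div_le_div_of_nonneg_left (by linarith) hH1r hH1H
  have hsr : (0 : ℝ) ≤ s := Nat.cast_nonneg s
  have hR0 : (0 : ℝ) ≤ R0 := Nat.cast_nonneg R0
  generalize (Q - P) / H1 = qa at hI hC1 hC2 hd1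
  generalize (Q - P) / H = qb at hI hC1 hC2 hd2
  have hI' : (N : ℝ) - R0 * (qa : ℝ) - H1 * Bd - 2 * H1 * (qb : ℝ) ≤
      (Lc : ℝ) := by
    have := (Int.cast_le (R := ℝ)).2 hI
    push_cast at this
    linarith
  have hC1' : (I : ℝ) - 16 * ((I : ℝ) - Lc) - 8 * D - 80 * s * (qb : ℝ) ≤
      4 * (Yin : ℝ) := by
    have := (Int.cast_le (R := ℝ)).2 hC1
    push_cast at this
    linarith
  have hC2' : (Yab : ℝ) ≤ Yin + 2 * D + 8 * s * (qa : ℝ) := by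
    have := (Int.cast_le (R := ℝ)).2 hC2
    push_cast at this
    linarith
  have hab : (Yin : ℝ) ≤ Yab := by
    have : Yin ≤ Yab := Finset.sum_le_sum fun c _ => le_abs_self _
    exact_mod_cast this
  have hS' : (1 : ℝ) ≤ S := by exact_mod_cast hS
  have hlam : 0 < lam := by linarith
  have b1 : (R0 : ℝ) * (qa : ℝ) ≤ lam / 2000 :=
    (mul_le_mul_of_nonneg_left hd1 hR0).trans c8
  have b2 : 2 * (H1 : ℝ) * (qb : ℝ) ≤ lam / 2000 :=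
    (mul_le_mul_of_nonneg_left hd2 (by positivity)).trans c10
  have b3 : 80 * (s : ℝ) * (qb : ℝ) ≤ lam / 2000 :=
    (mul_le_mul_of_nonneg_left (hd2.trans hd3) (by positivity)).trans c11
  have b4 : 80 * (s : ℝ) * (qa : ℝ) ≤ lam / 2000 :=
    (mul_le_mul_of_nonneg_left hd1 (by positivity)).trans c11
  have b5 : 8 * (s : ℝ) * (qa : ℝ) ≤ lam / 20000 := by
    have : 8 * (s : ℝ) * (qa : ℝ) = (80 * (s : ℝ) * (qa : ℝ)) / 10 := by
      ring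
    rw [this]
    linarith
  have he1 : (I : ℝ) - Lc ≤ 47 / 10000 * lam := by
    have : (lam : ℝ) / 10 ^ 5 = lam / 100000 := by norm_num
    rw [this] at c2
    linarith
  rw [show (lam : ℝ) / 10 ^ 5 = lam / 100000 by norm_num] at c2
  have hY : 18 / 100 * lam ≤ (Yin : ℝ) := by linarith
  refine ⟨by linarith, ?_⟩
  have hfin : 4 * (Yab : ℝ) ≤ 5 * (Yin : ℝ) := by linarith
  exact_mod_cast hfin

end Pool.Agent.H976R2.SB
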