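import Pool.Agent.H976R2.SB.A1
import Pool.Agent.H976R2.SB.B7
import Pool.Agent.H976R2.SB.C3
import Pool.Agent.H976R2.SB.G1
import Pool.Agent.H976R2.SB.G2

/-! Counting: walks with many effective blocks are rare. -/

namespace Pool.Agent.H976R2.SB
open Finset


variable {A : Type} {d : ℕ}

/-- all the parameter inequalities at one scale -/
structure Hyp (d n D s S i T1 H1 H M R0 q0 N : ℕ) (Sc : ℕ → ℕ) (lam B' : ℝ) : Prop where
  hS : 1 ≤ S
  hs : 1 ≤ s
  hD : 0 < D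
  hHD : H ∣ D
  hdiv : H1 ∣ H
  hsH : s ∣ H1
  hH1 : 0 < H1
  hH : 0 < H
  hSc0 : Sc 0 = 1
  hScm : Monotone Sc
  hScs : ∀ j ≤ i, Sc j ∣ s
  hT0 : (40 * s) ^ d ≤ 4 * Sc (i + 1)
  hT1 : (40 * s) ^ d < T1
  hM : 2 ≤ M
  hR : 1 ≤ R0
  hN : 1 ≤ N
  hlam : 0 < lam
  hA : 4 * ((n / H1) * (2 * T1 + 1) * M ^ 2) ≤ R0 * q0
  t1 : lam / 10 ^ 5 + 2 * s < S
  t2 : H ≤ S
  c3 : 2000 * (S : ℝ) ≤ lam
  c4 : 2 * ((40 * s : ℝ) ^ d + 1) ≤ lam / 2000
  c5 : 2 * ((40 * s : ℝ) ^ d + 1) * (D : ℝ) / (T1 - (40 * s : ℝ) ^ d) ≤ lam / 2000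
  c6 : ((D : ℝ) / H1 + 1) * (2 * (T1 + (40 * s : ℝ) ^ d + 1) + 1) ≤ lam / 2000
  c7 : 2 * (B' * lam) / Real.log M ≤ lam / 2000
  c8 : R0 * ((D : ℝ) / H1) ≤ lam / 2000
  c9 : (H1 : ℝ) * (4 * q0 / N) ≤ lam / 2000
  c10 : 2 * H1 * ((D : ℝ) / H) ≤ lam / 2000
  c11 : 80 * s * ((D : ℝ) / H1) ≤ lam / 2000

namespace Cnt

/-- number of subsets of size at most `m` -/
lemma card_small (n m : ℕ) :
    #((range n).powerset.filter (fun F => #F ≤ m)) ≤ (n + 1) ^ m := by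
  classical
  have h1 : (range n).powerset.filter (fun F => #F ≤ m) ⊆
      (range (m + 1)).biUnion (fun k => (range n).powersetCard k) := by
    intro F hF
    rw [mem_filter, mem_powerset] at hF
    rw [mem_biUnion]
    exact ⟨#F, by rw [mem_range]; omega, by rw [mem_powersetCard]; exact ⟨hF.1, rfl⟩⟩
  refine (card_le_card h1).trans (card_biUnion_le.trans ?_)
  calc ∑ k ∈ range (m + 1), #((range n).powersetCard k)
      = ∑ k ∈ range (m + 1), n.choose k := by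
        refine Finset.sum_congr rfl fun k _ => ?_
        rw [card_powersetCard, card_range]
    _ ≤ ∑ k ∈ range (m + 1), n ^ k * m.choose k := by
        refine Finset.sum_le_sum fun k hk => ?_
        have hk' : k ≤ m := by rw [mem_range] at hk; omega
        have h2 : 1 ≤ m.choose k := Nat.choose_pos hk'
        calc n.choose k ≤ n ^ k := Nat.choose_le_pow n k
          _ = n ^ k * 1 := (mul_one _).symm
          _ ≤ n ^ k * m.choose k := Nat.mul_le_mul_left _ h2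
    _ = (n + 1) ^ m := by
        rw [add_pow]
        refine Finset.sum_congr rfl fun k _ => ?_
        simp

/-- effective block of the unfolded walk -/
def Eff (Y : Sys A d) (D s H i : ℕ) (Sc : ℕ → ℕ) (lam B' : ℝ) (v : ℕ → A) (b P Q : ℕ) : Prop :=
  D * b ≤ P ∧ P ≤ Q ∧ Q ≤ D * (b + 1) ∧ H ∣ P ∧ H ∣ Q ∧
    8 / 10 * lam ≤ ((incr Y.l v P Q : ℤ) : ℝ) ∧
    ((dfc Y v s (P / s) (Q / s) : ℤ) : ℝ) ≤ lam / 10 ^ 5 ∧
    multiCost Y Sc i v P Q ≤ B' * lam

/-- the union of stretches given by a choice function -/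
def CC (D H nb : ℕ) (g : Fin nb → Fin (D / H + 1) × Fin (D / H + 1)) : Finset ℕ :=
  (Finset.univ : Finset (Fin nb)).biUnion
    (fun b => Finset.Ico (D * b + H * (g b).1) (D * b + H * (g b).2))

open Classical in
/-- main step: a monotone walk with few bad cells and many effective blocks is coherent -/
lemma exists_choice [Fintype A] (Y : Sys A d)
    {n D s S i T1 H1 H M R0 q0 N : ℕ} {Sc : ℕ → ℕ} {lam B' : ℝ}
    (h : Hyp d n D s S i T1 H1 H M R0 q0 N Sc lam B') {v : ℕ → A}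
    (hsaw : Saw Y n v) (hm : MonoOn Y v S 0 n)
    (hbad : badNum Y n ((40 * s) ^ d) T1 ((40 * s) ^ d + 1) H1 M R0 v < 2 * q0)
    {I : Finset ℕ} (hI : I ⊆ range (n / D)) (hIN : N ≤ #I)
    (P Q : ℕ → ℕ) (hE : ∀ b ∈ I, Eff Y D s H i Sc lam B' v b (P b) (Q b)) :
    ∃ g : Fin (n / D) → Fin (D / H + 1) × Fin (D / H + 1),
      (N : ℝ) * lam / 40 ≤ ((∑ c ∈ CC D H (n / D) g, |yc Y n H1 H v c| : ℤ) : ℝ) ∧
      4 * ∑ c ∈ CC D H (n / D) g, |yc Y n H1 H v c| ≤
        5 * ∑ c ∈ CC D H (n / D) g, yc Y n H1 H v c := by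
  set BadF : ℕ → Finset ℕ := fun b => (Finset.Ico (P b / H1) (Q b / H1)).filter
      (Bad Y n ((40 * s) ^ d) T1 ((40 * s) ^ d + 1) H1 M R0 v) with hBadF
  -- blocks are disjoint
  have hblock : ∀ b ∈ I, ∀ b' ∈ I, b ≠ b' → ∀ x, P b ≤ x → x < Q b → ¬ (P b' ≤ x ∧ x < Q b') := by
    intro b hb b' hb' hne x h1 h2 h3
    obtain ⟨e1, -, e2, -⟩ := hE b hb
    obtain ⟨f1, -, f2, -⟩ := hE b' hb'
    rcases Nat.lt_or_gt_of_ne hne with hlt | hlt
    · have : D * (b + 1) ≤ D * b' := Nat.mul_le_mul_left _ hlt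
      omega
    · have : D * (b' + 1) ≤ D * b := Nat.mul_le_mul_left _ hlt
      omega
  have hQn : ∀ b ∈ I, Q b ≤ n := by
    intro b hb
    obtain ⟨-, -, e2, -⟩ := hE b hb
    have hb' : b < n / D := mem_range.1 (hI hb)
    have : D * (b + 1) ≤ D * (n / D) := Nat.mul_le_mul_left _ hb'
    exact e2.trans (this.trans (Nat.mul_div_le n D))
  have hH1dvd : ∀ b ∈ I, H1 ∣ P b ∧ H1 ∣ Q b := by
    intro b hb
    obtain ⟨-, -, -, e4, e5, -⟩ := hE b hb
    exact ⟨h.hdiv.trans e4, h.hdiv.trans e5⟩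
  -- total number of bad cells
  have hsum : ∑ b ∈ I, #(BadF b) ≤ badNum Y n ((40 * s) ^ d) T1 ((40 * s) ^ d + 1) H1 M R0 v := by
    rw [← Finset.card_biUnion]
    · refine card_le_card fun j hj => ?_
      rw [mem_biUnion] at hj
      obtain ⟨b, hb, hj⟩ := hj
      rw [hBadF, mem_filter, mem_Ico] at hj
      rw [mem_filter, mem_range]
      refine ⟨lt_of_lt_of_le hj.1.2 (Nat.div_le_div_right (hQn b hb)), hj.2⟩
    · intro b hb b' hb' hne
      rw [Function.onFun, Finset.disjoint_left]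
      intro j hj hj'
      rw [hBadF, mem_filter, mem_Ico] at hj hj'
      obtain ⟨⟨p1, p1'⟩, ⟨q1, q1'⟩⟩ := hH1dvd b hb
      obtain ⟨⟨p2, p2'⟩, ⟨q2, q2'⟩⟩ := hH1dvd b' hb'
      have k1 : P b / H1 = p1 := by rw [p1']; exact Nat.mul_div_cancel_left _ h.hH1
      have k2 : Q b / H1 = q1 := by rw [q1']; exact Nat.mul_div_cancel_left _ h.hH1
      have k3 : P b' / H1 = p2 := by rw [p2']; exact Nat.mul_div_cancel_left _ h.hH1
      have k4 : Q b' / H1 = q2 := by rw [q2']; exact Nat.mul_div_cancel_left _ h.hH1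
      refine hblock b hb b' hb' hne (H1 * j) ?_ ?_ ⟨?_, ?_⟩
      · rw [p1']; exact Nat.mul_le_mul_left _ (k1 ▸ hj.1.1)
      · rw [q1']; exact (Nat.mul_lt_mul_left h.hH1).2 (k2 ▸ hj.1.2)
      · rw [p2']; exact Nat.mul_le_mul_left _ (k3 ▸ hj'.1.1)
      · rw [q2']; exact (Nat.mul_lt_mul_left h.hH1).2 (k4 ▸ hj'.1.2)
  -- good blocks
  set Gd : Finset ℕ := I.filter (fun b => #(BadF b) * N ≤ 4 * q0) with hGd
  have hGcard : N ≤ 2 * #Gd := by
    by_contra hcon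
    push Not at hcon
    have h1 : #Gd + #(I.filter (fun b => ¬ #(BadF b) * N ≤ 4 * q0)) = #I :=
      Finset.card_filter_add_card_filter_not (s := I) (fun b => #(BadF b) * N ≤ 4 * q0)
    set Bd := I.filter (fun b => ¬ #(BadF b) * N ≤ 4 * q0) with hBd
    have h2 : #Bd * (4 * q0 + 1) ≤ ∑ b ∈ Bd, #(BadF b) * N := by
      rw [← smul_eq_mul, ← Finset.sum_const]
      refine Finset.sum_le_sum fun b hb => ?_
      rw [hBd, mem_filter] at hb
      omega
    have h3 : ∑ b ∈ Bd, #(BadF b) * N ≤ ∑ b ∈ I, #(BadF b) * N :=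
      Finset.sum_le_sum_of_subset (filter_subset _ _)
    have h3' : ∑ b ∈ I, #(BadF b) * N = (∑ b ∈ I, #(BadF b)) * N := (Finset.sum_mul _ _ _).symm
    have h4 : (∑ b ∈ I, #(BadF b)) * N ≤ 2 * q0 * N :=
      Nat.mul_le_mul_right _ (hsum.trans hbad.le)
    have h5 : #Bd * (4 * q0 + 1) ≤ 2 * q0 * N := h2.trans (h3.trans (h3'.trans_le h4))
    have h6 : N < 2 * #Bd := by omega
    have h7 : 2 * (#Bd * (4 * q0 + 1)) ≤ 4 * q0 * N := by
      calc 2 * (#Bd * (4 * q0 + 1)) ≤ 2 * (2 * q0 * N) := Nat.mul_le_mul_left _ h5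
        _ = 4 * q0 * N := by ring
    have h8 : N * (4 * q0 + 1) < 2 * #Bd * (4 * q0 + 1) := Nat.mul_lt_mul_of_pos_right h6 (by omega)
    nlinarith
  -- coherence of the good blocks
  have hcoh : ∀ b ∈ Gd, lam / 20 ≤ ((∑ c ∈ Finset.Ico (P b) (Q b), |yc Y n H1 H v c| : ℤ) : ℝ) ∧
      4 * ∑ c ∈ Finset.Ico (P b) (Q b), |yc Y n H1 H v c| ≤
        5 * ∑ c ∈ Finset.Ico (P b) (Q b), yc Y n H1 H v c := by
    intro b hb
    rw [hGd, mem_filter] at hb
    obtain ⟨hbI, hb2⟩ := hb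
    obtain ⟨e1, e2, e3, e4, e5, e6, e7, e8⟩ := hE b hbI
    have hPQD : ((Q b : ℝ) - P b) ≤ D := by
      have : Q b ≤ P b + D := by
        have : D * (b + 1) = D * b + D := by ring
        omega
      have : (Q b : ℝ) ≤ P b + D := by exact_mod_cast this
      linarith
    have hPQ0 : (0 : ℝ) ≤ (Q b : ℝ) - P b := by
      have : (P b : ℝ) ≤ Q b := by exact_mod_cast e2
      linarith
    have hH1r : (0 : ℝ) < H1 := by exact_mod_cast h.hH1
    have hHr : (0 : ℝ) < H := by exact_mod_cast h.hH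
    have hT1r : (0 : ℝ) < T1 - (40 * s : ℝ) ^ d := by
      have : (((40 * s) ^ d : ℕ) : ℝ) < T1 := by exact_mod_cast h.hT1
      push_cast at this
      linarith
    have hT1p : (0 : ℝ) ≤ T1 := by positivity
    have hlog : 0 < Real.log M := Real.log_pos (by
      have := h.hM
      exact_mod_cast (by omega : 1 < M))
    refine block_coherent Y (Sc := Sc) (i := i) (T1 := T1) (M := M) (R0 := R0) h.hS h.hs hsaw hm
      h.hSc0 h.hScm h.hScs h.hT0 h.hT1 h.hM h.hsH h.hH1 h.hH h.hdiv e4 e5 e2 (hQn b hbI) lam e6 e7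
      h.c3 h.c4 ?_ ?_ ?_ ?_ ?_ ?_ ?_
    · refine le_trans ?_ h.c5
      gcongr
    · refine le_trans ?_ h.c6
      gcongr
    · refine le_trans ?_ h.c7
      gcongr
    · refine le_trans ?_ h.c8
      gcongr
    · refine le_trans ?_ h.c9
      have hNr : (0 : ℝ) < N := by exact_mod_cast h.hN
      have : (#(BadF b) : ℝ) * N ≤ 4 * q0 := by exact_mod_cast hb2
      have h2 : (#(BadF b) : ℝ) ≤ 4 * q0 / N := by
        rw [le_div_iff₀ hNr]; exact this
      exact mul_le_mul_of_nonneg_left h2 hH1r.le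
    · refine le_trans ?_ h.c10
      gcongr
    · refine le_trans ?_ h.c11
      gcongr
  -- the choice function
  have hHdvd := h.hHD
  have hx : ∀ b ∈ I, (P b - D * b) / H < D / H + 1 ∧ (Q b - D * b) / H < D / H + 1 ∧
      D * b + H * ((P b - D * b) / H) = P b ∧ D * b + H * ((Q b - D * b) / H) = Q b := by
    intro b hb
    obtain ⟨e1, e2, e3, e4, e5, -⟩ := hE b hb
    have hDb : H ∣ D * b := hHdvd.mul_right b
    have h1 : H ∣ P b - D * b := Nat.dvd_sub e4 hDb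
    have h2 : H ∣ Q b - D * b := Nat.dvd_sub e5 hDb
    have h3 : D * (b + 1) = D * b + D := by ring
    refine ⟨?_, ?_, ?_, ?_⟩
    · exact Nat.lt_succ_of_le (Nat.div_le_div_right (by omega))
    · exact Nat.lt_succ_of_le (Nat.div_le_div_right (by omega))
    · rw [Nat.mul_div_cancel' h1]; omega
    · rw [Nat.mul_div_cancel' h2]; omega
  set g : Fin (n / D) → Fin (D / H + 1) × Fin (D / H + 1) := fun b =>
    if hb : (b : ℕ) ∈ Gd then
      (⟨(P b - D * b) / H, (hx b (mem_filter.1 hb).1).1⟩,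
        ⟨(Q b - D * b) / H, (hx b (mem_filter.1 hb).1).2.1⟩) else (0, 0) with hg
  have hCC : CC D H (n / D) g = Gd.biUnion (fun b => Finset.Ico (P b) (Q b)) := by
    ext x
    unfold CC
    simp only [mem_biUnion, mem_univ, true_and]
    constructor
    · rintro ⟨b, hb⟩
      by_cases hbG : (b : ℕ) ∈ Gd
      · refine ⟨b, hbG, ?_⟩
        have hk := hx b (mem_filter.1 hbG).1
        simp only [hg, hbG, dif_pos] at hb
        rw [hk.2.2.1, hk.2.2.2] at hb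
        exact hb
      · simp only [hg, hbG, dif_neg, not_false_iff] at hb
        simp at hb
    · rintro ⟨b, hbG, hb⟩
      have hbI : b ∈ I := (mem_filter.1 hbG).1
      have hk := hx b hbI
      refine ⟨⟨b, mem_range.1 (hI hbI)⟩, ?_⟩
      simp only [hg, hbG, dif_pos]
      rw [hk.2.2.1, hk.2.2.2]
      exact hb
  have hdisj : (Gd : Set ℕ).PairwiseDisjoint (fun b => Finset.Ico (P b) (Q b)) := by
    intro b hb b' hb' hne
    rw [Function.onFun, Finset.disjoint_left]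
    intro x hx1 hx2
    rw [mem_Ico] at hx1 hx2
    exact hblock b (mem_filter.1 hb).1 b' (mem_filter.1 hb').1 hne x hx1.1 hx1.2 hx2
  refine ⟨g, ?_, ?_⟩
  · rw [hCC, Finset.sum_biUnion hdisj]
    push_cast
    have h1 : ∑ b ∈ Gd, lam / 20 ≤ ∑ b ∈ Gd, ((∑ c ∈ Finset.Ico (P b) (Q b), |yc Y n H1 H v c| : ℤ) : ℝ) :=
      Finset.sum_le_sum fun b hb => (hcoh b hb).1
    rw [Finset.sum_const, nsmul_eq_mul] at h1
    push_cast at h1
    refine le_trans ?_ h1
    have : (N : ℝ) ≤ 2 * #Gd := by exact_mod_cast hGcard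
    have := h.hlam
    nlinarith
  · rw [hCC, Finset.sum_biUnion hdisj, Finset.sum_biUnion hdisj, Finset.mul_sum, Finset.mul_sum]
    exact Finset.sum_le_sum fun b hb => (hcoh b hb).2

open Classical in
/-- monotone walks with few bad cells and many effective blocks -/
lemma good_walks [Fintype A] (Y : Sys A d) (a0 : A)
    {n D s S i T1 H1 H M R0 q0 N : ℕ} {Sc : ℕ → ℕ} {lam B' : ℝ}
    (h : Hyp d n D s S i T1 H1 H M R0 q0 N Sc lam B') :
    (#((SawSet Y a0 n).filter (fun v => MonoOn Y v S 0 n ∧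
      badNum Y n ((40 * s) ^ d) T1 ((40 * s) ^ d + 1) H1 M R0 v < 2 * q0 ∧
      ∃ I ⊆ range (n / D), N ≤ #I ∧ ∀ b ∈ I, ∃ P Q, Eff Y D s H i Sc lam B' v b P Q)) : ℝ) ≤
    (((D / H + 1) * (D / H + 1)) ^ (n / D) : ℕ) *
      (Real.exp (-(8 / 25) * (N * lam / 40) / H) * #(SawSet Y a0 n)) := by
  set E : (Fin (n / D) → Fin (D / H + 1) × Fin (D / H + 1)) → Finset (ℕ → A) := fun g =>
    (SawSet Y a0 n).filter (fun w => (N : ℝ) * lam / 40 ≤
        ((∑ c ∈ CC D H (n / D) g, |yc Y n H1 H w c| : ℤ) : ℝ) ∧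
      4 * ∑ c ∈ CC D H (n / D) g, |yc Y n H1 H w c| ≤
        5 * ∑ c ∈ CC D H (n / D) g, yc Y n H1 H w c) with hEdef
  have hsub : (SawSet Y a0 n).filter (fun v => MonoOn Y v S 0 n ∧
      badNum Y n ((40 * s) ^ d) T1 ((40 * s) ^ d + 1) H1 M R0 v < 2 * q0 ∧
      ∃ I ⊆ range (n / D), N ≤ #I ∧ ∀ b ∈ I, ∃ P Q, Eff Y D s H i Sc lam B' v b P Q) ⊆
      (Finset.univ : Finset (Fin (n / D) → Fin (D / H + 1) × Fin (D / H + 1))).biUnion E := by
    intro v hv
    rw [mem_filter] at hv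
    obtain ⟨hv1, hm, hbad, I, hI, hIN, hE⟩ := hv
    have hE' : ∀ b, ∃ P Q, b ∈ I → Eff Y D s H i Sc lam B' v b P Q := by
      intro b
      by_cases hb : b ∈ I
      · obtain ⟨P, Q, hPQ⟩ := hE b hb
        exact ⟨P, Q, fun _ => hPQ⟩
      · exact ⟨0, 0, fun h => absurd h hb⟩
    choose P Q hPQ using hE'
    have hsaw := ((mem_SawSet Y a0 n v).1 hv1).2
    obtain ⟨g, hg1, hg2⟩ := exists_choice Y h hsaw hm hbad hI hIN P Q hPQ
    rw [mem_biUnion]
    exact ⟨g, mem_univ _, by rw [hEdef]; exact mem_filter.2 ⟨hv1, hg1, hg2⟩⟩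
  have h1 := (card_le_card hsub).trans card_biUnion_le
  have h2 : ∀ g ∈ (Finset.univ : Finset (Fin (n / D) → Fin (D / H + 1) × Fin (D / H + 1))),
      (#(E g) : ℝ) ≤ Real.exp (-(8 / 25) * (N * lam / 40) / H) * #(SawSet Y a0 n) := by
    intro g _
    exact flip_bound Y a0 h.hH1 h.hdiv h.hH (CC D H (n / D) g) ((N : ℝ) * lam / 40)
  calc (#((SawSet Y a0 n).filter (fun v => MonoOn Y v S 0 n ∧
      badNum Y n ((40 * s) ^ d) T1 ((40 * s) ^ d + 1) H1 M R0 v < 2 * q0 ∧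
      ∃ I ⊆ range (n / D), N ≤ #I ∧ ∀ b ∈ I, ∃ P Q, Eff Y D s H i Sc lam B' v b P Q)) : ℝ)
      ≤ ((∑ g ∈ (Finset.univ : Finset (Fin (n / D) → Fin (D / H + 1) × Fin (D / H + 1))),
          #(E g) : ℕ) : ℝ) := by exact_mod_cast h1
    _ = ∑ g ∈ (Finset.univ : Finset (Fin (n / D) → Fin (D / H + 1) × Fin (D / H + 1))),
          (#(E g) : ℝ) := by push_cast; rfl
    _ ≤ ∑ g ∈ (Finset.univ : Finset (Fin (n / D) → Fin (D / H + 1) × Fin (D / H + 1))),
          Real.exp (-(8 / 25) * (N * lam / 40) / H) * #(SawSet Y a0 n) := Finset.sum_le_sum h2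
    _ = (((D / H + 1) * (D / H + 1)) ^ (n / D) : ℕ) *
          (Real.exp (-(8 / 25) * (N * lam / 40) / H) * #(SawSet Y a0 n)) := by
        rw [Finset.sum_const, nsmul_eq_mul]
        congr 1
        simp [Fintype.card_pi, Fintype.card_prod]

end Cnt

open Classical in
/-- walks with many effective blocks are rare -/
theorem count_main [Fintype A] (Y : Sys A d) (a0 : A)
    {n D s S i T1 H1 H M R0 q0 N : ℕ} {Sc : ℕ → ℕ} {lam B' : ℝ}
    (h : Hyp d n D s S i T1 H1 H M R0 q0 N Sc lam B') :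
    (#((SawSet Y a0 n).filter (fun w => ∃ I ⊆ range (n / D), N ≤ #I ∧ ∀ b ∈ I,
      lam ≤ ((incr Y.l w (D * b) (D * (b + 1)) : ℤ) : ℝ) ∧
      ((dfc Y w s (D * b / s) (D * (b + 1) / s) : ℤ) : ℝ) ≤ lam / 10 ^ 5 ∧
      multiCost Y Sc i w (D * b) (D * (b + 1)) ≤ B' * lam)) : ℝ) ≤
    ((n + 1) ^ (n / S) : ℕ) * ((2 / 4 ^ q0 + (((D / H + 1) * (D / H + 1)) ^ (n / D) : ℕ) *
      Real.exp (-(8 / 25) * (N * lam / 40) / H)) * #(SawSet Y a0 n)) := by
  set W := (SawSet Y a0 n).filter (fun w => ∃ I ⊆ range (n / D), N ≤ #I ∧ ∀ b ∈ I,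
      lam ≤ ((incr Y.l w (D * b) (D * (b + 1)) : ℤ) : ℝ) ∧
      ((dfc Y w s (D * b / s) (D * (b + 1) / s) : ℤ) : ℝ) ≤ lam / 10 ^ 5 ∧
      multiCost Y Sc i w (D * b) (D * (b + 1)) ≤ B' * lam) with hW
  set V := (SawSet Y a0 n).filter (fun v => MonoOn Y v S 0 n ∧
      ∃ I ⊆ range (n / D), N ≤ #I ∧ ∀ b ∈ I, ∃ P Q, Cnt.Eff Y D s H i Sc lam B' v b P Q) with hV
  -- unfolding
  have hF : ∀ w, ∃ F : Finset ℕ, Saw Y n w → Unfolded Y n S w F := by
    intro w
    by_cases hw : Saw Y n w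
    · obtain ⟨F, hF⟩ := exists_unfold Y h.hS hw
      exact ⟨F, fun _ => hF⟩
    · exact ⟨∅, fun h => absurd h hw⟩
  choose F hF using hF
  have hsH : s ∣ H := h.hsH.trans h.hdiv
  have hmap : ∀ w ∈ W, (fold Y n (F w) w, F w) ∈
      V ×ˢ ((range n).powerset.filter (fun F => #F ≤ n / S)) := by
    intro w hw
    rw [hW, mem_filter] at hw
    obtain ⟨hw1, I, hI, hIN, hIb⟩ := hw
    have hw1' := (mem_SawSet Y a0 n w).1 hw1
    have hU := hF w hw1'.2
    rw [mem_product]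
    refine ⟨?_, mem_filter.2 ⟨mem_powerset.2 ?_, ?_⟩⟩
    · rw [hV, mem_filter, mem_SawSet]
      refine ⟨⟨fun k hk => ?_, hU.saw⟩, hU.mono, I, hI, hIN, fun b hb => ?_⟩
      · have hk2 : ¬ (k < n ∧ Odd (#((F w).filter (fun f => f ≤ k)))) := by
          rintro ⟨h1, -⟩
          omega
        have : fold Y n (F w) w k = w k := by
          unfold fold
          rw [if_neg hk2]
        exact this.trans (hw1'.1 k hk)
      · obtain ⟨g1, g2, g3⟩ := hIb b hb
        have hb' : b < n / D := mem_range.1 (hI hb)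
        have hPQ : D * b ≤ D * (b + 1) := Nat.mul_le_mul_left _ (Nat.le_succ b)
        have hQn : D * (b + 1) ≤ n :=
          (Nat.mul_le_mul_left _ hb').trans (Nat.mul_div_le n D)
        have hd1 : dfc Y w s (D * b / s) (D * (b + 1) / s) + 2 * s < S := by
          have h1 := h.t1
          have : ((dfc Y w s (D * b / s) (D * (b + 1) / s) + 2 * s : ℤ) : ℝ) < ((S : ℤ) : ℝ) := by
            push_cast
            linarith
          exact_mod_cast this
        have hl : 8 * (S : ℤ) ≤ incr Y.l w (D * b) (D * (b + 1)) := by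
          have h1 := h.c3
          have h3 : (0 : ℝ) ≤ (S : ℝ) := by positivity
          have : ((8 * (S : ℤ) : ℤ) : ℝ) ≤ ((incr Y.l w (D * b) (D * (b + 1)) : ℤ) : ℝ) := by
            push_cast
            linarith
          exact_mod_cast this
        obtain ⟨P, Q, k1, k2, k3, k4, k5, k6, k7, k8⟩ := transfer Y (i := i) (Sc := Sc) hU h.hS h.hs
          hsH h.hH (h.hHD.mul_right b) (h.hHD.mul_right (b + 1)) hPQ hQn hd1 h.t2 hl
          (fun j hj => ⟨by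
            have := h.hScm (Nat.zero_le j)
            rw [h.hSc0] at this
            exact this, (h.hScs j hj).trans hsH⟩)
        refine ⟨P, Q, k1, k2, k3, k4, k5, ?_, ?_, k8.trans g3⟩
        · have h1 := h.c3
          have h2 : (((incr Y.l w (D * b) (D * (b + 1)) - 6 * S : ℤ)) : ℝ) ≤
              ((incr Y.l (fold Y n (F w) w) P Q : ℤ) : ℝ) := by exact_mod_cast k6
          push_cast at h2
          have h3 : (0 : ℝ) ≤ (S : ℝ) := by positivity
          linarith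
        · have h2 : ((dfc Y (fold Y n (F w) w) s (P / s) (Q / s) : ℤ) : ℝ) ≤
              ((dfc Y w s (D * b / s) (D * (b + 1) / s) : ℤ) : ℝ) := by exact_mod_cast k7
          linarith
    · intro f hf
      exact mem_range.2 (hU.lt f hf)
    · rw [Nat.le_div_iff_mul_le h.hS]
      exact hU.card
  have hinj : Set.InjOn (fun w => (fold Y n (F w) w, F w)) (W : Set (ℕ → A)) := by
    intro w1 _ w2 _ h12
    simp only [Prod.mk.injEq] at h12
    have h1 := fold_fold Y n (F w1) w1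
    have h2 := fold_fold Y n (F w2) w2
    rw [← h1, h12.1, h12.2, h2]
  have hcard : #W ≤ #V * (n + 1) ^ (n / S) := by
    have h1 := Finset.card_le_card_of_injOn _ hmap hinj
    rw [card_product] at h1
    exact h1.trans (Nat.mul_le_mul_left _ (Cnt.card_small n (n / S)))
  -- the two parts of V
  have hVsub : V ⊆ (SawSet Y a0 n).filter (fun w => 2 * q0 ≤
        badNum Y n ((40 * s) ^ d) T1 ((40 * s) ^ d + 1) H1 M R0 w) ∪
      (SawSet Y a0 n).filter (fun v => MonoOn Y v S 0 n ∧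
      badNum Y n ((40 * s) ^ d) T1 ((40 * s) ^ d + 1) H1 M R0 v < 2 * q0 ∧
      ∃ I ⊆ range (n / D), N ≤ #I ∧ ∀ b ∈ I, ∃ P Q, Cnt.Eff Y D s H i Sc lam B' v b P Q) := by
    intro v hv
    rw [hV, mem_filter] at hv
    rw [mem_union, mem_filter, mem_filter]
    by_cases hb : 2 * q0 ≤ badNum Y n ((40 * s) ^ d) T1 ((40 * s) ^ d + 1) H1 M R0 v
    · exact Or.inl ⟨hv.1, hb⟩
    · exact Or.inr ⟨hv.1, hv.2.1, by omega, hv.2.2⟩
  have hV1 := (card_le_card hVsub).trans (card_union_le _ _)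
  have hbadc := claimA Y a0 (n := n) (T0 := (40 * s) ^ d) (T1 := T1) (G := (40 * s) ^ d + 1)
    (H1 := H1) (M := M) (R0 := R0) (q0 := q0) le_rfl h.hH1 h.hR h.hA
  have hgood := Cnt.good_walks Y a0 h
  have h4 : (0 : ℝ) < 4 ^ q0 := by positivity
  have hbadr : (#((SawSet Y a0 n).filter (fun w => 2 * q0 ≤
        badNum Y n ((40 * s) ^ d) T1 ((40 * s) ^ d + 1) H1 M R0 w)) : ℝ) ≤
        2 / 4 ^ q0 * #(SawSet Y a0 n) := by
    rw [div_mul_eq_mul_div, le_div_iff₀ h4]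
    have : ((4 ^ q0 * #((SawSet Y a0 n).filter (fun w => 2 * q0 ≤
        badNum Y n ((40 * s) ^ d) T1 ((40 * s) ^ d + 1) H1 M R0 w)) : ℕ) : ℝ) ≤
        ((2 * #(SawSet Y a0 n) : ℕ) : ℝ) := by exact_mod_cast hbadc
    push_cast at this
    linarith
  have hVr : (#V : ℝ) ≤ (2 / 4 ^ q0 + (((D / H + 1) * (D / H + 1)) ^ (n / D) : ℕ) *
      Real.exp (-(8 / 25) * (N * lam / 40) / H)) * #(SawSet Y a0 n) := by
    have : (#V : ℝ) ≤ (#((SawSet Y a0 n).filter (fun w => 2 * q0 ≤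
        badNum Y n ((40 * s) ^ d) T1 ((40 * s) ^ d + 1) H1 M R0 w)) : ℝ) +
        (#((SawSet Y a0 n).filter (fun v => MonoOn Y v S 0 n ∧
      badNum Y n ((40 * s) ^ d) T1 ((40 * s) ^ d + 1) H1 M R0 v < 2 * q0 ∧
      ∃ I ⊆ range (n / D), N ≤ #I ∧ ∀ b ∈ I, ∃ P Q, Cnt.Eff Y D s H i Sc lam B' v b P Q)) : ℝ) := by
      exact_mod_cast hV1
    rw [add_mul]
    linarith
  calc (#W : ℝ) ≤ ((#V * (n + 1) ^ (n / S) : ℕ) : ℝ) := by exact_mod_cast hcard
    _ = ((n + 1) ^ (n / S) : ℕ) * (#V : ℝ) := by push_cast; ring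
    _ ≤ _ := mul_le_mul_of_nonneg_left hVr (by positivity)

end Pool.Agent.H976R2.SB
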