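import Pool.Agent.H976R2.SB.D0

/-! Task D2: long extended windows, and extended windows meeting two cells. -/

namespace Pool.Agent.H976R2.SB.TD2
open Finset Pool.Agent.H976R2.SB

variable {A : Type} {d : ℕ}

lemma tele (g : ℕ → ℤ) (N : ℕ) (D : ℤ) (m : ℕ) (h : ∀ j < m, g (N + j) - g j ≤ D) :
    ∑ k ∈ range N, (g (k + m) - g k) ≤ m * D := by
  induction m with
  | zero => simp
  | succ m ih =>
    have h1 : ∑ k ∈ range N, (g (k + (m + 1)) - g k) =
        ∑ k ∈ range N, (g (k + m) - g k) + (g (N + m) - g m) := by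
      have h2 := Finset.sum_range_sub (fun k => g (k + m)) N
      simp only [zero_add] at h2
      rw [← h2, ← Finset.sum_add_distrib]
      refine Finset.sum_congr rfl fun k _ => ?_
      have : k + (m + 1) = k + 1 + m := by ring
      rw [this]
      ring
    rw [h1]
    have h3 := ih fun j hj => h j (by omega)
    have h4 := h m (by omega)
    push_cast
    linarith

/-- the same for a function on an interval of integers -/
lemma teleInt (F : ℤ → ℤ) (α β : ℤ) (G : ℕ) (D : ℤ) (hD : 0 ≤ D)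
    (h : ∀ x y, α ≤ x → x ≤ y → y ≤ β → F y - F x ≤ D) :
    ∑ x ∈ Icc (α + G) (β - G), (F (x + G) - F (x - G)) ≤ 2 * G * D := by
  rw [Int.Icc_eq_finset_map, Finset.sum_map]
  set N := (β - G + 1 - (α + G)).toNat with hN
  have e : ∀ k : ℕ, F ((Nat.castEmbedding.trans (addLeftEmbedding (α + (G : ℤ)))) k + G) -
      F ((Nat.castEmbedding.trans (addLeftEmbedding (α + (G : ℤ)))) k - G) =
      (fun j : ℕ => F (α + j)) (k + 2 * G) - (fun j : ℕ => F (α + j)) k := by
    intro k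
    simp only [Function.Embedding.trans_apply, Nat.castEmbedding_apply, addLeftEmbedding_apply]
    congr 2
    · push_cast
      ring
    · ring
  rw [Finset.sum_congr rfl fun k _ => e k]
  rcases Nat.eq_zero_or_pos N with h0 | h0
  · rw [h0]
    simp only [Finset.range_zero, Finset.sum_empty]
    positivity
  · have h1 := tele (fun j : ℕ => F (α + j)) N D (2 * G) ?_
    · refine h1.trans (le_of_eq ?_)
      push_cast
      ring
    · intro j hj
      apply h
      · linarith [Int.natCast_nonneg j]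
      · push_cast
        linarith [Int.natCast_nonneg N]
      · push_cast
        omega

section
variable (Y : Sys A d) {n S P Q : ℕ} {w : ℕ → A}

lemma tf_mono (hS : 1 ≤ S) (hPQ : P ≤ Q) (hQ : Q ≤ n) (hm : MonoOn Y w S 0 n) {x y : ℤ}
    (hxy : x ≤ y) (h1 : ht Y.l w P + S ≤ y) (h2 : y ≤ ht Y.l w Q - S) : tf Y w x ≤ tf Y w y := by
  have h := (level_basic Y hS hPQ hQ hm h1 h2).2.2.2.1
  unfold tf at h ⊢
  apply Nat.sInf_le
  show x ≤ ht Y.l w _
  rw [h]
  exact hxy

end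

end Pool.Agent.H976R2.SB.TD2

namespace Pool.Agent.H976R2.SB
open Finset Pool.Agent.H976R2.SB.TD2

variable {A : Type} {d : ℕ}

open Classical in
/-- TASK D2 : long extended windows -/
theorem window_count (Y : Sys A d) {n S P Q : ℕ} {w : ℕ → A} (hS : 1 ≤ S) (hPQ : P ≤ Q)
    (hQ : Q ≤ n) (hm : MonoOn Y w S 0 n) (G T0 T1 : ℕ) :
    #((Finset.Icc (ht Y.l w P + S) (ht Y.l w Q - S)).filter
      (fun x => ht Y.l w P + S ≤ x - G ∧ x + G ≤ ht Y.l w Q - S ∧
        tl Y n w (x + G) - tf Y w (x + G) < T0 ∧ T1 < tl Y n w (x + G) - tf Y w (x - G))) *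
      (T1 - T0) ≤ 2 * G * (Q - P) := by
  set α : ℤ := ht Y.l w P + S with hα
  set β : ℤ := ht Y.l w Q - S with hβ
  set E := (Finset.Icc α β).filter (fun x => α ≤ x - G ∧ x + G ≤ β ∧
        tl Y n w (x + G) - tf Y w (x + G) < T0 ∧ T1 < tl Y n w (x + G) - tf Y w (x - G)) with hE
  have hlb : ∀ x, α ≤ x → x ≤ β → P ≤ tf Y w x ∧ tf Y w x ≤ tl Y n w x ∧ tl Y n w x ≤ Q := by
    intro x h1 h2
    have := level_basic Y hS hPQ hQ hm h1 h2
    exact ⟨this.1, this.2.1, this.2.2.1⟩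
  have hmono : ∀ x y, α ≤ x → x ≤ y → y ≤ β → tf Y w x ≤ tf Y w y := fun x y h1 h2 h3 =>
    tf_mono Y hS hPQ hQ hm h2 (h1.trans h2) h3
  -- each element contributes at least `T1 - T0`
  have h1 : ∀ x ∈ E, ((T1 - T0 : ℕ) : ℤ) ≤ (tf Y w (x + G) : ℤ) - (tf Y w (x - G) : ℤ) := by
    intro x hx
    rw [hE, Finset.mem_filter] at hx
    obtain ⟨-, a1, a2, a3, a4⟩ := hx
    have b1 := hmono (x - G) (x + G) a1 (by linarith [Int.natCast_nonneg G]) a2
    have b2 := hlb (x + G) (by linarith [Int.natCast_nonneg G]) a2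
    omega
  have h2 : ∀ x ∈ Icc (α + G) (β - G),
      (0 : ℤ) ≤ (tf Y w (x + G) : ℤ) - (tf Y w (x - G) : ℤ) := by
    intro x hx
    rw [Finset.mem_Icc] at hx
    have b1 := hmono (x - G) (x + G) (by linarith) (by linarith [Int.natCast_nonneg G])
      (by linarith)
    omega
  have h3 : E ⊆ Icc (α + G) (β - G) := by
    intro x hx
    rw [hE, Finset.mem_filter] at hx
    obtain ⟨-, a1, a2, a3, a4⟩ := hx
    rw [Finset.mem_Icc]
    exact ⟨by linarith, by linarith⟩
  have h4 : ∑ x ∈ Icc (α + G) (β - G), ((tf Y w (x + G) : ℤ) - (tf Y w (x - G) : ℤ)) ≤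
      2 * G * ((Q : ℤ) - P) := by
    refine teleInt (fun x => (tf Y w x : ℤ)) α β G ((Q : ℤ) - P) (by omega) ?_
    intro x y hx hxy hy
    have b1 := hlb x hx (hxy.trans hy)
    have b2 := hlb y (hx.trans hxy) hy
    show (tf Y w y : ℤ) - (tf Y w x : ℤ) ≤ (Q : ℤ) - P
    omega
  have h5 : (#E : ℤ) * ((T1 - T0 : ℕ) : ℤ) ≤ 2 * G * ((Q : ℤ) - P) := by
    calc (#E : ℤ) * ((T1 - T0 : ℕ) : ℤ) = ∑ _x ∈ E, ((T1 - T0 : ℕ) : ℤ) := by
          rw [Finset.sum_const, nsmul_eq_mul]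
      _ ≤ ∑ x ∈ E, ((tf Y w (x + G) : ℤ) - (tf Y w (x - G) : ℤ)) := Finset.sum_le_sum h1
      _ ≤ ∑ x ∈ Icc (α + G) (β - G), ((tf Y w (x + G) : ℤ) - (tf Y w (x - G) : ℤ)) :=
          Finset.sum_le_sum_of_subset_of_nonneg h3 fun x hx _ => h2 x hx
      _ ≤ _ := h4
  have h6 : ((Q - P : ℕ) : ℤ) = (Q : ℤ) - P := by omega
  rw [← h6] at h5
  exact_mod_cast h5

open Classical in
/-- TASK D2 : extended windows meeting two cells -/
theorem boundary_count (Y : Sys A d) {n S P Q : ℕ} {w : ℕ → A} (hS : 1 ≤ S) (hPQ : P ≤ Q)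
    (hQ : Q ≤ n) (hm : MonoOn Y w S 0 n) (G T1 H1 : ℕ) (hH : 0 < H1) :
    #((Finset.Icc (ht Y.l w P + S) (ht Y.l w Q - S)).filter
      (fun x => ht Y.l w P + S ≤ x - G ∧ x + G ≤ ht Y.l w Q - S ∧
        tl Y n w (x + G) - tf Y w (x - G) ≤ T1 ∧
        tf Y w (x - G) / H1 ≠ tl Y n w (x + G) / H1)) ≤
      ((Q - P) / H1 + 1) * (2 * (T1 + G) + 1) := by
  set α : ℤ := ht Y.l w P + S with hα
  set β : ℤ := ht Y.l w Q - S with hβ
  set E := (Finset.Icc α β).filter (fun x => α ≤ x - G ∧ x + G ≤ β ∧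
        tl Y n w (x + G) - tf Y w (x - G) ≤ T1 ∧
        tf Y w (x - G) / H1 ≠ tl Y n w (x + G) / H1) with hE
  have key : ∀ x ∈ E, P ≤ tf Y w (x - G) ∧ tf Y w (x - G) ≤ tl Y n w (x + G) ∧
      tl Y n w (x + G) ≤ Q ∧ tl Y n w (x + G) ≤ tf Y w (x - G) + T1 ∧
      tf Y w (x - G) / H1 < tl Y n w (x + G) / H1 ∧ ht Y.l w (tf Y w (x - G)) = x - G := by
    intro x hx
    rw [hE, Finset.mem_filter] at hx
    obtain ⟨-, a1, a2, a3, a4⟩ := hx
    have hxm : x - (G : ℤ) ≤ x + G := by linarith [Int.natCast_nonneg G]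
    have b1 := level_basic Y hS hPQ hQ hm a1 (hxm.trans a2)
    have b2 := level_basic Y hS hPQ hQ hm (a1.trans hxm) a2
    have b3 := tf_mono Y hS hPQ hQ hm hxm (a1.trans hxm) a2
    have b4 : tf Y w (x - G) ≤ tl Y n w (x + G) := b3.trans b2.2.1
    refine ⟨b1.1, b4, b2.2.2.1, by omega, ?_, b1.2.2.2.1⟩
    exact lt_of_le_of_ne (Nat.div_le_div_right b4) a4
  -- the map to the index of the boundary
  have himg : E.image (fun x => tl Y n w (x + G) / H1) ⊆ Finset.Ioc (P / H1) (Q / H1) := by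
    intro m hm'
    rw [Finset.mem_image] at hm'
    obtain ⟨x, hx, rfl⟩ := hm'
    obtain ⟨c1, c2, c3, c4, c5, c6⟩ := key x hx
    rw [Finset.mem_Ioc]
    exact ⟨lt_of_le_of_lt (Nat.div_le_div_right c1) c5, Nat.div_le_div_right c3⟩
  have hfib : ∀ m ∈ E.image (fun x => tl Y n w (x + G) / H1),
      #(E.filter (fun x => tl Y n w (x + G) / H1 = m)) ≤ 2 * (T1 + G) + 1 := by
    intro m _
    have hsub : E.filter (fun x => tl Y n w (x + G) / H1 = m) ⊆
        Finset.Icc (ht Y.l w (H1 * m) + G - T1) (ht Y.l w (H1 * m) + G + T1) := by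
      intro x hx
      rw [Finset.mem_filter] at hx
      obtain ⟨hx, hxm⟩ := hx
      obtain ⟨c1, c2, c3, c4, c5, c6⟩ := key x hx
      have d1 : tf Y w (x - G) < H1 * m := by
        rw [hxm, Nat.div_lt_iff_lt_mul hH] at c5
        rw [mul_comm]
        exact c5
      have d2 : H1 * m ≤ tl Y n w (x + G) := by
        rw [← hxm]
        exact Nat.mul_div_le _ _
      have d3 := abs_incr_le Y.l_le w d1.le
      unfold incr at d3
      rw [c6, abs_le] at d3
      have d4 : ((H1 * m : ℕ) : ℤ) - (tf Y w (x - G) : ℤ) ≤ T1 := by omega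
      rw [Finset.mem_Icc]
      constructor <;> linarith [d3.1, d3.2]
    refine (Finset.card_le_card hsub).trans ?_
    rw [Int.card_Icc]
    omega
  have h1 := Finset.card_le_mul_card_image (f := fun x => tl Y n w (x + G) / H1) E
    (2 * (T1 + G) + 1) hfib
  have h2 : #(E.image (fun x => tl Y n w (x + G) / H1)) ≤ (Q - P) / H1 + 1 := by
    refine (Finset.card_le_card himg).trans ?_
    rw [Nat.card_Ioc]
    have e1 := Nat.div_add_mod P H1
    have e2 := Nat.div_add_mod Q H1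
    have e3 := Nat.mod_lt P hH
    have e4 := Nat.mod_lt Q hH
    have e5 : Q / H1 ≤ (Q - P) / H1 + P / H1 + 1 := by
      have : Q < H1 * ((Q - P) / H1 + P / H1 + 1 + 1) := by
        have e6 := Nat.div_add_mod (Q - P) H1
        have e7 := Nat.mod_lt (Q - P) hH
        have e8 : H1 * ((Q - P) / H1 + P / H1 + 1 + 1) =
          H1 * ((Q - P) / H1) + H1 * (P / H1) + H1 + H1 := by ring
        rw [e8]
        omega
      have := (Nat.div_lt_iff_lt_mul hH).2 (by rw [mul_comm]; exact this)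
      exact Nat.lt_succ_iff.1 this
    rw [Nat.sub_le_iff_le_add]
    linarith
  calc #E ≤ (2 * (T1 + G) + 1) * #(E.image (fun x => tl Y n w (x + G) / H1)) := h1
    _ ≤ (2 * (T1 + G) + 1) * ((Q - P) / H1 + 1) := Nat.mul_le_mul_left _ h2
    _ = _ := by ring

end Pool.Agent.H976R2.SB
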