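import Mathlib

/-!
Quantitative sub-ballisticity of the self-avoiding walk on `ℤ^d` : definitions.

Words are functions `w : ℕ → A` (only the first `n` letters matter, the other ones are equal to a
fixed letter `a0`).  `ht f w t` is the sum of the weights `f` of the first `t` letters.
-/

namespace Pool.Agent.H976R2.SB
open Finset

variable {A : Type} {d : ℕ}

/-- sum of the weights of the first `t` letters -/
def ht (f : A → ℤ) (w : ℕ → A) (t : ℕ) : ℤ := ∑ k ∈ range t, f (w k)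

/-- increment of `ht f w` over the time interval `[a,b]` -/
def incr (f : A → ℤ) (w : ℕ → A) (a b : ℕ) : ℤ := ht f w b - ht f w a

/-- A system: coordinates `z k`, a height functional `l`, a transversal functional `y`,
a letter map `U` reversing `l`, a letter map `R` preserving `l` and reversing `y`. -/
structure Sys (A : Type) (d : ℕ) where
  z : Fin d → A → ℤ
  l : A → ℤ
  y : A → ℤ
  U : A → A
  R : A → A
  z_le : ∀ k a, |z k a| ≤ 1
  l_le : ∀ a, |l a| ≤ 1
  y_le : ∀ a, |y a| ≤ 1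
  l_lin : ∃ i j : Fin d, ∃ α β : ℤ, |α| ≤ 1 ∧ |β| ≤ 1 ∧ ∀ a, l a = α * z i a + β * z j a
  U_U : ∀ a, U (U a) = a
  R_R : ∀ a, R (R a) = a
  l_U : ∀ a, l (U a) = - l a
  l_R : ∀ a, l (R a) = l a
  y_R : ∀ a, y (R a) = - y a
  U_lin : ∀ k, ∃ k' : Fin d, ∃ e : ℤ, ∀ a, z k (U a) = e * z k' a
  R_lin : ∀ k, ∃ k' : Fin d, ∃ e : ℤ, ∀ a, z k (R a) = e * z k' a

/-- positions at times `u < v` in `[a,b]` are pairwise distinct -/
def SawOn (Y : Sys A d) (w : ℕ → A) (a b : ℕ) : Prop :=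
  ∀ u v, a ≤ u → u < v → v ≤ b → ∃ k, ht (Y.z k) w u ≠ ht (Y.z k) w v

/-- the first `n` letters form a self-avoiding walk -/
def Saw (Y : Sys A d) (n : ℕ) (w : ℕ → A) : Prop := SawOn Y w 0 n

open Classical in
/-- all self-avoiding words of length `n`, continued by the letter `a0` -/
noncomputable def SawSet [Fintype A] (Y : Sys A d) (a0 : A) (n : ℕ) : Finset (ℕ → A) :=
  ((Finset.univ : Finset (Fin n → A)).image
    (fun u : Fin n → A => fun k : ℕ => if h : k < n then u ⟨k, h⟩ else a0)).filter (Saw Y n)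

/-! ### unfolding at scale `S` -/

open Classical in
/-- apply `U` to the letters at the times `t < n` preceded by an odd number of folds -/
noncomputable def fold (Y : Sys A d) (n : ℕ) (F : Finset ℕ) (w : ℕ → A) : ℕ → A :=
  fun t => if t < n ∧ Odd (#(F.filter (fun f => f ≤ t))) then Y.U (w t) else w t

/-- no backtrack of size `S` in the time interval `[a,b]` -/
def MonoOn (Y : Sys A d) (w : ℕ → A) (S a b : ℕ) : Prop :=
  ∀ u v, a ≤ u → u ≤ v → v ≤ b → ht Y.l w u < ht Y.l w v + S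

/-- the properties of the set of folds of the unfolding at scale `S` -/
structure Unfolded (Y : Sys A d) (n S : ℕ) (w : ℕ → A) (F : Finset ℕ) : Prop where
  lt : ∀ f ∈ F, f < n
  card : #F * S ≤ n
  saw : Saw Y n (fold Y n F w)
  mono : MonoOn Y (fold Y n F w) S 0 n
  past : ∀ f ∈ F, ∀ t, t ≤ f → ht Y.l (fold Y n F w) t ≤ ht Y.l (fold Y n F w) f
  fut : ∀ f ∈ F, ∀ t, f < t → t ≤ n → ht Y.l (fold Y n F w) f < ht Y.l (fold Y n F w) t
  reach : ∀ f ∈ F, ∃ r, f < r ∧ r ≤ n ∧ ht Y.l (fold Y n F w) f + S ≤ ht Y.l (fold Y n F w) r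
  gap : ∀ f ∈ F, ∀ f' ∈ F, f < f' → ht Y.l (fold Y n F w) f + S ≤ ht Y.l (fold Y n F w) f'

/-! ### local surgery (Hammersley–Welsh unfolding of a short piece) -/

/-- `Unf Y w w' t a dir c`: on `[t,a)` the word `w'` is the unfolding of the word `w`
(`dir = false`: `a` is a weak minimum of the height of `w` on `[t,a]`; `dir = true`: weak maximum),
`c` is the list of the widths of the pieces, from the last one to the first one. -/
inductive Unf (Y : Sys A d) (w w' : ℕ → A) (t : ℕ) : ℕ → Bool → List ℕ → Prop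
  | flat (a : ℕ) (dir : Bool) (hta : t ≤ a)
      (hflat : ∀ b, t ≤ b → b ≤ a → ht Y.l w b = ht Y.l w a)
      (heq : ∀ b, t ≤ b → b < a → w' b = w b) : Unf Y w w' t a dir []
  | down (a f W : ℕ) (c : List ℕ) (htf : t ≤ f) (hfa : f < a)
      (hmax : ∀ b, t ≤ b → b ≤ a → ht Y.l w b ≤ ht Y.l w f)
      (hlast : ∀ b, f < b → b ≤ a → ht Y.l w b < ht Y.l w f)
      (hmin : ∀ b, t ≤ b → b ≤ a → ht Y.l w a ≤ ht Y.l w b)
      (hW : (W : ℤ) = ht Y.l w f - ht Y.l w a)
      (heq : ∀ b, f ≤ b → b < a → w' b = Y.U (w b))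
      (hrec : Unf Y w w' t f true c) : Unf Y w w' t a false (W :: c)
  | up (a f W : ℕ) (c : List ℕ) (htf : t ≤ f) (hfa : f < a)
      (hmin : ∀ b, t ≤ b → b ≤ a → ht Y.l w f ≤ ht Y.l w b)
      (hlast : ∀ b, f < b → b ≤ a → ht Y.l w f < ht Y.l w b)
      (hmax : ∀ b, t ≤ b → b ≤ a → ht Y.l w b ≤ ht Y.l w a)
      (hW : (W : ℤ) = ht Y.l w a - ht Y.l w f)
      (heq : ∀ b, f ≤ b → b < a → w' b = w b)
      (hrec : Unf Y w w' t f false c) : Unf Y w w' t a true (W :: c)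

/-- `w'` is obtained from `w` by the surgery at time `t`: let `a` be the last time of the minimum
of the height on `[t,n]`; then `[t,a)` is unfolded. -/
def Surg (Y : Sys A d) (n : ℕ) (w w' : ℕ → A) (t : ℕ) (c : List ℕ) : Prop :=
  ∃ a, t ≤ a ∧ a ≤ n ∧ (∀ b, t ≤ b → b ≤ n → ht Y.l w a ≤ ht Y.l w b) ∧
    (∀ b, a < b → b ≤ n → ht Y.l w a < ht Y.l w b) ∧ Unf Y w w' t a false c ∧
    (∀ b, (b < t ∨ a ≤ b) → w' b = w b)

/-- cost of a code -/
def cost (c : List ℕ) : ℕ := (c.map (· + 1)).prod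

/-! ### cuts, nice times, bad cells -/

/-- `t` is a cut: strictly above the past, weakly below the future -/
def Cut (Y : Sys A d) (n : ℕ) (w : ℕ → A) (t : ℕ) : Prop :=
  t ≤ n ∧ (∀ a, a < t → ht Y.l w a < ht Y.l w t) ∧ (∀ b, t ≤ b → b ≤ n → ht Y.l w t ≤ ht Y.l w b)

/-- `t` is nice (with respect to the cells of length `H1`) -/
def Nice (Y : Sys A d) (n T0 T1 G H1 M : ℕ) (w : ℕ → A) (t : ℕ) : Prop :=
  (∀ a, a < t → ht Y.l w a < ht Y.l w t) ∧
  (∀ b, t + T0 ≤ b → b ≤ n → ht Y.l w t < ht Y.l w b) ∧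
  (∀ a, (a < H1 * (t / H1) ∨ a + T1 < t) → ht Y.l w a + G < ht Y.l w t) ∧
  (∀ b, b ≤ n → (H1 * (t / H1 + 1) ≤ b ∨ t + T1 < b) → ht Y.l w t + G < ht Y.l w b) ∧
  H1 * (t / H1 + 1) ≤ n ∧
  ∃ w' c, Surg Y n w w' t c ∧ cost c ≤ M

open Classical in
/-- the nice times in the cell `j` -/
noncomputable def niceIn (Y : Sys A d) (n T0 T1 G H1 M : ℕ) (w : ℕ → A) (j : ℕ) : Finset ℕ :=
  (Finset.Ico (H1 * j) (H1 * (j + 1))).filter (Nice Y n T0 T1 G H1 M w)

/-- the cell `j` contains a cut -/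
def HasCut (Y : Sys A d) (n H1 : ℕ) (w : ℕ → A) (j : ℕ) : Prop :=
  ∃ t, H1 * j ≤ t ∧ t < H1 * (j + 1) ∧ Cut Y n w t

/-- the cell `j` is bad: many nice times, but no cut -/
def Bad (Y : Sys A d) (n T0 T1 G H1 M R0 : ℕ) (w : ℕ → A) (j : ℕ) : Prop :=
  R0 ≤ #(niceIn Y n T0 T1 G H1 M w j) ∧ ¬ HasCut Y n H1 w j

open Classical in
/-- number of bad cells -/
noncomputable def badNum (Y : Sys A d) (n T0 T1 G H1 M R0 : ℕ) (w : ℕ → A) : ℕ :=
  #((range (n / H1)).filter (Bad Y n T0 T1 G H1 M R0 w))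

/-! ### canonical cuts and flips -/

/-- `c` is the first cut of its cell of length `H1` -/
def Can (Y : Sys A d) (n H1 : ℕ) (w : ℕ → A) (c : ℕ) : Prop :=
  Cut Y n w c ∧ ∀ c', H1 * (c / H1) ≤ c' → c' < c → ¬ Cut Y n w c'

/-- `c'` is the next canonical cut after the canonical cut `c`, in the same `H`-cell -/
def IsNxt (Y : Sys A d) (n H1 H : ℕ) (w : ℕ → A) (c c' : ℕ) : Prop :=
  Can Y n H1 w c ∧ Can Y n H1 w c' ∧ c < c' ∧ c / H = c' / H ∧
    ∀ c'', c < c'' → c'' < c' → ¬ Can Y n H1 w c''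

open Classical in
/-- the next canonical cut in the same `H`-cell (or `c` itself when there is none) -/
noncomputable def nxt (Y : Sys A d) (n H1 H : ℕ) (w : ℕ → A) (c : ℕ) : ℕ :=
  if h : ∃ c', IsNxt Y n H1 H w c c' then h.choose else c

/-- transversal increment of the inner segment starting at `c` -/
noncomputable def yc (Y : Sys A d) (n H1 H : ℕ) (w : ℕ → A) (c : ℕ) : ℤ :=
  incr Y.y w c (nxt Y n H1 H w c)

/-- height increment of the inner segment starting at `c` -/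
noncomputable def lc (Y : Sys A d) (n H1 H : ℕ) (w : ℕ → A) (c : ℕ) : ℤ :=
  incr Y.l w c (nxt Y n H1 H w c)

open Classical in
/-- flip the inner segments whose starting point is in `Θ` -/
noncomputable def flipW (Y : Sys A d) (n H1 H : ℕ) (Θ : Finset ℕ) (w : ℕ → A) : ℕ → A :=
  fun t => if ∃ c ∈ Θ, c ≤ t ∧ t < nxt Y n H1 H w c then Y.R (w t) else w t

/-! ### defect on the grid of mesh `s` -/

/-- negative part -/
def npart (x : ℤ) : ℤ := max (-x) 0

/-- defect of the grid cell `[s u, s (u+1)]` -/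
def cellDfc (Y : Sys A d) (w : ℕ → A) (s u : ℕ) : ℤ :=
  npart (incr Y.l w (s * u) (s * (u + 1))) + npart (incr Y.y w (s * u) (s * (u + 1))) +
  npart (4 * incr Y.y w (s * u) (s * (u + 1)) - incr Y.l w (s * u) (s * (u + 1))) +
  npart (4 * incr Y.l w (s * u) (s * (u + 1)) - incr Y.y w (s * u) (s * (u + 1))) +
  ∑ k, (npart (2 * incr Y.l w (s * u) (s * (u + 1)) + incr (Y.z k) w (s * u) (s * (u + 1))) +
    npart (2 * incr Y.l w (s * u) (s * (u + 1)) - incr (Y.z k) w (s * u) (s * (u + 1))))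

/-- defect of the grid cells `u ∈ [p,q)` -/
def dfc (Y : Sys A d) (w : ℕ → A) (s p q : ℕ) : ℤ := ∑ u ∈ Ico p q, cellDfc Y w s u

/-- variation of the height at scale `s` over the grid cells `u ∈ [p,q)` -/
def lvar (Y : Sys A d) (w : ℕ → A) (s p q : ℕ) : ℤ :=
  ∑ u ∈ Ico p q, |incr Y.l w (s * u) (s * (u + 1))|

/-- `∑_{j ≤ i} log(4 Sc_{j+1} + 1) * (variation at scale Sc_j on [P,Q])` -/
noncomputable def multiCost (Y : Sys A d) (Sc : ℕ → ℕ) (i : ℕ) (w : ℕ → A) (P Q : ℕ) : ℝ :=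
  ∑ j ∈ range (i + 1), Real.log (4 * (Sc (j + 1) : ℝ) + 1) *
    (lvar Y w (Sc j) (P / Sc j) (Q / Sc j) : ℝ)

/-! ### first and last visits of a level -/

/-- first time at which the height is at least `x` -/
noncomputable def tf (Y : Sys A d) (w : ℕ → A) (x : ℤ) : ℕ := sInf {t : ℕ | x ≤ ht Y.l w t}

open Classical in
/-- last time in `[0,n]` at which the height is at most `x` -/
noncomputable def tl (Y : Sys A d) (n : ℕ) (w : ℕ → A) (x : ℤ) : ℕ :=
  Nat.findGreatest (fun t => ht Y.l w t ≤ x) n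

end Pool.Agent.H976R2.SB
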