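import Pool.Agent.H976R2.SB.Walks

/-! Expectations. -/

namespace Pool.Agent.H976R2.SB
open Finset

/-- expectation under the uniform law on `n`-step self-avoiding walks of `ℤ^d` -/
noncomputable def expect (d n : ℕ) (F : (Fin (n + 1) → Fin d → ℤ) → ℝ) : ℝ :=
  (∑ᶠ ω ∈ {ω | IsSAW d n ω}, F ω) / ({ω | IsSAW d n ω}.ncard : ℝ)

lemma num_true (d n : ℕ) : num d n (fun _ => True) = ({ω | IsSAW d n ω}.ncard : ℝ) := by
  unfold num; simp

lemma nsq_nonneg {d : ℕ} (v : Fin d → ℤ) : 0 ≤ nsq v := Finset.sum_nonneg fun _ _ => sq_nonneg _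

lemma l1_le {d n : ℕ} {ω : Fin (n + 1) → Fin d → ℤ} (h : IsSAW d n ω) :
    ∀ t : ℕ, ∀ ht' : t < n + 1, ∑ k, |ω ⟨t, ht'⟩ k| ≤ t := by
  intro t
  induction t with
  | zero =>
    intro ht'
    have : ω ⟨0, ht'⟩ = 0 := h.1
    rw [this]; simp
  | succ t ih =>
    intro ht'
    have h1 := ih (by omega)
    have h2 := h.2.1 ⟨t, by omega⟩
    simp only [Fin.succ_mk, Fin.castSucc_mk] at h2
    have h3 : ∑ k, |ω ⟨t + 1, ht'⟩ k| ≤ ∑ k, (|ω ⟨t, by omega⟩ k| +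
        |ω ⟨t + 1, ht'⟩ k - ω ⟨t, by omega⟩ k|) := by
      refine Finset.sum_le_sum fun k _ => ?_
      have := abs_add_le (ω ⟨t, by omega⟩ k) (ω ⟨t + 1, ht'⟩ k - ω ⟨t, by omega⟩ k)
      simpa using this
    rw [Finset.sum_add_distrib, h2] at h3
    push_cast
    linarith

lemma nsq_le {d n : ℕ} {ω : Fin (n + 1) → Fin d → ℤ} (h : IsSAW d n ω) (i : Fin (n + 1)) :
    nsq (ω i) ≤ (n : ℝ) ^ 2 := by
  have h1 := l1_le h i i.isLt
  have h2 : (∑ k, |ω i k| : ℤ) ≤ n := h1.trans (by exact_mod_cast (by omega : (i : ℕ) ≤ n))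
  have h3 : (∑ k, |((ω i k : ℤ) : ℝ)|) ≤ n := by exact_mod_cast h2
  have h4 : nsq (ω i) ≤ (∑ k, |((ω i k : ℤ) : ℝ)|) ^ 2 := by
    unfold nsq
    have : ∑ k, ((ω i k : ℤ) : ℝ) ^ 2 = ∑ k, |((ω i k : ℤ) : ℝ)| ^ 2 :=
      Finset.sum_congr rfl fun k _ => (sq_abs _).symm
    rw [this]
    exact Finset.sum_sq_le_sq_sum_of_nonneg fun k _ => abs_nonneg _
  refine h4.trans ?_
  have h5 : 0 ≤ ∑ k, |((ω i k : ℤ) : ℝ)| := Finset.sum_nonneg fun _ _ => abs_nonneg _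
  gcongr

/-- splitting an expectation according to an event -/
lemma finsum_le {d n : ℕ} (hd : 1 ≤ d) (F : (Fin (n + 1) → Fin d → ℤ) → ℝ)
    (E : (Fin (n + 1) → Fin d → ℤ) → Prop) (b B : ℝ) (hb : 0 ≤ b)
    (h1 : ∀ ω, IsSAW d n ω → ¬ E ω → F ω ≤ b) (h2 : ∀ ω, IsSAW d n ω → F ω ≤ B) (hB : 0 ≤ B) :
    ∑ᶠ ω ∈ {ω | IsSAW d n ω}, F ω ≤ b * num d n (fun _ => True) + B * num d n E := by
  classical
  have hfin := finite_saw d n hd
  rw [finsum_mem_eq_finite_toFinset_sum _ hfin, num_true]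
  have hc1 : ({ω | IsSAW d n ω}.ncard : ℝ) = (hfin.toFinset).card := by
    rw [Set.ncard_eq_toFinset_card _ hfin]
  have hc2 : num d n E = #(hfin.toFinset.filter E) := by
    unfold num
    congr 1
    rw [← Set.ncard_coe_finset]
    congr 1
    ext ω
    simp
  rw [hc1, hc2]
  calc ∑ ω ∈ hfin.toFinset, F ω ≤ ∑ ω ∈ hfin.toFinset, (b + if E ω then B else 0) := by
        refine Finset.sum_le_sum fun ω hω => ?_
        have hω' : IsSAW d n ω := by simpa using hω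
        split_ifs with hE
        · linarith [h2 ω hω']
        · linarith [h1 ω hω' hE]
    _ = b * (hfin.toFinset).card + B * #(hfin.toFinset.filter E) := by
        rw [Finset.sum_add_distrib, Finset.sum_const, nsmul_eq_mul, ← Finset.sum_filter,
          Finset.sum_const, nsmul_eq_mul]
        ring

/-- Quantitative sub-ballisticity for expectations. -/
theorem expect_bound (d : ℕ) (hd : 2 ≤ d) : ∃ c : ℝ, 0 < c ∧ ∃ n0 : ℕ, ∀ n : ℕ, n0 ≤ n →
    ∀ (a : ℝ) (F : (Fin (n + 1) → Fin d → ℤ) → ℝ), 0 ≤ a →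
      (∀ ω, IsSAW d n ω → ∀ R : ℝ, (∀ i, nsq (ω i) ≤ R) → F ω ≤ a * R) →
      expect d n F ≤ a * ((n : ℝ) ^ 2 / (Real.log n) ^ c) := by
  obtain ⟨c, hc, h⟩ := walks_far_euclid d hd
  obtain ⟨n0, hn0⟩ := h (1 / 2) (by norm_num)
  refine ⟨c, hc, ?_⟩
  have hnn : Filter.Tendsto (fun n : ℕ => (n : ℝ)) Filter.atTop Filter.atTop :=
    tendsto_natCast_atTop_atTop
  have hlogn : Filter.Tendsto (fun n : ℕ => Real.log (n : ℝ)) Filter.atTop Filter.atTop :=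
    Real.tendsto_log_atTop.comp tendsto_natCast_atTop_atTop
  have E1 := hlogn.eventually_ge_atTop 1
  have E2 := ((tendsto_rpow_atTop hc).comp hlogn).eventually_ge_atTop 2
  have hs : Filter.Tendsto (fun n : ℕ => (n : ℝ) ^ (1 / 2 : ℝ)) Filter.atTop Filter.atTop :=
    (tendsto_rpow_atTop (by norm_num)).comp hnn
  have E3 : ∀ᶠ n : ℕ in Filter.atTop, ((n : ℝ) ^ (1 / 2 : ℝ)) ^ (2 * c) *
      Real.exp (-((n : ℝ) ^ (1 / 2 : ℝ))) ≤ 1 := by
    have h1 := (tendsto_rpow_mul_exp_neg_mul_atTop_nhds_zero (2 * c) 1 one_pos)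
    have h2 := (h1.comp hs).eventually (gt_mem_nhds (show (0 : ℝ) < 1 by norm_num))
    filter_upwards [h2] with n hn
    simp only [Function.comp, neg_mul, one_mul] at hn
    exact hn.le
  have E4 : ∀ᶠ n : ℕ in Filter.atTop, Real.log n ≤ (n : ℝ) ^ (1 / 2 : ℝ) := by
    have h1 : ∀ᶠ x : ℝ in Filter.atTop, Real.log x ≤ x ^ (1 / 2 : ℝ) := by
      have h2 := (isLittleO_log_rpow_atTop (show (0 : ℝ) < 1 / 2 by norm_num)).def
        (show (0 : ℝ) < 1 by norm_num)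
      filter_upwards [h2, Filter.eventually_ge_atTop 1] with x hx hx1
      rw [Real.norm_of_nonneg (Real.log_nonneg hx1), Real.norm_of_nonneg (by positivity)] at hx
      linarith
    exact hnn.eventually h1
  obtain ⟨n1, hn1⟩ := Filter.eventually_atTop.1 (E1.and (E2.and (E3.and E4)))
  refine ⟨max n0 n1, fun n hn a F ha hF => ?_⟩
  obtain ⟨g1, g2, g3, g4⟩ := hn1 n ((le_max_right _ _).trans hn)
  simp only [Function.comp] at g2
  have hfar := hn0 n ((le_max_left _ _).trans hn)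
  set L : ℝ := Real.log n with hL
  have hL0 : (0 : ℝ) < L := by linarith
  have hn0' : (0 : ℝ) ≤ (n : ℝ) := by positivity
  set E : (Fin (n + 1) → Fin d → ℤ) → Prop := fun ω => ∃ i, (n : ℝ) / L ^ c ≤
    Real.sqrt (nsq (ω i)) with hE
  set b : ℝ := a * ((n : ℝ) / L ^ c) ^ 2 with hb
  have hb0 : 0 ≤ b := by positivity
  have h1 : ∀ ω, IsSAW d n ω → ¬ E ω → F ω ≤ b := by
    intro ω hω hnE
    refine hF ω hω _ fun i => ?_
    have : Real.sqrt (nsq (ω i)) < (n : ℝ) / L ^ c := by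
      by_contra hcon
      push Not at hcon
      exact hnE ⟨i, hcon⟩
    have h2 := Real.sq_sqrt (nsq_nonneg (ω i))
    rw [← h2]
    have := Real.sqrt_nonneg (nsq (ω i))
    gcongr
  have h2 : ∀ ω, IsSAW d n ω → F ω ≤ a * (n : ℝ) ^ 2 := fun ω hω => hF ω hω _ fun i => nsq_le hω i
  have h3 := finsum_le (by omega) F E b (a * (n : ℝ) ^ 2) hb0 h1 h2 (by positivity)
  have hnum0 : 0 ≤ num d n (fun _ => True) := by unfold num; positivity
  have h4 : num d n E ≤ Real.exp (-((n : ℝ) ^ (1 / 2 : ℝ))) * num d n (fun _ => True) := by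
    have e : (1 : ℝ) - 1 / 2 = 1 / 2 := by norm_num
    rw [e] at hfar
    exact hfar
  have h5 : Real.exp (-((n : ℝ) ^ (1 / 2 : ℝ))) ≤ 1 / (L ^ c) ^ 2 := by
    rw [le_div_iff₀ (by positivity)]
    have e1 : (L ^ c) ^ 2 = L ^ (2 * c) := by
      rw [← Real.rpow_natCast, ← Real.rpow_mul hL0.le]; congr 1; push_cast; ring
    rw [e1]
    calc Real.exp (-((n : ℝ) ^ (1 / 2 : ℝ))) * L ^ (2 * c)
        ≤ Real.exp (-((n : ℝ) ^ (1 / 2 : ℝ))) * ((n : ℝ) ^ (1 / 2 : ℝ)) ^ (2 * c) := by gcongr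
      _ = ((n : ℝ) ^ (1 / 2 : ℝ)) ^ (2 * c) * Real.exp (-((n : ℝ) ^ (1 / 2 : ℝ))) := by ring
      _ ≤ 1 := g3
  have hLc : 0 < L ^ c := by positivity
  unfold expect
  rw [num_true] at h3 h4 hnum0
  rcases hnum0.eq_or_lt with h0 | h0
  · rw [← h0, div_zero]; positivity
  rw [div_le_iff₀ h0]
  refine h3.trans ?_
  calc b * ({ω | IsSAW d n ω}.ncard : ℝ) + a * (n : ℝ) ^ 2 * num d n E
      ≤ b * ({ω | IsSAW d n ω}.ncard : ℝ) + a * (n : ℝ) ^ 2 *
        (1 / (L ^ c) ^ 2 * ({ω | IsSAW d n ω}.ncard : ℝ)) := by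
        gcongr
        exact h4.trans (mul_le_mul_of_nonneg_right h5 h0.le)
    _ = a * (n : ℝ) ^ 2 * (2 / (L ^ c) ^ 2) * ({ω | IsSAW d n ω}.ncard : ℝ) := by
        rw [hb]; field_simp; ring
    _ ≤ a * (n : ℝ) ^ 2 * (1 / L ^ c) * ({ω | IsSAW d n ω}.ncard : ℝ) := by
        have hk : 2 / (L ^ c) ^ 2 ≤ 1 / L ^ c := by
          rw [div_le_div_iff₀ (by positivity) (by positivity)]
          calc 2 * L ^ c ≤ L ^ c * L ^ c := by gcongr
            _ = 1 * (L ^ c) ^ 2 := by ring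
        exact mul_le_mul_of_nonneg_right (mul_le_mul_of_nonneg_left hk (by positivity)) h0.le
    _ = a * ((n : ℝ) ^ 2 / L ^ c) * ({ω | IsSAW d n ω}.ncard : ℝ) := by ring

end Pool.Agent.H976R2.SB
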