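import Pool.Agent.H976R2.SB.Basic

/-! Task F1: deterministic choice of a scale. -/

namespace Pool.Agent.H976R2.SB
open Finset

namespace TF1

open Classical in
/-- the indices where `V` drops by more than a factor `1+δ` in two steps -/
noncomputable def B1 (V : ℕ → ℝ) (δ : ℝ) (m : ℕ) : Finset ℕ :=
  (Finset.Icc 1 m).filter (fun i => (1 + δ) * V (i + 2) < V i)

open Classical in
/-- the indices which are not records -/
noncomputable def B2 (V : ℕ → ℝ) (a : ℝ) (m : ℕ) : Finset ℕ :=
  (Finset.Icc 1 m).filter (fun i => ¬ ∀ j ≤ i, V j ≤ V i * a ^ (i - j))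

lemma card_B1_succ (V : ℕ → ℝ) (δ : ℝ) (m : ℕ) :
    ((1 + δ) * V (m + 1 + 2) < V (m + 1) → #(B1 V δ (m + 1)) = #(B1 V δ m) + 1) ∧
    (¬ ((1 + δ) * V (m + 1 + 2) < V (m + 1)) → #(B1 V δ (m + 1)) = #(B1 V δ m)) := by
  classical
  have hI : Finset.Icc 1 (m + 1) = insert (m + 1) (Finset.Icc 1 m) := by
    ext x; simp only [Finset.mem_Icc, Finset.mem_insert]; omega
  have hn : (m + 1) ∉ Finset.Icc 1 m := by simp
  constructor
  · intro h
    unfold B1
    rw [hI, Finset.filter_insert, if_pos h, Finset.card_insert_of_notMem]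
    simp
  · intro h
    unfold B1
    rw [hI, Finset.filter_insert, if_neg h]

lemma card_B2_succ (V : ℕ → ℝ) (a : ℝ) (m : ℕ) :
    ((¬ ∀ j ≤ m + 1, V j ≤ V (m + 1) * a ^ (m + 1 - j)) → #(B2 V a (m + 1)) = #(B2 V a m) + 1) ∧
    ((∀ j ≤ m + 1, V j ≤ V (m + 1) * a ^ (m + 1 - j)) → #(B2 V a (m + 1)) = #(B2 V a m)) := by
  classical
  have hI : Finset.Icc 1 (m + 1) = insert (m + 1) (Finset.Icc 1 m) := by
    ext x; simp only [Finset.mem_Icc, Finset.mem_insert]; omega
  constructor
  · intro h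
    unfold B2
    rw [hI, Finset.filter_insert, if_pos h, Finset.card_insert_of_notMem]
    simp
  · intro h
    unfold B2
    rw [hI, Finset.filter_insert, if_neg (not_not.2 h)]

lemma bound_B1 (V : ℕ → ℝ) (hV : Antitone V) (K : ℕ) (δ : ℝ) (hδ : 0 < δ)
    (hpos : 0 < V (K + 2)) : ∀ m ≤ K, (1 + δ) ^ #(B1 V δ m) * (V (m + 1) * V (m + 2)) ≤ V 1 * V 2 := by
  intro m
  induction m with
  | zero =>
    intro _
    have : B1 V δ 0 = ∅ := by simp [B1]
    rw [this]; simp
  | succ m ih =>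
    intro hm
    have ih' := ih (by omega)
    have hp2 : 0 < V (m + 2) := hpos.trans_le (hV (by omega))
    have hp3 : 0 < V (m + 3) := hpos.trans_le (hV (by omega))
    have h13 : V (m + 3) ≤ V (m + 1) := hV (by omega)
    obtain ⟨h1, h2⟩ := card_B1_succ V δ m
    have hpw : 0 < (1 + δ) ^ #(B1 V δ m) := by positivity
    by_cases h : (1 + δ) * V (m + 1 + 2) < V (m + 1)
    · rw [h1 h, pow_succ]
      refine le_trans ?_ ih'
      have : (1 + δ) * (V (m + 1 + 1) * V (m + 1 + 2)) ≤ V (m + 1) * V (m + 2) := by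
        have h' : (1 + δ) * V (m + 3) ≤ V (m + 1) := h.le
        show (1 + δ) * (V (m + 2) * V (m + 3)) ≤ V (m + 1) * V (m + 2)
        nlinarith [mul_le_mul_of_nonneg_left h' hp2.le]
      nlinarith [mul_le_mul_of_nonneg_left this hpw.le]
    · rw [h2 h]
      refine le_trans ?_ ih'
      apply mul_le_mul_of_nonneg_left _ hpw.le
      show V (m + 2) * V (m + 3) ≤ V (m + 1) * V (m + 2)
      nlinarith [mul_le_mul_of_nonneg_left h13 hp2.le]

lemma bound_B2 (V : ℕ → ℝ) (hV : Antitone V) (K : ℕ) (a : ℝ) (ha : 2 ≤ a)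
    (hpos : 0 < V (K + 2)) : ∀ m ≤ K, ∀ j ≤ m,
      V j * a ^ j * a ^ #(B2 V a m) ≤ a ^ m * V 0 := by
  have ha0 : 0 < a := by linarith
  have hV0 : 0 < V 0 := hpos.trans_le (hV (by omega))
  intro m
  induction m with
  | zero =>
    intro _ j hj
    obtain rfl : j = 0 := by omega
    have : B2 V a 0 = ∅ := by simp [B2]
    rw [this]; simp
  | succ m ih =>
    intro hm j hj
    have ih' := ih (by omega)
    obtain ⟨h1, h2⟩ := card_B2_succ V a m
    have hpw : 0 < a ^ #(B2 V a m) := by positivity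
    by_cases h : ∀ j ≤ m + 1, V j ≤ V (m + 1) * a ^ (m + 1 - j)
    · rw [h2 h]
      rcases Nat.lt_or_ge j (m + 1) with hj' | hj'
      · refine (ih' j (by omega)).trans ?_
        rw [pow_succ]
        have : 0 < a ^ m * V 0 := by positivity
        nlinarith
      · obtain rfl : j = m + 1 := by omega
        have h3 : V (m + 1) ≤ V m := hV (by omega)
        have h4 := ih' m le_rfl
        calc V (m + 1) * a ^ (m + 1) * a ^ #(B2 V a m) ≤ V m * a ^ (m + 1) * a ^ #(B2 V a m) := by
              gcongr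
          _ = (V m * a ^ m * a ^ #(B2 V a m)) * a := by rw [pow_succ]; ring
          _ ≤ (a ^ m * V 0) * a := by gcongr
          _ = _ := by rw [pow_succ]; ring
    · rw [h1 h, pow_succ]
      rcases Nat.lt_or_ge j (m + 1) with hj' | hj'
      · calc V j * a ^ j * (a ^ #(B2 V a m) * a) = (V j * a ^ j * a ^ #(B2 V a m)) * a := by ring
          _ ≤ (a ^ m * V 0) * a := by
              have := ih' j (by omega)
              gcongr
          _ = _ := by rw [pow_succ]; ring
      · obtain rfl : j = m + 1 := by omega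
        push Not at h
        obtain ⟨j0, hj0, hlt⟩ := h
        have hne : j0 ≠ m + 1 := by
          rintro rfl
          simp at hlt
        have hj0' : j0 ≤ m := by omega
        have h5 : V (m + 1) * a ^ (m + 1) ≤ V j0 * a ^ j0 := by
          have h6 : a ^ (m + 1) = a ^ (m + 1 - j0) * a ^ j0 := by
            rw [← pow_add]; congr 1; omega
          rw [h6, ← mul_assoc]
          exact mul_le_mul_of_nonneg_right hlt.le (by positivity)
        calc V (m + 1) * a ^ (m + 1) * (a ^ #(B2 V a m) * a)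
            ≤ V j0 * a ^ j0 * (a ^ #(B2 V a m) * a) := by gcongr
          _ = (V j0 * a ^ j0 * a ^ #(B2 V a m)) * a := by ring
          _ ≤ (a ^ m * V 0) * a := by
              have := ih' j0 hj0'
              gcongr
          _ = _ := by rw [pow_succ]; ring

end TF1

open TF1 in
/-- TASK F1 : deterministic choice of a scale -/
theorem good_scale (V : ℕ → ℝ) (hV : Antitone V) (K : ℕ) (a : ℝ) (ha : 2 ≤ a) (δ : ℝ)
    (hδ : 0 < δ) (r : ℝ) (hr : 1 ≤ r) (hpos : 0 < V (K + 2)) (h0 : V 0 ≤ r * V (K + 2))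
    (hK : 2 * Real.log r / Real.log (1 + δ) + Real.log r / Real.log a + 5 ≤ K) :
    ∃ i, 1 ≤ i ∧ i ≤ K ∧ V i ≤ (1 + δ) * V (i + 2) ∧ ∀ j ≤ i, V j ≤ V i * a ^ (i - j) := by
  classical
  have ha0 : 0 < a := by linarith
  have hr0 : 0 < r := by linarith
  have hlogδ : 0 < Real.log (1 + δ) := Real.log_pos (by linarith)
  have hloga : 0 < Real.log a := Real.log_pos (by linarith)
  -- first count
  have hc1 : (#(B1 V δ K) : ℝ) ≤ 2 * Real.log r / Real.log (1 + δ) := by
    rw [le_div_iff₀ hlogδ]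
    have h1 := bound_B1 V hV K δ hδ hpos K le_rfl
    have h2 : V 1 ≤ V 0 := hV (by omega)
    have h3 : V 2 ≤ V 0 := hV (by omega)
    have h4 : V (K + 2) ≤ V (K + 1) := hV (by omega)
    have hv1 : 0 < V 1 := hpos.trans_le (hV (by omega))
    have hv2 : 0 < V 2 := hpos.trans_le (hV (by omega))
    have hv0 : 0 < V 0 := hpos.trans_le (hV (by omega))
    have hvK : 0 < V (K + 1) := hpos.trans_le (hV (by omega))
    have h5 : V 1 * V 2 ≤ r ^ 2 * (V (K + 1) * V (K + 2)) := by
      calc V 1 * V 2 ≤ V 0 * V 0 := by gcongr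
        _ ≤ (r * V (K + 2)) * (r * V (K + 2)) := by gcongr
        _ = r ^ 2 * (V (K + 2) * V (K + 2)) := by ring
        _ ≤ r ^ 2 * (V (K + 1) * V (K + 2)) := by gcongr
    have h6 : (1 + δ) ^ #(B1 V δ K) ≤ r ^ 2 :=
      le_of_mul_le_mul_right (h1.trans h5) (by positivity)
    have h7 := Real.log_le_log (by positivity) h6
    rw [Real.log_pow, Real.log_pow] at h7
    exact_mod_cast h7
  have hc2 : (#(B2 V a K) : ℝ) ≤ Real.log r / Real.log a := by
    rw [le_div_iff₀ hloga]
    have h1 := bound_B2 V hV K a ha hpos K le_rfl K le_rfl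
    have h2 : V (K + 2) ≤ V K := hV (by omega)
    have hvK : 0 < V K := hpos.trans_le h2
    have h3 : V K * a ^ #(B2 V a K) ≤ V 0 := by
      have : a ^ K * (V K * a ^ #(B2 V a K)) ≤ a ^ K * V 0 := by
        calc _ = V K * a ^ K * a ^ #(B2 V a K) := by ring
          _ ≤ _ := h1
      exact le_of_mul_le_mul_left this (by positivity)
    have h4 : V K * a ^ #(B2 V a K) ≤ V K * r := by
      calc _ ≤ V 0 := h3
        _ ≤ r * V (K + 2) := h0
        _ ≤ r * V K := by gcongr
        _ = _ := by ring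
    have h5 : a ^ #(B2 V a K) ≤ r := le_of_mul_le_mul_left h4 hvK
    have h7 := Real.log_le_log (by positivity) h5
    rw [Real.log_pow] at h7
    exact h7
  have hcard : #(B1 V δ K ∪ B2 V a K) < #(Finset.Icc 1 K) := by
    have h1 : #(B1 V δ K ∪ B2 V a K) ≤ #(B1 V δ K) + #(B2 V a K) := Finset.card_union_le _ _
    have h2 : (#(B1 V δ K) : ℝ) + #(B2 V a K) + 5 ≤ K := by linarith
    have h3 : #(B1 V δ K) + #(B2 V a K) + 5 ≤ K := by exact_mod_cast h2
    simp only [Nat.card_Icc]
    omega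
  obtain ⟨i, hi, hni⟩ := Finset.exists_mem_notMem_of_card_lt_card hcard
  rw [Finset.mem_Icc] at hi
  rw [Finset.mem_union, not_or] at hni
  refine ⟨i, hi.1, hi.2, ?_, ?_⟩
  · by_contra hc
    push Not at hc
    exact hni.1 (by simp only [B1, Finset.mem_filter, Finset.mem_Icc]; exact ⟨hi, hc⟩)
  · by_contra hc
    exact hni.2 (by simp only [B2, Finset.mem_filter, Finset.mem_Icc]; exact ⟨hi, hc⟩)

end Pool.Agent.H976R2.SB
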