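import Pool.Agent.H976R2.SB.Types

/-! Task F2: a vector has a good type. -/

namespace Pool.Agent.H976R2.SB
open Finset

variable {d : ℕ}

namespace TF2

lemma sum_lco_true (i j : Fin d) (hij : i ≠ j) (e s : Bool) (v : Fin d → ℤ) :
    ∑ m, lco ⟨⟨(i, j), hij⟩, true, e, s⟩ m * v m = sg e * v i := by
  rw [Finset.sum_eq_single i]
  · simp [lco]
  · intro b _ hb; simp [lco, hb]
  · simp

lemma sum_yco_true (i j : Fin d) (hij : i ≠ j) (e s : Bool) (v : Fin d → ℤ) :
    ∑ m, yco ⟨⟨(i, j), hij⟩, true, e, s⟩ m * v m = sg s * v j := by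
  rw [Finset.sum_eq_single j]
  · simp [yco]
  · intro b _ hb; simp [yco, hb]
  · simp

lemma sum_two (i j : Fin d) (hij : i ≠ j) (g : Fin d → ℤ) (hg : ∀ m, m ≠ i → m ≠ j → g m = 0) :
    ∑ m, g m = g i + g j := by
  rw [← Finset.sum_pair hij]
  symm
  apply Finset.sum_subset (Finset.subset_univ _)
  intro m _ hm
  simp only [Finset.mem_insert, Finset.mem_singleton, not_or] at hm
  exact hg m hm.1 hm.2

lemma sum_lco_false (i j : Fin d) (hij : i ≠ j) (e s : Bool) (v : Fin d → ℤ) :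
    ∑ m, lco ⟨⟨(i, j), hij⟩, false, e, s⟩ m * v m = sg e * (v i + v j) := by
  rw [sum_two i j hij]
  · simp [lco]; ring
  · intro m h1 h2; simp [lco, h1, h2]

lemma sum_yco_false (i j : Fin d) (hij : i ≠ j) (e s : Bool) (v : Fin d → ℤ) :
    ∑ m, yco ⟨⟨(i, j), hij⟩, false, e, s⟩ m * v m = sg s * (v i - v j) := by
  rw [sum_two i j hij]
  · simp [yco, Ne.symm hij]; ring
  · intro m h1 h2; simp [yco, h1, h2]

lemma exists_sg (x : ℤ) : ∃ b : Bool, sg b * x = |x| := by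
  rcases le_total 0 x with h | h
  · exact ⟨true, by simp [sg, abs_of_nonneg h]⟩
  · exact ⟨false, by simp [sg, abs_of_nonpos h]⟩

end TF2

open TF2 in
/-- TASK F2 : a vector has a good type -/
theorem exists_type (hd : 2 ≤ d) (v : Fin d → ℤ) (hv : v ≠ 0) : ∃ τ : Ty d,
    (∀ k, |v k| ≤ 2 * ∑ m, lco τ m * v m) ∧ 1 ≤ ∑ m, lco τ m * v m ∧
    ∑ m, lco τ m * v m ≤ 4 * ∑ m, yco τ m * v m ∧
    ∑ m, yco τ m * v m ≤ 4 * ∑ m, lco τ m * v m := by
  classical
  haveI : Nonempty (Fin d) := ⟨⟨0, by omega⟩⟩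
  obtain ⟨i, -, hi⟩ := Finset.exists_max_image (Finset.univ : Finset (Fin d)) (fun k => |v k|)
    Finset.univ_nonempty
  have hmax : ∀ k, |v k| ≤ |v i| := fun k => hi k (Finset.mem_univ k)
  have hM : 1 ≤ |v i| := by
    obtain ⟨k, hk⟩ : ∃ k, v k ≠ 0 := by
      by_contra hc
      push Not at hc
      exact hv (funext hc)
    have := hmax k
    have h1 : 0 < |v k| := abs_pos.2 hk
    omega
  obtain ⟨j, hj⟩ : ∃ j, j ≠ i := by
    haveI : Nontrivial (Fin d) := Fin.nontrivial_iff_two_le.2 hd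
    exact exists_ne i
  have hij : i ≠ j := Ne.symm hj
  obtain ⟨e, he⟩ := exists_sg (v i)
  have hjle := hmax j
  by_cases h : |v i| ≤ 2 * |v j|
  · obtain ⟨s, hs⟩ := exists_sg (v j)
    refine ⟨⟨⟨(i, j), hij⟩, true, e, s⟩, ?_⟩
    rw [sum_lco_true, sum_yco_true, he, hs]
    refine ⟨fun k => ?_, hM, by linarith, by linarith⟩
    have := hmax k
    linarith
  · push Not at h
    refine ⟨⟨⟨(i, j), hij⟩, false, e, e⟩, ?_⟩
    rw [sum_lco_false, sum_yco_false]
    have h1 : |sg e * v j| = |v j| := by rw [abs_mul, sg_sq, one_mul]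
    have h2 := abs_le.1 h1.le
    have h3 : sg e * (v i + v j) = |v i| + sg e * v j := by rw [mul_add, he]
    have h4 : sg e * (v i - v j) = |v i| - sg e * v j := by rw [mul_sub, he]
    rw [h3, h4]
    refine ⟨fun k => ?_, by linarith [h2.1], by linarith [h2.1, h2.2], by linarith [h2.1, h2.2]⟩
    have := hmax k
    linarith [h2.1]

end Pool.Agent.H976R2.SB
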