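import Pool.Agent.H976R2.SB.Types

/-! Task F3: elementary facts on `bvar`. -/

namespace Pool.Agent.H976R2.SB
open Finset

variable {d : ℕ}

namespace TF3

lemma incr_grid {A : Type} (f : A → ℤ) (w : ℕ → A) (s : ℕ) {a b : ℕ} (hab : a ≤ b) :
    incr f w (s * a) (s * b) = ∑ v ∈ Ico a b, incr f w (s * v) (s * (v + 1)) := by
  induction b, hab using Nat.le_induction with
  | base => simp [incr]
  | succ b hab ih => rw [Finset.sum_Ico_succ_top hab, ← ih, incr_add]

lemma abs_incr_grid_le {A : Type} (f : A → ℤ) (w : ℕ → A) (s : ℕ) {a b : ℕ} (hab : a ≤ b) :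
    |incr f w (s * a) (s * b)| ≤ ∑ v ∈ Ico a b, |incr f w (s * v) (s * (v + 1))| := by
  rw [incr_grid f w s hab]
  exact Finset.abs_sum_le_sum_abs _ _

lemma bvar_nonneg (w : ℕ → Letter d) (D p q : ℕ) : 0 ≤ bvar w D p q :=
  Finset.sum_nonneg fun _ _ => Finset.sum_nonneg fun _ _ => abs_nonneg _

lemma bvar_add (w : ℕ → Letter d) (D : ℕ) {p q r : ℕ} (h1 : p ≤ q) (h2 : q ≤ r) :
    bvar w D p q + bvar w D q r = bvar w D p r :=
  Finset.sum_Ico_consecutive _ h1 h2

lemma bvar_mono (w : ℕ → Letter d) (D : ℕ) {p q p' q' : ℕ} (h1 : p ≤ p') (h3 : q' ≤ q) :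
    bvar w D p' q' ≤ bvar w D p q := by
  unfold bvar
  exact Finset.sum_le_sum_of_subset_of_nonneg (Finset.Ico_subset_Ico h1 h3)
    fun u _ _ => Finset.sum_nonneg fun _ _ => abs_nonneg _

lemma bvar_one_cell (w : ℕ → Letter d) (s r u : ℕ) :
    bvar w (s * r) u (u + 1) ≤ bvar w s (r * u) (r * (u + 1)) := by
  unfold bvar
  rw [Finset.sum_comm (s := Ico (r * u) (r * (u + 1)))]
  simp only [Nat.Ico_succ_singleton, Finset.sum_singleton]
  refine Finset.sum_le_sum fun f _ => ?_
  rw [mul_assoc, mul_assoc]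
  exact abs_incr_grid_le _ w s (Nat.mul_le_mul_left r (Nat.le_succ u))

lemma zc_eq_lin (m : Fin d) : zc m = lin (Pi.single m (1 : ℤ)) := by
  funext a
  rw [lin_eq, zc_eq]
  by_cases h : a.1 = m
  · simp [h]
  · simp [h]

lemma single_mem_Fam (m : Fin d) : (Pi.single m (1 : ℤ)) ∈ Fam d := by
  unfold Fam
  rw [Fintype.mem_piFinset]
  intro a
  rw [Finset.mem_Icc]
  by_cases h : a = m
  · subst h; simp
  · simp [h]

end TF3

open TF3 in
/-- TASK F3 : elementary facts on `bvar` -/
theorem bvar_facts (w : ℕ → Letter d) :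
    (∀ s r p q : ℕ, bvar w (s * r) p q ≤ bvar w s (r * p) (r * q)) ∧
    (∀ n : ℕ, bvar w 1 0 n ≤ CF d * n) ∧
    (∀ n D k : ℕ, ∀ m : Fin d, 1 ≤ D → k ≤ n → |ht (zc m) w k| - D ≤ bvar w D 0 (n / D)) := by
  refine ⟨fun s r p q => ?_, fun n => ?_, fun n D k m hD hk => ?_⟩
  · rcases le_total p q with h | h
    · induction q, h using Nat.le_induction with
      | base => simp [bvar]
      | succ q hpq ih =>
        rw [← bvar_add w (s * r) hpq (Nat.le_succ q),
          ← bvar_add w s (Nat.mul_le_mul_left r hpq) (Nat.mul_le_mul_left r (Nat.le_succ q))]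
        exact add_le_add ih (bvar_one_cell w s r q)
    · have : bvar w (s * r) p q = 0 := by
        unfold bvar
        rw [Finset.Ico_eq_empty_of_le h, Finset.sum_empty]
      rw [this]
      exact bvar_nonneg _ _ _ _
  · have hd : 1 ≤ d := by
      have := (w 0).1.2
      omega
    unfold bvar
    calc ∑ u ∈ Ico 0 n, ∑ f ∈ Fam d, |incr (lin f) w (1 * u) (1 * (u + 1))|
        ≤ ∑ u ∈ Ico 0 n, ∑ f ∈ Fam d, (9 : ℤ) := by
          refine Finset.sum_le_sum fun u _ => Finset.sum_le_sum fun f hf => ?_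
          have h1 : incr (lin f) w (1 * u) (1 * (u + 1)) = f (w u).1 * sg (w u).2 := by
            rw [one_mul, one_mul, incr, ht_succ, lin_eq]; ring
          rw [h1, abs_mul, sg_sq, mul_one]
          have h2 := (Fintype.mem_piFinset.1 hf) (w u).1
          rw [Finset.mem_Icc] at h2
          exact abs_le.2 h2
      _ = 9 * #(Fam d) * n := by
          simp only [Finset.sum_const, Nat.card_Ico, nsmul_eq_mul, Nat.sub_zero]
          ring
      _ ≤ (CF d : ℤ) * n := by
          unfold CF
          push_cast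
          have h1 : (1 : ℤ) ≤ d := by exact_mod_cast hd
          have h2 : (0 : ℤ) ≤ 9 * #(Fam d) * n := by positivity
          nlinarith [mul_le_mul_of_nonneg_right h1 h2]
  · have h1 : D * (k / D) ≤ k := Nat.mul_div_le k D
    have h2 : k < D * (k / D) + D := by
      have := Nat.lt_mul_div_succ k hD
      linarith
    have h3 : |incr (zc m) w (D * (k / D)) k| ≤ (k : ℤ) - (D * (k / D) : ℕ) := by
      refine abs_incr_le (fun a => ?_) w h1
      rw [zc_eq]
      split_ifs
      · exact (sg_sq _).le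
      · simp
    have h4 : |ht (zc m) w (D * (k / D))| ≤ bvar w D 0 (k / D) := by
      have h5 := abs_incr_grid_le (zc m) w D (Nat.zero_le (k / D))
      rw [mul_zero] at h5
      have h6 : incr (zc m) w 0 (D * (k / D)) = ht (zc m) w (D * (k / D)) := by simp [incr]
      rw [h6] at h5
      refine h5.trans ?_
      unfold bvar
      refine Finset.sum_le_sum fun u _ => ?_
      rw [zc_eq_lin]
      exact Finset.single_le_sum (f := fun f => |incr (lin f) w (D * u) (D * (u + 1))|)
        (fun _ _ => abs_nonneg _) (single_mem_Fam m)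
    have h7 : bvar w D 0 (k / D) ≤ bvar w D 0 (n / D) :=
      bvar_mono w D le_rfl (Nat.div_le_div_right hk)
    have h8 : ht (zc m) w k = ht (zc m) w (D * (k / D)) + incr (zc m) w (D * (k / D)) k := by
      simp [incr]
    have h9 := abs_add_le (ht (zc m) w (D * (k / D))) (incr (zc m) w (D * (k / D)) k)
    rw [← h8] at h9
    have h10 : (k : ℤ) - (D * (k / D) : ℕ) ≤ D := by
      have : (k : ℤ) < (D * (k / D) + D : ℕ) := by exact_mod_cast h2
      push_cast at this ⊢
      linarith
    linarith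

end Pool.Agent.H976R2.SB
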