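import Pool.Agent.H976R2.SB.Types

/-! Task F4: comparison of the defect and of the cost of a block with `bvar` (by helper465). -/

set_option linter.unusedVariables false

namespace Pool.Agent.H976R2.SB
open Finset

variable {d : ℕ}

namespace TF4

lemma incr_lin_comb (c c' : Fin d → ℤ) (α β : ℤ) (w : ℕ → Letter d) (a b : ℕ) :
    incr (lin (fun k => α * c k + β * c' k)) w a b =
      α * incr (lin c) w a b + β * incr (lin c') w a b := by
  refine incr_lin (fun x => ?_) w a b
  simp only [lin, Finset.mul_sum, ← Finset.sum_add_distrib]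
  exact Finset.sum_congr rfl fun k _ => by ring

lemma lin_single (k : Fin d) : lin (Pi.single k (1 : ℤ) : Fin d → ℤ) = zc k := by
  funext a
  rw [lin_eq, zc_eq]
  by_cases h : a.1 = k
  · simp [h]
  · simp [h]

lemma incr_lin_eq_sum (c : Fin d → ℤ) (w : ℕ → Letter d) (a b : ℕ) :
    incr (lin c) w a b = ∑ k, c k * incr (zc k) w a b := by
  have h : ∀ t, ht (lin c) w t = ∑ k, c k * ht (zc k) w t := by
    intro t
    simp only [ht, lin, Finset.mul_sum]
    exact Finset.sum_comm
  simp only [incr, h, ← Finset.sum_sub_distrib, mul_sub]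

lemma two_npart (x : ℤ) : 2 * npart x = |x| - x := by
  unfold npart
  rcases le_total 0 x with h | h
  · rw [abs_of_nonneg h, max_eq_right (by linarith)]
    ring
  · rw [abs_of_nonpos h, max_eq_left (by linarith)]
    ring

lemma tele {A : Type} (f : A → ℤ) (w : ℕ → A) (s p q : ℕ) (h : p ≤ q) :
    ∑ v ∈ Ico p q, incr f w (s * v) (s * (v + 1)) = incr f w (s * p) (s * q) := by
  induction q, h using Nat.le_induction with
  | base => simp [incr_self]
  | succ q hq ih =>
    rw [Finset.sum_Ico_succ_top hq, ih, incr_add]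

/-- the excess of variation -/
noncomputable def E (w : ℕ → Letter d) (s r I : ℕ) : ℤ :=
  bvar w s (r * I) (r * (I + 1)) - bvar w (s * r) I (I + 1)

lemma E_eq (w : ℕ → Letter d) (s r I : ℕ) : E w s r I = ∑ f ∈ Fam d,
    (∑ v ∈ Ico (r * I) (r * (I + 1)), |incr (lin f) w (s * v) (s * (v + 1))| -
      |incr (lin f) w (s * r * I) (s * r * (I + 1))|) := by
  rw [E, bvar, bvar, Finset.sum_comm, Nat.Ico_succ_singleton, Finset.sum_singleton,
    Finset.sum_sub_distrib]

lemma term_nonneg (f : Letter d → ℤ) (w : ℕ → Letter d) (s r I : ℕ) :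
    0 ≤ ∑ v ∈ Ico (r * I) (r * (I + 1)), |incr f w (s * v) (s * (v + 1))| -
      |incr f w (s * r * I) (s * r * (I + 1))| := by
  have h := tele f w s (r * I) (r * (I + 1)) (Nat.mul_le_mul_left r (Nat.le_succ I))
  rw [← mul_assoc, ← mul_assoc] at h
  rw [← h, sub_nonneg]
  exact Finset.abs_sum_le_sum_abs _ _

lemma term_le (c : Fin d → ℤ) (hc : c ∈ Fam d) (w : ℕ → Letter d) (s r I : ℕ)
    (h0 : 0 ≤ incr (lin c) w (s * r * I) (s * r * (I + 1))) :
    2 * ∑ v ∈ Ico (r * I) (r * (I + 1)), npart (incr (lin c) w (s * v) (s * (v + 1))) ≤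
      E w s r I := by
  have h1 : 2 * ∑ v ∈ Ico (r * I) (r * (I + 1)), npart (incr (lin c) w (s * v) (s * (v + 1))) =
      ∑ v ∈ Ico (r * I) (r * (I + 1)), |incr (lin c) w (s * v) (s * (v + 1))| -
      |incr (lin c) w (s * r * I) (s * r * (I + 1))| := by
    have h := tele (lin c) w s (r * I) (r * (I + 1)) (Nat.mul_le_mul_left r (Nat.le_succ I))
    rw [← mul_assoc, ← mul_assoc] at h
    rw [abs_of_nonneg h0, ← h, Finset.mul_sum, ← Finset.sum_sub_distrib]
    exact Finset.sum_congr rfl fun v _ => two_npart _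
  rw [h1, E_eq]
  exact Finset.single_le_sum (f := fun f : Fin d → ℤ =>
    ∑ v ∈ Ico (r * I) (r * (I + 1)), |incr (lin f) w (s * v) (s * (v + 1))| -
      |incr (lin f) w (s * r * I) (s * r * (I + 1))|) (fun f _ => term_nonneg (lin f) w s r I) hc

lemma mem_Fam {c : Fin d → ℤ} (h : ∀ k, |c k| ≤ 9) : c ∈ Fam d := by
  rw [Fam, Fintype.mem_piFinset]
  intro k
  rw [Finset.mem_Icc]
  exact abs_le.1 (h k)

lemma abs_lco (τ : Ty d) (k : Fin d) : |lco τ k| ≤ 1 := by
  unfold lco
  split_ifs <;> simp [sg_sq]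

lemma abs_yco (τ : Ty d) (k : Fin d) : |yco τ k| ≤ 1 := by
  unfold yco
  split_ifs <;> simp [sg_sq]

lemma abs_single (j k : Fin d) : |(Pi.single j (1 : ℤ) : Fin d → ℤ) k| ≤ 1 := by
  by_cases h : k = j
  · subst h
    simp
  · simp [h]

lemma mem_comb {c c' : Fin d → ℤ} (hc : ∀ k, |c k| ≤ 1) (hc' : ∀ k, |c' k| ≤ 1) {α β : ℤ}
    (h : |α| + |β| ≤ 9) : (fun k => α * c k + β * c' k) ∈ Fam d := by
  refine mem_Fam fun k => ?_
  calc |α * c k + β * c' k| ≤ |α * c k| + |β * c' k| := abs_add_le _ _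
    _ = |α| * |c k| + |β| * |c' k| := by rw [abs_mul, abs_mul]
    _ ≤ |α| * 1 + |β| * 1 := add_le_add (mul_le_mul_of_nonneg_left (hc k) (abs_nonneg _))
        (mul_le_mul_of_nonneg_left (hc' k) (abs_nonneg _))
    _ ≤ 9 := by linarith

lemma term_comb (c c' : Fin d → ℤ) (hc : ∀ k, |c k| ≤ 1) (hc' : ∀ k, |c' k| ≤ 1) (α β : ℤ)
    (h : |α| + |β| ≤ 9) (w : ℕ → Letter d) (s r I : ℕ)
    (h0 : 0 ≤ α * incr (lin c) w (s * r * I) (s * r * (I + 1)) +
      β * incr (lin c') w (s * r * I) (s * r * (I + 1))) :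
    2 * ∑ v ∈ Ico (r * I) (r * (I + 1)), npart (α * incr (lin c) w (s * v) (s * (v + 1)) +
      β * incr (lin c') w (s * v) (s * (v + 1))) ≤ E w s r I := by
  have h1 := term_le (fun k => α * c k + β * c' k) (mem_comb hc hc' h) w s r I
    (by rw [incr_lin_comb]; exact h0)
  simp only [incr_lin_comb] at h1
  exact h1

end TF4

open TF4

/-- TASK F4 : comparison of the defect and of the cost of a block with `bvar` -/
theorem block_compare (hd : 2 ≤ d) (τ : Ty d) (w : ℕ → Letter d) (s r I : ℕ) (hs : 1 ≤ s)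
    (h1 : ∀ k, |incr (zc k) w (s * r * I) (s * r * (I + 1))| ≤
      2 * incr (lin (lco τ)) w (s * r * I) (s * r * (I + 1)))
    (h2 : incr (lin (lco τ)) w (s * r * I) (s * r * (I + 1)) ≤
      4 * incr (lin (yco τ)) w (s * r * I) (s * r * (I + 1)))
    (h3 : incr (lin (yco τ)) w (s * r * I) (s * r * (I + 1)) ≤
      4 * incr (lin (lco τ)) w (s * r * I) (s * r * (I + 1))) :
    dfc (sysOf τ) w s (r * I) (r * (I + 1)) ≤
      (d + 2) * (bvar w s (r * I) (r * (I + 1)) - bvar w (s * r) I (I + 1)) ∧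
    bvar w (s * r) I (I + 1) ≤ 2 * CF d * incr (lin (lco τ)) w (s * r * I) (s * r * (I + 1)) ∧
    (∀ D p q : ℕ, lvar (sysOf τ) w D p q ≤ bvar w D p q) := by
  have hl : 0 ≤ incr (lin (lco τ)) w (s * r * I) (s * r * (I + 1)) := by
    have := (abs_nonneg _).trans (h1 ⟨0, by omega⟩)
    linarith
  have hy : 0 ≤ incr (lin (yco τ)) w (s * r * I) (s * r * (I + 1)) := by linarith
  refine ⟨?_, ?_, ?_⟩
  · change dfc (sysOf τ) w s (r * I) (r * (I + 1)) ≤ (d + 2) * E w s r I
    have e1 := term_comb (lco τ) (lco τ) (abs_lco τ) (abs_lco τ) 1 0 (by norm_num) w s r I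
      (by linarith)
    have e2 := term_comb (yco τ) (yco τ) (abs_yco τ) (abs_yco τ) 1 0 (by norm_num) w s r I
      (by linarith)
    have e3 := term_comb (yco τ) (lco τ) (abs_yco τ) (abs_lco τ) 4 (-1) (by norm_num) w s r I
      (by linarith)
    have e4 := term_comb (lco τ) (yco τ) (abs_lco τ) (abs_yco τ) 4 (-1) (by norm_num) w s r I
      (by linarith)
    have e5 : ∀ k : Fin d, _ := fun k => term_comb (lco τ) (Pi.single k 1) (abs_lco τ)
      (abs_single k) 2 1 (by norm_num) w s r I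
      (by rw [lin_single]; have := abs_le.1 (h1 k); linarith [this.1])
    have e6 : ∀ k : Fin d, _ := fun k => term_comb (lco τ) (Pi.single k 1) (abs_lco τ)
      (abs_single k) 2 (-1) (by norm_num) w s r I
      (by rw [lin_single]; have := abs_le.1 (h1 k); linarith [this.2])
    simp only [lin_single, one_mul, zero_mul, add_zero, neg_mul, ← sub_eq_add_neg] at e1 e2 e3 e4 e5 e6
    have e7 := Finset.sum_le_sum (s := (univ : Finset (Fin d))) (fun k _ => e5 k)
    have e8 := Finset.sum_le_sum (s := (univ : Finset (Fin d))) (fun k _ => e6 k)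
    rw [Finset.sum_const, Finset.card_univ, Fintype.card_fin, ← Finset.mul_sum,
      Finset.sum_comm, nsmul_eq_mul] at e7 e8
    have e9 : dfc (sysOf τ) w s (r * I) (r * (I + 1)) =
        ∑ v ∈ Ico (r * I) (r * (I + 1)), npart (incr (lin (lco τ)) w (s * v) (s * (v + 1))) +
        ∑ v ∈ Ico (r * I) (r * (I + 1)), npart (incr (lin (yco τ)) w (s * v) (s * (v + 1))) +
        ∑ v ∈ Ico (r * I) (r * (I + 1)), npart (4 * incr (lin (yco τ)) w (s * v) (s * (v + 1)) -
          incr (lin (lco τ)) w (s * v) (s * (v + 1))) +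
        ∑ v ∈ Ico (r * I) (r * (I + 1)), npart (4 * incr (lin (lco τ)) w (s * v) (s * (v + 1)) -
          incr (lin (yco τ)) w (s * v) (s * (v + 1))) +
        (∑ v ∈ Ico (r * I) (r * (I + 1)), ∑ k, npart (2 * incr (lin (lco τ)) w (s * v) (s * (v + 1)) +
          incr (zc k) w (s * v) (s * (v + 1))) +
        ∑ v ∈ Ico (r * I) (r * (I + 1)), ∑ k, npart (2 * incr (lin (lco τ)) w (s * v) (s * (v + 1)) -
          incr (zc k) w (s * v) (s * (v + 1)))) := by
      simp only [← Finset.sum_add_distrib]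
      rfl
    rw [e9]
    linarith
  · rw [bvar, Nat.Ico_succ_singleton, Finset.sum_singleton]
    have h4 : ∀ f ∈ Fam d, |incr (lin f) w (s * r * I) (s * r * (I + 1))| ≤
        9 * d * (2 * incr (lin (lco τ)) w (s * r * I) (s * r * (I + 1))) := by
      intro f hf
      rw [Fam, Fintype.mem_piFinset] at hf
      rw [incr_lin_eq_sum f]
      refine (Finset.abs_sum_le_sum_abs _ _).trans ?_
      have h5 : ∀ k ∈ (univ : Finset (Fin d)), |f k * incr (zc k) w (s * r * I) (s * r * (I + 1))| ≤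
          9 * (2 * incr (lin (lco τ)) w (s * r * I) (s * r * (I + 1))) := by
        intro k _
        rw [abs_mul]
        have h6 : |f k| ≤ 9 := abs_le.2 (Finset.mem_Icc.1 (hf k))
        exact mul_le_mul h6 (h1 k) (abs_nonneg _) (by norm_num)
      refine (Finset.sum_le_sum h5).trans ?_
      rw [Finset.sum_const, Finset.card_univ, Fintype.card_fin, nsmul_eq_mul]
      apply le_of_eq
      ring
    refine (Finset.sum_le_sum h4).trans ?_
    rw [Finset.sum_const, nsmul_eq_mul, CF]
    push_cast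
    apply le_of_eq
    ring
  · intro D p q
    rw [lvar, bvar]
    refine Finset.sum_le_sum fun u _ => ?_
    exact Finset.single_le_sum (f := fun f : Fin d → ℤ => |incr (lin f) w (D * u) (D * (u + 1))|)
      (fun f _ => abs_nonneg _) (mem_Fam fun k => (abs_lco τ k).trans (by norm_num))

end Pool.Agent.H976R2.SB
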