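import Pool.Agent.H976R2.SB.F2
import Pool.Agent.H976R2.SB.F3
import Pool.Agent.H976R2.SB.F4

/-! Task F5 : selection of the blocks. -/

namespace Pool.Agent.H976R2.SB.TF5
open Finset Pool.Agent.H976R2.SB

variable {d : ℕ}

/-- consecutive blocks of length `r` -/
lemma sum_blocks (g : ℕ → ℤ) (r m : ℕ) :
    ∑ b ∈ range m, ∑ u ∈ Ico (r * b) (r * (b + 1)), g u = ∑ u ∈ Ico 0 (r * m), g u := by
  induction m with
  | zero => simp
  | succ m ih =>
    rw [Finset.sum_range_succ, ih]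
    exact Finset.sum_Ico_consecutive _ (Nat.zero_le _) (Nat.mul_le_mul_left _ (Nat.le_succ _))

lemma bvar_blocks (w : ℕ → Letter d) (D r m : ℕ) :
    ∑ b ∈ range m, bvar w D (r * b) (r * (b + 1)) = bvar w D 0 (r * m) := by
  unfold bvar
  exact sum_blocks _ r m

lemma bvar_nonneg (w : ℕ → Letter d) (D p q : ℕ) : 0 ≤ bvar w D p q :=
  Finset.sum_nonneg fun _ _ => Finset.sum_nonneg fun _ _ => abs_nonneg _

lemma bvar_mono (w : ℕ → Letter d) (D p : ℕ) {q q' : ℕ} (h : q ≤ q') :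
    bvar w D p q ≤ bvar w D p q' := by
  unfold bvar
  exact Finset.sum_le_sum_of_subset_of_nonneg (Finset.Ico_subset_Ico le_rfl h)
    fun _ _ _ => Finset.sum_nonneg fun _ _ => abs_nonneg _

lemma incr_lin_sum (c : Fin d → ℤ) (w : ℕ → Letter d) (a b : ℕ) :
    incr (lin c) w a b = ∑ m, c m * incr (zc m) w a b := by
  have h : ∀ t, ht (lin c) w t = ∑ m, c m * ht (zc m) w t := by
    intro t
    simp only [ht, lin]
    rw [Finset.sum_comm]
    refine Finset.sum_congr rfl fun m _ => ?_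
    rw [Finset.mul_sum]
  simp only [incr, h, mul_sub, Finset.sum_sub_distrib]

lemma card_Ty_le (d : ℕ) : Fintype.card (Ty d) ≤ 8 * d ^ 2 := by
  have h1 : Fintype.card (Ty d) =
      Fintype.card {p : Fin d × Fin d // p.1 ≠ p.2} * (2 * (2 * 2)) := by
    simp [Ty, Fintype.card_prod]
  have h2 : Fintype.card {p : Fin d × Fin d // p.1 ≠ p.2} ≤ d ^ 2 := by
    refine (Fintype.card_subtype_le _).trans ?_
    simp [Fintype.card_prod, sq]
  rw [h1]
  nlinarith

/-- number of dyadic scales in `(D/K, D]` -/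
lemma card_scales (D : ℕ) (K : ℝ) (hK : 0 ≤ K) (A : Finset ℕ)
    (hA : ∀ a ∈ A, (D : ℝ) ≤ K * 2 ^ a ∧ 2 ^ a ≤ D) : (#A : ℝ) ≤ K := by
  by_cases hne : A.Nonempty
  · have hm := A.min'_mem hne
    have hM := A.max'_mem hne
    set m := A.min' hne with hmdef
    set M := A.max' hne with hMdef
    have hmM : m ≤ M := A.min'_le _ hM
    have hsub : A ⊆ Icc m M := by
      intro a ha
      rw [Finset.mem_Icc]
      exact ⟨A.min'_le _ ha, A.le_max' _ ha⟩
    have hc : #A ≤ M - m + 1 := by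
      have := Finset.card_le_card hsub
      rw [Nat.card_Icc] at this
      omega
    have h2 : M - m + 1 ≤ 2 ^ (M - m) := Nat.lt_two_pow_self
    have h3 : (#A : ℝ) ≤ 2 ^ (M - m) := by exact_mod_cast hc.trans h2
    have h4 : (2 : ℝ) ^ M = 2 ^ (M - m) * 2 ^ m := by
      rw [← pow_add]; congr 1; omega
    have h5 : (2 : ℝ) ^ M ≤ D := by exact_mod_cast (hA M hM).2
    have h6 := (hA m hm).1
    have h7 : (2 : ℝ) ^ (M - m) * 2 ^ m ≤ K * 2 ^ m := by
      rw [← h4]; exact h5.trans h6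
    have h8 : (2 : ℝ) ^ (M - m) ≤ K := le_of_mul_le_mul_right h7 (by positivity)
    exact h3.trans h8
  · rw [Finset.not_nonempty_iff_eq_empty] at hne
    simp [hne, hK]

lemma CF_pos (hd : 2 ≤ d) : 0 < CF d := by
  unfold CF
  have h : (Fam d).Nonempty := by
    refine ⟨fun _ => 0, ?_⟩
    unfold Fam
    rw [Fintype.mem_piFinset]
    intro a
    simp
  have h2 := Finset.card_pos.2 h
  positivity

lemma bvar_one (w : ℕ → Letter d) (D b : ℕ) :
    bvar w D b (b + 1) = ∑ f ∈ Fam d, |incr (lin f) w (D * b) (D * (b + 1))| := by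
  unfold bvar
  rw [Nat.Ico_succ_singleton, Finset.sum_singleton]

end Pool.Agent.H976R2.SB.TF5

namespace Pool.Agent.H976R2.SB
open Finset

variable {d : ℕ}

open TF5 in
open Classical in
/-- TASK F5 : selection of the blocks (uses F2, F3, F4) -/
theorem select (hd : 2 ≤ d) {n D s r i : ℕ} {Sc : ℕ → ℕ} {w : ℕ → Letter d} (hD : D = s * r)
    (hs : 1 ≤ s) (hr : 1 ≤ r) (hDn : D ≤ n) (hSc : ∀ j ≤ i, 1 ≤ Sc j ∧ Sc j ∣ D)
    (Φ δ B0 : ℝ) (hΦ : 1 ≤ Φ) (hδ : 0 < δ) (hB0 : 0 < B0)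
    (h1 : (n : ℝ) ≤ 2 * Φ * ((bvar w D 0 (n / D) : ℤ) : ℝ))
    (h2 : ((bvar w s 0 (n / s) : ℤ) : ℝ) ≤ (1 + δ) * ((bvar w D 0 (n / D) : ℤ) : ℝ))
    (h3 : bigCost Sc i w (fun _ => 0) (fun j => n / Sc j) ≤
      B0 * ((bvar w D 0 (n / D) : ℤ) : ℝ)) :
    ∃ τ : Ty d, ∃ a : ℕ, ∃ I : Finset ℕ, I ⊆ range (n / D) ∧
      (D : ℝ) ≤ 32 * Φ * CF d * 2 ^ a ∧ 2 ^ a ≤ D ∧
      (n : ℝ) ≤ #I * 2 ^ a * (8192 * (CF d) ^ 2 * d ^ 2 * Φ ^ 2) ∧
      ∀ b ∈ I, (2 : ℤ) ^ a ≤ incr (sysOf τ).l w (D * b) (D * (b + 1)) ∧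
        incr (sysOf τ).l w (D * b) (D * (b + 1)) < 2 ^ (a + 1) ∧
        ((dfc (sysOf τ) w s (r * b) (r * (b + 1)) : ℤ) : ℝ) ≤ 16 * (d + 2) * CF d * δ * 2 ^ a ∧
        multiCost (sysOf τ) Sc i w (D * b) (D * (b + 1)) ≤ 16 * CF d * B0 * 2 ^ a := by
  have hDpos : 0 < D := by rw [hD]; positivity
  obtain ⟨f1, -, -⟩ := bvar_facts w
  have hnb1 : 1 ≤ n / D := Nat.div_pos hDn hDpos
  generalize hnb : n / D = nb at *
  have hnbD : nb * D ≤ n := by rw [← hnb]; exact Nat.div_mul_le_self n D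
  set V : ℝ := ((bvar w D 0 nb : ℤ) : ℝ) with hV
  have hnpos : (0 : ℝ) < n := by exact_mod_cast lt_of_lt_of_le hDpos hDn
  have hVpos : 0 < V := by
    by_contra hc
    push Not at hc
    have : 2 * Φ * V ≤ 0 := mul_nonpos_of_nonneg_of_nonpos (by linarith) hc
    linarith
  have hnbR : (0 : ℝ) < nb := by exact_mod_cast hnb1
  have hCF : (0 : ℝ) < CF d := by exact_mod_cast CF_pos hd
  have hdR : (0 : ℝ) < d := by
    have : (2 : ℝ) ≤ d := by exact_mod_cast hd
    linarith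
  -- the three sequences
  set N : ℕ → ℝ := fun b => ((bvar w D b (b + 1) : ℤ) : ℝ) with hN
  have hN0 : ∀ b, 0 ≤ N b := fun b => Int.cast_nonneg (bvar_nonneg w D b (b + 1))
  have hNsum : ∑ b ∈ range nb, N b = V := by
    have := bvar_blocks w D 1 nb
    simp only [one_mul] at this
    rw [hV, ← this]
    push_cast
    rfl
  set E : ℕ → ℝ := fun b => ((bvar w s (r * b) (r * (b + 1)) : ℤ) : ℝ) - N b with hE
  have hE0 : ∀ b, 0 ≤ E b := by
    intro b
    have := f1 s r b (b + 1)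
    rw [← hD] at this
    have h' : N b ≤ ((bvar w s (r * b) (r * (b + 1)) : ℤ) : ℝ) := Int.cast_le.2 this
    simp only [hE]
    linarith
  have hEsum : ∑ b ∈ range nb, E b ≤ δ * V := by
    have e1 : ∑ b ∈ range nb, E b = ((bvar w s 0 (r * nb) : ℤ) : ℝ) - V := by
      rw [← bvar_blocks w s r nb, ← hNsum]
      push_cast
      simp only [hE, Finset.sum_sub_distrib]
    have e2 : r * nb ≤ n / s := by
      rw [Nat.le_div_iff_mul_le (by omega), ]
      calc r * nb * s = nb * D := by rw [hD]; ring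
        _ ≤ n := hnbD
    have e3 : ((bvar w s 0 (r * nb) : ℤ) : ℝ) ≤ ((bvar w s 0 (n / s) : ℤ) : ℝ) := by
      exact_mod_cast bvar_mono w s 0 e2
    rw [e1]
    linarith
  set Cst : ℕ → ℝ := fun b => ∑ j ∈ range (i + 1), Real.log (4 * (Sc (j + 1) : ℝ) + 1) *
    ((bvar w (Sc j) (D * b / Sc j) (D * (b + 1) / Sc j) : ℤ) : ℝ) with hCst
  have hlog : ∀ j, 0 ≤ Real.log (4 * (Sc (j + 1) : ℝ) + 1) := by
    intro j
    apply Real.log_nonneg
    have : (0 : ℝ) ≤ Sc (j + 1) := Nat.cast_nonneg _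
    linarith
  have hC0 : ∀ b, 0 ≤ Cst b := by
    intro b
    refine Finset.sum_nonneg fun j _ => mul_nonneg (hlog j) ?_
    exact_mod_cast bvar_nonneg w (Sc j) _ _
  have hCsum : ∑ b ∈ range nb, Cst b ≤ B0 * V := by
    refine le_trans ?_ h3
    rw [hCst, Finset.sum_comm]
    unfold bigCost
    refine Finset.sum_le_sum fun j hj => ?_
    rw [← Finset.mul_sum]
    refine mul_le_mul_of_nonneg_left ?_ (hlog j)
    obtain ⟨hS1, q, hq⟩ := hSc j (by rw [Finset.mem_range] at hj; omega)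
    have e1 : ∀ b, D * b / Sc j = q * b := by
      intro b
      rw [hq, mul_assoc, Nat.mul_div_cancel_left _ (by omega)]
    have e2 : ∑ b ∈ range nb, ((bvar w (Sc j) (D * b / Sc j) (D * (b + 1) / Sc j) : ℤ) : ℝ) =
        ((bvar w (Sc j) 0 (q * nb) : ℤ) : ℝ) := by
      rw [← bvar_blocks w (Sc j) q nb]
      push_cast
      refine Finset.sum_congr rfl fun b _ => ?_
      rw [e1, e1]
    rw [e2]
    have e3 : q * nb ≤ n / Sc j := by
      rw [Nat.le_div_iff_mul_le (by omega)]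
      calc q * nb * Sc j = nb * D := by rw [hq]; ring
        _ ≤ n := hnbD
    exact_mod_cast bvar_mono w (Sc j) 0 e3
  -- the good blocks
  set I0 : Finset ℕ := (range nb).filter (fun b => V / (4 * nb) ≤ N b ∧ E b ≤ 4 * δ * N b ∧
    Cst b ≤ 4 * B0 * N b) with hI0
  have hI0sum : V / 4 ≤ ∑ b ∈ I0, N b := by
    have e1 : ∀ b ∈ range nb, N b ≤ (if V / (4 * nb) ≤ N b ∧ E b ≤ 4 * δ * N b ∧
        Cst b ≤ 4 * B0 * N b then N b else 0) + (V / (4 * nb) + E b / (4 * δ) +
          Cst b / (4 * B0)) := by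
      intro b _
      have p1 : 0 ≤ V / (4 * nb) := by positivity
      have p2 : 0 ≤ E b / (4 * δ) := div_nonneg (hE0 b) (by positivity)
      have p3 : 0 ≤ Cst b / (4 * B0) := div_nonneg (hC0 b) (by positivity)
      split_ifs with hc
      · linarith
      · by_cases c1 : V / (4 * nb) ≤ N b
        · by_cases c2 : E b ≤ 4 * δ * N b
          · have c3 : 4 * B0 * N b < Cst b := by
              by_contra hcc
              exact hc ⟨c1, c2, not_lt.1 hcc⟩
            have : N b ≤ Cst b / (4 * B0) := by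
              rw [le_div_iff₀ (by positivity)]
              linarith
            linarith
          · push Not at c2
            have : N b ≤ E b / (4 * δ) := by
              rw [le_div_iff₀ (by positivity)]
              linarith
            linarith
        · push Not at c1
          linarith
    have e2 := Finset.sum_le_sum e1
    rw [hNsum, Finset.sum_add_distrib, Finset.sum_add_distrib, Finset.sum_add_distrib,
      ← Finset.sum_filter, Finset.sum_const,
      Finset.card_range, nsmul_eq_mul] at e2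
    rw [← Finset.sum_div, ← Finset.sum_div] at e2
    have e3 : (nb : ℝ) * (V / (4 * nb)) = V / 4 := by field_simp
    have e4 : (∑ b ∈ range nb, E b) / (4 * δ) ≤ V / 4 := by
      rw [div_le_iff₀ (by positivity)]
      nlinarith
    have e5 : (∑ b ∈ range nb, Cst b) / (4 * B0) ≤ V / 4 := by
      rw [div_le_iff₀ (by positivity)]
      nlinarith
    rw [hI0]
    linarith
  -- types and scales of the good blocks
  have hgood : ∀ b ∈ I0, ∃ c : Ty d × ℕ,
      (N b ≤ 4 * CF d * 2 ^ c.2) ∧ ((D : ℝ) ≤ 32 * Φ * CF d * 2 ^ c.2 ∧ 2 ^ c.2 ≤ D) ∧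
      (2 : ℤ) ^ c.2 ≤ incr (sysOf c.1).l w (D * b) (D * (b + 1)) ∧
        incr (sysOf c.1).l w (D * b) (D * (b + 1)) < 2 ^ (c.2 + 1) ∧
        ((dfc (sysOf c.1) w s (r * b) (r * (b + 1)) : ℤ) : ℝ) ≤ (d + 2) * E b ∧
        multiCost (sysOf c.1) Sc i w (D * b) (D * (b + 1)) ≤ Cst b := by
    intro b hb
    rw [hI0, Finset.mem_filter] at hb
    obtain ⟨hbn, c1, c2, c3⟩ := hb
    have hNb : 0 < N b := lt_of_lt_of_le (by positivity) c1
    have hv : (fun k => incr (zc k) w (D * b) (D * (b + 1))) ≠ 0 := by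
      intro h0
      have h0' : ∀ k, incr (zc k) w (D * b) (D * (b + 1)) = 0 := fun k => congrFun h0 k
      have : bvar w D b (b + 1) = 0 := by
        rw [bvar_one]
        refine Finset.sum_eq_zero fun f _ => ?_
        rw [incr_lin_sum]
        simp [h0']
      simp only [hN, this] at hNb
      simp at hNb
    obtain ⟨τ, t1, t2, t3, t4⟩ := exists_type hd _ hv
    rw [← incr_lin_sum] at t2 t3 t4
    rw [← incr_lin_sum] at t3 t4
    have t1' : ∀ k, |incr (zc k) w (D * b) (D * (b + 1))| ≤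
        2 * incr (lin (lco τ)) w (D * b) (D * (b + 1)) := by
      intro k
      rw [incr_lin_sum (lco τ)]
      exact t1 k
    obtain ⟨g1, g2, g3⟩ := block_compare hd τ w s r b hs (by rw [← hD]; exact t1')
      (by rw [← hD]; exact t3) (by rw [← hD]; exact t4)
    rw [← hD] at g1 g2
    set L : ℤ := incr (lin (lco τ)) w (D * b) (D * (b + 1)) with hL
    have hLD : L ≤ D := by
      have := abs_incr_le (sysOf τ).l_le w (a := D * b) (b := D * (b + 1))
        (Nat.mul_le_mul_left _ (Nat.le_succ _))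
      have h' : L ≤ |L| := le_abs_self _
      have h'' : |L| ≤ ((D * (b + 1) : ℕ) : ℤ) - ((D * b : ℕ) : ℤ) := this
      push_cast at h''
      linarith
    obtain ⟨l, hl⟩ := Int.eq_ofNat_of_zero_le (by linarith : 0 ≤ L)
    have hl0 : l ≠ 0 := by
      rintro rfl
      rw [hl] at t2
      norm_num at t2
    have a1 : 2 ^ Nat.log 2 l ≤ l := Nat.pow_log_le_self 2 hl0
    have a2 : l < 2 ^ (Nat.log 2 l + 1) := Nat.lt_pow_succ_log_self (by norm_num) l
    have a1' : (2 : ℤ) ^ Nat.log 2 l ≤ L := by rw [hl]; exact_mod_cast a1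
    have a2' : L < (2 : ℤ) ^ (Nat.log 2 l + 1) := by rw [hl]; exact_mod_cast a2
    have a3 : (L : ℝ) < 2 * 2 ^ Nat.log 2 l := by
      have : (L : ℝ) < 2 ^ (Nat.log 2 l + 1) := by exact_mod_cast a2'
      rw [pow_succ] at this
      linarith
    have g2' : N b ≤ 2 * CF d * L := by
      have : ((bvar w D b (b + 1) : ℤ) : ℝ) ≤ ((2 * CF d * L : ℤ) : ℝ) := by exact_mod_cast g2
      push_cast at this
      exact this
    have hNb4 : N b ≤ 4 * CF d * 2 ^ Nat.log 2 l := by
      have : 2 * (CF d : ℝ) * L ≤ 2 * CF d * (2 * 2 ^ Nat.log 2 l) :=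
        mul_le_mul_of_nonneg_left a3.le (by positivity)
      linarith
    refine ⟨(τ, Nat.log 2 l), hNb4, ⟨?_, ?_⟩, a1', a2', ?_, ?_⟩
    · have e1 : (D : ℝ) / (8 * Φ) ≤ V / (4 * nb) := by
        rw [div_le_div_iff₀ (by positivity) (by positivity)]
        have : (nb : ℝ) * D ≤ n := by exact_mod_cast hnbD
        nlinarith
      have e2 : (D : ℝ) / (8 * Φ) ≤ 4 * CF d * 2 ^ Nat.log 2 l := e1.trans (c1.trans hNb4)
      rw [div_le_iff₀ (by positivity)] at e2
      linarith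
    · have : ((2 ^ Nat.log 2 l : ℕ) : ℤ) ≤ D := by
        push_cast
        exact a1'.trans hLD
      exact_mod_cast this
    · have : ((dfc (sysOf τ) w s (r * b) (r * (b + 1)) : ℤ) : ℝ) ≤
        (((d + 2) * (bvar w s (r * b) (r * (b + 1)) - bvar w D b (b + 1)) : ℤ) : ℝ) := by
        exact_mod_cast g1
      push_cast at this
      exact this
    · unfold multiCost
      simp only [hCst]
      refine Finset.sum_le_sum fun j _ => mul_le_mul_of_nonneg_left ?_ (hlog j)
      exact_mod_cast g3 _ _ _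
  have hTyne : Nonempty (Ty d) :=
    ⟨(⟨(⟨0, by omega⟩, ⟨1, by omega⟩), by simp⟩, true, true, true)⟩
  choose! cls hcls using hgood
  have hI0ne : I0.Nonempty := by
    rw [Finset.nonempty_iff_ne_empty]
    intro h0
    rw [h0, Finset.sum_empty] at hI0sum
    linarith
  set Asc : Finset ℕ := I0.image (fun b => (cls b).2) with hAsc
  set K : ℝ := 32 * Φ * CF d with hK
  have hKpos : 0 < K := by positivity
  have hAcard : (#Asc : ℝ) ≤ K := by
    refine card_scales D K hKpos.le Asc ?_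
    intro a ha
    rw [hAsc, Finset.mem_image] at ha
    obtain ⟨b, hb, rfl⟩ := ha
    exact (hcls b hb).2.1
  have hmaps : ∀ b ∈ I0, cls b ∈ (univ : Finset (Ty d)) ×ˢ Asc := by
    intro b hb
    rw [Finset.mem_product]
    exact ⟨Finset.mem_univ _, Finset.mem_image_of_mem _ hb⟩
  have hne : ((univ : Finset (Ty d)) ×ˢ Asc).Nonempty := by
    obtain ⟨b, hb⟩ := hI0ne
    exact ⟨_, hmaps b hb⟩
  have hcard : ((#((univ : Finset (Ty d)) ×ˢ Asc) : ℕ) : ℝ) ≤ 8 * d ^ 2 * K := by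
    rw [Finset.card_product, Finset.card_univ]
    push_cast
    have h' : (Fintype.card (Ty d) : ℝ) ≤ 8 * d ^ 2 := by exact_mod_cast card_Ty_le d
    exact mul_le_mul h' hAcard (Nat.cast_nonneg _) (by positivity)
  obtain ⟨c, hc, hcsum⟩ : ∃ c ∈ (univ : Finset (Ty d)) ×ˢ Asc,
      V / (32 * d ^ 2 * K) ≤ ∑ b ∈ I0 with cls b = c, N b := by
    refine Finset.exists_le_of_sum_le hne ?_
    rw [Finset.sum_fiberwise_of_maps_to hmaps, Finset.sum_const, nsmul_eq_mul]
    refine le_trans ?_ hI0sum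
    calc ((#((univ : Finset (Ty d)) ×ˢ Asc) : ℕ) : ℝ) * (V / (32 * d ^ 2 * K)) ≤
        (8 * d ^ 2 * K) * (V / (32 * d ^ 2 * K)) :=
          mul_le_mul_of_nonneg_right hcard (by positivity)
      _ = V / 4 := by field_simp; norm_num
  rw [Finset.mem_product] at hc
  obtain ⟨b0, hb0, hb0c⟩ : ∃ b ∈ I0, (cls b).2 = c.2 := by
    have := hc.2
    rw [hAsc, Finset.mem_image] at this
    exact this
  have hc2 := (hcls b0 hb0).2.1
  rw [hb0c] at hc2
  refine ⟨c.1, c.2, I0.filter (fun b => cls b = c), ?_, hc2.1, hc2.2, ?_, ?_⟩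
  · intro b hb
    rw [Finset.mem_filter, hI0, Finset.mem_filter] at hb
    exact hb.1.1
  · have e1 : ∑ b ∈ I0 with cls b = c, N b ≤
        #(I0.filter (fun b => cls b = c)) * (4 * CF d * 2 ^ c.2) := by
      rw [← nsmul_eq_mul, ← Finset.sum_const]
      refine Finset.sum_le_sum fun b hb => ?_
      rw [Finset.mem_filter] at hb
      have := (hcls b hb.1).1
      rw [hb.2] at this
      exact this
    have e2 : V ≤ #(I0.filter (fun b => cls b = c)) * (4 * CF d * 2 ^ c.2) *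
        (32 * d ^ 2 * K) := by
      have := hcsum.trans e1
      rwa [div_le_iff₀ (by positivity)] at this
    calc (n : ℝ) ≤ 2 * Φ * V := h1
      _ ≤ 2 * Φ * (#(I0.filter (fun b => cls b = c)) * (4 * CF d * 2 ^ c.2) *
        (32 * d ^ 2 * K)) := mul_le_mul_of_nonneg_left e2 (by positivity)
      _ = _ := by rw [hK]; ring
  · intro b hb
    rw [Finset.mem_filter] at hb
    obtain ⟨hbI, rfl⟩ := hb
    obtain ⟨q1, -, q3, q4, q5, q6⟩ := hcls b hbI
    rw [hI0, Finset.mem_filter] at hbI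
    obtain ⟨-, -, c2, c3⟩ := hbI
    refine ⟨q3, q4, ?_, ?_⟩
    · refine q5.trans ?_
      calc ((d : ℝ) + 2) * E b ≤ (d + 2) * (4 * δ * (4 * CF d * 2 ^ (cls b).2)) := by
            refine mul_le_mul_of_nonneg_left (c2.trans ?_) (by positivity)
            exact mul_le_mul_of_nonneg_left q1 (by positivity)
        _ = _ := by ring
    · refine q6.trans ?_
      calc Cst b ≤ 4 * B0 * N b := c3
        _ ≤ 4 * B0 * (4 * CF d * 2 ^ (cls b).2) :=
            mul_le_mul_of_nonneg_left q1 (by positivity)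
        _ = _ := by ring

end Pool.Agent.H976R2.SB
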