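import Pool.Agent.H976R2.SB.Basic

/-! The concrete systems on `ℤ^d`. -/

namespace Pool.Agent.H976R2.SB
open Finset

/-- letters: unit steps `± e_k` -/
abbrev Letter (d : ℕ) := Fin d × Bool

variable {d : ℕ}

/-- coordinate `k` of a letter -/
def zc (k : Fin d) (a : Letter d) : ℤ := if a.1 = k then (if a.2 then 1 else -1) else 0

/-- linear functional with coefficients `c` -/
def lin (c : Fin d → ℤ) (a : Letter d) : ℤ := ∑ k, c k * zc k a

/-- types: an ordered pair of distinct directions, a kind and two signs -/
abbrev Ty (d : ℕ) := {p : Fin d × Fin d // p.1 ≠ p.2} × Bool × Bool × Bool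

def sg (b : Bool) : ℤ := if b then 1 else -1

/-- coefficients of the height functional of a type -/
def lco (τ : Ty d) : Fin d → ℤ := fun k =>
  if τ.2.1 then (if k = τ.1.1.1 then sg τ.2.2.1 else 0)
  else (if k = τ.1.1.1 ∨ k = τ.1.1.2 then sg τ.2.2.1 else 0)

/-- coefficients of the transversal functional of a type -/
def yco (τ : Ty d) : Fin d → ℤ := fun k =>
  if τ.2.1 then (if k = τ.1.1.2 then sg τ.2.2.2 else 0)
  else (if k = τ.1.1.1 then sg τ.2.2.2 else if k = τ.1.1.2 then - sg τ.2.2.2 else 0)

/-- the letter map reversing the height -/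
def Umap (τ : Ty d) (a : Letter d) : Letter d :=
  if τ.2.1 then (if a.1 = τ.1.1.1 then (a.1, !a.2) else a)
  else (if a.1 = τ.1.1.1 then (τ.1.1.2, !a.2) else if a.1 = τ.1.1.2 then (τ.1.1.1, !a.2) else a)

/-- the letter map preserving the height and reversing the transversal functional -/
def Rmap (τ : Ty d) (a : Letter d) : Letter d :=
  if τ.2.1 then (if a.1 = τ.1.1.2 then (a.1, !a.2) else a)
  else (if a.1 = τ.1.1.1 then (τ.1.1.2, a.2) else if a.1 = τ.1.1.2 then (τ.1.1.1, a.2) else a)

lemma sg_sq (b : Bool) : |sg b| = 1 := by cases b <;> simp [sg]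
lemma sg_not (b : Bool) : sg (!b) = - sg b := by cases b <;> simp [sg]

lemma zc_eq (k : Fin d) (a : Letter d) : zc k a = if a.1 = k then sg a.2 else 0 := rfl

lemma lin_eq (c : Fin d → ℤ) (a : Letter d) : lin c a = c a.1 * sg a.2 := by
  unfold lin
  simp only [zc_eq]
  rw [Finset.sum_eq_single a.1]
  · simp
  · intro b _ hb
    simp [Ne.symm hb]
  · simp

/-- the system of a type -/
def sysOf (τ : Ty d) : Sys (Letter d) d where
  z := zc
  l := lin (lco τ)
  y := lin (yco τ)
  U := Umap τ
  R := Rmap τ
  z_le := by
    intro k a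
    rw [zc_eq]
    split_ifs
    · exact (sg_sq _).le
    · simp
  l_le := by
    intro a
    rw [lin_eq, abs_mul, sg_sq, mul_one]
    unfold lco
    split_ifs <;> simp [sg_sq]
  y_le := by
    intro a
    rw [lin_eq, abs_mul, sg_sq, mul_one]
    unfold yco
    split_ifs <;> simp [sg_sq]
  l_lin := by
    obtain ⟨⟨⟨i, j⟩, hij⟩, kind, e, s⟩ := τ
    refine ⟨i, j, sg e, if kind then 0 else sg e, by simp [sg_sq], by split_ifs <;> simp [sg_sq],
      fun a => ?_⟩
    simp only at hij
    rw [lin_eq, zc_eq, zc_eq]
    obtain ⟨k, b⟩ := a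
    cases kind
    · simp only [lco, Bool.false_eq_true, if_false]
      by_cases h1 : k = i
      · subst h1
        simp [hij]
      · by_cases h2 : k = j
        · subst h2
          simp [h1]
        · simp [h1, h2]
    · simp only [lco, if_true]
      by_cases h1 : k = i
      · subst h1; simp
      · simp [h1]
  U_U := by
    obtain ⟨⟨⟨i, j⟩, hij⟩, kind, e, s⟩ := τ
    rintro ⟨k, b⟩
    simp only at hij
    cases kind
    · simp only [Umap, Bool.false_eq_true, if_false]
      by_cases h1 : k = i
      · subst h1
        simp [Ne.symm hij]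
      · by_cases h2 : k = j
        · subst h2; simp [h1]
        · simp [h1, h2]
    · simp only [Umap, if_true]
      by_cases h1 : k = i
      · subst h1; simp
      · simp [h1]
  R_R := by
    obtain ⟨⟨⟨i, j⟩, hij⟩, kind, e, s⟩ := τ
    rintro ⟨k, b⟩
    simp only at hij
    cases kind
    · simp only [Rmap, Bool.false_eq_true, if_false]
      by_cases h1 : k = i
      · subst h1
        simp [Ne.symm hij]
      · by_cases h2 : k = j
        · subst h2; simp [h1]
        · simp [h1, h2]
    · simp only [Rmap, if_true]
      by_cases h1 : k = j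
      · subst h1; simp
      · simp [h1]
  l_U := by
    obtain ⟨⟨⟨i, j⟩, hij⟩, kind, e, s⟩ := τ
    rintro ⟨k, b⟩
    simp only at hij
    rw [lin_eq, lin_eq]
    cases kind
    · simp only [Umap, lco, Bool.false_eq_true, if_false]
      by_cases h1 : k = i
      · subst h1
        simp [sg_not]
      · by_cases h2 : k = j
        · subst h2; simp [h1, sg_not]
        · simp [h1, h2]
    · simp only [Umap, lco, if_true]
      by_cases h1 : k = i
      · subst h1; simp [sg_not]
      · simp [h1]
  l_R := by
    obtain ⟨⟨⟨i, j⟩, hij⟩, kind, e, s⟩ := τ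
    rintro ⟨k, b⟩
    simp only at hij
    rw [lin_eq, lin_eq]
    cases kind
    · simp only [Rmap, lco, Bool.false_eq_true, if_false]
      by_cases h1 : k = i
      · subst h1
        simp
      · by_cases h2 : k = j
        · subst h2; simp [h1]
        · simp [h1, h2]
    · simp only [Rmap, lco, if_true]
      by_cases h1 : k = j
      · subst h1; simp [Ne.symm hij]
      · simp [h1]
  y_R := by
    obtain ⟨⟨⟨i, j⟩, hij⟩, kind, e, s⟩ := τ
    rintro ⟨k, b⟩
    simp only at hij
    rw [lin_eq, lin_eq]
    cases kind
    · simp only [Rmap, yco, Bool.false_eq_true, if_false]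
      by_cases h1 : k = i
      · subst h1
        simp [Ne.symm hij]
      · by_cases h2 : k = j
        · subst h2; simp [h1]
        · simp [h1, h2]
    · simp only [Rmap, yco, if_true]
      by_cases h1 : k = j
      · subst h1; simp [sg_not]
      · simp [h1]
  U_lin := by
    obtain ⟨⟨⟨i, j⟩, hij⟩, kind, e, s⟩ := τ
    simp only at hij
    intro k
    cases kind
    · refine ⟨if k = i then j else if k = j then i else k, if k = i ∨ k = j then -1 else 1, ?_⟩
      rintro ⟨k0, b⟩
      simp only [Umap, Bool.false_eq_true, if_false]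
      rw [zc_eq, zc_eq]
      by_cases h1 : k = i
      · subst h1
        by_cases h2 : k0 = k
        · subst h2; simp [Ne.symm hij, hij]
        · by_cases h3 : k0 = j
          · subst h3; simp [h2, sg_not]
          · simp [h2, h3]
      · by_cases h4 : k = j
        · subst h4
          by_cases h2 : k0 = i
          · subst h2; simp [Ne.symm hij, sg_not]
          · by_cases h3 : k0 = k
            · subst h3; simp [h2, Ne.symm h2]
            · simp [h1, h2, h3]
        · by_cases h2 : k0 = i
          · subst h2; simp [Ne.symm h1, Ne.symm h4, h1, h4]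
          · by_cases h3 : k0 = j
            · subst h3; simp [h1, h4, h2, Ne.symm h1, Ne.symm h4]
            · simp [h1, h4, h2, h3]
    · refine ⟨k, if k = i then -1 else 1, ?_⟩
      rintro ⟨k0, b⟩
      simp only [Umap, if_true]
      rw [zc_eq, zc_eq]
      by_cases h1 : k = i
      · subst h1
        by_cases h2 : k0 = k
        · subst h2; simp [sg_not]
        · simp [h2]
      · by_cases h2 : k0 = i
        · subst h2; simp [h1, Ne.symm h1]
        · simp [h1, h2]
  R_lin := by
    obtain ⟨⟨⟨i, j⟩, hij⟩, kind, e, s⟩ := τ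
    simp only at hij
    intro k
    cases kind
    · refine ⟨if k = i then j else if k = j then i else k, 1, ?_⟩
      rintro ⟨k0, b⟩
      simp only [Rmap, Bool.false_eq_true, if_false]
      rw [zc_eq, zc_eq]
      by_cases h1 : k = i
      · subst h1
        by_cases h2 : k0 = k
        · subst h2; simp [Ne.symm hij, hij]
        · by_cases h3 : k0 = j
          · subst h3; simp [h2]
          · simp [h2, h3]
      · by_cases h4 : k = j
        · subst h4
          by_cases h2 : k0 = i
          · subst h2; simp [Ne.symm hij]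
          · by_cases h3 : k0 = k
            · subst h3; simp [h2, Ne.symm h2]
            · simp [h1, h2, h3]
        · by_cases h2 : k0 = i
          · subst h2; simp [Ne.symm h1, Ne.symm h4, h1, h4]
          · by_cases h3 : k0 = j
            · subst h3; simp [h1, h4, h2, Ne.symm h1, Ne.symm h4]
            · simp [h1, h4, h2, h3]
    · refine ⟨k, if k = j then -1 else 1, ?_⟩
      rintro ⟨k0, b⟩
      simp only [Rmap, if_true]
      rw [zc_eq, zc_eq]
      by_cases h1 : k = j
      · subst h1
        by_cases h2 : k0 = k
        · subst h2; simp [sg_not]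
        · simp [h2]
      · by_cases h2 : k0 = j
        · subst h2; simp [h1, Ne.symm h1]
        · simp [h1, h2]

/-- a finite family of functionals containing all the ones used by the types -/
noncomputable def Fam (d : ℕ) : Finset (Fin d → ℤ) := Fintype.piFinset (fun _ => Finset.Icc (-9 : ℤ) 9)

/-- variation of the walk at scale `D` over the grid cells `u ∈ [p,q)`, all functionals together -/
noncomputable def bvar (w : ℕ → Letter d) (D p q : ℕ) : ℤ :=
  ∑ u ∈ Ico p q, ∑ f ∈ Fam d, |incr (lin f) w (D * u) (D * (u + 1))|

/-- `∑_{j ≤ i} log(4 Sc_{j+1} + 1) * bvar` -/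
noncomputable def bigCost (Sc : ℕ → ℕ) (i : ℕ) (w : ℕ → Letter d) (p q : ℕ → ℕ) : ℝ :=
  ∑ j ∈ range (i + 1), Real.log (4 * (Sc (j + 1) : ℝ) + 1) *
    (bvar w (Sc j) (p j) (q j) : ℝ)

/-- the norm constant -/
noncomputable def CF (d : ℕ) : ℕ := 9 * d * #(Fam d)

end Pool.Agent.H976R2.SB
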