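import Pool.Agent.H976R2.SB.Count
import Pool.Agent.H976R2.SB.Types

/-! Choice of the parameters at one scale. -/

namespace Pool.Agent.H976R2.SB
open Finset

namespace Num

/-- exponent constants -/
noncomputable def c6 (d : ℕ) : ℕ := 768000 * CF d
noncomputable def bb (d : ℕ) : ℕ := 2 * c6 d + 2 * d + 20
noncomputable def AA (d : ℕ) : ℕ := 4 * bb d ^ 2

/-- scales -/
noncomputable def Sc (d m k : ℕ) : ℕ := if k = 0 then 1 else m ^ (AA d ^ k)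

lemma c6_def (d : ℕ) : c6 d = 768000 * CF d := rfl
lemma bb_def (d : ℕ) : 2 * c6 d + 2 * d + 20 = bb d := rfl
lemma AA_def (d : ℕ) : AA d = 4 * bb d ^ 2 := rfl

attribute [irreducible] c6 bb AA

lemma bb_pos (d : ℕ) : 20 ≤ bb d := by rw [← bb_def]; omega

lemma AA_ge (d : ℕ) : 1600 ≤ AA d := by
  rw [AA_def]
  have := bb_pos d
  nlinarith

lemma CF_pos {d : ℕ} (hd : 1 ≤ d) : 1 ≤ CF d := by
  unfold CF
  have h1 : 0 < #(Fam d) := by
    rw [Finset.card_pos]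
    refine ⟨fun _ => 0, ?_⟩
    unfold Fam
    rw [Fintype.mem_piFinset]
    intro _
    simp
  have : 0 < 9 * d * #(Fam d) := by positivity
  omega

lemma Sc_def (d m k : ℕ) : Sc d m k = if k = 0 then 1 else m ^ (AA d ^ k) := rfl

attribute [irreducible] Sc

lemma Sc_zero (d m : ℕ) : Sc d m 0 = 1 := by simp [Sc_def]

lemma Sc_succ (d m k : ℕ) (hk : 1 ≤ k) : Sc d m (k + 1) = Sc d m k ^ AA d := by
  rw [Sc_def, Sc_def]
  rw [if_neg (by omega), if_neg (by omega), ← pow_mul, pow_succ]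

lemma Sc_pos {d m : ℕ} (hm : 1 ≤ m) (k : ℕ) : 1 ≤ Sc d m k := by
  rw [Sc_def]
  split_ifs
  · exact le_rfl
  · exact Nat.one_le_pow _ _ hm

lemma Sc_dvd {d m : ℕ} (k : ℕ) : Sc d m k ∣ Sc d m (k + 1) := by
  rcases Nat.eq_zero_or_pos k with h | h
  · subst h; rw [Sc_zero]; exact one_dvd _
  · rw [Sc_succ d m k h]
    exact dvd_pow_self _ (by have := AA_ge d; omega)

lemma Sc_dvd_of_le {d m : ℕ} {j k : ℕ} (h : j ≤ k) : Sc d m j ∣ Sc d m k := by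
  induction k, h using Nat.le_induction with
  | base => exact dvd_rfl
  | succ k _ ih => exact ih.trans (Sc_dvd k)

lemma Sc_mono {d m : ℕ} (hm : 1 ≤ m) : Monotone (Sc d m) := by
  intro j k h
  exact Nat.le_of_dvd (Sc_pos hm k) (Sc_dvd_of_le h)

lemma m_le_Sc {d m : ℕ} (hm : 1 ≤ m) {k : ℕ} (hk : 1 ≤ k) : m ≤ Sc d m k := by
  rw [Sc_def]
  rw [if_neg (by omega)]
  exact Nat.le_self_pow (by have := AA_ge d; positivity) m

/-! real inequalities -/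

lemma num_c5 {T D X s m lam : ℝ} (hT1 : 1 ≤ T) (hX : T * s ^ 3 ≤ X) (hs : 10 ^ 6 ≤ s)
    (hms : m ≤ s) (hlam0 : 0 < lam) (hlam : D ≤ m * lam) :
    2 * (T + 1) * D / (X - T) ≤ lam / 2000 := by
  have hs0 : (0 : ℝ) < s := by linarith
  have h1 : (10 : ℝ) ^ 18 ≤ s ^ 3 := by
    calc (10 : ℝ) ^ 18 = (10 ^ 6) ^ 3 := by norm_num
      _ ≤ s ^ 3 := by gcongr
  have h2 : T * 10 ^ 18 ≤ X := le_trans (by gcongr) hX
  have h3 : X / 2 ≤ X - T := by nlinarith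
  have hX0 : 0 < X := by nlinarith
  have h4 : 0 < X - T := by linarith
  rw [div_le_iff₀ h4]
  have h5 : 2 * (T + 1) * D ≤ 4 * T * (s * lam) := by
    have : D ≤ s * lam := hlam.trans (by gcongr)
    calc 2 * (T + 1) * D ≤ 2 * (T + 1) * (s * lam) := by gcongr
      _ ≤ 4 * T * (s * lam) := by
        have : 2 * (T + 1) ≤ 4 * T := by linarith
        gcongr
  have h6 : lam / 2000 * (X / 2) ≤ lam / 2000 * (X - T) := by gcongr
  have h7 : lam / 2000 * (T * s ^ 3 / 2) ≤ lam / 2000 * (X / 2) := by gcongr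
  have h8 : 4 * T * (s * lam) ≤ lam / 2000 * (T * s ^ 3 / 2) := by
    have h9 : 16000 * s ≤ s ^ 3 := by
      have : (16000 : ℝ) ≤ s ^ 2 := by nlinarith
      calc 16000 * s ≤ s ^ 2 * s := by gcongr
        _ = s ^ 3 := by ring
    have h10 : lam / 2000 * (T * s ^ 3 / 2) = (lam * T / 4000) * s ^ 3 := by ring
    have h11 : 4 * T * (s * lam) = (lam * T / 4000) * (16000 * s) := by ring
    rw [h10, h11]
    gcongr
  linarith

/-- the number of effective blocks -/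
noncomputable def NN (d n a : ℕ) (Φ : ℝ) : ℕ :=
  ⌈(n : ℝ) / (2 ^ a * (8192 * (CF d) ^ 2 * d ^ 2 * Φ ^ 2))⌉₊

theorem hyp_scale {d : ℕ} (hd : 2 ≤ d) {n m i a : ℕ} {Φ : ℝ} (hi : 1 ≤ i) (hΦ : 1 ≤ Φ)
    (hm6 : 10 ^ 6 ≤ m) (hm1 : 32 * Φ * CF d ≤ m)
    (hm2 : 8192 * (CF d : ℝ) ^ 2 * d ^ 2 * Φ ^ 2 ≤ m)
    (hn : Sc d m (i + 2) ^ 2 ≤ n) (ha : (Sc d m (i + 2) : ℝ) ≤ 32 * Φ * CF d * 2 ^ a) :
    Hyp d n (Sc d m (i + 2)) (Sc d m i) (2 ^ a / 2000) i (Sc d m (i + 1))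
      (Sc d m (i + 1) ^ (bb d ^ 2)) (Sc d m (i + 1) ^ (bb d ^ 2 + 1)) (Sc d m (i + 1) ^ (c6 d))
      (Sc d m (i + 1) ^ (bb d ^ 2 - 1)) (n / Sc d m (i + 1) ^ (bb d ^ 2 + 1)) (NN d n a Φ)
      (Sc d m) (2 ^ a) (16 * CF d * (12 * Real.log (Sc d m (i + 1)))) := by
  have hm1' : 1 ≤ m := by omega
  have hsm : m ≤ Sc d m i := m_le_Sc hm1' hi
  have hX : Sc d m (i + 1) = Sc d m i ^ AA d := Sc_succ d m i hi
  have hDX : Sc d m (i + 2) = Sc d m (i + 1) ^ AA d := Sc_succ d m (i + 1) (by omega)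
  have hCF := CF_pos (d := d) (by omega)
  have hbb : 2 * c6 d + 2 * d + 20 = bb d := bb_def d
  have hc6 : 768000 ≤ c6 d := by rw [c6_def]; omega
  have hAA : AA d = 4 * bb d ^ 2 := AA_def d
  have hbq : 20 * bb d ≤ bb d ^ 2 := by nlinarith [bb_pos d]
  generalize hq : bb d ^ 2 = q at *
  generalize hs' : Sc d m i = s at *
  generalize hX' : Sc d m (i + 1) = X at *
  generalize hD' : Sc d m (i + 2) = D at *
  rw [hAA] at hX hDX
  have hq1 : 2 * c6 d + 2 * d + 20 ≤ q := by omega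
  -- real versions
  have hs : (10 : ℝ) ^ 6 ≤ s := by exact_mod_cast hm6.trans hsm
  have hs0 : (0 : ℝ) < s := by linarith
  have hs1 : (1 : ℝ) ≤ s := by linarith
  have hms : (m : ℝ) ≤ s := by exact_mod_cast hsm
  have hm0 : (0 : ℝ) < m := by
    have : (1 : ℝ) ≤ m := by exact_mod_cast hm1'
    linarith
  have hlam0 : (0 : ℝ) < 2 ^ a := by positivity
  set lam : ℝ := 2 ^ a with hlamdef
  set T : ℝ := (40 * s : ℝ) ^ d with hT
  have hT1 : 1 ≤ T := one_le_pow₀ (by linarith)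
  have hXr : (X : ℝ) = (s : ℝ) ^ (4 * q) := by rw [hX]; push_cast; rfl
  have hTX : T * (s : ℝ) ^ 3 ≤ X := by
    have h1 : T ≤ ((s : ℝ) ^ 2) ^ d := by
      rw [hT]
      gcongr
      nlinarith
    calc T * (s : ℝ) ^ 3 ≤ ((s : ℝ) ^ 2) ^ d * (s : ℝ) ^ 3 := by gcongr
      _ = (s : ℝ) ^ (2 * d + 3) := by rw [← pow_mul, ← pow_add]
      _ ≤ (s : ℝ) ^ (4 * q) := pow_le_pow_right₀ hs1 (by omega)
      _ = X := hXr.symm
  have hs3 : (10 : ℝ) ^ 12 * s ≤ (s : ℝ) ^ 3 := by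
    have : (10 : ℝ) ^ 12 ≤ (s : ℝ) ^ 2 := by
      calc (10 : ℝ) ^ 12 = (10 ^ 6) ^ 2 := by norm_num
        _ ≤ (s : ℝ) ^ 2 := by gcongr
    calc (10 : ℝ) ^ 12 * s ≤ (s : ℝ) ^ 2 * s := by gcongr
      _ = (s : ℝ) ^ 3 := by ring
  have hs3X : (s : ℝ) ^ 3 ≤ X := by
    calc (s : ℝ) ^ 3 = 1 * (s : ℝ) ^ 3 := by ring
      _ ≤ T * (s : ℝ) ^ 3 := by gcongr
      _ ≤ X := hTX
  have hsX : (10 : ℝ) ^ 12 * s ≤ X := hs3.trans hs3X
  have hTX2 : (10 : ℝ) ^ 12 * T ≤ X := by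
    have h0 : (10 : ℝ) ^ 12 ≤ (s : ℝ) ^ 3 := by
      nlinarith
    calc (10 : ℝ) ^ 12 * T = T * 10 ^ 12 := by ring
      _ ≤ T * (s : ℝ) ^ 3 := by gcongr
      _ ≤ X := hTX
  have hx18 : (10 : ℝ) ^ 18 ≤ X := by nlinarith
  have hx1 : (1 : ℝ) ≤ X := by linarith
  have hx0 : (0 : ℝ) < X := by linarith
  have hX1 : 1 ≤ X := by exact_mod_cast hx1
  have hX24 : 24 ≤ X := by
    have : (24 : ℝ) ≤ X := by linarith
    exact_mod_cast this
  have hDr : (D : ℝ) = (X : ℝ) ^ (4 * q) := by rw [hDX]; push_cast; rfl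
  have hDlam : (D : ℝ) ≤ m * lam := by
    refine ha.trans ?_
    gcongr
  have hmX : (10 : ℝ) ^ 12 * m ≤ X := le_trans (by gcongr) hsX
  -- key inequality
  have hkey : (10 : ℝ) ^ 12 * (X : ℝ) ^ (4 * q - 1) ≤ lam := by
    have h1 : (X : ℝ) ^ (4 * q) = (X : ℝ) ^ (4 * q - 1) * X := by
      rw [← pow_succ]; congr 1; omega
    have h2 : (X : ℝ) ^ (4 * q - 1) * (10 ^ 12 * m) ≤ m * lam := by
      calc (X : ℝ) ^ (4 * q - 1) * (10 ^ 12 * m) ≤ (X : ℝ) ^ (4 * q - 1) * X := by gcongr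
        _ = D := by rw [hDr, h1]
        _ ≤ m * lam := hDlam
    have h3 : m * (10 ^ 12 * (X : ℝ) ^ (4 * q - 1)) ≤ m * lam := by
      calc m * (10 ^ 12 * (X : ℝ) ^ (4 * q - 1)) = (X : ℝ) ^ (4 * q - 1) * (10 ^ 12 * m) := by ring
        _ ≤ m * lam := h2
    exact le_of_mul_le_mul_left h3 hm0
  have hpw : ∀ k : ℕ, k ≤ 4 * q - 1 → (X : ℝ) ^ k ≤ (X : ℝ) ^ (4 * q - 1) :=
    fun k hk => pow_le_pow_right₀ hx1 hk
  have hX4 : (X : ℝ) ≤ (X : ℝ) ^ (4 * q - 1) := by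
    calc (X : ℝ) = (X : ℝ) ^ 1 := (pow_one _).symm
      _ ≤ _ := hpw 1 (by omega)
  have hP0 : (1 : ℝ) ≤ (X : ℝ) ^ (4 * q - 1) := one_le_pow₀ hx1
  -- S
  have hSr : lam / 2000 - 1 < ((2 ^ a / 2000 : ℕ) : ℝ) := by
    have h1 : 2 ^ a < 2000 * (2 ^ a / 2000) + 2000 := by omega
    have h2 : (2 : ℝ) ^ a < 2000 * ((2 ^ a / 2000 : ℕ) : ℝ) + 2000 := by exact_mod_cast h1
    rw [hlamdef]
    linarith
  have hSr2 : 2000 * ((2 ^ a / 2000 : ℕ) : ℝ) ≤ lam := by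
    have h1 : 2000 * (2 ^ a / 2000) ≤ 2 ^ a := by omega
    have h2 : 2000 * ((2 ^ a / 2000 : ℕ) : ℝ) ≤ 2 ^ a := by exact_mod_cast h1
    exact h2
  have hDH1 : (D : ℝ) / ((X ^ q : ℕ) : ℝ) = (X : ℝ) ^ (3 * q) := by
    rw [hDr, div_eq_iff (by positivity)]
    push_cast
    rw [← pow_add]; congr 1; ring
  have hDH : (D : ℝ) / ((X ^ (q + 1) : ℕ) : ℝ) = (X : ℝ) ^ (3 * q - 1) := by
    rw [hDr, div_eq_iff (by positivity)]
    push_cast
    rw [← pow_add]; congr 1; omega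
  have hlogX : 0 < Real.log X := Real.log_pos (by linarith)
  have hnpos : 1 ≤ n := le_trans (Nat.one_le_pow _ _ (by
    have : 1 ≤ D := by rw [hDX]; exact Nat.one_le_pow _ _ hX1
    exact this)) hn
  have hC0 : (0 : ℝ) < 8192 * (CF d : ℝ) ^ 2 * d ^ 2 * Φ ^ 2 := by
    have : (0 : ℝ) < CF d := by exact_mod_cast (by omega : 0 < CF d)
    have : (0 : ℝ) < d := by exact_mod_cast (by omega : 0 < d)
    positivity
  have hNr : (n : ℝ) / (lam * (8192 * (CF d) ^ 2 * d ^ 2 * Φ ^ 2)) ≤ (NN d n a Φ : ℝ) :=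
    Nat.le_ceil _
  have hn0 : (0 : ℝ) < n := by exact_mod_cast (by omega : 0 < n)
  have hNpos : (0 : ℝ) < (NN d n a Φ : ℝ) := lt_of_lt_of_le (by positivity) hNr
  refine
    { hS := ?_, hs := ?_, hD := ?_, hHD := ?_, hdiv := ?_, hsH := ?_, hH1 := ?_, hH := ?_,
      hSc0 := Sc_zero d m, hScm := Sc_mono hm1', hScs := ?_, hT0 := ?_, hT1 := ?_, hM := ?_,
      hR := ?_, hN := ?_, hlam := hlam0, hA := ?_, t1 := ?_, t2 := ?_, c3 := hSr2, c4 := ?_,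
      c5 := ?_, c6 := ?_, c7 := ?_, c8 := ?_, c9 := ?_, c10 := ?_, c11 := ?_ }
  · have : (1 : ℝ) < ((2 ^ a / 2000 : ℕ) : ℝ) := by linarith
    exact_mod_cast this.le
  · exact_mod_cast hs1
  · rw [hDX]; positivity
  · rw [hDX]; exact pow_dvd_pow _ (by omega)
  · exact pow_dvd_pow _ (by omega)
  · refine dvd_trans ?_ (dvd_pow_self X (n := q) (by omega))
    rw [hX]; exact dvd_pow_self _ (by omega)
  · positivity
  · positivity
  · intro j hj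
    rw [← hs']
    exact Sc_dvd_of_le hj
  · rw [hX']
    have : (((40 * s) ^ d : ℕ) : ℝ) ≤ ((4 * X : ℕ) : ℝ) := by
      push_cast
      have : (0 : ℝ) ≤ T := by linarith
      change T ≤ 4 * X
      linarith
    exact_mod_cast this
  · have : (((40 * s) ^ d : ℕ) : ℝ) < (X : ℝ) := by
      push_cast
      change T < X
      linarith
    exact_mod_cast this
  · calc 2 ≤ X := by omega
      _ = X ^ 1 := (pow_one _).symm
      _ ≤ X ^ c6 d := Nat.pow_le_pow_right (by omega) (by omega)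
  · exact Nat.one_le_pow _ _ hX1
  · have : (0 : ℕ) < NN d n a Φ := by exact_mod_cast hNpos
    exact this
  · -- hA
    have hXq : 0 < X ^ (q + 1) := by positivity
    set Z := n / X ^ (q + 1) with hZ
    have hZ1 : 1 ≤ Z := by
      rw [hZ, Nat.le_div_iff_mul_le hXq, one_mul]
      refine le_trans ?_ hn
      rw [hDX, ← pow_mul]
      exact Nat.pow_le_pow_right (by omega) (by omega)
    have hnZ : n < X ^ (q + 1) * (Z + 1) := by
      rw [hZ]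
      exact Nat.lt_mul_div_succ n hXq
    have h1 : n / X ^ q ≤ 2 * X * Z := by
      have : n / X ^ q < X * (Z + 1) := by
        rw [Nat.div_lt_iff_lt_mul (by positivity)]
        calc n < X ^ (q + 1) * (Z + 1) := hnZ
          _ = X * (Z + 1) * X ^ q := by rw [pow_succ]; ring
      have h2 : X * (Z + 1) ≤ 2 * X * Z := by nlinarith
      omega
    have h3 : 2 * X + 1 ≤ 3 * X := by omega
    calc 4 * (n / X ^ q * (2 * X + 1) * (X ^ c6 d) ^ 2)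
        ≤ 4 * (2 * X * Z * (3 * X) * (X ^ c6 d) ^ 2) := by gcongr
      _ = 24 * (X ^ (2 + 2 * c6 d) * Z) := by rw [pow_add, pow_mul]; ring
      _ ≤ X * (X ^ (2 + 2 * c6 d) * Z) := by gcongr
      _ = X ^ (3 + 2 * c6 d) * Z := by
          rw [show 3 + 2 * c6 d = (2 + 2 * c6 d) + 1 by ring, pow_succ]; ring
      _ ≤ X ^ (q - 1) * Z := by
          gcongr
          · omega
  · -- t1
    have h1 : (s : ℝ) ≤ (X : ℝ) ^ (4 * q - 1) := by linarith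
    linarith
  · -- t2
    have h1 : ((X ^ (q + 1) : ℕ) : ℝ) ≤ ((2 ^ a / 2000 : ℕ) : ℝ) := by
      push_cast
      have := hpw (q + 1) (by omega)
      have h2 : ((2 ^ a / 2000 : ℕ) : ℝ) = ((2 ^ a / 2000 : ℕ) : ℝ) := rfl
      push_cast at hSr
      linarith
    exact_mod_cast h1
  · change 2 * (T + 1) ≤ lam / 2000
    linarith
  · exact num_c5 hT1 hTX hs hms hlam0 hDlam
  · rw [hDH1]
    have h1 : 2 * ((X : ℝ) + T + 1) + 1 ≤ 5 * X := by linarith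
    have h2 : (1 : ℝ) ≤ (X : ℝ) ^ (3 * q) := one_le_pow₀ hx1
    calc ((X : ℝ) ^ (3 * q) + 1) * (2 * ((X : ℝ) + T + 1) + 1)
        ≤ (2 * (X : ℝ) ^ (3 * q)) * (5 * X) := by
          gcongr
          linarith
      _ = 10 * (X : ℝ) ^ (3 * q + 1) := by rw [pow_succ]; ring
      _ ≤ 10 * (X : ℝ) ^ (4 * q - 1) := by
          have := hpw (3 * q + 1) (by omega)
          linarith
      _ ≤ lam / 2000 := by linarith
  · have h1 : Real.log ((X ^ c6 d : ℕ) : ℝ) = c6 d * Real.log X := by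
      push_cast
      rw [Real.log_pow]
    rw [h1]
    have h2 : (c6 d : ℝ) = 768000 * CF d := by rw [c6_def]; push_cast; ring
    rw [h2]
    have h3 : (0 : ℝ) < CF d := by exact_mod_cast (by omega : 0 < CF d)
    rw [div_le_iff₀ (by positivity)]
    apply le_of_eq
    ring
  · rw [hDH1]
    push_cast
    rw [← pow_add]
    have := hpw (q - 1 + 3 * q) (by omega)
    linarith
  · -- c9
    have hq0 : ((n / X ^ (q + 1) : ℕ) : ℝ) ≤ (n : ℝ) / (X : ℝ) ^ (q + 1) := by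
      have := @Nat.cast_div_le ℝ _ _ _ n (X ^ (q + 1))
      push_cast at this
      exact this
    have h1 : 4 * ((n / X ^ (q + 1) : ℕ) : ℝ) / (NN d n a Φ : ℝ) ≤
        4 * (lam * (8192 * (CF d : ℝ) ^ 2 * d ^ 2 * Φ ^ 2)) / (X : ℝ) ^ (q + 1) := by
      have hden : (0 : ℝ) < (n : ℝ) / (lam * (8192 * (CF d) ^ 2 * d ^ 2 * Φ ^ 2)) := by positivity
      calc 4 * ((n / X ^ (q + 1) : ℕ) : ℝ) / (NN d n a Φ : ℝ)
          ≤ 4 * ((n : ℝ) / (X : ℝ) ^ (q + 1)) /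
            ((n : ℝ) / (lam * (8192 * (CF d) ^ 2 * d ^ 2 * Φ ^ 2))) := by
            gcongr
        _ = 4 * (lam * (8192 * (CF d : ℝ) ^ 2 * d ^ 2 * Φ ^ 2)) / (X : ℝ) ^ (q + 1) := by
            field_simp
    have hmx : (8192 * (CF d : ℝ) ^ 2 * d ^ 2 * Φ ^ 2) ≤ X / 10 ^ 12 := by
      rw [le_div_iff₀ (by positivity)]
      calc (8192 * (CF d : ℝ) ^ 2 * d ^ 2 * Φ ^ 2) * (10 : ℝ) ^ 12 ≤ (m : ℝ) * (10 : ℝ) ^ 12 := by
            gcongr
        _ = (10 : ℝ) ^ 12 * (m : ℝ) := by ring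
        _ ≤ (X : ℝ) := hmX
    push_cast at h1 ⊢
    calc (X : ℝ) ^ q * (4 * ((n / X ^ (q + 1) : ℕ) : ℝ) / (NN d n a Φ : ℝ))
        ≤ (X : ℝ) ^ q * (4 * (lam * (8192 * (CF d : ℝ) ^ 2 * d ^ 2 * Φ ^ 2)) / (X : ℝ) ^ (q + 1)) := by
          push_cast
          gcongr
      _ = 4 * (lam * (8192 * (CF d : ℝ) ^ 2 * d ^ 2 * Φ ^ 2)) / X := by
          rw [pow_succ (X : ℝ) q]
          field_simp
      _ ≤ 4 * (lam * (X / 10 ^ 12)) / X := by gcongr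
      _ = 4 * lam / 10 ^ 12 := by
          rw [div_eq_div_iff (by positivity) (by positivity)]
          ring
      _ ≤ lam / 2000 := by linarith
  · rw [hDH]
    push_cast
    have h1 : 2 * (X : ℝ) ^ q * (X : ℝ) ^ (3 * q - 1) = 2 * (X : ℝ) ^ (4 * q - 1) := by
      rw [mul_assoc, ← pow_add]
      congr 2
      omega
    rw [h1]
    linarith
  · rw [hDH1]
    have hsX1 : (s : ℝ) ≤ X := by linarith
    have h1 : (s : ℝ) * (X : ℝ) ^ (3 * q) ≤ (X : ℝ) ^ (3 * q + 1) := by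
      rw [pow_succ (X : ℝ) (3 * q), mul_comm]
      exact mul_le_mul_of_nonneg_left hsX1 (by positivity)
    have := hpw (3 * q + 1) (by omega)
    calc 80 * (s : ℝ) * (X : ℝ) ^ (3 * q) = 80 * ((s : ℝ) * (X : ℝ) ^ (3 * q)) := by ring
      _ ≤ lam / 2000 := by linarith

end Num

end Pool.Agent.H976R2.SB
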