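import Pool.Agent.H976R2.SB.Num

/-! The bound at one scale. -/

namespace Pool.Agent.H976R2.SB
open Finset Num

open Classical in
/-- self-avoiding words on `ℤ^d` -/
noncomputable def Saws (d : ℕ) (a0 : Letter d) (n : ℕ) : Finset (ℕ → Letter d) :=
  ((Finset.univ : Finset (Fin n → Letter d)).image
    (fun u : Fin n → Letter d => fun k : ℕ => if h : k < n then u ⟨k, h⟩ else a0)).filter
      (fun w => ∀ u v, 0 ≤ u → u < v → v ≤ n → ∃ k, ht (zc k) w u ≠ ht (zc k) w v)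

lemma SawSet_eq {d : ℕ} (τ : Ty d) (a0 : Letter d) (n : ℕ) :
    SawSet (sysOf τ) a0 n = Saws d a0 n := rfl

open Classical in
/-- walks with many effective blocks of a given type at a given scale -/
noncomputable def WW (d : ℕ) (a0 : Letter d) (n m : ℕ) (Φ : ℝ) (i a : ℕ) (τ : Ty d) :
    Finset (ℕ → Letter d) :=
  (SawSet (sysOf τ) a0 n).filter (fun w => ∃ I ⊆ range (n / Sc d m (i + 2)),
    NN d n a Φ ≤ #I ∧ ∀ b ∈ I,
      (2 : ℝ) ^ a ≤ ((incr (sysOf τ).l w (Sc d m (i + 2) * b) (Sc d m (i + 2) * (b + 1)) : ℤ) : ℝ) ∧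
      ((dfc (sysOf τ) w (Sc d m i) (Sc d m (i + 2) * b / Sc d m i)
        (Sc d m (i + 2) * (b + 1) / Sc d m i) : ℤ) : ℝ) ≤ 2 ^ a / 10 ^ 5 ∧
      multiCost (sysOf τ) (Sc d m) i w (Sc d m (i + 2) * b) (Sc d m (i + 2) * (b + 1)) ≤
        16 * CF d * (12 * Real.log (Sc d m (i + 1))) * 2 ^ a)

theorem scale_bound {d : ℕ} (hd : 2 ≤ d) (a0 : Letter d) {n m i a : ℕ} {Φ : ℝ} (hi : 1 ≤ i)
    (hΦ : 1 ≤ Φ) (hm6 : 10 ^ 6 ≤ m) (hmA : AA d ≤ m) (hm1 : 32 * Φ * CF d ≤ m)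
    (hm2 : 8192 * (CF d : ℝ) ^ 2 * d ^ 2 * Φ ^ 2 ≤ m) (hmn : Real.log (n + 1) ≤ m)
    (hn : Sc d m (i + 2) ^ 2 ≤ n) (ha : (Sc d m (i + 2) : ℝ) ≤ 32 * Φ * CF d * 2 ^ a) (τ : Ty d) :
    (#(WW d a0 n m Φ i a τ) : ℝ) ≤
      3 * Real.exp (-(n / Sc d m (i + 2))) * #(Saws d a0 n) := by
  have H := hyp_scale hd hi hΦ hm6 hm1 hm2 hn ha
  have hmain := count_main (sysOf τ) a0 H
  have hm1' : 1 ≤ m := by omega
  have hsm : m ≤ Sc d m i := m_le_Sc hm1' hi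
  have hX : Sc d m (i + 1) = Sc d m i ^ AA d := Sc_succ d m i hi
  have hDX : Sc d m (i + 2) = Sc d m (i + 1) ^ AA d := Sc_succ d m (i + 1) (by omega)
  have hCF := CF_pos (d := d) (by omega)
  have hbb : 2 * c6 d + 2 * d + 20 = bb d := bb_def d
  have hAA : AA d = 4 * bb d ^ 2 := AA_def d
  have hbq : 20 * bb d ≤ bb d ^ 2 := by nlinarith [bb_pos d]
  rw [SawSet_eq] at hmain
  have hcard : (#(WW d a0 n m Φ i a τ) : ℝ) ≤ _ := hmain
  refine hcard.trans ?_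
  rw [← mul_assoc]
  refine mul_le_mul_of_nonneg_right ?_ (by positivity)
  clear hcard hmain H
  generalize hq : bb d ^ 2 = q at *
  generalize hs' : Sc d m i = s at *
  generalize hX' : Sc d m (i + 1) = X at *
  generalize hD' : Sc d m (i + 2) = D at *
  rw [hAA] at hX hDX
  have hs : (10 : ℝ) ^ 6 ≤ s := by exact_mod_cast hm6.trans hsm
  have hs1 : (1 : ℝ) ≤ s := by linarith
  have hms : (m : ℝ) ≤ s := by exact_mod_cast hsm
  have hm0 : (0 : ℝ) < m := by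
    have : (1 : ℝ) ≤ m := by exact_mod_cast hm1'
    linarith
  set lam : ℝ := 2 ^ a with hlamdef
  have hlam0 : (0 : ℝ) < lam := by positivity
  have hXr : (X : ℝ) = (s : ℝ) ^ (4 * q) := by rw [hX]; push_cast; rfl
  have hsX : (s : ℝ) ^ 3 ≤ X := by
    rw [hXr]; exact pow_le_pow_right₀ hs1 (by omega)
  have hmX : (10 : ℝ) ^ 12 * m ≤ X := by
    have : (10 : ℝ) ^ 12 ≤ (s : ℝ) ^ 2 := by
      calc (10 : ℝ) ^ 12 = (10 ^ 6) ^ 2 := by norm_num
        _ ≤ (s : ℝ) ^ 2 := by gcongr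
    calc (10 : ℝ) ^ 12 * m ≤ (s : ℝ) ^ 2 * s := by gcongr
      _ = (s : ℝ) ^ 3 := by ring
      _ ≤ X := hsX
  have hm6r : (10 : ℝ) ^ 6 ≤ m := by exact_mod_cast hm6
  have hx18 : (10 : ℝ) ^ 18 ≤ X := by nlinarith
  have hx1 : (1 : ℝ) ≤ X := by linarith
  have hx0 : (0 : ℝ) < X := by linarith
  have hX1 : 1 ≤ X := by exact_mod_cast hx1
  have hDr : (D : ℝ) = (X : ℝ) ^ (4 * q) := by rw [hDX]; push_cast; rfl
  have hD0 : (0 : ℝ) < D := by rw [hDr]; positivity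
  have hDlam : (D : ℝ) ≤ m * lam := by
    refine ha.trans ?_
    gcongr
  have hlam1 : (X : ℝ) ≤ lam := by
    have h1 : (X : ℝ) * X ≤ D := by
      rw [hDr]
      calc (X : ℝ) * X = (X : ℝ) ^ 2 := by ring
        _ ≤ (X : ℝ) ^ (4 * q) := pow_le_pow_right₀ hx1 (by omega)
    have h2 : (X : ℝ) * m ≤ m * lam := by
      calc (X : ℝ) * m ≤ X * X := mul_le_mul_of_nonneg_left (by linarith) hx0.le
        _ ≤ D := h1
        _ ≤ m * lam := hDlam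
    have h3 : m * (X : ℝ) ≤ m * lam := by linarith
    exact le_of_mul_le_mul_left h3 hm0
  have hn0 : (0 : ℝ) < n := by
    have h1 : 1 ≤ D := by exact_mod_cast (by rw [hDr]; exact one_le_pow₀ hx1 : (1 : ℝ) ≤ D)
    have : 1 ≤ n := le_trans (Nat.one_le_pow _ _ h1) hn
    exact_mod_cast (by omega : 0 < n)
  set E : ℝ := (n : ℝ) / (X : ℝ) ^ (q + 2) with hE
  have hE0 : 0 ≤ E := by positivity
  -- the small quantity n X^2 / D
  have hsmall : (n : ℝ) * (X : ℝ) ^ 2 / D ≤ E / 12 := by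
    rw [hE, hDr, div_div, div_le_div_iff₀ (by positivity) (by positivity)]
    have h1 : (X : ℝ) ^ 2 * ((X : ℝ) ^ (q + 2) * 12) ≤ (X : ℝ) ^ (4 * q) := by
      calc (X : ℝ) ^ 2 * ((X : ℝ) ^ (q + 2) * 12) = (X : ℝ) ^ (q + 4) * 12 := by ring
        _ ≤ (X : ℝ) ^ (q + 4) * X := by
            gcongr
            linarith
        _ = (X : ℝ) ^ (q + 5) := by ring
        _ ≤ (X : ℝ) ^ (4 * q) := pow_le_pow_right₀ hx1 (by omega)
    calc (n : ℝ) * (X : ℝ) ^ 2 * ((X : ℝ) ^ (q + 2) * 12)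
        = n * ((X : ℝ) ^ 2 * ((X : ℝ) ^ (q + 2) * 12)) := by ring
      _ ≤ n * (X : ℝ) ^ (4 * q) := by gcongr
  -- factor 1
  have hSr : lam / 4000 ≤ ((2 ^ a / 2000 : ℕ) : ℝ) := by
    have h1 : 2 ^ a < 2000 * (2 ^ a / 2000) + 2000 := by omega
    have h2 : (2 : ℝ) ^ a < 2000 * ((2 ^ a / 2000 : ℕ) : ℝ) + 2000 := by exact_mod_cast h1
    rw [← hlamdef] at h2
    linarith
  have hf1 : (((n + 1) ^ (n / (2 ^ a / 2000)) : ℕ) : ℝ) ≤ Real.exp (E / 12) := by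
    have hS0 : (0 : ℝ) < ((2 ^ a / 2000 : ℕ) : ℝ) := by linarith
    have h1 : ((n / (2 ^ a / 2000) : ℕ) : ℝ) ≤ (n : ℝ) / ((2 ^ a / 2000 : ℕ) : ℝ) :=
      Nat.cast_div_le
    have h2 : (n : ℝ) / ((2 ^ a / 2000 : ℕ) : ℝ) ≤ 4000 * m * n / D := by
      rw [div_le_div_iff₀ hS0 hD0]
      have : (D : ℝ) ≤ 4000 * m * ((2 ^ a / 2000 : ℕ) : ℝ) := by
        calc (D : ℝ) ≤ m * lam := hDlam
          _ = 4000 * m * (lam / 4000) := by ring
          _ ≤ 4000 * m * ((2 ^ a / 2000 : ℕ) : ℝ) := by gcongr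
      calc (n : ℝ) * D ≤ n * (4000 * m * ((2 ^ a / 2000 : ℕ) : ℝ)) := by gcongr
        _ = 4000 * m * n * ((2 ^ a / 2000 : ℕ) : ℝ) := by ring
    have h3 : (0 : ℝ) ≤ Real.log (n + 1) := Real.log_nonneg (by linarith)
    have h4 : 4000 * (m : ℝ) * n / D * m ≤ (n : ℝ) * (X : ℝ) ^ 2 / D := by
      rw [div_mul_eq_mul_div]
      refine div_le_div_of_nonneg_right ?_ hD0.le
      have : 4000 * (m : ℝ) * m ≤ (X : ℝ) ^ 2 := by nlinarith
      calc 4000 * (m : ℝ) * n * m = n * (4000 * (m : ℝ) * m) := by ring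
        _ ≤ n * (X : ℝ) ^ 2 := by gcongr
    push_cast
    have hnp : (0 : ℝ) < (n : ℝ) + 1 := by linarith
    have h5 : ((n : ℝ) + 1) ^ (n / (2 ^ a / 2000)) =
        Real.exp (((n / (2 ^ a / 2000) : ℕ) : ℝ) * Real.log (n + 1)) := by
      rw [Real.exp_nat_mul, Real.exp_log hnp]
    rw [h5]
    apply Real.exp_le_exp.2
    calc ((n / (2 ^ a / 2000) : ℕ) : ℝ) * Real.log (n + 1)
        ≤ (4000 * m * n / D) * m := by
          apply mul_le_mul (h1.trans h2) hmn h3 (by positivity)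
      _ ≤ (n : ℝ) * (X : ℝ) ^ 2 / D := h4
      _ ≤ E / 12 := hsmall
  -- factor 2
  have hq0 : E ≤ ((n / X ^ (q + 1) : ℕ) : ℝ) := by
    have hXq : 0 < X ^ (q + 1) := by positivity
    have h1 : n < X ^ (q + 1) * (n / X ^ (q + 1) + 1) := Nat.lt_mul_div_succ n hXq
    have h2 : (n : ℝ) < (X : ℝ) ^ (q + 1) * (((n / X ^ (q + 1) : ℕ) : ℝ) + 1) := by
      exact_mod_cast h1
    have h3 : 1 ≤ n / X ^ (q + 1) := by
      rw [Nat.le_div_iff_mul_le hXq, one_mul]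
      refine le_trans ?_ hn
      rw [hDX, ← pow_mul]
      exact Nat.pow_le_pow_right (by omega) (by omega)
    have h3' : (1 : ℝ) ≤ ((n / X ^ (q + 1) : ℕ) : ℝ) := by exact_mod_cast h3
    rw [hE, div_le_iff₀ (by positivity)]
    calc (n : ℝ) ≤ (X : ℝ) ^ (q + 1) * (((n / X ^ (q + 1) : ℕ) : ℝ) + 1) := h2.le
      _ ≤ (X : ℝ) ^ (q + 1) * (2 * ((n / X ^ (q + 1) : ℕ) : ℝ)) := by
          gcongr; linarith
      _ = ((n / X ^ (q + 1) : ℕ) : ℝ) * ((X : ℝ) ^ (q + 1) * 2) := by ring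
      _ ≤ ((n / X ^ (q + 1) : ℕ) : ℝ) * ((X : ℝ) ^ (q + 1) * X) := by
          gcongr; linarith
      _ = ((n / X ^ (q + 1) : ℕ) : ℝ) * (X : ℝ) ^ (q + 2) := by ring
  have hf2 : (2 : ℝ) / 4 ^ (n / X ^ (q + 1)) ≤ 2 * Real.exp (-E) := by
    rw [Real.exp_neg, ← div_eq_mul_inv]
    gcongr
    calc Real.exp E ≤ Real.exp ((n / X ^ (q + 1) : ℕ) : ℝ) := Real.exp_le_exp.2 hq0
      _ = (Real.exp 1) ^ (n / X ^ (q + 1)) := by rw [← Real.exp_nat_mul, mul_one]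
      _ ≤ 4 ^ (n / X ^ (q + 1)) := by
          gcongr
          linarith [Real.exp_one_lt_d9]
  -- factor 3
  have hf3 : ((((D / X ^ (q + 1) + 1) * (D / X ^ (q + 1) + 1)) ^ (n / D) : ℕ) : ℝ) ≤
      Real.exp (E / 6) := by
    have h1 : D / X ^ (q + 1) + 1 ≤ X ^ (3 * q) := by
      have : D / X ^ (q + 1) = X ^ (3 * q - 1) := by
        rw [hDX, Nat.div_eq_iff_eq_mul_left (by positivity) (pow_dvd_pow _ (by omega)), ← pow_add]
        congr 1; omega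
      rw [this]
      have h2 : X ^ (3 * q) = X ^ (3 * q - 1) * X := by
        rw [← pow_succ]; congr 1; omega
      rw [h2]
      have h3 : 1 ≤ X ^ (3 * q - 1) := Nat.one_le_pow _ _ hX1
      have h4 : 2 ≤ X := by
        have : (2 : ℝ) ≤ X := by linarith
        exact_mod_cast this
      nlinarith
    have h1r : ((D / X ^ (q + 1) + 1 : ℕ) : ℝ) ≤ (X : ℝ) ^ (3 * q) := by exact_mod_cast h1
    have h2 : ((n / D : ℕ) : ℝ) ≤ (n : ℝ) / D := Nat.cast_div_le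
    have h3 : (X : ℝ) ^ (3 * q) ≤ Real.exp ((X : ℝ) ^ 2) := by
      have : (X : ℝ) ^ (3 * q) = Real.exp (((3 * q : ℕ) : ℝ) * Real.log X) := by
        rw [Real.exp_nat_mul, Real.exp_log hx0]
      rw [this]
      apply Real.exp_le_exp.2
      have h4 : Real.log X ≤ X := (Real.log_le_sub_one_of_pos hx0).trans (by linarith)
      have h5 : ((3 * q : ℕ) : ℝ) ≤ X := by
        have h6 : (3 * q : ℕ) ≤ m := by omega
        have h7 : ((3 * q : ℕ) : ℝ) ≤ m := by exact_mod_cast h6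
        linarith
      have h0 : 0 ≤ Real.log X := Real.log_nonneg hx1
      calc ((3 * q : ℕ) : ℝ) * Real.log X ≤ X * X := mul_le_mul h5 h4 h0 hx0.le
        _ = (X : ℝ) ^ 2 := by ring
    have h4 : (((D / X ^ (q + 1) + 1) * (D / X ^ (q + 1) + 1) : ℕ) : ℝ) ≤
        Real.exp (2 * (X : ℝ) ^ 2) := by
      rw [Nat.cast_mul, two_mul, Real.exp_add]
      exact mul_le_mul (h1r.trans h3) (h1r.trans h3) (by positivity) (by positivity)
    rw [Nat.cast_pow]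
    calc (((D / X ^ (q + 1) + 1) * (D / X ^ (q + 1) + 1) : ℕ) : ℝ) ^ (n / D)
        ≤ (Real.exp (2 * (X : ℝ) ^ 2)) ^ (n / D) := by gcongr
      _ = Real.exp (((n / D : ℕ) : ℝ) * (2 * (X : ℝ) ^ 2)) := (Real.exp_nat_mul _ _).symm
      _ ≤ Real.exp (E / 6) := by
          apply Real.exp_le_exp.2
          calc ((n / D : ℕ) : ℝ) * (2 * (X : ℝ) ^ 2) ≤ (n : ℝ) / D * (2 * (X : ℝ) ^ 2) := by gcongr
            _ = 2 * ((n : ℝ) * (X : ℝ) ^ 2 / D) := by ring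
            _ ≤ E / 6 := by linarith
  -- factor 4
  have hf4 : Real.exp (-(8 / 25) * (NN d n a Φ * lam / 40) / ((X ^ (q + 1) : ℕ) : ℝ)) ≤
      Real.exp (-E) := by
    apply Real.exp_le_exp.2
    have hC0 : (0 : ℝ) < 8192 * (CF d : ℝ) ^ 2 * d ^ 2 * Φ ^ 2 := by
      have : (0 : ℝ) < CF d := by exact_mod_cast (by omega : 0 < CF d)
      have : (0 : ℝ) < d := by exact_mod_cast (by omega : 0 < d)
      positivity
    have hNr : (n : ℝ) / (lam * (8192 * (CF d) ^ 2 * d ^ 2 * Φ ^ 2)) ≤ (NN d n a Φ : ℝ) :=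
      Nat.le_ceil _
    have h1 : (n : ℝ) / m ≤ NN d n a Φ * lam := by
      calc (n : ℝ) / m ≤ n / (8192 * (CF d : ℝ) ^ 2 * d ^ 2 * Φ ^ 2) := by gcongr
        _ = (n : ℝ) / (lam * (8192 * (CF d) ^ 2 * d ^ 2 * Φ ^ 2)) * lam := by field_simp
        _ ≤ NN d n a Φ * lam := by gcongr
    have h2 : E ≤ (8 / 25) * ((n : ℝ) / m / 40) / ((X ^ (q + 1) : ℕ) : ℝ) := by
      push_cast
      rw [hE, div_le_div_iff₀ (by positivity) (by positivity)]
      have h3 : (X : ℝ) ^ (q + 1) * (125 * m) ≤ (X : ℝ) ^ (q + 2) := by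
        calc (X : ℝ) ^ (q + 1) * (125 * m) ≤ (X : ℝ) ^ (q + 1) * X := by
              gcongr
              linarith
          _ = (X : ℝ) ^ (q + 2) := by ring
      have h4 : (8 / 25) * ((n : ℝ) / m / 40) * (X : ℝ) ^ (q + 2) =
          n * ((X : ℝ) ^ (q + 2) / (125 * m)) := by
        field_simp
        ring
      rw [h4]
      gcongr
      rw [le_div_iff₀ (by positivity)]
      exact h3
    have h5 : (8 / 25) * ((n : ℝ) / m / 40) / ((X ^ (q + 1) : ℕ) : ℝ) ≤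
        (8 / 25) * (NN d n a Φ * lam / 40) / ((X ^ (q + 1) : ℕ) : ℝ) := by gcongr
    have h6 : -(8 / 25) * (NN d n a Φ * lam / 40) / ((X ^ (q + 1) : ℕ) : ℝ) =
        -((8 / 25) * (NN d n a Φ * lam / 40) / ((X ^ (q + 1) : ℕ) : ℝ)) := by ring
    rw [h6]
    linarith
  -- conclusion
  have hDE : (n : ℝ) / D ≤ E / 2 := by
    rw [hE, div_div]
    gcongr
    rw [hDr]
    calc (X : ℝ) ^ (q + 2) * 2 ≤ (X : ℝ) ^ (q + 2) * X := by
          gcongr; linarith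
      _ = (X : ℝ) ^ (q + 3) := by ring
      _ ≤ (X : ℝ) ^ (4 * q) := pow_le_pow_right₀ hx1 (by omega)
  have hbr : (2 : ℝ) / 4 ^ (n / X ^ (q + 1)) +
      ((((D / X ^ (q + 1) + 1) * (D / X ^ (q + 1) + 1)) ^ (n / D) : ℕ) : ℝ) *
        Real.exp (-(8 / 25) * (NN d n a Φ * lam / 40) / ((X ^ (q + 1) : ℕ) : ℝ)) ≤
      3 * Real.exp (-(5 / 6) * E) := by
    have e1 : 2 * Real.exp (-E) ≤ 2 * Real.exp (-(5 / 6) * E) := by
      gcongr
      linarith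
    have e2 : ((((D / X ^ (q + 1) + 1) * (D / X ^ (q + 1) + 1)) ^ (n / D) : ℕ) : ℝ) *
        Real.exp (-(8 / 25) * (NN d n a Φ * lam / 40) / ((X ^ (q + 1) : ℕ) : ℝ)) ≤
        Real.exp (E / 6) * Real.exp (-E) := by
      apply mul_le_mul hf3 hf4 (Real.exp_nonneg _) (Real.exp_nonneg _)
    rw [← Real.exp_add] at e2
    have e3 : E / 6 + -E = -(5 / 6) * E := by ring
    rw [e3] at e2
    linarith
  calc (((n + 1) ^ (n / (2 ^ a / 2000)) : ℕ) : ℝ) * ((2 : ℝ) / 4 ^ (n / X ^ (q + 1)) +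
      ((((D / X ^ (q + 1) + 1) * (D / X ^ (q + 1) + 1)) ^ (n / D) : ℕ) : ℝ) *
        Real.exp (-(8 / 25) * (NN d n a Φ * lam / 40) / ((X ^ (q + 1) : ℕ) : ℝ)))
      ≤ Real.exp (E / 12) * (3 * Real.exp (-(5 / 6) * E)) := by
        apply mul_le_mul hf1 hbr (by positivity) (Real.exp_nonneg _)
    _ = 3 * Real.exp (-(3 / 4) * E) := by
        rw [mul_left_comm, ← Real.exp_add]
        congr 2
        ring
    _ ≤ 3 * Real.exp (-(n / D)) := by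
        gcongr
        linarith

end Pool.Agent.H976R2.SB
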