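import Pool.Agent.H976R2.SB.Scale
import Pool.Agent.H976R2.SB.F1
import Pool.Agent.H976R2.SB.F3
import Pool.Agent.H976R2.SB.F5

/-! Union over scales and types. -/

namespace Pool.Agent.H976R2.SB
open Finset Num

/-- the small constant -/
noncomputable def dl (d : ℕ) : ℝ := 1 / (16 * 10 ^ 5 * (d + 2) * CF d)

lemma dl_pos {d : ℕ} (hd : 1 ≤ d) : 0 < dl d := by
  unfold dl
  have := CF_pos hd
  have : (0 : ℝ) < CF d := by exact_mod_cast (by omega : 0 < CF d)
  positivity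

lemma dl_le {d : ℕ} (hd : 1 ≤ d) : dl d ≤ 1 := by
  unfold dl
  have := CF_pos hd
  have h1 : (1 : ℝ) ≤ CF d := by exact_mod_cast this
  rw [div_le_one (by positivity)]
  have h2 : (0 : ℝ) ≤ d := by positivity
  nlinarith [mul_nonneg h2 (by linarith : (0 : ℝ) ≤ CF d)]

/-- variation at the scale `k` -/
noncomputable def VV (d m n : ℕ) (w : ℕ → Letter d) (k : ℕ) : ℝ :=
  ((bvar w (Sc d m k) 0 (n / Sc d m k) : ℤ) : ℝ)

lemma bvar_mono {d : ℕ} (w : ℕ → Letter d) (D p : ℕ) {q q' : ℕ} (h : q ≤ q') :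
    bvar w D p q ≤ bvar w D p q' := by
  unfold bvar
  refine Finset.sum_le_sum_of_subset_of_nonneg (Finset.Ico_subset_Ico le_rfl h) ?_
  intro u _ _
  exact Finset.sum_nonneg fun f _ => abs_nonneg _

lemma VV_antitone {d m n : ℕ} (hm : 1 ≤ m) (w : ℕ → Letter d) : Antitone (VV d m n w) := by
  refine antitone_nat_of_succ_le fun k => ?_
  unfold VV
  have hk := Sc_pos (d := d) hm k
  obtain ⟨r, hr⟩ := Sc_dvd (d := d) (m := m) k
  have h1 := (bvar_facts w).1 (Sc d m k) r 0 (n / (Sc d m k * r))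
  rw [mul_zero] at h1
  have h2 : r * (n / (Sc d m k * r)) ≤ n / Sc d m k := by
    rw [Nat.le_div_iff_mul_le hk]
    calc r * (n / (Sc d m k * r)) * Sc d m k = (Sc d m k * r) * (n / (Sc d m k * r)) := by ring
      _ ≤ n := Nat.mul_div_le _ _
  have h3 := h1.trans (bvar_mono w (Sc d m k) 0 h2)
  rw [hr]
  exact_mod_cast h3

lemma VV_nonneg (d m n : ℕ) (w : ℕ → Letter d) (k : ℕ) : 0 ≤ VV d m n w k := by
  unfold VV
  have : (0 : ℤ) ≤ bvar w (Sc d m k) 0 (n / Sc d m k) := by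
    unfold bvar
    exact Finset.sum_nonneg fun u _ => Finset.sum_nonneg fun f _ => abs_nonneg _
  exact_mod_cast this

/-- total cost at a record scale -/
lemma bigCost_le {d m n i : ℕ} (hm : 3 ≤ m) (w : ℕ → Letter d) {δ : ℝ} (hδ0 : 0 ≤ δ)
    (hδ1 : δ ≤ 1)
    (h1 : VV d m n w i ≤ (1 + δ) * VV d m n w (i + 2))
    (h2 : ∀ j ≤ i, VV d m n w j ≤ VV d m n w i * (2 * bb d : ℝ) ^ (i - j)) :
    bigCost (Sc d m) i w (fun _ => 0) (fun j => n / Sc d m j) ≤
      12 * Real.log (Sc d m (i + 1)) * VV d m n w (i + 2) := by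
  set b : ℝ := 2 * bb d with hb
  have hbb := bb_pos d
  have hb2 : (2 : ℝ) ≤ b := by
    have : (20 : ℝ) ≤ bb d := by exact_mod_cast hbb
    rw [hb]; linarith
  have hm0 : (3 : ℝ) ≤ m := by exact_mod_cast hm
  have hlm : 0 < Real.log m := Real.log_pos (by linarith)
  have hlog : ∀ j, Real.log (Sc d m (j + 1)) = b ^ (2 * (j + 1)) * Real.log m := by
    intro j
    rw [Sc_def, if_neg (by omega)]
    push_cast
    rw [Real.log_pow]
    congr 1
    have : (AA d : ℝ) = b ^ 2 := by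
      rw [hb, AA_def]; push_cast; ring
    push_cast
    rw [this, ← pow_mul]
  have hVi : 0 ≤ VV d m n w i := VV_nonneg d m n w i
  have hterm : ∀ j ∈ range (i + 1), Real.log (4 * (Sc d m (j + 1) : ℝ) + 1) *
      ((bvar w (Sc d m j) 0 (n / Sc d m j) : ℤ) : ℝ) ≤
      3 * Real.log m * VV d m n w i * b ^ (i + 2 + j) := by
    intro j hj
    have hj' : j ≤ i := by rw [mem_range] at hj; omega
    have hS : (3 : ℝ) ≤ Sc d m (j + 1) := by
      have := m_le_Sc (d := d) (m := m) (by omega) (k := j + 1) (by omega)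
      exact_mod_cast hm.trans this
    have hl1 : Real.log (4 * (Sc d m (j + 1) : ℝ) + 1) ≤ 3 * Real.log (Sc d m (j + 1)) := by
      have h3 : (3 : ℝ) * Real.log (Sc d m (j + 1)) = Real.log ((Sc d m (j + 1) : ℝ) ^ 3) := by
        rw [Real.log_pow]; norm_num
      rw [h3]
      apply Real.log_le_log (by positivity)
      have h9 : (9 : ℝ) ≤ (Sc d m (j + 1) : ℝ) ^ 2 := by nlinarith
      calc 4 * (Sc d m (j + 1) : ℝ) + 1 ≤ 9 * (Sc d m (j + 1) : ℝ) := by linarith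
        _ ≤ (Sc d m (j + 1) : ℝ) ^ 2 * (Sc d m (j + 1) : ℝ) := by gcongr
        _ = (Sc d m (j + 1) : ℝ) ^ 3 := by ring
    have hl0 : 0 ≤ Real.log (4 * (Sc d m (j + 1) : ℝ) + 1) := Real.log_nonneg (by linarith)
    calc Real.log (4 * (Sc d m (j + 1) : ℝ) + 1) *
        ((bvar w (Sc d m j) 0 (n / Sc d m j) : ℤ) : ℝ)
        ≤ (3 * Real.log (Sc d m (j + 1))) * (VV d m n w i * b ^ (i - j)) := by
          exact mul_le_mul hl1 (h2 j hj') (VV_nonneg d m n w j) (by linarith)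
      _ = 3 * Real.log m * VV d m n w i * (b ^ (2 * (j + 1)) * b ^ (i - j)) := by
          rw [hlog j]; ring
      _ = 3 * Real.log m * VV d m n w i * b ^ (i + 2 + j) := by
          rw [← pow_add]
          congr 2
          omega
  have hgeo : ∑ j ∈ range (i + 1), b ^ (i + 2 + j) ≤ 2 * b ^ (2 * (i + 1)) := by
    have : ∀ i' : ℕ, ∑ j ∈ range (i' + 1), b ^ j ≤ 2 * b ^ i' := by
      intro i'
      induction i' with
      | zero => simp
      | succ k ih =>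
        rw [Finset.sum_range_succ]
        have : b ^ (k + 1) = b * b ^ k := by ring
        have hpos : 0 ≤ b ^ k := by positivity
        nlinarith
    calc ∑ j ∈ range (i + 1), b ^ (i + 2 + j) = b ^ (i + 2) * ∑ j ∈ range (i + 1), b ^ j := by
          rw [Finset.mul_sum]
          exact Finset.sum_congr rfl fun j _ => pow_add _ _ _
      _ ≤ b ^ (i + 2) * (2 * b ^ i) := by
          apply mul_le_mul_of_nonneg_left (this i) (by positivity)
      _ = 2 * b ^ (2 * (i + 1)) := by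
          rw [show 2 * (i + 1) = (i + 2) + i by ring, pow_add]; ring
  have hlX : 0 ≤ Real.log (Sc d m (i + 1)) := by rw [hlog i]; positivity
  calc bigCost (Sc d m) i w (fun _ => 0) (fun j => n / Sc d m j)
      = ∑ j ∈ range (i + 1), Real.log (4 * (Sc d m (j + 1) : ℝ) + 1) *
        ((bvar w (Sc d m j) 0 (n / Sc d m j) : ℤ) : ℝ) := rfl
    _ ≤ ∑ j ∈ range (i + 1), 3 * Real.log m * VV d m n w i * b ^ (i + 2 + j) :=
        Finset.sum_le_sum hterm
    _ = 3 * Real.log m * VV d m n w i * ∑ j ∈ range (i + 1), b ^ (i + 2 + j) := by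
        rw [Finset.mul_sum]
    _ ≤ 3 * Real.log m * VV d m n w i * (2 * b ^ (2 * (i + 1))) := by gcongr
    _ = 6 * Real.log (Sc d m (i + 1)) * VV d m n w i := by rw [hlog i]; ring
    _ ≤ 6 * Real.log (Sc d m (i + 1)) * (2 * VV d m n w (i + 2)) := by
        apply mul_le_mul_of_nonneg_left _ (by positivity)
        refine h1.trans ?_
        have hV2 : 0 ≤ VV d m n w (i + 2) := VV_nonneg d m n w (i + 2)
        have : 1 + δ ≤ 2 := by linarith
        exact mul_le_mul_of_nonneg_right this hV2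
    _ = 12 * Real.log (Sc d m (i + 1)) * VV d m n w (i + 2) := by ring

open Classical in
/-- walks reaching distance `n / Φ` -/
noncomputable def farW (d : ℕ) (a0 : Letter d) (n : ℕ) (Φ : ℝ) : Finset (ℕ → Letter d) :=
  (Saws d a0 n).filter (fun w => ∃ k ≤ n, ∃ c : Fin d, (n : ℝ) / Φ ≤ ((|ht (zc c) w k| : ℤ) : ℝ))

theorem far_mem {d : ℕ} (hd : 2 ≤ d) (a0 : Letter d) {n m K : ℕ} {Φ : ℝ} (hΦ : 1 ≤ Φ)
    (hm : 3 ≤ m) (hn1 : 1 ≤ n)
    (hK : 2 * Real.log (2 * Φ * CF d) / Real.log (1 + dl d) +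
      Real.log (2 * Φ * CF d) / Real.log (2 * bb d) + 5 ≤ K)
    (hn : 2 * Φ * Sc d m (K + 2) ≤ n) {w : ℕ → Letter d} (hw : w ∈ farW d a0 n Φ) :
    ∃ i, 1 ≤ i ∧ i ≤ K ∧ ∃ τ : Ty d, ∃ a, a ≤ n ∧
      (Sc d m (i + 2) : ℝ) ≤ 32 * Φ * CF d * 2 ^ a ∧ w ∈ WW d a0 n m Φ i a τ := by
  classical
  have hm1 : 1 ≤ m := by omega
  have hCF := CF_pos (d := d) (by omega)
  have hCFr : (1 : ℝ) ≤ CF d := by exact_mod_cast hCF
  rw [farW, mem_filter] at hw
  obtain ⟨hwS, k, hk, c, hkc⟩ := hw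
  have hn0 : (0 : ℝ) < n := by exact_mod_cast (by omega : 0 < n)
  have hanti := VV_antitone (n := n) hm1 w
  have hΦ0 : 0 < Φ := by linarith
  have hVK : (n : ℝ) / (2 * Φ) ≤ VV d m n w (K + 2) := by
    have h1 := (bvar_facts w).2.2 n (Sc d m (K + 2)) k c (Sc_pos hm1 _) hk
    have h2 : (((|ht (zc c) w k| - (Sc d m (K + 2) : ℤ) : ℤ)) : ℝ) ≤ VV d m n w (K + 2) := by
      unfold VV
      exact_mod_cast h1
    push_cast at h2 hkc
    have h3 : (Sc d m (K + 2) : ℝ) ≤ n / (2 * Φ) := by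
      rw [le_div_iff₀ (by positivity)]
      linarith
    have h4 : (n : ℝ) / Φ = n / (2 * Φ) + n / (2 * Φ) := by field_simp; ring
    linarith
  have hVKpos : 0 < VV d m n w (K + 2) := lt_of_lt_of_le (by positivity) hVK
  have hV0 : VV d m n w 0 ≤ (2 * Φ * CF d) * VV d m n w (K + 2) := by
    have h1 := (bvar_facts w).2.1 n
    have h2 : VV d m n w 0 ≤ CF d * n := by
      unfold VV
      rw [Sc_zero, Nat.div_one]
      exact_mod_cast h1
    calc VV d m n w 0 ≤ CF d * n := h2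
      _ = (2 * Φ * CF d) * (n / (2 * Φ)) := by field_simp
      _ ≤ (2 * Φ * CF d) * VV d m n w (K + 2) := by gcongr
  have hbb : (20 : ℝ) ≤ bb d := by exact_mod_cast bb_pos d
  obtain ⟨i, hi1, hiK, hi2, hrec⟩ := good_scale (VV d m n w) hanti K (2 * bb d) (by linarith)
    (dl d) (dl_pos (by omega)) (2 * Φ * CF d) (by nlinarith) hVKpos hV0 hK
  refine ⟨i, hi1, hiK, ?_⟩
  have hcost := bigCost_le hm w (dl_pos (d := d) (by omega)).le (dl_le (by omega)) hi2 hrec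
  have hsD : Sc d m i ∣ Sc d m (i + 2) := Sc_dvd_of_le (by omega)
  have hspos := Sc_pos (d := d) hm1 i
  have hDpos := Sc_pos (d := d) hm1 (i + 2)
  obtain ⟨r, hr⟩ := hsD
  have hr1 : 1 ≤ r := by
    rcases Nat.eq_zero_or_pos r with h | h
    · rw [h, mul_zero] at hr; omega
    · exact h
  have hDn : Sc d m (i + 2) ≤ n := by
    have h1 : Sc d m (i + 2) ≤ Sc d m (K + 2) := Sc_mono hm1 (by omega)
    have h2 : (Sc d m (K + 2) : ℝ) ≤ n := by
      refine le_trans ?_ hn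
      have : (0 : ℝ) ≤ Sc d m (K + 2) := by positivity
      nlinarith
    have h3 : Sc d m (K + 2) ≤ n := by exact_mod_cast h2
    omega
  have hVi2 : (n : ℝ) / (2 * Φ) ≤ VV d m n w (i + 2) := hVK.trans (hanti (by omega))
  have hX3 : (3 : ℝ) ≤ Sc d m (i + 1) := by
    have := m_le_Sc (d := d) (m := m) (by omega) (k := i + 1) (by omega)
    exact_mod_cast hm.trans this
  have hlX : 0 < Real.log (Sc d m (i + 1)) := Real.log_pos (by linarith)
  obtain ⟨τ, a, I, hI, ha1, ha2, ha3, hb⟩ := select hd (n := n) (D := Sc d m (i + 2))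
    (s := Sc d m i) (r := r) (i := i) (Sc := Sc d m) (w := w) hr hspos hr1 hDn
    (fun j hj => ⟨Sc_pos hm1 j, Sc_dvd_of_le (by omega)⟩) Φ (dl d)
    (12 * Real.log (Sc d m (i + 1))) hΦ (dl_pos (by omega)) (by positivity)
    (by
      have : (n : ℝ) = 2 * Φ * (n / (2 * Φ)) := by field_simp
      calc (n : ℝ) = 2 * Φ * (n / (2 * Φ)) := this
        _ ≤ 2 * Φ * VV d m n w (i + 2) := by gcongr) hi2 hcost
  refine ⟨τ, a, ?_, ha1, ?_⟩
  · have : a < 2 ^ a := Nat.lt_two_pow_self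
    omega
  · rw [WW, mem_filter]
    refine ⟨by rw [SawSet_eq]; exact hwS, I, hI, ?_, ?_⟩
    · unfold NN
      rw [Nat.ceil_le, div_le_iff₀ (by
        have : (0 : ℝ) < d := by exact_mod_cast (by omega : 0 < d)
        positivity)]
      calc (n : ℝ) ≤ #I * 2 ^ a * (8192 * (CF d) ^ 2 * d ^ 2 * Φ ^ 2) := ha3
        _ = #I * (2 ^ a * (8192 * (CF d) ^ 2 * d ^ 2 * Φ ^ 2)) := by ring
    · intro b hbI
      obtain ⟨h1, h2, h3, h4⟩ := hb b hbI
      have e1 : Sc d m (i + 2) * b / Sc d m i = r * b := by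
        rw [hr, mul_assoc, Nat.mul_div_cancel_left _ hspos]
      have e2 : Sc d m (i + 2) * (b + 1) / Sc d m i = r * (b + 1) := by
        rw [hr, mul_assoc, Nat.mul_div_cancel_left _ hspos]
      refine ⟨?_, ?_, ?_⟩
      · exact_mod_cast h1
      · rw [e1, e2]
        refine h3.trans (le_of_eq ?_)
        unfold dl
        have : (0 : ℝ) < d + 2 := by positivity
        field_simp
      · exact h4

theorem far_card {d : ℕ} (hd : 2 ≤ d) (a0 : Letter d) {n m K : ℕ} {Φ : ℝ} (hΦ : 1 ≤ Φ)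
    (hm6 : 10 ^ 6 ≤ m) (hmA : AA d ≤ m) (hm1 : 32 * Φ * CF d ≤ m)
    (hm2 : 8192 * (CF d : ℝ) ^ 2 * d ^ 2 * Φ ^ 2 ≤ m) (hmn : Real.log (n + 1) ≤ m)
    (hn1 : 1 ≤ n)
    (hK : 2 * Real.log (2 * Φ * CF d) / Real.log (1 + dl d) +
      Real.log (2 * Φ * CF d) / Real.log (2 * bb d) + 5 ≤ K)
    (hn : 2 * Φ * Sc d m (K + 2) ≤ n) (hn2 : Sc d m (K + 2) ^ 2 ≤ n) :
    (#(farW d a0 n Φ) : ℝ) ≤ K * Fintype.card (Ty d) * (n + 1) *
      (3 * Real.exp (-(n / Sc d m (K + 2))) * #(Saws d a0 n)) := by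
  classical
  have hm0 : 1 ≤ m := by omega
  set B : ℝ := 3 * Real.exp (-(n / Sc d m (K + 2))) * #(Saws d a0 n) with hB
  have hB0 : 0 ≤ B := by positivity
  set P : Finset (ℕ × Ty d × ℕ) := ((Finset.Icc 1 K) ×ˢ ((Finset.univ : Finset (Ty d)) ×ˢ
    (range (n + 1)))).filter (fun p => (Sc d m (p.1 + 2) : ℝ) ≤ 32 * Φ * CF d * 2 ^ p.2.2) with hP
  have hsub : farW d a0 n Φ ⊆ P.biUnion (fun p => WW d a0 n m Φ p.1 p.2.2 p.2.1) := by
    intro w hw
    obtain ⟨i, hi1, hiK, τ, a, ha, ha1, hWW⟩ := far_mem hd a0 hΦ (by omega) hn1 hK hn hw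
    rw [mem_biUnion]
    refine ⟨(i, τ, a), ?_, hWW⟩
    rw [hP, mem_filter]
    refine ⟨?_, ha1⟩
    rw [mem_product, mem_product, mem_Icc, mem_range]
    exact ⟨⟨hi1, hiK⟩, mem_univ _, Nat.lt_succ_of_le ha⟩
  have h1 := (card_le_card hsub).trans card_biUnion_le
  have h2 : ∀ p ∈ P, (#(WW d a0 n m Φ p.1 p.2.2 p.2.1) : ℝ) ≤ B := by
    intro p hp
    rw [hP, mem_filter, mem_product, mem_Icc] at hp
    obtain ⟨⟨⟨hi1, hiK⟩, -⟩, ha⟩ := hp
    have hpK : p.1 + 2 ≤ K + 2 := Nat.add_le_add_right hiK 2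
    have hle : Sc d m (p.1 + 2) ≤ Sc d m (K + 2) := Sc_mono hm0 hpK
    have hpos : 0 < Sc d m (p.1 + 2) := Sc_pos hm0 _
    have h3 := scale_bound hd a0 hi1 hΦ hm6 hmA hm1 hm2 hmn
      ((Nat.pow_le_pow_left hle 2).trans hn2) ha p.2.1
    refine h3.trans ?_
    rw [hB]
    gcongr
  calc (#(farW d a0 n Φ) : ℝ) ≤ ((∑ p ∈ P, #(WW d a0 n m Φ p.1 p.2.2 p.2.1) : ℕ) : ℝ) := by
        exact_mod_cast h1
    _ = ∑ p ∈ P, (#(WW d a0 n m Φ p.1 p.2.2 p.2.1) : ℝ) := by push_cast; rfl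
    _ ≤ ∑ p ∈ P, B := Finset.sum_le_sum h2
    _ = #P * B := by rw [Finset.sum_const, nsmul_eq_mul]
    _ ≤ (K * Fintype.card (Ty d) * (n + 1)) * B := by
        apply mul_le_mul_of_nonneg_right _ hB0
        have h4 : #P ≤ K * (Fintype.card (Ty d) * (n + 1)) := by
          refine (card_filter_le _ _).trans ?_
          rw [card_product, card_product, Nat.card_Icc, card_range, Finset.card_univ]
          simp
        have h5 : (#P : ℝ) ≤ ((K * (Fintype.card (Ty d) * (n + 1)) : ℕ) : ℝ) := by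
          exact_mod_cast h4
        push_cast at h5
        linarith
    _ = _ := by rw [hB]

end Pool.Agent.H976R2.SB
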